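/-
PWZ (MP_4d8f14_an), end part (5), module EndAvg (helper74).
Symmetric averages of a bounded function on the integers and their slow variation.
-/
import Mathlib

set_option autoImplicit false

namespace Pool.PWZ

/-- the average of `φ` over `[-N, N]` -/
noncomputable def av (φ : ℤ → ℝ) (N : ℕ) : ℝ :=
  ((2 * N + 1 : ℕ) : ℝ)⁻¹ * ∑ n ∈ Finset.Icc (-(N : ℤ)) (N : ℤ), φ n

lemma card_Icc_sym (N : ℕ) : (Finset.Icc (-(N : ℤ)) (N : ℤ)).card = 2 * N + 1 := by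
  rw [Int.card_Icc]
  omega

lemma abs_sum_le_card {s : Finset ℤ} {φ : ℤ → ℝ} (h : ∀ n, |φ n| ≤ 1) :
    |∑ n ∈ s, φ n| ≤ (s.card : ℝ) := by
  calc |∑ n ∈ s, φ n| ≤ ∑ n ∈ s, |φ n| := Finset.abs_sum_le_sum_abs _ _
    _ ≤ ∑ _n ∈ s, (1 : ℝ) := Finset.sum_le_sum fun n _ => h n
    _ = (s.card : ℝ) := by simp

lemma abs_av_le {φ : ℤ → ℝ} (h : ∀ n, |φ n| ≤ 1) (N : ℕ) : |av φ N| ≤ 1 := by
  unfold av
  rw [abs_mul, abs_inv, Nat.abs_cast]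
  have h1 := abs_sum_le_card (s := Finset.Icc (-(N : ℤ)) (N : ℤ)) h
  rw [card_Icc_sym] at h1
  have hpos : (0 : ℝ) < ((2 * N + 1 : ℕ) : ℝ) := by positivity
  rw [inv_mul_le_iff₀ hpos, mul_one]
  exact h1

/-- slow variation: `|A_N - A_N'| ≤ 4 (N' - N) / (2 N' + 1)` for `N ≤ N'` -/
lemma abs_av_sub_av_le {φ : ℤ → ℝ} (h : ∀ n, |φ n| ≤ 1) {N N' : ℕ} (hN : N ≤ N') :
    |av φ N - av φ N'| ≤ 4 * ((N' : ℝ) - N) / (2 * N' + 1) := by
  set s := Finset.Icc (-(N : ℤ)) (N : ℤ) with hs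
  set t := Finset.Icc (-(N' : ℤ)) (N' : ℤ) with ht
  have hst : s ⊆ t := by
    apply Finset.Icc_subset_Icc <;> omega
  have hsum : ∑ n ∈ t, φ n = ∑ n ∈ s, φ n + ∑ n ∈ t \ s, φ n := by
    rw [add_comm]
    exact (Finset.sum_sdiff hst).symm
  have hcard : ((t \ s).card : ℝ) = 2 * ((N' : ℝ) - N) := by
    have h1 := Finset.card_sdiff_add_card_eq_card hst
    rw [hs, ht, card_Icc_sym, card_Icc_sym] at h1
    have h2 : (((Finset.Icc (-(N' : ℤ)) (N' : ℤ) \ Finset.Icc (-(N : ℤ)) (N : ℤ)).card +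
      (2 * N + 1) : ℕ) : ℝ) = ((2 * N' + 1 : ℕ) : ℝ) := by exact_mod_cast h1
    push_cast at h2
    rw [hs, ht]
    linarith
  have hA : |∑ n ∈ s, φ n| ≤ 2 * N + 1 := by
    have := abs_sum_le_card (s := s) h
    rw [hs, card_Icc_sym] at this
    rw [hs]
    push_cast at this
    exact this
  have hB : |∑ n ∈ t \ s, φ n| ≤ 2 * ((N' : ℝ) - N) := by
    have := abs_sum_le_card (s := t \ s) h
    rwa [hcard] at this
  have hNN : (N : ℝ) ≤ N' := by exact_mod_cast hN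
  have hp : (0 : ℝ) < 2 * (N : ℝ) + 1 := by positivity
  have hp' : (0 : ℝ) < 2 * (N' : ℝ) + 1 := by positivity
  unfold av
  rw [← hs, ← ht, hsum]
  push_cast
  have e : (2 * (N : ℝ) + 1)⁻¹ * ∑ n ∈ s, φ n -
      (2 * (N' : ℝ) + 1)⁻¹ * (∑ n ∈ s, φ n + ∑ n ∈ t \ s, φ n) =
      (2 * ((N' : ℝ) - N) / ((2 * N + 1) * (2 * N' + 1))) * ∑ n ∈ s, φ n -
      (2 * (N' : ℝ) + 1)⁻¹ * ∑ n ∈ t \ s, φ n := by
    field_simp
    ring
  rw [e]
  have hc : 0 ≤ 2 * ((N' : ℝ) - N) / ((2 * N + 1) * (2 * N' + 1)) := by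
    apply div_nonneg
    · linarith
    · positivity
  calc |(2 * ((N' : ℝ) - N) / ((2 * N + 1) * (2 * N' + 1))) * ∑ n ∈ s, φ n -
      (2 * (N' : ℝ) + 1)⁻¹ * ∑ n ∈ t \ s, φ n|
      ≤ |(2 * ((N' : ℝ) - N) / ((2 * N + 1) * (2 * N' + 1))) * ∑ n ∈ s, φ n| +
        |(2 * (N' : ℝ) + 1)⁻¹ * ∑ n ∈ t \ s, φ n| := abs_sub _ _
    _ ≤ (2 * ((N' : ℝ) - N) / ((2 * N + 1) * (2 * N' + 1))) * (2 * N + 1) +
        (2 * (N' : ℝ) + 1)⁻¹ * (2 * ((N' : ℝ) - N)) := by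
      rw [abs_mul, abs_mul, abs_of_nonneg hc, abs_of_pos (inv_pos.mpr hp')]
      gcongr
    _ = 4 * ((N' : ℝ) - N) / (2 * N' + 1) := by
      field_simp
      ring

/-- if `N ≤ N' ≤ N + r` and `D r ≤ N'` then the averages differ by at most `2 / D` -/
lemma abs_av_sub_av_le' {φ : ℤ → ℝ} (h : ∀ n, |φ n| ≤ 1) {N N' r D : ℕ} (hN : N ≤ N')
    (hr : N' ≤ N + r) (hD : 0 < D) (hDr : D * r ≤ N') :
    |av φ N - av φ N'| ≤ 2 / D := by
  refine (abs_av_sub_av_le h hN).trans ?_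
  have hp' : (0 : ℝ) < 2 * (N' : ℝ) + 1 := by positivity
  have hD' : (0 : ℝ) < (D : ℝ) := by exact_mod_cast hD
  rw [div_le_div_iff₀ hp' hD']
  have h1 : (N' : ℝ) ≤ N + r := by exact_mod_cast hr
  have h2 : (D : ℝ) * r ≤ N' := by exact_mod_cast hDr
  have h3 : (N : ℝ) ≤ N' := by exact_mod_cast hN
  nlinarith

lemma measurable_av {X : Type*} [MeasurableSpace X] {φ : X → ℤ → ℝ}
    (h : ∀ n, Measurable fun x => φ x n) (N : ℕ) : Measurable fun x => av (φ x) N := by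
  unfold av
  exact (Finset.measurable_sum _ fun n _ => h n).const_mul _

end Pool.PWZ
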