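/-
PWZ (MP_4d8f14_an), end part (5), module EndOsc (helper74).
A bound for the expected number of oscillating blocks gives eventual smallness of the oscillation.
-/
import Mathlib

set_option autoImplicit false

open MeasureTheory Set

namespace Pool.PWZ

/-- the points whose oscillation over the levels `[p, q)` is at least `c` -/
def oscSet {X : Type*} (a : ℕ → X → ℝ) (c : ℝ) (p q : ℕ) : Set X :=
  {x | ∃ k ∈ Set.Ico p q, ∃ k' ∈ Set.Ico p q, c ≤ |a k x - a k' x|}

lemma oscSet_eq {X : Type*} (a : ℕ → X → ℝ) (c : ℝ) (p q : ℕ) :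
    oscSet a c p q = ⋃ k ∈ Set.Ico p q, ⋃ k' ∈ Set.Ico p q, {x | c ≤ |a k x - a k' x|} := by
  ext x
  simp only [oscSet, Set.mem_iUnion, exists_prop]
  rfl

lemma oscSet_mono {X : Type*} (a : ℕ → X → ℝ) (c : ℝ) {p q q' : ℕ} (h : q ≤ q') :
    oscSet a c p q ⊆ oscSet a c p q' := by
  rintro x ⟨k, hk, k', hk', hx⟩
  exact ⟨k, ⟨hk.1, hk.2.trans_le h⟩, k', ⟨hk'.1, hk'.2.trans_le h⟩, hx⟩

lemma measurableSet_oscSet {X : Type*} [MeasurableSpace X] {a : ℕ → X → ℝ}
    (ha : ∀ k, Measurable (a k)) (c : ℝ) (p q : ℕ) : MeasurableSet (oscSet a c p q) := by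
  rw [oscSet_eq]
  refine MeasurableSet.biUnion (Set.to_countable _) fun k _ =>
    MeasurableSet.biUnion (Set.to_countable _) fun k' _ => ?_
  exact measurableSet_le measurable_const ((ha k).sub (ha k')).abs

/-- If the expected number of blocks with oscillation at least `c` is bounded, for all systems of
consecutive blocks, then almost every point has eventually oscillation less than `c`. -/
theorem ae_osc_of_blocks {X : Type*} [MeasurableSpace X] (μ : Measure X) [IsFiniteMeasure μ]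
    {a : ℕ → X → ℝ} (c C : ℝ)
    (h : ∀ (J : ℕ) (p : ℕ → ℕ), StrictMono p → 1 ≤ p 0 →
      ∑ j ∈ Finset.range J, μ.real (oscSet a c (p j) (p (j + 1))) ≤ C) :
    ∀ᵐ x ∂μ, ∃ k0, ∀ k ≥ k0, ∀ k' ≥ k0, |a k x - a k' x| < c := by
  -- the bad set
  set B : Set X := {x | ∀ k0, ∃ k ≥ k0, ∃ k' ≥ k0, c ≤ |a k x - a k' x|} with hB
  have hBsub : ∀ p, B ⊆ ⋃ q, oscSet a c p q := by
    intro p x hx
    obtain ⟨k, hk, k', hk', hx⟩ := hx p
    refine mem_iUnion.mpr ⟨max k k' + 1, k, ⟨hk, ?_⟩, k', ⟨hk', ?_⟩, hx⟩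
    · exact Nat.lt_succ_of_le (le_max_left _ _)
    · exact Nat.lt_succ_of_le (le_max_right _ _)
  suffices hB0 : μ B = 0 by
    rw [ae_iff]
    refine measure_mono_null ?_ hB0
    intro x hx
    intro k0
    by_contra hcon
    apply hx
    refine ⟨k0, fun k hk k' hk' => ?_⟩
    by_contra hcc
    exact hcon ⟨k, hk, k', hk', not_lt.mp hcc⟩
  by_contra hne
  have hpos : 0 < μ B := pos_iff_ne_zero.mpr hne
  have hfin : μ B ≠ ⊤ := measure_ne_top μ B
  -- for every `p` there is `q > p` with large oscillation set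
  have hex : ∀ p, ∃ q, p < q ∧ μ B / 2 ≤ μ (oscSet a c p q) := by
    intro p
    have hmono : Monotone fun q => oscSet a c p q := fun q q' hqq => oscSet_mono a c hqq
    have hlim : Filter.Tendsto (fun q => μ (oscSet a c p q)) Filter.atTop
        (nhds (μ (⋃ q, oscSet a c p q))) := tendsto_measure_iUnion_atTop hmono
    have hlt : μ B / 2 < μ (⋃ q, oscSet a c p q) :=
      (ENNReal.half_lt_self hne hfin).trans_le (measure_mono (hBsub p))
    have hev := (hlim.eventually (lt_mem_nhds hlt)).and (Filter.eventually_gt_atTop p)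
    obtain ⟨q, hq1, hq2⟩ := hev.exists
    exact ⟨q, hq2, hq1.le⟩
  choose q hq1 hq2 using hex
  -- iterate
  let p : ℕ → ℕ := fun j => Nat.rec 1 (fun _ r => q r) j
  have hp0 : p 0 = 1 := rfl
  have hps : ∀ j, p (j + 1) = q (p j) := fun j => rfl
  have hpm : StrictMono p := strictMono_nat_of_lt_succ fun j => by rw [hps]; exact hq1 _
  have hlow : ∀ j, (μ B / 2).toReal ≤ μ.real (oscSet a c (p j) (p (j + 1))) := by
    intro j
    rw [hps]
    exact ENNReal.toReal_mono (measure_ne_top _ _) (hq2 _)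
  have hhalf : 0 < (μ B / 2).toReal := by
    apply ENNReal.toReal_pos
    · exact (ENNReal.half_pos hne).ne'
    · exact (ENNReal.div_lt_top hfin (by norm_num)).ne
  obtain ⟨J, hJ⟩ := exists_nat_gt (C / (μ B / 2).toReal)
  have h1 := h J p hpm hp0.ge
  have h2 : (J : ℝ) * (μ B / 2).toReal ≤
      ∑ j ∈ Finset.range J, μ.real (oscSet a c (p j) (p (j + 1))) := by
    calc (J : ℝ) * (μ B / 2).toReal = ∑ _j ∈ Finset.range J, (μ B / 2).toReal := by simp
      _ ≤ _ := Finset.sum_le_sum fun j _ => hlow j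
  rw [div_lt_iff₀ hhalf] at hJ
  linarith

end Pool.PWZ
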