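/-
PWZ (MP_4d8f14_an), end part (5), module EndNet (helper74).
The block oscillation bound along all sequences with ratios in `[2^R, 2^(4R)]` implies almost
everywhere convergence of the averages along all `N`.
-/
import Mathlib
import Pool.Agent.PWZ.EndAvg
import Pool.Agent.PWZ.EndOsc

set_option autoImplicit false

open MeasureTheory Set Filter

namespace Pool.PWZ

/-- block oscillation bound along sequences with ratios in `[2^R, 2^(4R)]` -/
def OB {X : Type*} [MeasurableSpace X] (μ : Measure X) (φ : X → ℤ → ℝ) : Prop :=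
  ∀ c : ℝ, 0 < c → ∃ R0 : ℕ, ∀ R : ℕ, R0 ≤ R → ∃ C : ℝ, ∀ N : ℕ → ℕ, (∀ k, 0 < N k) →
    (∀ k, 2 ^ R * N k ≤ N (k + 1)) → (∀ k, N (k + 1) ≤ 2 ^ (4 * R) * N k) →
    ∀ (J : ℕ) (p : ℕ → ℕ), StrictMono p → 1 ≤ p 0 →
      ∑ j ∈ Finset.range J,
        μ.real (oscSet (fun k x => av (φ x) (N k)) c (p j) (p (j + 1))) ≤ C

/-- pure sequence -/
def seqP (R m r k : ℕ) : ℕ := 2 ^ (R * k + r) * m

/-- alternating sequence -/
def seqQ (R m r m' r' k : ℕ) : ℕ := if Even k then 2 ^ (2 * R * k + r) * m else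
  2 ^ (2 * R * k + r') * m'

lemma seqP_pos {R m r k : ℕ} (hm : 0 < m) : 0 < seqP R m r k := by
  unfold seqP; positivity

lemma seqP_succ (R m r k : ℕ) : seqP R m r (k + 1) = 2 ^ R * seqP R m r k := by
  unfold seqP
  rw [show R * (k + 1) + r = R + (R * k + r) by ring, pow_add, mul_assoc]

lemma seqQ_pos {R m r m' r' k : ℕ} (hm : 0 < m) (hm' : 0 < m') : 0 < seqQ R m r m' r' k := by
  unfold seqQ; split_ifs <;> positivity

lemma step_low {R e r r' m m' : ℕ} (hr : r < R) (hmm : m ≤ 2 * m') :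
    2 ^ R * (2 ^ (e + r) * m) ≤ 2 ^ (e + 2 * R + r') * m' := by
  calc 2 ^ R * (2 ^ (e + r) * m) ≤ 2 ^ R * (2 ^ (e + r) * (2 * m')) := by gcongr
    _ = 2 ^ (R + (e + r) + 1) * m' := by rw [pow_succ, pow_add]; ring
    _ ≤ 2 ^ (e + 2 * R + r') * m' :=
      Nat.mul_le_mul_right _ (Nat.pow_le_pow_right (by norm_num) (by omega))

lemma step_up {R e r r' m m' : ℕ} (hr' : r' < R) (hmm : m' ≤ 2 * m) :
    2 ^ (e + 2 * R + r') * m' ≤ 2 ^ (4 * R) * (2 ^ (e + r) * m) := by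
  calc 2 ^ (e + 2 * R + r') * m' ≤ 2 ^ (e + 2 * R + r') * (2 * m) := by gcongr
    _ = 2 ^ (e + 2 * R + r' + 1) * m := by rw [pow_succ]; ring
    _ ≤ 2 ^ (4 * R + (e + r)) * m :=
      Nat.mul_le_mul_right _ (Nat.pow_le_pow_right (by norm_num) (by omega))
    _ = 2 ^ (4 * R) * (2 ^ (e + r) * m) := by rw [pow_add]; ring

lemma seqQ_low {R m r m' r' k : ℕ} (hr : r < R) (hr' : r' < R) (h1 : m ≤ 2 * m')
    (h2 : m' ≤ 2 * m) : 2 ^ R * seqQ R m r m' r' k ≤ seqQ R m r m' r' (k + 1) := by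
  unfold seqQ
  by_cases hk : Even k
  · have hk' : ¬ Even (k + 1) := by
      rw [Nat.even_add_one]; exact not_not.mpr hk
    rw [if_pos hk, if_neg hk', show 2 * R * (k + 1) + r' = 2 * R * k + 2 * R + r' by ring]
    exact step_low hr h1
  · have hk' : Even (k + 1) := by
      rw [Nat.even_add_one]; exact hk
    rw [if_neg hk, if_pos hk', show 2 * R * (k + 1) + r = 2 * R * k + 2 * R + r by ring]
    exact step_low hr' h2

lemma seqQ_up {R m r m' r' k : ℕ} (hr : r < R) (hr' : r' < R) (h1 : m ≤ 2 * m')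
    (h2 : m' ≤ 2 * m) : seqQ R m r m' r' (k + 1) ≤ 2 ^ (4 * R) * seqQ R m r m' r' k := by
  unfold seqQ
  by_cases hk : Even k
  · have hk' : ¬ Even (k + 1) := by
      rw [Nat.even_add_one]; exact not_not.mpr hk
    rw [if_pos hk, if_neg hk', show 2 * R * (k + 1) + r' = 2 * R * k + 2 * R + r' by ring]
    exact step_up hr' h2
  · have hk' : Even (k + 1) := by
      rw [Nat.even_add_one]; exact hk
    rw [if_neg hk, if_pos hk', show 2 * R * (k + 1) + r = 2 * R * k + 2 * R + r by ring]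
    exact step_up hr h1

lemma seqQ_even (R m r m' r' K : ℕ) : seqQ R m r m' r' (2 * K) = seqP R m r (4 * K) := by
  unfold seqQ seqP
  rw [if_pos (even_two_mul K), show 2 * R * (2 * K) + r = R * (4 * K) + r by ring]

lemma seqQ_odd (R m r m' r' K : ℕ) : seqQ R m r m' r' (2 * K + 1) = seqP R m' r' (4 * K + 2) := by
  unfold seqQ seqP
  have hk' : ¬ Even (2 * K + 1) := by
    rw [Nat.even_add_one]; exact not_not.mpr (even_two_mul K)
  rw [if_neg hk', show 2 * R * (2 * K + 1) + r' = R * (4 * K + 2) + r' by ring]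

/-- every large `N` is close to an element of the net -/
lemma exists_net {D R K N : ℕ} (hD : 0 < D) (hR : 0 < R) (hN : D * 2 ^ (R * (K + 1)) ≤ N) :
    ∃ m ∈ Finset.Ico D (2 * D), ∃ r ∈ Finset.range R, ∃ k, K ≤ k ∧ seqP R m r k ≤ N ∧
      ∃ s, N ≤ seqP R m r k + s ∧ D * s ≤ N := by
  set i := Nat.log 2 (N / D) with hi
  have hND : 2 ^ (R * (K + 1)) ≤ N / D := by
    rw [Nat.le_div_iff_mul_le hD, mul_comm]; exact hN
  have hND0 : N / D ≠ 0 := by
    have : 0 < 2 ^ (R * (K + 1)) := by positivity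
    omega
  have h1 : 2 ^ i ≤ N / D := Nat.pow_log_le_self 2 hND0
  have h2 : N / D < 2 ^ (i + 1) := Nat.lt_pow_succ_log_self (by norm_num) _
  have h1' : 2 ^ i * D ≤ N := (Nat.le_div_iff_mul_le hD).mp h1
  have h2' : N < 2 ^ (i + 1) * D := by
    have := (Nat.div_lt_iff_lt_mul hD).mp h2
    exact this
  have hp : 0 < 2 ^ i := by positivity
  set m := N / 2 ^ i with hm
  have hm1 : D ≤ m := by
    rw [hm, Nat.le_div_iff_mul_le hp, mul_comm]; exact h1'
  have hm2 : m < 2 * D := by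
    rw [hm, Nat.div_lt_iff_lt_mul hp]
    calc N < 2 ^ (i + 1) * D := h2'
      _ = 2 * D * 2 ^ i := by rw [pow_succ]; ring
  have hiK : R * (K + 1) ≤ i := by
    by_contra hlt
    push Not at hlt
    have h3 : 2 ^ (i + 1) ≤ 2 ^ (R * (K + 1)) := Nat.pow_le_pow_right (by norm_num) hlt
    omega
  have hdm := Nat.div_add_mod i R
  have hP : seqP R m (i % R) (i / R) = 2 ^ i * m := by
    unfold seqP
    rw [hdm]
  have hle : 2 ^ i * m ≤ N := Nat.mul_div_le N (2 ^ i)
  have hlt : N < 2 ^ i * m + 2 ^ i := by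
    have := Nat.lt_mul_div_succ N hp
    rw [← hm] at this
    calc N < 2 ^ i * (m + 1) := this
      _ = 2 ^ i * m + 2 ^ i := by ring
  refine ⟨m, Finset.mem_Ico.mpr ⟨hm1, hm2⟩, i % R, Finset.mem_range.mpr (Nat.mod_lt _ hR),
    i / R, ?_, ?_, 2 ^ i, ?_, ?_⟩
  · rw [Nat.le_div_iff_mul_le hR]
    calc K * R ≤ R * (K + 1) := by nlinarith
      _ ≤ i := hiK
  · rw [hP]; exact hle
  · rw [hP]; exact hlt.le
  · rw [mul_comm]; exact h1'

/-- the block oscillation bound implies almost everywhere convergence -/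
theorem ae_tendsto_of_OB {X : Type*} [MeasurableSpace X] (μ : Measure X) [IsFiniteMeasure μ]
    (φ : X → ℤ → ℝ) (hφ : ∀ x n, |φ x n| ≤ 1) (h : OB μ φ) :
    ∀ᵐ x ∂μ, ∃ L : ℝ, Tendsto (fun N : ℕ => av (φ x) N) atTop (nhds L) := by
  -- eventual oscillation at most `5 / (M + 1)`
  have key : ∀ M : ℕ, ∀ᵐ x ∂μ, ∃ N0 : ℕ, ∀ N ≥ N0, ∀ N' ≥ N0,
      |av (φ x) N - av (φ x) N'| < 5 / (M + 1 : ℝ) := by
    intro M
    have hc : (0 : ℝ) < 1 / (M + 1 : ℝ) := by positivity
    obtain ⟨R0, hR0⟩ := h _ hc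
    obtain ⟨C, hC⟩ := hR0 (R0 + 1) (by omega)
    set R := R0 + 1 with hR
    have hRpos : 0 < R := by omega
    set D := 2 * (M + 1) with hD
    have hDpos : 0 < D := by omega
    have good : ∀ s : ℕ → ℕ, (∀ k, 0 < s k) → (∀ k, 2 ^ R * s k ≤ s (k + 1)) →
        (∀ k, s (k + 1) ≤ 2 ^ (4 * R) * s k) →
        ∀ᵐ x ∂μ, ∀ᶠ K in atTop, ∀ k ≥ K, ∀ k' ≥ K,
          |av (φ x) (s k) - av (φ x) (s k')| < 1 / (M + 1 : ℝ) := by
      intro s h1 h2 h3
      have h4 := ae_osc_of_blocks μ (a := fun k x => av (φ x) (s k)) (1 / (M + 1 : ℝ)) C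
        (fun J p hp hp1 => hC s h1 h2 h3 J p hp hp1)
      filter_upwards [h4] with x hx
      obtain ⟨k0, hk0⟩ := hx
      filter_upwards [eventually_ge_atTop k0] with K hK k hk k' hk'
      exact hk0 k (hK.trans hk) k' (hK.trans hk')
    have hP : ∀ᵐ x ∂μ, ∀ m ∈ Finset.Ico D (2 * D), ∀ r ∈ Finset.range R, ∀ᶠ K in atTop,
        ∀ k ≥ K, ∀ k' ≥ K,
          |av (φ x) (seqP R m r k) - av (φ x) (seqP R m r k')| < 1 / (M + 1 : ℝ) := by
      rw [eventually_all_finset]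
      intro m hm
      rw [eventually_all_finset]
      intro r _
      have hm0 : 0 < m := hDpos.trans_le (Finset.mem_Ico.mp hm).1
      refine good (seqP R m r) (fun k => seqP_pos hm0) (fun k => (seqP_succ R m r k).ge) ?_
      intro k
      rw [seqP_succ]
      gcongr
      · norm_num
      · omega
    have hQ : ∀ᵐ x ∂μ, ∀ m ∈ Finset.Ico D (2 * D), ∀ r ∈ Finset.range R,
        ∀ m' ∈ Finset.Ico D (2 * D), ∀ r' ∈ Finset.range R, ∀ᶠ K in atTop,
        ∀ k ≥ K, ∀ k' ≥ K,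
          |av (φ x) (seqQ R m r m' r' k) - av (φ x) (seqQ R m r m' r' k')| < 1 / (M + 1 : ℝ) := by
      rw [eventually_all_finset]
      intro m hm
      rw [eventually_all_finset]
      intro r hr
      rw [eventually_all_finset]
      intro m' hm'
      rw [eventually_all_finset]
      intro r' hr'
      rw [Finset.mem_Ico] at hm hm'
      rw [Finset.mem_range] at hr hr'
      exact good (seqQ R m r m' r') (fun k => seqQ_pos (by omega) (by omega))
        (fun k => seqQ_low hr hr' (by omega) (by omega))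
        (fun k => seqQ_up hr hr' (by omega) (by omega))
    filter_upwards [hP, hQ] with x hxP hxQ
    have hE : ∀ᶠ K in atTop, (∀ m ∈ Finset.Ico D (2 * D), ∀ r ∈ Finset.range R,
        ∀ k ≥ K, ∀ k' ≥ K,
          |av (φ x) (seqP R m r k) - av (φ x) (seqP R m r k')| < 1 / (M + 1 : ℝ)) ∧
        (∀ m ∈ Finset.Ico D (2 * D), ∀ r ∈ Finset.range R,
        ∀ m' ∈ Finset.Ico D (2 * D), ∀ r' ∈ Finset.range R,
        ∀ k ≥ K, ∀ k' ≥ K,
          |av (φ x) (seqQ R m r m' r' k) - av (φ x) (seqQ R m r m' r' k')| <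
            1 / (M + 1 : ℝ)) := by
      rw [eventually_and]
      constructor
      · rw [eventually_all_finset]
        intro m hm
        rw [eventually_all_finset]
        intro r hr
        exact hxP m hm r hr
      · rw [eventually_all_finset]
        intro m hm
        rw [eventually_all_finset]
        intro r hr
        rw [eventually_all_finset]
        intro m' hm'
        rw [eventually_all_finset]
        intro r' hr'
        exact hxQ m hm r hr m' hm' r' hr'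
    obtain ⟨K, hK1, hK2⟩ := hE.exists
    refine ⟨D * 2 ^ (R * (K + 1)), fun N hN N' hN' => ?_⟩
    obtain ⟨m, hm, r, hr, k, hk, hle, s, hs1, hs2⟩ := exists_net hDpos hRpos hN
    obtain ⟨m', hm', r', hr', k', hk', hle', s', hs1', hs2'⟩ := exists_net hDpos hRpos hN'
    have e1 := abs_av_sub_av_le' (hφ x) hle hs1 hDpos hs2
    have e1' := abs_av_sub_av_le' (hφ x) hle' hs1' hDpos hs2'
    have hDc : (2 : ℝ) / D = 1 / (M + 1 : ℝ) := by
      rw [hD]
      push_cast
      field_simp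
    rw [hDc] at e1 e1'
    have e2 := hK1 m hm r hr k hk (4 * K) (by omega)
    have e3 := hK2 m hm r hr m' hm' r' hr' (2 * K) (by omega) (2 * K + 1) (by omega)
    rw [seqQ_even, seqQ_odd] at e3
    have e4 := hK1 m' hm' r' hr' (4 * K + 2) (by omega) k' hk'
    have h5 : (5 : ℝ) / (M + 1 : ℝ) = 5 * (1 / (M + 1 : ℝ)) := by ring
    rw [h5]
    rw [abs_lt] at e2 e3 e4 ⊢
    rw [abs_le] at e1 e1'
    constructor <;> linarith [e1.1, e1.2, e1'.1, e1'.2, e2.1, e2.2, e3.1, e3.2, e4.1, e4.2]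
  have key' : ∀ᵐ x ∂μ, ∀ M : ℕ, ∃ N0 : ℕ, ∀ N ≥ N0, ∀ N' ≥ N0,
      |av (φ x) N - av (φ x) N'| < 5 / (M + 1 : ℝ) := ae_all_iff.mpr key
  filter_upwards [key'] with x hx
  apply cauchySeq_tendsto_of_complete
  rw [Metric.cauchySeq_iff]
  intro ε hε
  obtain ⟨M, hM⟩ := exists_nat_gt (5 / ε)
  obtain ⟨N0, hN0⟩ := hx M
  refine ⟨N0, fun N hN N' hN' => ?_⟩
  rw [Real.dist_eq]
  refine (hN0 N hN N' hN').trans_le ?_
  have hM1 : (0 : ℝ) < (M : ℝ) + 1 := by positivity
  rw [div_le_iff₀ hM1]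
  rw [div_lt_iff₀ hε] at hM
  nlinarith

end Pool.PWZ
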