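import Mathlib

/-!
# PWZ: two commuting maps (MP_4d8f14), note 3219. Definitions of the finite part.

FORWARD TIME: `t = 0` is the largest scale. A path is a list `l = [y_t, ..., y_0]` (latest first),
its time is `l.length - 1`.
-/

namespace Pool.Agent.PWZ

open Finset

noncomputable section

/-- indicator of a proposition as a real number -/
def ind (p : Prop) : ℝ := @ite ℝ p (Classical.propDecidable p) 1 0

theorem ind_of {p : Prop} (h : p) : ind p = 1 := by
  unfold ind; exact @if_pos p (Classical.propDecidable p) h ℝ 1 0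

theorem ind_not {p : Prop} (h : ¬ p) : ind p = 0 := by
  unfold ind; exact @if_neg p (Classical.propDecidable p) h ℝ 1 0

theorem ind_nonneg (p : Prop) : 0 ≤ ind p := by
  by_cases h : p
  · rw [ind_of h]; norm_num
  · rw [ind_not h]

theorem ind_le_one (p : Prop) : ind p ≤ 1 := by
  by_cases h : p
  · rw [ind_of h]
  · rw [ind_not h]; norm_num

theorem ind_mono {p q : Prop} (h : p → q) : ind p ≤ ind q := by
  by_cases hp : p
  · rw [ind_of hp, ind_of (h hp)]
  · rw [ind_not hp]; exact ind_nonneg q

theorem ind_or_le (p q : Prop) : ind (p ∨ q) ≤ ind p + ind q := by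
  by_cases hp : p
  · rw [ind_of hp, ind_of (Or.inl hp)]; linarith [ind_nonneg q]
  · by_cases hq : q
    · rw [ind_of hq, ind_of (Or.inr hq)]; linarith [ind_nonneg p]
    · rw [ind_not (by tauto)]; linarith [ind_nonneg p, ind_nonneg q]

theorem ind_and (p q : Prop) : ind (p ∧ q) = ind p * ind q := by
  by_cases hp : p
  · by_cases hq : q
    · rw [ind_of hp, ind_of hq, ind_of ⟨hp, hq⟩]; norm_num
    · rw [ind_not hq, ind_not (by tauto)]; ring
  · rw [ind_not hp, ind_not (by tauto)]; ring

/-- `x log x` (with value `0` at `0`) -/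
def th (x : ℝ) : ℝ := x * Real.log x

variable {V : Type*} [AddCommGroup V] [Fintype V] [DecidableEq V]

/-- the uniform probability on a finite set -/
def unif (E : Finset V) (s : V) : ℝ := if s ∈ E then ((E.card : ℝ))⁻¹ else 0

/-- a chain of noises: `y_t = a + b + (noise with law rho t)`, one step is `y_(t+1) = y_t - s`,
`s` uniform in `E t`. `t = 0` is the LARGEST scale. -/
structure Chain (V : Type*) [AddCommGroup V] [Fintype V] [DecidableEq V] where
  E : ℕ → Finset V
  ne : ∀ t, (E t).Nonempty
  rho : ℕ → V → ℝ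
  rho_nonneg : ∀ t z, 0 ≤ rho t z
  rho_sum : ∀ t, ∑ z, rho t z = 1
  rho_step : ∀ t z, rho t z = ∑ s, unif (E t) s * rho (t + 1) (z - s)

/-- the law of one step -/
def Chain.mu (C : Chain V) (t : ℕ) (s : V) : ℝ := unif (C.E t) s

/-- doubling up to time `n` -/
def Chain.DB (C : Chain V) (n : ℕ) (Lam : ℝ) : Prop :=
  ∀ t ≤ n, ∀ S : Finset V, (∃ z, ∀ a ∈ S, z - a ∈ C.E (t + 1)) →
    ((univ.filter (fun x => ∃ a ∈ S, C.rho t (x - a) ≠ 0)).card : ℝ) ≤ Lam * ((C.E (t + 1)).card : ℝ)

/-- expectation of a function of the path `[y_t, ..., y_0]`, `y_0` uniform -/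
def EP (C : Chain V) : ℕ → (List V → ℝ) → ℝ
  | 0, f => ((Fintype.card V : ℝ))⁻¹ * ∑ y, f [y]
  | t + 1, f => EP C t (fun l => ∑ s, C.mu t s * f ((l.headD 0 - s) :: l))

/-- expectation of a function of `(a, b, [y_t, ..., y_0])` -/
def EE (C : Chain V) (t : ℕ) (q : V → V → List V → ℝ) : ℝ :=
  EP C t (fun l => ((Fintype.card V : ℝ))⁻¹ * ∑ a, ∑ b, C.rho t (l.headD 0 - a - b) * q a b l)

/-- the inner product at time `t` and observation `y` -/
def ip (C : Chain V) (t : ℕ) (y : V) (f h : V → ℝ) : ℝ := ∑ c, C.rho t (y - c) * f c * h c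

/-- uniformity of the family `u` at time `t`: for every test function `w`, in every translate of
`- E (t+1)` the proportion of `b` with `|ip (u b) w| > r` is at most `ε` -/
def HF (C : Chain V) (t : ℕ) (y : V) (u : V → V → ℝ) (r ε : ℝ) : Prop :=
  ∀ w : V → ℝ, (∀ c, |w c| ≤ 2) → ∀ z, ∑ s, C.mu (t + 1) s * ind (r < |ip C t y (u (z - s)) w|) ≤ ε

/-- the accumulated list along a path -/
def acc {α : Type*} (A : List V → List α) : List V → List α
  | [] => []
  | y :: l => A (y :: l) ++ acc A l

/-- same membership in all sets of the list -/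
def SameL (L : List (Finset V)) (a a' : V) : Prop := ∀ X ∈ L, (a ∈ X ↔ a' ∈ X)

/-- the class of `a` for a list of sets -/
def clsL (L : List (Finset V)) (a : V) : Finset V :=
  @Finset.filter V (fun a' => SameL L a a') (fun _ => Classical.propDecidable _) univ

/-- the partition of `V` given by a list of sets -/
def partL (L : List (Finset V)) : Finset (Finset V) := univ.image (clsL L)

/-- `cnt t M z = sum of rho t (z - a) over a in M` -/
def cnt (C : Chain V) (t : ℕ) (M : Finset V) (z : V) : ℝ := ∑ a ∈ M, C.rho t (z - a)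

/-- entropy gap of the class `M` at position `z` in the step `t -> t+1` -/
def gap (C : Chain V) (t : ℕ) (M : Finset V) (z : V) : ℝ :=
  (∑ s, C.mu t s * th (cnt C (t + 1) M (z - s))) - th (cnt C t M z)

/-- relative entropy of the law of `y_(t+1)` given `(b, path, class of a)` with respect to the
free law; `A` = list of sets added at every path -/
def kl (C : Chain V) (A : List V → List (Finset V)) (a b : V) (l : List V) : ℝ :=
  gap C (l.length - 1) (clsL (acc A l) a) (l.headD 0 - b) /
    cnt C (l.length - 1) (clsL (acc A l) a) (l.headD 0 - b)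

/-- information cost of adding the set `S` at time `t` -/
def cost (C : Chain V) (t : ℕ) (S : Finset V) : ℝ :=
  ∑ z, (cnt C t S z - th (cnt C t S z))

/-- average of `F b * G a` seen from the path `l` -/
def XX (C : Chain V) (F G : V → V → ℝ) (l : List V) (a b : V) : ℝ :=
  ip C (l.length - 1) (l.headD 0) (F b) (G a)

end

end Pool.Agent.PWZ
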