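/-
PWZ (MP_4d8f14_an), end part (5), module EndRho.  Architect of part (5): helper74.
The integer functional `eR`: average of `h` over a sum of independent uniform integers
`u_k ∈ [-N_k, N_k]`, `k < j`.

PROOFS.  All lemmas by induction on `j` (generalising `h`), except the last two.
`eR_win`: the average over `u ∈ [-N, N]` of `φ (v - u)` is the average of `φ` over the window
`[v - N, v + N]`; it differs from `av φ N` by at most `2 |v| / (2 N + 1)` (for `|v| ≤ 2N+1` the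
two windows differ in `|v|` points on each side; otherwise the bound is at least `2`); an easy
way: induction on `|v|` (shift by one changes two terms), or `Finset.sum` over `Icc` differences.
`eR_close`: unfold `eR N (k+1)`, apply `eR_near` with the bound of `eR_win` for `v = W - w`,
`|w| ≤ Σ_(i<k) N_i`.
-/
import Mathlib
import Pool.Agent.PWZ.EndAvg

set_option autoImplicit false

open Finset

namespace Pool.PWZ

/-- average of `h` over a sum of independent uniform integers `u_k ∈ [-N_k, N_k]`, `k < j` -/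
noncomputable def eR (N : ℕ → ℕ) : ℕ → (ℤ → ℝ) → ℝ
  | 0, h => h 0
  | j + 1, h => eR N j (fun w => ((2 * N j + 1 : ℕ) : ℝ)⁻¹ *
      ∑ u ∈ Finset.Icc (-(N j : ℤ)) (N j : ℤ), h (w + u))

theorem eR_const (N : ℕ → ℕ) (j : ℕ) (x : ℝ) : eR N j (fun _ => x) = x := by
  induction j with
  | zero => rfl
  | succ j ih =>
    have h : (fun _ : ℤ => ((2 * N j + 1 : ℕ) : ℝ)⁻¹ *
        ∑ _u ∈ Finset.Icc (-(N j : ℤ)) (N j : ℤ), x) = fun _ => x := by
      funext w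
      have hpos : ((2 * N j + 1 : ℕ) : ℝ) ≠ 0 := by positivity
      rw [sum_const, card_Icc_sym, nsmul_eq_mul, ← mul_assoc, inv_mul_cancel₀ hpos, one_mul]
    change eR N j (fun _ : ℤ => ((2 * N j + 1 : ℕ) : ℝ)⁻¹ *
        ∑ _u ∈ Finset.Icc (-(N j : ℤ)) (N j : ℤ), x) = x
    rw [h, ih]

theorem eR_nonneg (N : ℕ → ℕ) (j : ℕ) (h : ℤ → ℝ) (hh : ∀ w, 0 ≤ h w) : 0 ≤ eR N j h := by
  induction j generalizing h with
  | zero => exact hh 0
  | succ j ih =>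
    exact ih _ fun w => mul_nonneg (by positivity) (sum_nonneg fun u _ => hh _)

theorem eR_smul (N : ℕ → ℕ) (j : ℕ) (x : ℝ) (h : ℤ → ℝ) :
    eR N j (fun w => x * h w) = x * eR N j h := by
  induction j generalizing h with
  | zero => rfl
  | succ j ih =>
    change eR N j (fun w : ℤ => ((2 * N j + 1 : ℕ) : ℝ)⁻¹ *
        ∑ u ∈ Finset.Icc (-(N j : ℤ)) (N j : ℤ), x * h (w + u)) =
      x * eR N j (fun w : ℤ => ((2 * N j + 1 : ℕ) : ℝ)⁻¹ *
        ∑ u ∈ Finset.Icc (-(N j : ℤ)) (N j : ℤ), h (w + u))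
    rw [← ih]
    congr 1
    funext w
    rw [← mul_sum]
    ring

theorem eR_sum (N : ℕ → ℕ) (j : ℕ) {ι : Type*} (s : Finset ι) (h : ι → ℤ → ℝ) :
    eR N j (fun w => ∑ i ∈ s, h i w) = ∑ i ∈ s, eR N j (h i) := by
  induction j generalizing h with
  | zero => rfl
  | succ j ih =>
    change eR N j (fun w : ℤ => ((2 * N j + 1 : ℕ) : ℝ)⁻¹ *
        ∑ u ∈ Finset.Icc (-(N j : ℤ)) (N j : ℤ), ∑ i ∈ s, h i (w + u)) =
      ∑ i ∈ s, eR N j (fun w : ℤ => ((2 * N j + 1 : ℕ) : ℝ)⁻¹ *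
        ∑ u ∈ Finset.Icc (-(N j : ℤ)) (N j : ℤ), h i (w + u))
    rw [← ih]
    congr 1
    funext w
    rw [sum_comm, mul_sum]

/-- only `|w| ≤ Σ_(k<j) N_k` matters -/
theorem eR_congr (N : ℕ → ℕ) (j : ℕ) (h h' : ℤ → ℝ)
    (hh : ∀ w : ℤ, |w| ≤ ∑ k ∈ range j, (N k : ℤ) → h w = h' w) : eR N j h = eR N j h' := by
  induction j generalizing h h' with
  | zero => exact hh 0 (by simp)
  | succ j ih =>
    refine ih _ _ fun w hw => ?_
    congr 1
    refine sum_congr rfl fun u hu => hh _ ?_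
    rw [sum_range_succ]
    have h1 : |u| ≤ (N j : ℤ) := abs_le.2 (mem_Icc.1 hu)
    exact (abs_add_le w u).trans (add_le_add hw h1)

/-- a convex combination of values close to `A` is close to `A` -/
theorem eR_near (N : ℕ → ℕ) (j : ℕ) (h : ℤ → ℝ) (A ε : ℝ)
    (hh : ∀ w : ℤ, |w| ≤ ∑ k ∈ range j, (N k : ℤ) → |h w - A| ≤ ε) : |eR N j h - A| ≤ ε := by
  induction j generalizing h with
  | zero => exact hh 0 (by simp)
  | succ j ih =>
    refine ih _ fun w hw => ?_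
    have hpos : (0 : ℝ) < ((2 * N j + 1 : ℕ) : ℝ) := by positivity
    have e : ((2 * N j + 1 : ℕ) : ℝ)⁻¹ * ∑ u ∈ Finset.Icc (-(N j : ℤ)) (N j : ℤ), h (w + u) - A =
        ((2 * N j + 1 : ℕ) : ℝ)⁻¹ * ∑ u ∈ Finset.Icc (-(N j : ℤ)) (N j : ℤ), (h (w + u) - A) := by
      rw [sum_sub_distrib, sum_const, card_Icc_sym, nsmul_eq_mul, mul_sub, ← mul_assoc,
        inv_mul_cancel₀ hpos.ne', one_mul]
    rw [e, abs_mul, abs_inv, Nat.abs_cast, inv_mul_le_iff₀ hpos]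
    refine (abs_sum_le_sum_abs _ _).trans ?_
    calc ∑ u ∈ Finset.Icc (-(N j : ℤ)) (N j : ℤ), |h (w + u) - A|
        ≤ ∑ _u ∈ Finset.Icc (-(N j : ℤ)) (N j : ℤ), ε := by
          refine sum_le_sum fun u hu => hh _ ?_
          rw [sum_range_succ]
          have h1 : |u| ≤ (N j : ℤ) := abs_le.2 (mem_Icc.1 hu)
          exact (abs_add_le w u).trans (add_le_add hw h1)
      _ = ((2 * N j + 1 : ℕ) : ℝ) * ε := by rw [sum_const, card_Icc_sym, nsmul_eq_mul]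

private lemma EndRho_succ (f : ℤ → ℝ) (N : ℕ) :
    ∑ u ∈ Finset.Icc (-((N + 1 : ℕ) : ℤ)) ((N + 1 : ℕ) : ℤ), f u =
      ∑ u ∈ Finset.Icc (-(N : ℤ)) (N : ℤ), f u + f (N + 1) + f (-(N + 1)) := by
  have e : Finset.Icc (-((N + 1 : ℕ) : ℤ)) ((N + 1 : ℕ) : ℤ) =
      insert (-((N : ℤ) + 1)) (insert ((N : ℤ) + 1) (Finset.Icc (-(N : ℤ)) (N : ℤ))) := by
    ext u
    simp only [mem_Icc, mem_insert]
    push_cast
    omega
  rw [e, sum_insert, sum_insert]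
  · ring
  · simp only [mem_Icc, not_and, not_le]
    omega
  · simp only [mem_insert, mem_Icc]
    omega

private lemma EndRho_shift (φ : ℤ → ℝ) (N : ℕ) (v : ℤ) :
    ∑ u ∈ Finset.Icc (-(N : ℤ)) (N : ℤ), φ (v + 1 - u) =
      ∑ u ∈ Finset.Icc (-(N : ℤ)) (N : ℤ), φ (v - u) + φ (v + 1 + N) - φ (v - N) := by
  induction N with
  | zero =>
    simp
  | succ N ih =>
    rw [EndRho_succ (fun u => φ (v + 1 - u)), EndRho_succ (fun u => φ (v - u)), ih]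
    have e1 : v + 1 - ((N : ℤ) + 1) = v - N := by ring
    have e2 : v + 1 - -((N : ℤ) + 1) = v + 1 + ((N + 1 : ℕ) : ℤ) := by push_cast; ring
    have e3 : v - ((N : ℤ) + 1) = v - ((N + 1 : ℕ) : ℤ) := by push_cast; ring
    have e4 : v - -((N : ℤ) + 1) = v + 1 + (N : ℤ) := by ring
    rw [e1, e2, e3, e4]
    ring

private lemma EndRho_refl (φ : ℤ → ℝ) (N : ℕ) :
    ∑ u ∈ Finset.Icc (-(N : ℤ)) (N : ℤ), φ (0 - u) = ∑ u ∈ Finset.Icc (-(N : ℤ)) (N : ℤ), φ u := by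
  induction N with
  | zero => simp
  | succ N ih =>
    rw [EndRho_succ (fun u => φ (0 - u)), EndRho_succ φ, ih]
    have e1 : (0 : ℤ) - ((N : ℤ) + 1) = -((N : ℤ) + 1) := by ring
    have e2 : (0 : ℤ) - -((N : ℤ) + 1) = (N : ℤ) + 1 := by ring
    rw [e1, e2]
    ring

private lemma EndRho_step {φ : ℤ → ℝ} (hφ : ∀ n, |φ n| ≤ 1) (N : ℕ) (v : ℤ) :
    |∑ u ∈ Finset.Icc (-(N : ℤ)) (N : ℤ), φ (v + 1 - u) -
      ∑ u ∈ Finset.Icc (-(N : ℤ)) (N : ℤ), φ (v - u)| ≤ 2 := by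
  rw [EndRho_shift]
  have h1 := abs_le.1 (hφ (v + 1 + N))
  have h2 := abs_le.1 (hφ (v - N))
  rw [abs_le]
  constructor <;> linarith [h1.1, h1.2, h2.1, h2.2]

private lemma EndRho_dist {φ : ℤ → ℝ} (hφ : ∀ n, |φ n| ≤ 1) (N : ℕ) (v : ℤ) :
    |∑ u ∈ Finset.Icc (-(N : ℤ)) (N : ℤ), φ (v - u) -
      ∑ u ∈ Finset.Icc (-(N : ℤ)) (N : ℤ), φ (0 - u)| ≤ 2 * |(v : ℝ)| := by
  induction v using Int.induction_on with
  | zero => simp
  | succ i ih =>
    have h1 := EndRho_step hφ N (i : ℤ)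
    have e : |(((i : ℤ) + 1 : ℤ) : ℝ)| = |((i : ℤ) : ℝ)| + 1 := by
      push_cast
      rw [abs_of_nonneg (by positivity), abs_of_nonneg (by positivity)]
    rw [e]
    have h2 := abs_add_le (∑ u ∈ Finset.Icc (-(N : ℤ)) (N : ℤ), φ ((i : ℤ) + 1 - u) -
      ∑ u ∈ Finset.Icc (-(N : ℤ)) (N : ℤ), φ ((i : ℤ) - u))
      (∑ u ∈ Finset.Icc (-(N : ℤ)) (N : ℤ), φ ((i : ℤ) - u) -
      ∑ u ∈ Finset.Icc (-(N : ℤ)) (N : ℤ), φ (0 - u))
    rw [sub_add_sub_cancel] at h2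
    linarith
  | pred i ih =>
    have h1 := EndRho_step hφ N (-(i : ℤ) - 1)
    rw [sub_add_cancel, abs_sub_comm] at h1
    have e : |((-(i : ℤ) - 1 : ℤ) : ℝ)| = |((-(i : ℤ) : ℤ) : ℝ)| + 1 := by
      push_cast
      rw [abs_of_nonpos (by linarith [Nat.cast_nonneg (α := ℝ) i]),
        abs_of_nonpos (by linarith [Nat.cast_nonneg (α := ℝ) i])]
      ring
    rw [e]
    have h2 := abs_add_le (∑ u ∈ Finset.Icc (-(N : ℤ)) (N : ℤ), φ (-(i : ℤ) - 1 - u) -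
      ∑ u ∈ Finset.Icc (-(N : ℤ)) (N : ℤ), φ (-(i : ℤ) - u))
      (∑ u ∈ Finset.Icc (-(N : ℤ)) (N : ℤ), φ (-(i : ℤ) - u) -
      ∑ u ∈ Finset.Icc (-(N : ℤ)) (N : ℤ), φ (0 - u))
    rw [sub_add_sub_cancel] at h2
    linarith

/-- the average over a shifted window -/
theorem eR_win (φ : ℤ → ℝ) (hφ : ∀ n, |φ n| ≤ 1) (N : ℕ) (v : ℤ) :
    |((2 * N + 1 : ℕ) : ℝ)⁻¹ * ∑ u ∈ Finset.Icc (-(N : ℤ)) (N : ℤ), φ (v - u) - av φ N| ≤
      2 * |(v : ℝ)| / (2 * N + 1) := by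
  have hpos : (0 : ℝ) < ((2 * N + 1 : ℕ) : ℝ) := by positivity
  unfold av
  rw [← EndRho_refl φ N, ← mul_sub, abs_mul, abs_inv, Nat.abs_cast, inv_mul_le_iff₀ hpos]
  have e : ((2 * N + 1 : ℕ) : ℝ) * (2 * |(v : ℝ)| / (2 * N + 1)) = 2 * |(v : ℝ)| := by
    have h : ((2 * N + 1 : ℕ) : ℝ) = 2 * N + 1 := by push_cast; ring
    rw [h]
    rw [h] at hpos
    field_simp
  rw [e]
  exact EndRho_dist hφ N v

/-- the smoothed average seen from `W` is close to the sharp average at level `k` -/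
theorem eR_close (N : ℕ → ℕ) (k : ℕ) (φ : ℤ → ℝ) (hφ : ∀ n, |φ n| ≤ 1) (W : ℤ) :
    |eR N (k + 1) (fun w => φ (W - w)) - av φ (N k)| ≤
      2 * (|(W : ℝ)| + ∑ i ∈ range k, (N i : ℝ)) / (2 * N k + 1) := by
  refine eR_near N k _ _ _ fun w hw => ?_
  have h1 := eR_win φ hφ (N k) (W - w)
  have e : ∀ u : ℤ, W - (w + u) = W - w - u := fun u => by ring
  simp only [e]
  refine h1.trans ?_
  have hw' : |(w : ℝ)| ≤ ∑ i ∈ range k, (N i : ℝ) := by exact_mod_cast hw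
  have h2 : |((W - w : ℤ) : ℝ)| ≤ |(W : ℝ)| + ∑ i ∈ range k, (N i : ℝ) := by
    push_cast
    exact (abs_sub _ _).trans (add_le_add le_rfl hw')
  gcongr

end Pool.PWZ
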