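/-
PWZ (MP_4d8f14_an), end part (5), module EndChain.  Architect of part (5): helper74.
The chain on `ZMod M` of the scales `N_0, …, N_(T-1)` (levels).  Time `t` is the level `T - 1 - t`:
`E t = [-N_(T-1-t), N_(T-1-t)]` for `t < T` and `E t = {0}` for `t ≥ T`;
`rho t z` = probability that the sum of the `u_k`, `k < T - t`, is `z` modulo `M`.

PROOFS.
`zch_inj`: `2 N + 1 ≤ M` makes the cast `ℤ → ZMod M` injective on `[-N, N]`
(`ZMod.intCast_eq_intCast_iff_dvd_sub`, `Int.eq_zero_of_abs_lt_dvd` or `omega`).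
`rho_sum`: `eR_sum`, `eR_const`.  `rho_step`, `t < T`: `T - t = (T - (t+1)) + 1`, unfold `eR`, both
sides are `eR N (T-(t+1))` of a function of `w`: left `(2N+1)⁻¹ Σ_u 1[w + u = z]`, right (with
`eR_sum`, `eR_smul`) `Σ_s unif (E t) s * 1[w = z - s] = unif (E t) (z - w)`; equal by injectivity.
`t ≥ T`: `E t = {0}`, `eR N 0`.
`zch_ip`: `Σ_c eR (1[w = y - c]) h c = eR (Σ_c 1[w = y - c] h c) = eR (h (y - w))`.
`zch_DB`: `T - 1 - t = k ≥ 1` (as `t ≤ T - 2`), so `E (t+1)` is the level `k - 1`; `S ⊆ z - E (t+1)`;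
if `rho t (x - a) ≠ 0` then `x - a` is the cast of an integer `w`, `|w| ≤ Σ_(i≤k) N_i` (`eR_congr`
with `0`), so `x` is `z` + the cast of an integer of absolute value at most
`N_(k-1) + Σ_(i≤k) N_i ≤ N_(k-1) + 2 N_k ≤ (1 + 2^(4R+1)) N_(k-1)` (sum of a sequence which at
least doubles is at most twice its last term), so the number of `x` is at most
`2 (1 + 2^(4R+1)) N_(k-1) + 1 ≤ (1 + 2^(4R+1)) (2 N_(k-1) + 1)`, and
`card (E (t+1)) = 2 N_(k-1) + 1` by injectivity.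
-/
import Mathlib
import Pool.Agent.PWZ.EndRho
import Pool.Agent.PWZ.Defs

set_option autoImplicit false

open Finset Pool.Agent.PWZ

namespace Pool.PWZ

/-- the set of steps at time `t` -/
noncomputable def zE (N : ℕ → ℕ) (T M t : ℕ) : Finset (ZMod M) :=
  if t < T then (Finset.Icc (-(N (T - 1 - t) : ℤ)) (N (T - 1 - t) : ℤ)).image (fun u : ℤ =>
    (u : ZMod M)) else {0}

/-- the law of the total noise at time `t` -/
noncomputable def zrho (N : ℕ → ℕ) (T M t : ℕ) (z : ZMod M) : ℝ :=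
  eR N (T - t) (fun w => if (w : ZMod M) = z then 1 else 0)

theorem zch_inj (N M : ℕ) (h : 2 * N + 1 ≤ M) (u v : ℤ) (hu : u ∈ Finset.Icc (-(N : ℤ)) (N : ℤ))
    (hv : v ∈ Finset.Icc (-(N : ℤ)) (N : ℤ)) (huv : (u : ZMod M) = (v : ZMod M)) : u = v := by
  rw [mem_Icc] at hu hv
  have h1 : (M : ℤ) ∣ v - u := (ZMod.intCast_eq_intCast_iff_dvd_sub u v M).1 huv
  have h2 : |v - u| < (M : ℤ) := by
    rw [abs_lt]
    constructor <;> omega
  have h3 : v - u = 0 := Int.eq_zero_of_abs_lt_dvd h1 h2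
  omega

theorem zE_ne (N : ℕ → ℕ) (T M t : ℕ) : (zE N T M t).Nonempty := by
  unfold zE
  split_ifs
  · exact (Finset.nonempty_Icc.2 (by omega)).image _
  · exact singleton_nonempty _

theorem zE_card (N : ℕ → ℕ) (T M t : ℕ) (ht : t < T) (h : 2 * N (T - 1 - t) + 1 ≤ M) :
    (zE N T M t).card = 2 * N (T - 1 - t) + 1 := by
  unfold zE
  rw [if_pos ht, card_image_of_injOn, Int.card_Icc]
  · omega
  · intro u hu v hv huv
    exact zch_inj _ M h u v hu hv huv

theorem zrho_nonneg (N : ℕ → ℕ) (T M t : ℕ) (z : ZMod M) : 0 ≤ zrho N T M t z := by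
  refine eR_nonneg _ _ _ fun w => ?_
  split_ifs <;> norm_num

theorem zrho_sum (N : ℕ → ℕ) (T M : ℕ) [NeZero M] (t : ℕ) : ∑ z, zrho N T M t z = 1 := by
  unfold zrho
  rw [← eR_sum N (T - t) univ (fun (z : ZMod M) (w : ℤ) => if (w : ZMod M) = z then (1 : ℝ) else 0)]
  have e : (fun w : ℤ => ∑ z : ZMod M, if (w : ZMod M) = z then (1 : ℝ) else 0) = fun _ => 1 := by
    funext w
    rw [sum_ite_eq]
    simp
  rw [e, eR_const]

private theorem zch_unif (N : ℕ → ℕ) (T M t : ℕ) [NeZero M] (ht : t < T)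
    (h : 2 * N (T - 1 - t) + 1 ≤ M) (g : ZMod M → ℝ) :
    ∑ s, unif (zE N T M t) s * g s = ((2 * N (T - 1 - t) + 1 : ℕ) : ℝ)⁻¹ *
      ∑ u ∈ Finset.Icc (-(N (T - 1 - t) : ℤ)) (N (T - 1 - t) : ℤ), g (u : ZMod M) := by
  have e1 : ∑ s, unif (zE N T M t) s * g s =
      ∑ s ∈ zE N T M t, ((zE N T M t).card : ℝ)⁻¹ * g s := by
    rw [← sum_subset (subset_univ (zE N T M t))]
    · refine sum_congr rfl fun s hs => ?_
      rw [unif, if_pos hs]
    · intro s _ hs
      rw [unif, if_neg hs, zero_mul]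
  rw [e1, ← mul_sum, zE_card N T M t ht h]
  congr 1
  rw [zE, if_pos ht, sum_image]
  intro u hu v hv huv
  exact zch_inj _ M h u v hu hv huv

theorem zrho_step (N : ℕ → ℕ) (T M : ℕ) [NeZero M] (h : ∀ k < T, 2 * N k + 1 ≤ M)
    (t : ℕ) (z : ZMod M) :
    zrho N T M t z = ∑ s, unif (zE N T M t) s * zrho N T M (t + 1) (z - s) := by
  rcases lt_or_ge t T with ht | ht
  · rw [zch_unif N T M t ht (h _ (by omega)) (fun s => zrho N T M (t + 1) (z - s))]
    have e1 : T - t = (T - 1 - t) + 1 := by omega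
    have e2 : T - (t + 1) = T - 1 - t := by omega
    unfold zrho
    rw [e1, e2]
    change eR N (T - 1 - t) (fun w : ℤ => ((2 * N (T - 1 - t) + 1 : ℕ) : ℝ)⁻¹ *
      ∑ u ∈ Finset.Icc (-(N (T - 1 - t) : ℤ)) (N (T - 1 - t) : ℤ),
        (if ((w + u : ℤ) : ZMod M) = z then (1 : ℝ) else 0)) = _
    rw [eR_smul, ← eR_sum]
    congr 2
    funext w
    refine sum_congr rfl fun u _ => ?_
    refine if_congr ?_ rfl rfl
    push_cast
    exact eq_sub_iff_add_eq.symm
  · have e1 : T - t = 0 := by omega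
    have e2 : T - (t + 1) = 0 := by omega
    unfold zrho zE
    rw [e1, e2, if_neg (by omega)]
    rw [sum_eq_single (0 : ZMod M)]
    · simp [unif]
    · intro s _ hs
      rw [unif, if_neg (by simpa using hs), zero_mul]
    · intro h0
      exact absurd (mem_univ _) h0

/-- the chain -/
noncomputable def zch (N : ℕ → ℕ) (T M : ℕ) [NeZero M] (h : ∀ k < T, 2 * N k + 1 ≤ M) :
    Chain (ZMod M) where
  E := zE N T M
  ne := zE_ne N T M
  rho := zrho N T M
  rho_nonneg := zrho_nonneg N T M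
  rho_sum := zrho_sum N T M
  rho_step := zrho_step N T M h

theorem zch_top (N : ℕ → ℕ) (T M : ℕ) [NeZero M] (h : ∀ k < T, 2 * N k + 1 ≤ M) (z : ZMod M) :
    (zch N T M h).rho T z = if z = 0 then 1 else 0 := by
  change eR N (T - T) (fun w => if (w : ZMod M) = z then (1 : ℝ) else 0) = _
  rw [Nat.sub_self]
  change (if ((0 : ℤ) : ZMod M) = z then (1 : ℝ) else 0) = _
  rw [Int.cast_zero]
  exact if_congr eq_comm rfl rfl

theorem zch_ip (N : ℕ → ℕ) (T M : ℕ) [NeZero M] (h : ∀ k < T, 2 * N k + 1 ≤ M) (t : ℕ)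
    (y : ZMod M) (f g : ZMod M → ℝ) :
    ip (zch N T M h) t y f g =
      eR N (T - t) (fun w => f (y - (w : ZMod M)) * g (y - (w : ZMod M))) := by
  have e : ∀ c : ZMod M, zrho N T M t (y - c) * f c * g c =
      eR N (T - t) (fun w : ℤ => (f c * g c) * (if (w : ZMod M) = y - c then (1 : ℝ) else 0)) := by
    intro c
    rw [eR_smul, zrho]
    ring
  change ∑ c, zrho N T M t (y - c) * f c * g c = _
  rw [sum_congr rfl fun c _ => e c, ← eR_sum]
  congr 1
  funext w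
  rw [sum_eq_single (y - (w : ZMod M))]
  · rw [if_pos (by ring), mul_one]
  · intro c _ hc
    rw [if_neg, mul_zero]
    intro hw
    exact hc (by rw [hw]; ring)
  · intro h0
    exact absurd (mem_univ _) h0

private theorem zch_supp (N : ℕ → ℕ) (T M t : ℕ) (x : ZMod M) (hx : zrho N T M t x ≠ 0) :
    ∃ w : ℤ, |w| ≤ ∑ k ∈ range (T - t), (N k : ℤ) ∧ (w : ZMod M) = x := by
  by_contra hcon
  push Not at hcon
  refine hx ?_
  rw [zrho, eR_congr N (T - t) _ (fun _ => 0) fun w hw => if_neg (hcon w hw), eR_const]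

private theorem zch_geo (N : ℕ → ℕ) (R : ℕ) (hR : 1 ≤ R) (hlow : ∀ k, 2 ^ R * N k ≤ N (k + 1))
    (k : ℕ) : ∑ i ∈ range (k + 1), N i ≤ 2 * N k := by
  have h2 : 2 ≤ 2 ^ R := by
    calc 2 = 2 ^ 1 := by norm_num
      _ ≤ 2 ^ R := Nat.pow_le_pow_right (by norm_num) hR
  induction k with
  | zero => simp; omega
  | succ k ih =>
    rw [sum_range_succ]
    have h3 : 2 * N k ≤ N (k + 1) := (Nat.mul_le_mul_right _ h2).trans (hlow k)
    omega

theorem zch_DB (N : ℕ → ℕ) (T M R : ℕ) [NeZero M] (h : ∀ k < T, 2 * N k + 1 ≤ M) (hR : 1 ≤ R)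
    (hN : ∀ k, 0 < N k) (hlow : ∀ k, 2 ^ R * N k ≤ N (k + 1))
    (hup : ∀ k, N (k + 1) ≤ 2 ^ (4 * R) * N k) (hT : 2 ≤ T) :
    (zch N T M h).DB (T - 2) (1 + 2 ^ (4 * R + 1)) := by
  intro t ht S hS
  obtain ⟨z, hz⟩ := hS
  have ht1 : t + 1 < T := by omega
  obtain ⟨k, hk⟩ : ∃ k, T - 1 - (t + 1) = k := ⟨_, rfl⟩
  have hkt : T - t = k + 1 + 1 := by omega
  have hkT : k < T := by omega
  have hcard : (zE N T M (t + 1)).card = 2 * N k + 1 := by
    rw [zE_card N T M (t + 1) ht1 (by rw [hk]; exact h k hkT), hk]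
  have hsub : (univ.filter (fun x => ∃ a ∈ S, (zch N T M h).rho t (x - a) ≠ 0)) ⊆
      (Finset.Icc (-((N k + 2 * N (k + 1) : ℕ) : ℤ)) ((N k + 2 * N (k + 1) : ℕ) : ℤ)).image
        (fun v : ℤ => z + (v : ZMod M)) := by
    intro x hx
    rw [mem_filter] at hx
    obtain ⟨-, a, ha, hxa⟩ := hx
    obtain ⟨w, hw, hwx⟩ := zch_supp N T M t (x - a) hxa
    have hza : z - a ∈ zE N T M (t + 1) := hz a ha
    rw [zE, if_pos ht1, hk, mem_image] at hza
    obtain ⟨u, hu, huz⟩ := hza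
    rw [mem_Icc] at hu
    rw [hkt] at hw
    have hgeo := zch_geo N R hR hlow (k + 1)
    have hgeo' : ∑ i ∈ range (k + 1 + 1), (N i : ℤ) ≤ 2 * (N (k + 1) : ℤ) := by exact_mod_cast hgeo
    have hw' := abs_le.1 (hw.trans hgeo')
    rw [mem_image]
    refine ⟨w - u, ?_, ?_⟩
    · rw [mem_Icc]
      push_cast
      omega
    · push_cast
      rw [hwx, huz]
      ring
  have h1 := (card_le_card hsub).trans card_image_le
  rw [Int.card_Icc] at h1
  have h2 : (univ.filter (fun x => ∃ a ∈ S, (zch N T M h).rho t (x - a) ≠ 0)).card ≤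
      2 * (N k + 2 * N (k + 1)) + 1 := by omega
  have h3 := hup k
  have h4 : 2 * (N k + 2 * N (k + 1)) + 1 ≤ (1 + 2 ^ (4 * R + 1)) * (2 * N k + 1) := by
    have h5 : 2 ^ (4 * R + 1) = 2 * 2 ^ (4 * R) := by ring
    rw [h5]
    nlinarith [Nat.zero_le (2 ^ (4 * R))]
  change _ ≤ _ * ((zE N T M (t + 1)).card : ℝ)
  rw [hcard]
  exact_mod_cast h2.trans h4

end Pool.PWZ
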