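import Pool.Agent.PWZ.Defs

/-! # PWZ Basic: elementary lemmas on the expectations `EP`, `EE` and the inner product `ip`. -/

namespace Pool.Agent.PWZ

open Finset

variable {V : Type*} [AddCommGroup V] [Fintype V] [DecidableEq V]

theorem mu_nonneg (C : Chain V) (t : ℕ) (s : V) : 0 ≤ C.mu t s := by
  unfold Chain.mu unif
  split_ifs
  · positivity
  · exact le_refl _

theorem mu_sum (C : Chain V) (t : ℕ) : ∑ s, C.mu t s = 1 := by
  unfold Chain.mu unif
  rw [Finset.sum_ite_mem, Finset.univ_inter, Finset.sum_const, nsmul_eq_mul]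
  have h : ((C.E t).card : ℝ) ≠ 0 := by
    exact_mod_cast (Finset.card_pos.mpr (C.ne t)).ne'
  exact mul_inv_cancel₀ h

theorem rho_step' (C : Chain V) (t : ℕ) (z : V) :
    C.rho t z = ∑ s, C.mu t s * C.rho (t + 1) (z - s) := by
  exact C.rho_step t z

theorem rho_sub_sum (C : Chain V) (t : ℕ) (z : V) : ∑ c, C.rho t (z - c) = 1 := by
  rw [← C.rho_sum t]
  exact Fintype.sum_equiv (Equiv.subLeft z) _ _ (fun c => rfl)

theorem EP_mono_len (C : Chain V) (t : ℕ) (f g : List V → ℝ)
    (h : ∀ l, l.length = t + 1 → f l ≤ g l) : EP C t f ≤ EP C t g := by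
  induction t generalizing f g with
  | zero =>
    simp only [EP]
    refine mul_le_mul_of_nonneg_left ?_ (by positivity)
    exact Finset.sum_le_sum (fun y _ => h [y] rfl)
  | succ t ih =>
    simp only [EP]
    refine ih _ _ ?_
    intro l hl
    refine Finset.sum_le_sum (fun s _ => mul_le_mul_of_nonneg_left (h _ ?_) (mu_nonneg C t s))
    simp [hl]

theorem EP_congr_len (C : Chain V) (t : ℕ) (f g : List V → ℝ)
    (h : ∀ l, l.length = t + 1 → f l = g l) : EP C t f = EP C t g := by
  exact le_antisymm (EP_mono_len C t f g (fun l hl => (h l hl).le))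
    (EP_mono_len C t g f (fun l hl => (h l hl).ge))

theorem EP_const (C : Chain V) (t : ℕ) (x : ℝ) : EP C t (fun _ => x) = x := by
  induction t with
  | zero =>
    simp only [EP]
    rw [Finset.sum_const, nsmul_eq_mul, Finset.card_univ, ← mul_assoc]
    have h : ((Fintype.card V : ℝ)) ≠ 0 := by
      exact_mod_cast (Fintype.card_pos (α := V)).ne'
    rw [inv_mul_cancel₀ h, one_mul]
  | succ t ih =>
    simp only [EP]
    have : (fun _ : List V => ∑ s, C.mu t s * x) = fun _ => x := by
      funext l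
      rw [← Finset.sum_mul, mu_sum, one_mul]
    rw [this]
    exact ih

theorem EP_nonneg (C : Chain V) (t : ℕ) (f : List V → ℝ)
    (h : ∀ l, l.length = t + 1 → 0 ≤ f l) : 0 ≤ EP C t f := by
  have h1 := EP_mono_len C t (fun _ => 0) f h
  rwa [EP_const] at h1

theorem EP_add (C : Chain V) (t : ℕ) (f g : List V → ℝ) :
    EP C t (fun l => f l + g l) = EP C t f + EP C t g := by
  induction t generalizing f g with
  | zero =>
    simp only [EP]
    rw [Finset.sum_add_distrib, mul_add]
  | succ t ih =>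
    simp only [EP]
    rw [← ih]
    congr 1
    funext l
    rw [← Finset.sum_add_distrib]
    exact Finset.sum_congr rfl (fun s _ => by ring)

theorem EP_sub (C : Chain V) (t : ℕ) (f g : List V → ℝ) :
    EP C t (fun l => f l - g l) = EP C t f - EP C t g := by
  induction t generalizing f g with
  | zero =>
    simp only [EP]
    rw [Finset.sum_sub_distrib, mul_sub]
  | succ t ih =>
    simp only [EP]
    rw [← ih]
    congr 1
    funext l
    rw [← Finset.sum_sub_distrib]
    exact Finset.sum_congr rfl (fun s _ => by ring)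

theorem EP_smul (C : Chain V) (t : ℕ) (x : ℝ) (f : List V → ℝ) :
    EP C t (fun l => x * f l) = x * EP C t f := by
  induction t generalizing f with
  | zero =>
    simp only [EP]
    rw [← Finset.mul_sum]
    ring
  | succ t ih =>
    simp only [EP]
    rw [← ih]
    congr 1
    funext l
    rw [Finset.mul_sum]
    exact Finset.sum_congr rfl (fun s _ => by ring)

/-- functions of the old path -/
theorem EP_tail (C : Chain V) (t : ℕ) (f : List V → ℝ) :
    EP C (t + 1) (fun l => f l.tail) = EP C t f := by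
  simp only [EP, List.tail_cons]
  congr 1
  funext l
  rw [← Finset.sum_mul, mu_sum, one_mul]

/-- `ip` with frozen functions is a martingale (one step) -/
theorem ip_mart (C : Chain V) (t : ℕ) (y : V) (f h : V → ℝ) :
    ∑ s, C.mu t s * ip C (t + 1) (y - s) f h = ip C t y f h := by
  unfold ip
  have h1 : ∀ s, C.mu t s * ∑ c, C.rho (t + 1) (y - s - c) * f c * h c
      = ∑ c, C.mu t s * C.rho (t + 1) (y - c - s) * (f c * h c) := by
    intro s
    rw [Finset.mul_sum]
    refine Finset.sum_congr rfl (fun c _ => ?_)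
    rw [sub_right_comm y s c]
    ring
  rw [Finset.sum_congr rfl (fun s _ => h1 s), Finset.sum_comm]
  refine Finset.sum_congr rfl (fun c _ => ?_)
  rw [← Finset.sum_mul, ← rho_step' C t (y - c)]
  ring

theorem ip_comm (C : Chain V) (t : ℕ) (y : V) (f h : V → ℝ) : ip C t y f h = ip C t y h f := by
  unfold ip
  exact Finset.sum_congr rfl (fun c _ => by ring)

theorem ip_sub_left (C : Chain V) (t : ℕ) (y : V) (f f' h : V → ℝ) :
    ip C t y (fun c => f c - f' c) h = ip C t y f h - ip C t y f' h := by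
  unfold ip
  rw [← Finset.sum_sub_distrib]
  exact Finset.sum_congr rfl (fun c _ => by ring)

theorem ip_sub_right (C : Chain V) (t : ℕ) (y : V) (f h h' : V → ℝ) :
    ip C t y f (fun c => h c - h' c) = ip C t y f h - ip C t y f h' := by
  unfold ip
  rw [← Finset.sum_sub_distrib]
  exact Finset.sum_congr rfl (fun c _ => by ring)

theorem abs_ip_le (C : Chain V) (t : ℕ) (y : V) (f h : V → ℝ) (B B' : ℝ)
    (hf : ∀ c, |f c| ≤ B) (hh : ∀ c, |h c| ≤ B') : |ip C t y f h| ≤ B * B' := by
  unfold ip
  have hB : 0 ≤ B := le_trans (abs_nonneg _) (hf 0)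
  calc |∑ c, C.rho t (y - c) * f c * h c|
      ≤ ∑ c, |C.rho t (y - c) * f c * h c| := Finset.abs_sum_le_sum_abs _ _
    _ ≤ ∑ c, C.rho t (y - c) * (B * B') := by
        refine Finset.sum_le_sum (fun c _ => ?_)
        rw [abs_mul, abs_mul, abs_of_nonneg (C.rho_nonneg t (y - c)), mul_assoc]
        refine mul_le_mul_of_nonneg_left ?_ (C.rho_nonneg t (y - c))
        exact mul_le_mul (hf c) (hh c) (abs_nonneg _) hB
    _ = B * B' := by rw [← Finset.sum_mul, rho_sub_sum, one_mul]

theorem EE_mono_len (C : Chain V) (t : ℕ) (p q : V → V → List V → ℝ)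
    (h : ∀ a b l, l.length = t + 1 → p a b l ≤ q a b l) : EE C t p ≤ EE C t q := by
  unfold EE
  apply EP_mono_len
  intro l hl
  apply mul_le_mul_of_nonneg_left _ (by positivity)
  apply Finset.sum_le_sum
  intro a _
  apply Finset.sum_le_sum
  intro b _
  exact mul_le_mul_of_nonneg_left (h a b l hl) (C.rho_nonneg _ _)

theorem EE_congr_len (C : Chain V) (t : ℕ) (p q : V → V → List V → ℝ)
    (h : ∀ a b l, l.length = t + 1 → p a b l = q a b l) : EE C t p = EE C t q :=
  le_antisymm (EE_mono_len C t p q fun a b l hl => (h a b l hl).le)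
    (EE_mono_len C t q p fun a b l hl => (h a b l hl).ge)

/-- the average of a constant over `V` -/
theorem avg_const (x : ℝ) : ((Fintype.card V : ℝ))⁻¹ * ∑ _a : V, x = x := by
  have hV : (Fintype.card V : ℝ) ≠ 0 := by
    have : 0 < Fintype.card V := Fintype.card_pos_iff.mpr ⟨0⟩
    positivity
  rw [Finset.sum_const, Finset.card_univ, nsmul_eq_mul]
  field_simp

theorem EE_const (C : Chain V) (t : ℕ) (x : ℝ) : EE C t (fun _ _ _ => x) = x := by
  unfold EE
  rw [show (fun l : List V => ((Fintype.card V : ℝ))⁻¹ * ∑ a, ∑ b,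
      C.rho t (l.headD 0 - a - b) * x) = fun _ => x from ?_, EP_const]
  funext l
  rw [← avg_const (V := V) x]
  congr 1
  apply Finset.sum_congr rfl
  intro a _
  rw [avg_const (V := V) x, ← Finset.sum_mul, rho_sub_sum, one_mul]

theorem EE_nonneg (C : Chain V) (t : ℕ) (p : V → V → List V → ℝ)
    (h : ∀ a b l, l.length = t + 1 → 0 ≤ p a b l) : 0 ≤ EE C t p := by
  rw [← EE_const C t 0]
  exact EE_mono_len C t _ _ h

theorem EE_add (C : Chain V) (t : ℕ) (p q : V → V → List V → ℝ) :
    EE C t (fun a b l => p a b l + q a b l) = EE C t p + EE C t q := by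
  unfold EE
  rw [← EP_add]
  congr 1
  funext l
  rw [← mul_add, ← Finset.sum_add_distrib]
  congr 1
  apply Finset.sum_congr rfl
  intro a _
  rw [← Finset.sum_add_distrib]
  apply Finset.sum_congr rfl
  intro b _
  ring

theorem EE_sub (C : Chain V) (t : ℕ) (p q : V → V → List V → ℝ) :
    EE C t (fun a b l => p a b l - q a b l) = EE C t p - EE C t q := by
  unfold EE
  rw [← EP_sub]
  congr 1
  funext l
  rw [← mul_sub, ← Finset.sum_sub_distrib]
  congr 1
  apply Finset.sum_congr rfl
  intro a _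
  rw [← Finset.sum_sub_distrib]
  apply Finset.sum_congr rfl
  intro b _
  ring

theorem EE_smul (C : Chain V) (t : ℕ) (x : ℝ) (q : V → V → List V → ℝ) :
    EE C t (fun a b l => x * q a b l) = x * EE C t q := by
  unfold EE
  rw [← EP_smul]
  congr 1
  funext l
  rw [mul_left_comm]
  congr 1
  rw [Finset.mul_sum]
  apply Finset.sum_congr rfl
  intro a _
  rw [Finset.mul_sum]
  apply Finset.sum_congr rfl
  intro b _
  ring

/-- tower property: functions of `(a, b, old path)` -/
theorem EE_tail (C : Chain V) (t : ℕ) (q : V → V → List V → ℝ) :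
    EE C (t + 1) (fun a b l => q a b l.tail) = EE C t q := by
  unfold EE
  rw [EP]
  congr 1
  funext l
  simp only [List.headD_cons, List.tail_cons]
  have h1 : ∀ s : V, C.mu t s * (((Fintype.card V : ℝ))⁻¹ *
      ∑ a, ∑ b, C.rho (t + 1) (l.headD 0 - s - a - b) * q a b l) =
      ((Fintype.card V : ℝ))⁻¹ *
      ∑ a, ∑ b, C.mu t s * C.rho (t + 1) (l.headD 0 - a - b - s) * q a b l := by
    intro s
    rw [mul_left_comm, Finset.mul_sum]
    congr 1
    apply Finset.sum_congr rfl
    intro a _
    rw [Finset.mul_sum]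
    apply Finset.sum_congr rfl
    intro b _
    rw [show l.headD 0 - s - a - b = l.headD 0 - a - b - s by abel]
    ring
  rw [Finset.sum_congr rfl fun s _ => h1 s, ← Finset.mul_sum, Finset.sum_comm]
  congr 1
  apply Finset.sum_congr rfl
  intro a _
  rw [Finset.sum_comm]
  apply Finset.sum_congr rfl
  intro b _
  rw [rho_step' C t, Finset.sum_mul]

theorem EE_swap (C : Chain V) (t : ℕ) (q : V → V → List V → ℝ) :
    EE C t (fun a b l => q b a l) = EE C t q := by
  unfold EE
  congr 1
  funext l
  congr 1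
  rw [Finset.sum_comm]
  apply Finset.sum_congr rfl
  intro a _
  apply Finset.sum_congr rfl
  intro b _
  rw [show l.headD 0 - b - a = l.headD 0 - a - b by abel]

/-- functions of `(a, path)` -/
theorem EE_left (C : Chain V) (t : ℕ) (q : V → List V → ℝ) :
    EE C t (fun a _ l => q a l) = EP C t (fun l => ((Fintype.card V : ℝ))⁻¹ * ∑ a, q a l) := by
  unfold EE
  congr 1
  funext l
  congr 1
  apply Finset.sum_congr rfl
  intro a _
  rw [← Finset.sum_mul, rho_sub_sum, one_mul]

/-- functions of `(b, path)` -/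
theorem EE_right (C : Chain V) (t : ℕ) (q : V → List V → ℝ) :
    EE C t (fun _ b l => q b l) = EP C t (fun l => ((Fintype.card V : ℝ))⁻¹ * ∑ b, q b l) := by
  rw [← EE_left C t q]
  exact EE_swap C t (fun a _ l => q a l)

/-- `EE (t+1)` written with the old path and one step `s`:
`y_(t+1) = y_t - s` -/
theorem EE_succ (C : Chain V) (t : ℕ) (q : V → V → List V → ℝ) :
    EE C (t + 1) q = EP C t (fun l => ((Fintype.card V : ℝ))⁻¹ * ∑ a, ∑ b, ∑ s,
      C.mu t s * C.rho (t + 1) (l.headD 0 - s - a - b) * q a b ((l.headD 0 - s) :: l)) := by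
  unfold EE
  rw [EP]
  congr 1
  funext l
  simp only [List.headD_cons]
  have h1 : ∀ s : V, C.mu t s * (((Fintype.card V : ℝ))⁻¹ *
      ∑ a, ∑ b, C.rho (t + 1) (l.headD 0 - s - a - b) * q a b ((l.headD 0 - s) :: l)) =
      ((Fintype.card V : ℝ))⁻¹ *
      ∑ a, ∑ b, C.mu t s * C.rho (t + 1) (l.headD 0 - s - a - b) *
        q a b ((l.headD 0 - s) :: l) := by
    intro s
    rw [mul_left_comm, Finset.mul_sum]
    congr 1
    apply Finset.sum_congr rfl
    intro a _
    rw [Finset.mul_sum]
    apply Finset.sum_congr rfl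
    intro b _
    ring
  rw [Finset.sum_congr rfl fun s _ => h1 s, ← Finset.mul_sum, Finset.sum_comm]
  congr 1
  apply Finset.sum_congr rfl
  intro a _
  rw [Finset.sum_comm]

/-- the same for `rho (t+1) = mu (t+1) * rho (t+2)` -/
theorem fresh1 (C : Chain V) (t : ℕ) (q : V → ℝ) (ε : ℝ)
    (h : ∀ z, ∑ s, C.mu (t + 1) s * q (z - s) ≤ ε) (y : V) :
    ∑ b, C.rho (t + 1) (y - b) * q b ≤ ε := by
  have h1 : ∑ b, C.rho (t + 1) (y - b) * q b =
      ∑ z, C.rho (t + 2) (y - z) * ∑ s, C.mu (t + 1) s * q (z - s) := by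
    have h2 : ∀ b, C.rho (t + 1) (y - b) * q b =
        ∑ s, C.mu (t + 1) s * C.rho (t + 2) (y - b - s) * q b := by
      intro b
      rw [rho_step' C (t + 1), Finset.sum_mul]
    have h3 : ∀ z, C.rho (t + 2) (y - z) * ∑ s, C.mu (t + 1) s * q (z - s) =
        ∑ s, C.mu (t + 1) s * C.rho (t + 2) (y - z) * q (z - s) := by
      intro z
      rw [Finset.mul_sum]
      apply Finset.sum_congr rfl
      intro s _
      ring
    rw [Finset.sum_congr rfl fun b _ => h2 b, Finset.sum_congr rfl fun z _ => h3 z,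
      Finset.sum_comm, Finset.sum_comm (s := univ) (t := univ)
        (f := fun z s => C.mu (t + 1) s * C.rho (t + 2) (y - z) * q (z - s))]
    apply Finset.sum_congr rfl
    intro s _
    rw [← Equiv.sum_comp (Equiv.addRight s)
      (fun z => C.mu (t + 1) s * C.rho (t + 2) (y - z) * q (z - s))]
    apply Finset.sum_congr rfl
    intro b _
    simp only [Equiv.coe_addRight, add_sub_cancel_right]
    rw [show y - b - s = y - (b + s) by abel]
  rw [h1]
  calc ∑ z, C.rho (t + 2) (y - z) * ∑ s, C.mu (t + 1) s * q (z - s)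
      ≤ ∑ z, C.rho (t + 2) (y - z) * ε :=
        Finset.sum_le_sum fun z _ => mul_le_mul_of_nonneg_left (h z) (C.rho_nonneg _ _)
    _ = ε := by rw [← Finset.sum_mul, rho_sub_sum, one_mul]

/-- if in every translate of `- E (t+1)` the average of `q` is at most `ε`, then the average of `q`
with respect to `rho t (y - .)` is at most `ε` (`rho t = mu t * mu (t+1) * rho (t+2)`) -/
theorem fresh0 (C : Chain V) (t : ℕ) (q : V → ℝ) (ε : ℝ)
    (h : ∀ z, ∑ s, C.mu (t + 1) s * q (z - s) ≤ ε) (y : V) : ∑ b, C.rho t (y - b) * q b ≤ ε := by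
  have h1 : ∑ b, C.rho t (y - b) * q b =
      ∑ s, C.mu t s * ∑ b, C.rho (t + 1) (y - s - b) * q b := by
    have h2 : ∀ b, C.rho t (y - b) * q b =
        ∑ s, C.mu t s * (C.rho (t + 1) (y - s - b) * q b) := by
      intro b
      rw [rho_step' C t, Finset.sum_mul]
      apply Finset.sum_congr rfl
      intro s _
      rw [show y - b - s = y - s - b by abel]
      ring
    rw [Finset.sum_congr rfl fun b _ => h2 b, Finset.sum_comm]
    apply Finset.sum_congr rfl
    intro s _
    rw [Finset.mul_sum]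
  rw [h1]
  calc ∑ s, C.mu t s * ∑ b, C.rho (t + 1) (y - s - b) * q b
      ≤ ∑ s, C.mu t s * ε :=
        Finset.sum_le_sum fun s _ =>
          mul_le_mul_of_nonneg_left (fresh1 C t q ε h (y - s)) (mu_nonneg C t s)
    _ = ε := by rw [← Finset.sum_mul, mu_sum, one_mul]

/-- uniformity is stable under differences -/
theorem HF_sub (C : Chain V) (t : ℕ) (y : V) (u u' : V → V → ℝ) (r r' ε ε' : ℝ)
    (h : HF C t y u r ε) (h' : HF C t y u' r' ε') :
    HF C t y (fun a c => u a c - u' a c) (r + r') (ε + ε') := by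
  intro w hw z
  have h1 := h w hw z
  have h2 := h' w hw z
  calc ∑ s, C.mu (t + 1) s * ind (r + r' < |ip C t y (fun c => u (z - s) c - u' (z - s) c) w|)
      ≤ ∑ s, (C.mu (t + 1) s * ind (r < |ip C t y (u (z - s)) w|) +
          C.mu (t + 1) s * ind (r' < |ip C t y (u' (z - s)) w|)) := by
        apply Finset.sum_le_sum
        intro s _
        rw [← mul_add]
        apply mul_le_mul_of_nonneg_left _ (mu_nonneg C _ s)
        refine le_trans (ind_mono ?_) (ind_or_le _ _)
        intro hlt
        rw [ip_sub_left] at hlt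
        by_contra hcon
        push Not at hcon
        have := abs_sub (ip C t y (u (z - s)) w) (ip C t y (u' (z - s)) w)
        linarith [hcon.1, hcon.2]
    _ = (∑ s, C.mu (t + 1) s * ind (r < |ip C t y (u (z - s)) w|)) +
          ∑ s, C.mu (t + 1) s * ind (r' < |ip C t y (u' (z - s)) w|) :=
        Finset.sum_add_distrib
    _ ≤ ε + ε' := add_le_add h1 h2

theorem HF_mono (C : Chain V) (t : ℕ) (y : V) (u : V → V → ℝ) (r r' ε ε' : ℝ)
    (hr : r ≤ r') (hε : ε ≤ ε') (h : HF C t y u r ε) : HF C t y u r' ε' := by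
  intro w hw z
  refine le_trans (le_trans ?_ (h w hw z)) hε
  apply Finset.sum_le_sum
  intro s _
  apply mul_le_mul_of_nonneg_left _ (mu_nonneg C _ s)
  exact ind_mono fun hlt => lt_of_le_of_lt hr hlt

theorem HF_triv (C : Chain V) (t : ℕ) (y : V) (u : V → V → ℝ) (r ε : ℝ) (hε : 1 ≤ ε) :
    HF C t y u r ε := by
  intro w _ z
  refine le_trans ?_ hε
  rw [← mu_sum C (t + 1)]
  apply Finset.sum_le_sum
  intro s _
  exact mul_le_of_le_one_right (mu_nonneg C _ s) (ind_le_one _)

end Pool.Agent.PWZ
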