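/-
PWZ (MP_4d8f14_an), end part (5), module EndUp (helper74).
The expectations `EP`, `EE` written from the finest scale upwards, and a lower bound for them.
-/
import Mathlib
import Pool.Agent.PWZ.Basic

set_option autoImplicit false

open Finset Pool.Agent.PWZ

namespace Pool.PWZ

section
variable {V : Type*} [AddCommGroup V] [Fintype V] [DecidableEq V]

/-- expectation over the older part of the path, given the last observation `y` -/
noncomputable def up (C : Chain V) : ℕ → V → (List V → ℝ) → ℝ
  | 0, y, f => f [y]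
  | t + 1, y, f => ∑ s, C.mu t s * up C t (y + s) (fun l => f (y :: l))

theorem up_congr (C : Chain V) (t : ℕ) (y : V) (f g : List V → ℝ)
    (h : ∀ l : List V, l.headD 0 = y → l.length = t + 1 → f l = g l) :
    up C t y f = up C t y g := by
  induction t generalizing y f g with
  | zero => exact h [y] rfl rfl
  | succ t ih =>
    unfold up
    refine Finset.sum_congr rfl fun s _ => ?_
    rw [ih (y + s) _ _ fun l _ hl => h (y :: l) rfl (by simp [hl])]

theorem up_smul (C : Chain V) (t : ℕ) (y : V) (x : ℝ) (f : List V → ℝ) :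
    up C t y (fun l => x * f l) = x * up C t y f := by
  induction t generalizing y f with
  | zero => rfl
  | succ t ih =>
    unfold up
    rw [Finset.mul_sum]
    refine Finset.sum_congr rfl fun s _ => ?_
    rw [ih (y + s) (fun l => f (y :: l))]
    ring

theorem up_sum (C : Chain V) (t : ℕ) (y : V) {ι : Type*} (I : Finset ι) (f : ι → List V → ℝ) :
    up C t y (fun l => ∑ i ∈ I, f i l) = ∑ i ∈ I, up C t y (f i) := by
  induction t generalizing y f with
  | zero => rfl
  | succ t ih =>
    unfold up
    rw [Finset.sum_comm]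
    refine Finset.sum_congr rfl fun s _ => ?_
    rw [ih (y + s) (fun i l => f i (y :: l)), Finset.mul_sum]

theorem up_nonneg (C : Chain V) (t : ℕ) (y : V) (f : List V → ℝ) (h : ∀ l, 0 ≤ f l) :
    0 ≤ up C t y f := by
  induction t generalizing y f with
  | zero => exact h _
  | succ t ih =>
    unfold up
    exact Finset.sum_nonneg fun s _ => mul_nonneg (mu_nonneg C t s) (ih _ _ fun l => h _)

theorem EP_eq_up (C : Chain V) (t : ℕ) (f : List V → ℝ) :
    EP C t f = ((Fintype.card V : ℝ))⁻¹ * ∑ y, up C t y f := by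
  induction t generalizing f with
  | zero => rfl
  | succ t ih =>
    have h1 : EP C (t + 1) f = EP C t (fun l => ∑ s, C.mu t s * f ((l.headD 0 - s) :: l)) := rfl
    rw [h1, ih]
    congr 1
    have h2 : ∀ y, up C t y (fun l => ∑ s, C.mu t s * f ((l.headD 0 - s) :: l)) =
        ∑ s, C.mu t s * up C t y (fun l => f ((y - s) :: l)) := by
      intro y
      rw [up_congr C t y (fun l => ∑ s, C.mu t s * f ((l.headD 0 - s) :: l))
        (fun l => ∑ s, C.mu t s * f ((y - s) :: l)) (fun l hl _ => by rw [hl])]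
      rw [up_sum C t y univ (fun s l => C.mu t s * f ((y - s) :: l))]
      exact Finset.sum_congr rfl fun s _ => up_smul C t y _ _
    rw [Finset.sum_congr rfl fun y _ => h2 y, Finset.sum_comm]
    have h3 : ∀ s, ∑ y, C.mu t s * up C t y (fun l => f ((y - s) :: l)) =
        ∑ y, C.mu t s * up C t (y + s) (fun l => f (y :: l)) := by
      intro s
      rw [← Equiv.sum_comp (Equiv.addRight s)]
      refine Finset.sum_congr rfl fun y _ => ?_
      simp
    rw [Finset.sum_congr rfl fun s _ => h3 s, Finset.sum_comm]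
    rfl

/-- at a time with no noise -/
theorem EE_top (C : Chain V) (T : ℕ) (hT : ∀ z, C.rho T z = if z = 0 then 1 else 0)
    (q : V → V → List V → ℝ) :
    EE C T q = ((Fintype.card V : ℝ))⁻¹ * (((Fintype.card V : ℝ))⁻¹ *
      ∑ a, ∑ b, up C T (a + b) (q a b)) := by
  unfold EE
  rw [EP_eq_up]
  congr 1
  have h2 : ∀ y, up C T y (fun l => ((Fintype.card V : ℝ))⁻¹ * ∑ a, ∑ b,
      C.rho T (l.headD 0 - a - b) * q a b l) =
      ((Fintype.card V : ℝ))⁻¹ * ∑ a, ∑ b, C.rho T (y - a - b) * up C T y (q a b) := by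
    intro y
    rw [up_congr C T y _ (fun l => ((Fintype.card V : ℝ))⁻¹ * ∑ a, ∑ b,
      C.rho T (y - a - b) * q a b l) (fun l hl _ => by rw [hl])]
    rw [up_smul, up_sum]
    congr 1
    refine Finset.sum_congr rfl fun a _ => ?_
    rw [up_sum]
    exact Finset.sum_congr rfl fun b _ => up_smul C T y _ _
  rw [Finset.sum_congr rfl fun y _ => h2 y, ← Finset.mul_sum]
  congr 1
  rw [Finset.sum_comm]
  refine Finset.sum_congr rfl fun a _ => ?_
  rw [Finset.sum_comm]
  refine Finset.sum_congr rfl fun b _ => ?_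
  rw [Finset.sum_eq_single (a + b)]
  · rw [hT, if_pos (by abel), one_mul]
  · intro y _ hy
    rw [hT, if_neg, zero_mul]
    intro h
    apply hy
    have : y - a - b = y - (a + b) := by abel
    rw [this] at h
    exact sub_eq_zero.mp h
  · intro h; exact absurd (Finset.mem_univ _) h

theorem EE_up_to (C : Chain V) (t d : ℕ) (q : V → V → List V → ℝ) :
    EE C (t + d) (fun a b l => q a b (l.drop d)) = EE C t q := by
  induction d with
  | zero => rfl
  | succ d ih =>
    rw [← ih, ← EE_tail C (t + d)]
    have : (fun (a b : V) (l : List V) => q a b (l.drop (d + 1))) =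
        (fun (a b : V) (l : List V) => q a b (l.tail.drop d)) := by
      funext a b l
      cases l <;> simp
    rw [this]
    rfl

/-- paths with steps in given sets -/
def IsP (S : ℕ → Finset V) : ℕ → V → List V → Prop
  | 0, y, l => l = [y]
  | t + 1, y, l => ∃ s ∈ S t, ∃ l', IsP S t (y + s) l' ∧ l = y :: l'

/-- lower bound for expectations -/
theorem up_lower (C : Chain V) (S : ℕ → Finset V) (hS : ∀ t, S t ⊆ C.E t) (T : ℕ) (y : V)
    (q : List V → ℝ) (h0 : ∀ l, 0 ≤ q l) (h1 : ∀ l, IsP S T y l → 1 ≤ q l) :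
    ∏ t ∈ range T, (((S t).card : ℝ) / ((C.E t).card : ℝ)) ≤ up C T y q := by
  induction T generalizing y q with
  | zero =>
    simp only [Finset.range_zero, Finset.prod_empty]
    exact h1 [y] rfl
  | succ T ih =>
    rw [Finset.prod_range_succ]
    have hs : ∀ s ∈ S T, ∏ t ∈ range T, (((S t).card : ℝ) / ((C.E t).card : ℝ)) ≤
        up C T (y + s) (fun l => q (y :: l)) := by
      intro s hs
      exact ih (y + s) (fun l => q (y :: l)) (fun l => h0 _)
        (fun l hl => h1 (y :: l) ⟨s, hs, l, hl, rfl⟩)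
    have hE : (0 : ℝ) < ((C.E T).card : ℝ) := by
      exact_mod_cast (C.ne T).card_pos
    calc (∏ t ∈ range T, (((S t).card : ℝ) / ((C.E t).card : ℝ))) *
          (((S T).card : ℝ) / ((C.E T).card : ℝ))
        = ∑ s ∈ S T, (((C.E T).card : ℝ))⁻¹ *
          ∏ t ∈ range T, (((S t).card : ℝ) / ((C.E t).card : ℝ)) := by
          rw [Finset.sum_const, nsmul_eq_mul]
          field_simp
      _ ≤ ∑ s ∈ S T, (((C.E T).card : ℝ))⁻¹ * up C T (y + s) (fun l => q (y :: l)) :=
          Finset.sum_le_sum fun s hs' => mul_le_mul_of_nonneg_left (hs s hs') (by positivity)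
      _ = ∑ s ∈ S T, C.mu T s * up C T (y + s) (fun l => q (y :: l)) := by
          refine Finset.sum_congr rfl fun s hs' => ?_
          congr 1
          unfold Chain.mu unif
          rw [if_pos (hS T hs')]
      _ ≤ ∑ s, C.mu T s * up C T (y + s) (fun l => q (y :: l)) := by
          refine Finset.sum_le_sum_of_subset_of_nonneg (Finset.subset_univ _) fun s _ _ => ?_
          exact mul_nonneg (mu_nonneg C T s) (up_nonneg C T _ _ fun l => h0 _)

end

/-- the positions along a path whose steps are casts of small integers -/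
theorem IsP_pos {M : ℕ} (S : ℕ → Finset (ZMod M)) (B : ℕ → ℕ)
    (hS : ∀ t, ∀ s ∈ S t, ∃ u : ℤ, |u| ≤ (B t : ℤ) ∧ s = (u : ZMod M)) (T : ℕ) (y : ZMod M)
    (l : List (ZMod M)) (h : IsP S T y l) :
    l.length = T + 1 ∧ ∀ t ≤ T, ∃ W : ℤ, |W| ≤ ∑ i ∈ Finset.Ico t T, (B i : ℤ) ∧
      (l.drop (T - t)).headD 0 = y + (W : ZMod M) := by
  induction T generalizing y l with
  | zero =>
    have hl : l = [y] := h
    subst hl
    refine ⟨rfl, fun t ht => ⟨0, ?_, ?_⟩⟩
    · simp
    · have : t = 0 := by omega
      subst this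
      simp
  | succ T ih =>
    obtain ⟨s, hs, l', hl', rfl⟩ := h
    obtain ⟨h1, h2⟩ := ih (y + s) l' hl'
    refine ⟨by simp [h1], fun t ht => ?_⟩
    rcases Nat.lt_or_ge T t with htT | htT
    · have : t = T + 1 := by omega
      subst this
      refine ⟨0, by simp, by simp⟩
    · obtain ⟨W, hW1, hW2⟩ := h2 t htT
      obtain ⟨u, hu1, hu2⟩ := hS T s hs
      refine ⟨W + u, ?_, ?_⟩
      · rw [Finset.sum_Ico_succ_top htT]
        exact (abs_add_le W u).trans (add_le_add hW1 hu1)
      · rw [show T + 1 - t = (T - t) + 1 by omega, List.drop_succ_cons, hW2, hu2]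
        push_cast
        ring

end Pool.PWZ
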