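/-
PWZ (MP_4d8f14_an), end part (5), module EndBlock (helper74).
If the sharp averages oscillate between the levels `k < k'` then with probability at least
`(1/(2d))^2` (over the noises) there is a mark between them.
-/
import Mathlib
import Pool.Agent.PWZ.EndUp
import Pool.Agent.PWZ.EndChain

set_option autoImplicit false

open Finset Pool.Agent.PWZ

namespace Pool.PWZ

/-- small steps at the times `t1`, `t2` -/
noncomputable def zS (N : ℕ → ℕ) (T M d t1 t2 t : ℕ) : Finset (ZMod M) :=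
  if t = t1 ∨ t = t2 then
    (Finset.Icc (-((N (T - 1 - t) / d : ℕ) : ℤ)) ((N (T - 1 - t) / d : ℕ) : ℤ)).image
      (fun u : ℤ => (u : ZMod M))
  else zE N T M t

lemma zS_sub (N : ℕ → ℕ) (T M d t1 t2 : ℕ) (h1 : t1 < T) (h2 : t2 < T) (t : ℕ) :
    zS N T M d t1 t2 t ⊆ zE N T M t := by
  unfold zS
  split_ifs with h
  · have ht : t < T := by omega
    unfold zE
    rw [if_pos ht]
    apply Finset.image_subset_image
    have := Nat.div_le_self (N (T - 1 - t)) d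
    apply Finset.Icc_subset_Icc <;> omega
  · exact Finset.Subset.refl _

/-- bound for the steps in `zS` -/
def zB (N : ℕ → ℕ) (T d t1 t2 t : ℕ) : ℕ :=
  if t = t1 ∨ t = t2 then N (T - 1 - t) / d else if t < T then N (T - 1 - t) else 0

lemma zS_bound (N : ℕ → ℕ) (T M d t1 t2 t : ℕ) (s : ZMod M) (hs : s ∈ zS N T M d t1 t2 t) :
    ∃ u : ℤ, |u| ≤ (zB N T d t1 t2 t : ℤ) ∧ s = (u : ZMod M) := by
  unfold zS at hs
  unfold zB
  split_ifs at hs ⊢ with h h'
  · rw [Finset.mem_image] at hs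
    obtain ⟨u, hu, rfl⟩ := hs
    rw [Finset.mem_Icc] at hu
    exact ⟨u, abs_le.mpr hu, rfl⟩
  · unfold zE at hs
    rw [if_pos h', Finset.mem_image] at hs
    obtain ⟨u, hu, rfl⟩ := hs
    rw [Finset.mem_Icc] at hu
    exact ⟨u, abs_le.mpr hu, rfl⟩
  · unfold zE at hs
    rw [if_neg h', Finset.mem_singleton] at hs
    exact ⟨0, by simp, by simp [hs]⟩

lemma zS_ratio (N : ℕ → ℕ) (T M d t1 t2 t : ℕ) (h : ∀ k < T, 2 * N k + 1 ≤ M) (hd : 1 ≤ d)
    (ht : t < T) (htt : t = t1 ∨ t = t2) :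
    1 / (2 * (d : ℝ)) ≤ ((zS N T M d t1 t2 t).card : ℝ) / ((zE N T M t).card : ℝ) := by
  have hM : 2 * N (T - 1 - t) + 1 ≤ M := h _ (by omega)
  rw [zE_card N T M t ht hM]
  have hle := Nat.div_le_self (N (T - 1 - t)) d
  have hcard : (zS N T M d t1 t2 t).card = 2 * (N (T - 1 - t) / d) + 1 := by
    unfold zS
    rw [if_pos htt, Finset.card_image_of_injOn, card_Icc_sym]
    intro u hu v hv huv
    have hsub : Finset.Icc (-((N (T - 1 - t) / d : ℕ) : ℤ)) ((N (T - 1 - t) / d : ℕ) : ℤ) ⊆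
        Finset.Icc (-(N (T - 1 - t) : ℤ)) (N (T - 1 - t) : ℤ) := by
      apply Finset.Icc_subset_Icc <;> omega
    exact zch_inj (N (T - 1 - t)) M hM u v (hsub hu) (hsub hv) huv
  rw [hcard]
  have hd' : (0 : ℝ) < d := by exact_mod_cast hd
  have h1 : N (T - 1 - t) < d * (N (T - 1 - t) / d + 1) := Nat.lt_mul_div_succ _ hd
  have h2 : 2 * N (T - 1 - t) + 1 ≤ (2 * (N (T - 1 - t) / d) + 1) * (2 * d) := by
    have h3 : (2 * (N (T - 1 - t) / d) + 1) * (2 * d) =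
      2 * (d * (N (T - 1 - t) / d + 1)) + 2 * (d * (N (T - 1 - t) / d)) := by ring
    omega
  have h2' : ((2 * N (T - 1 - t) + 1 : ℕ) : ℝ) ≤
      ((2 * (N (T - 1 - t) / d) + 1 : ℕ) : ℝ) * (2 * d) := by exact_mod_cast h2
  have hpos : (0 : ℝ) < ((2 * N (T - 1 - t) + 1 : ℕ) : ℝ) := by positivity
  rw [div_le_div_iff₀ (by positivity) hpos, one_mul]
  exact h2'

lemma zS_prod (N : ℕ → ℕ) (T M d t1 t2 : ℕ) (h : ∀ k < T, 2 * N k + 1 ≤ M) (hd : 1 ≤ d)
    (h1 : t1 < T) (h2 : t2 < T) (h12 : t1 ≠ t2) :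
    (1 / (2 * (d : ℝ))) ^ 2 ≤
      ∏ t ∈ range T, (((zS N T M d t1 t2 t).card : ℝ) / ((zE N T M t).card : ℝ)) := by
  rw [Finset.prod_eq_mul t1 t2 h12]
  · rw [sq]
    have e1 := zS_ratio N T M d t1 t2 t1 h hd h1 (Or.inl rfl)
    have e2 := zS_ratio N T M d t1 t2 t2 h hd h2 (Or.inr rfl)
    exact mul_le_mul e1 e2 (by positivity) (le_trans (by positivity) e1)
  · intro t ht htt
    have : zS N T M d t1 t2 t = zE N T M t := by
      unfold zS
      rw [if_neg]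
      rintro (rfl | rfl)
      · exact htt.1 rfl
      · exact htt.2 rfl
    rw [this]
    apply div_self
    have := (zE_ne N T M t).card_pos
    exact_mod_cast this.ne'
  · intro hh; exact absurd (Finset.mem_range.mpr h1) hh
  · intro hh; exact absurd (Finset.mem_range.mpr h2) hh

/-- sum of the levels below `k` -/
lemma sum_low (N : ℕ → ℕ) (R : ℕ) (hR : 1 ≤ R) (hlow : ∀ k, 2 ^ R * N k ≤ N (k + 1)) (k : ℕ) :
    (2 ^ R : ℕ) * ∑ i ∈ range k, N i ≤ 2 * N k := by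
  induction k with
  | zero => simp
  | succ k ih =>
    rw [Finset.sum_range_succ, mul_add]
    have h2 : 2 ≤ 2 ^ R := by
      calc 2 = 2 ^ 1 := rfl
        _ ≤ 2 ^ R := Nat.pow_le_pow_right (by norm_num) hR
    have h3 := hlow k
    nlinarith [Nat.zero_le (N k)]

/-- sum of the bounds `zB` over the times `≥ t` -/
lemma zB_sum (N : ℕ → ℕ) (T d t1 t2 t : ℕ) (htT : t < T) (ht : t = t1 ∨ t = t2) :
    ∑ i ∈ Finset.Ico t T, (zB N T d t1 t2 i : ℤ) ≤
      (N (T - 1 - t) / d : ℕ) + ∑ i ∈ range (T - 1 - t), (N i : ℤ) := by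
  rw [← Finset.sum_Ioo_add_eq_sum_Ico htT]
  have e1 : (zB N T d t1 t2 t : ℤ) = (N (T - 1 - t) / d : ℕ) := by
    unfold zB; rw [if_pos ht]
  rw [e1, add_comm]
  gcongr
  have e2 : ∀ i ∈ Finset.Ioo t T, (zB N T d t1 t2 i : ℤ) ≤ (N (T - 1 - i) : ℤ) := by
    intro i hi
    rw [Finset.mem_Ioo] at hi
    unfold zB
    have := Nat.div_le_self (N (T - 1 - i)) d
    split_ifs <;> omega
  refine (Finset.sum_le_sum e2).trans (le_of_eq ?_)
  refine Finset.sum_bij' (fun i _ => T - 1 - i) (fun j _ => T - 1 - j) ?_ ?_ ?_ ?_ ?_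
  · intro i hi; rw [Finset.mem_Ioo] at hi; rw [Finset.mem_range]; omega
  · intro i hi; rw [Finset.mem_range] at hi; rw [Finset.mem_Ioo]; omega
  · intro i hi; rw [Finset.mem_Ioo] at hi; omega
  · intro i hi; rw [Finset.mem_range] at hi; omega
  · intro i hi; rfl

/-- the smoothed average seen from a path with small steps at `t1`, `t2` is close to the sharp
average -/
lemma XX_close (N : ℕ → ℕ) (T M : ℕ) [NeZero M] (h : ∀ k < T, 2 * N k + 1 ≤ M) (R d : ℕ)
    (hR : 1 ≤ R) (hd : 1 ≤ d) (hN : ∀ k, 0 < N k) (hlow : ∀ k, 2 ^ R * N k ≤ N (k + 1))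
    (φ : ℤ → ℝ) (hφ : ∀ n, |φ n| ≤ 1) (F G : ZMod M → ZMod M → ℝ) (a b : ZMod M)
    (hFG : ∀ w : ℤ, |w| ≤ 2 * ∑ i ∈ range T, (N i : ℤ) →
      F b (a + b + (w : ZMod M)) * G a (a + b + (w : ZMod M)) = φ w)
    (t1 t2 t : ℕ) (htT : t < T) (ht : t = t1 ∨ t = t2) (l : List (ZMod M))
    (hl : IsP (zS N T M d t1 t2) T (a + b) l) :
    |XX (zch N T M h) F G (l.drop (T - t)) a b - av φ (N (T - 1 - t))| ≤
      1 / d + 4 / 2 ^ R := by
  obtain ⟨hlen, hpos⟩ := IsP_pos (zS N T M d t1 t2) (zB N T d t1 t2)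
    (fun t s hs => zS_bound N T M d t1 t2 t s hs) T (a + b) l hl
  obtain ⟨W, hW, hy⟩ := hpos t htT.le
  set k := T - 1 - t with hk
  have hTt : T - t = k + 1 := by omega
  have hW' : |W| ≤ (N k / d : ℕ) + ∑ i ∈ range k, (N i : ℤ) :=
    hW.trans (zB_sum N T d t1 t2 t htT ht)
  have hlen' : (l.drop (T - t)).length - 1 = t := by
    rw [List.length_drop, hlen]; omega
  unfold XX
  rw [hlen', zch_ip, hy, hTt]
  have hsumk : ∑ i ∈ range (k + 1), (N i : ℤ) ≤ ∑ i ∈ range T, (N i : ℤ) := by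
    apply Finset.sum_le_sum_of_subset_of_nonneg
    · apply Finset.range_subset_range.mpr; omega
    · intro i _ _; positivity
  have hsumk' : (N k / d : ℕ) + ∑ i ∈ range k, (N i : ℤ) ≤ ∑ i ∈ range (k + 1), (N i : ℤ) := by
    rw [Finset.sum_range_succ]
    have := Nat.div_le_self (N k) d
    have h' : ((N k / d : ℕ) : ℤ) ≤ N k := by exact_mod_cast this
    linarith
  have hcongr : eR N (k + 1) (fun w : ℤ => F b (a + b + (W : ZMod M) - (w : ZMod M)) *
      G a (a + b + (W : ZMod M) - (w : ZMod M))) = eR N (k + 1) (fun w => φ (W - w)) := by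
    apply eR_congr
    intro w hw
    have := hFG (W - w) (by
      have h1 : |W - w| ≤ |W| + |w| := abs_sub _ _
      linarith)
    rw [← this]
    push_cast
    rw [add_sub_assoc]
  rw [hcongr]
  refine (eR_close N k φ hφ W).trans ?_
  have hNk : (0 : ℝ) < N k := by exact_mod_cast hN k
  have hd' : (0 : ℝ) < d := by exact_mod_cast hd
  have hWR : |(W : ℝ)| ≤ (N k : ℝ) / d + ∑ i ∈ range k, (N i : ℝ) := by
    have h1 : ((|W| : ℤ) : ℝ) ≤ (((N k / d : ℕ) + ∑ i ∈ range k, (N i : ℤ) : ℤ) : ℝ) := by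
      exact_mod_cast hW'
    push_cast at h1
    have h2 : ((N k / d : ℕ) : ℝ) ≤ (N k : ℝ) / d := Nat.cast_div_le
    have h3 : (((N k / d : ℕ) : ℤ) : ℝ) = ((N k / d : ℕ) : ℝ) := by norm_cast
    have h4 : ((N k : ℤ) / (d : ℤ) : ℤ) = ((N k / d : ℕ) : ℤ) := by norm_cast
    rw [h4, h3] at h1
    linarith
  have hsum := sum_low N R hR hlow k
  have hsumR : (2 : ℝ) ^ R * ∑ i ∈ range k, (N i : ℝ) ≤ 2 * N k := by exact_mod_cast hsum
  have h2R : (0 : ℝ) < 2 ^ R := by positivity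
  have hsumR' : ∑ i ∈ range k, (N i : ℝ) ≤ 2 * N k / 2 ^ R := by
    rw [le_div_iff₀ h2R]; linarith
  have hden : (0 : ℝ) < 2 * N k + 1 := by positivity
  rw [div_le_iff₀ hden]
  have h5 : 2 * (|(W : ℝ)| + ∑ i ∈ range k, (N i : ℝ)) ≤
      2 * ((N k : ℝ) / d + 2 * (2 * N k / 2 ^ R)) := by linarith
  refine h5.trans ?_
  have h6 : 2 * ((N k : ℝ) / d + 2 * (2 * N k / 2 ^ R)) = (1 / d + 4 / 2 ^ R) * (2 * N k) := by
    field_simp
    ring
  rw [h6]
  gcongr
  linarith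

/-- a mark between two levels with different averages has probability at least `(1/(2d))^2` -/
theorem block_lower (N : ℕ → ℕ) (T M : ℕ) [NeZero M] (h : ∀ k < T, 2 * N k + 1 ≤ M) (R d : ℕ)
    (hR : 1 ≤ R) (hd : 1 ≤ d) (hN : ∀ k, 0 < N k) (hlow : ∀ k, 2 ^ R * N k ≤ N (k + 1))
    (φ : ℤ → ℝ) (hφ : ∀ n, |φ n| ≤ 1) (F G : ZMod M → ZMod M → ℝ) (a b : ZMod M)
    (hFG : ∀ w : ℤ, |w| ≤ 2 * ∑ i ∈ range T, (N i : ℤ) →
      F b (a + b + (w : ZMod M)) * G a (a + b + (w : ZMod M)) = φ w)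
    (mark : List (ZMod M) → Prop) (c0 c : ℝ)
    (hmark : ∀ (l : List (ZMod M)) (i : ℕ), l.length ≤ (T - 2) + 1 → i < l.length →
      (∀ j < i, ¬ mark (l.drop j)) →
      |XX (zch N T M h) F G l a b - XX (zch N T M h) F G (l.drop i) a b| ≤ c0)
    (hc : c0 + 2 * (1 / d + 4 / 2 ^ R) < c)
    (k k' : ℕ) (hk : 1 ≤ k) (hkk : k < k') (hk' : k' < T)
    (hosc : c ≤ |av φ (N k) - av φ (N k')|) :
    (1 / (2 * (d : ℝ))) ^ 2 ≤ up (zch N T M h) T (a + b)
      (fun l => ∑ t ∈ Finset.Ico (T - k') (T - k), ind (mark (l.drop (T - t)))) := by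
  have ht1 : T - 1 - k < T := by omega
  have ht2 : T - 1 - k' < T := by omega
  refine (zS_prod N T M d (T - 1 - k) (T - 1 - k') h hd ht1 ht2 (by omega)).trans ?_
  refine up_lower (zch N T M h) (zS N T M d (T - 1 - k) (T - 1 - k'))
    (fun t => zS_sub N T M d _ _ ht1 ht2 t) T (a + b) _
    (fun l => Finset.sum_nonneg fun t _ => ind_nonneg _) ?_
  intro l hl
  have e1 := XX_close N T M h R d hR hd hN hlow φ hφ F G a b hFG (T - 1 - k) (T - 1 - k')
    (T - 1 - k) ht1 (Or.inl rfl) l hl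
  have e2 := XX_close N T M h R d hR hd hN hlow φ hφ F G a b hFG (T - 1 - k) (T - 1 - k')
    (T - 1 - k') ht2 (Or.inr rfl) l hl
  rw [show T - 1 - (T - 1 - k) = k by omega, show T - (T - 1 - k) = k + 1 by omega] at e1
  rw [show T - 1 - (T - 1 - k') = k' by omega, show T - (T - 1 - k') = k' + 1 by omega] at e2
  obtain ⟨hlen, -⟩ := IsP_pos (zS N T M d (T - 1 - k) (T - 1 - k'))
    (zB N T d (T - 1 - k) (T - 1 - k'))
    (fun t s hs => zS_bound N T M d _ _ t s hs) T (a + b) l hl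
  -- there is a mark
  have hex : ∃ t ∈ Finset.Ico (T - k') (T - k), mark (l.drop (T - t)) := by
    by_contra hcon
    push Not at hcon
    have h1 := hmark (l.drop (k + 1)) (k' - k) (by rw [List.length_drop, hlen]; omega)
      (by rw [List.length_drop, hlen]; omega) (by
        intro j hj
        rw [List.drop_drop]
        have := hcon (T - 1 - k - j) (by rw [Finset.mem_Ico]; omega)
        rwa [show T - (T - 1 - k - j) = k + 1 + j by omega] at this)
    rw [List.drop_drop, show k + 1 + (k' - k) = k' + 1 by omega] at h1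
    rw [abs_le] at e1 e2 h1
    rcases le_abs.mp hosc with h2 | h2 <;> linarith [e1.1, e1.2, e2.1, e2.2, h1.1, h1.2]
  obtain ⟨t, ht, hmt⟩ := hex
  calc (1 : ℝ) = ind (mark (l.drop (T - t))) := (ind_of hmt).symm
    _ ≤ ∑ t ∈ Finset.Ico (T - k') (T - k), ind (mark (l.drop (T - t))) :=
      Finset.single_le_sum (f := fun t => ind (mark (l.drop (T - t))))
        (fun t _ => ind_nonneg _) ht

end Pool.PWZ
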