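/-
PWZ (MP_4d8f14_an), end part (5), module EndPoint (helper74).
For one base point: the number of oscillating blocks is bounded by the expected number of marks.
-/
import Mathlib
import Pool.Agent.PWZ.EndBlock
import Pool.Agent.PWZ.EndOsc

set_option autoImplicit false

open Finset Pool.Agent.PWZ

namespace Pool.PWZ

/-- the averages `a` oscillate by at least `c` over the levels `[p, q)` -/
def OscP (a : ℕ → ℝ) (c : ℝ) (p q : ℕ) : Prop :=
  ∃ k ∈ Set.Ico p q, ∃ k' ∈ Set.Ico p q, c ≤ |a k - a k'|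

lemma mem_oscSet {X : Type*} (a : ℕ → X → ℝ) (c : ℝ) (p q : ℕ) (x : X) :
    x ∈ oscSet a c p q ↔ OscP (fun k => a k x) c p q := Iff.rfl

/-- ordered version -/
lemma OscP.exists_lt {a : ℕ → ℝ} {c : ℝ} {p q : ℕ} (hc : 0 < c) (h : OscP a c p q) :
    ∃ k k', p ≤ k ∧ k < k' ∧ k' < q ∧ c ≤ |a k - a k'| := by
  obtain ⟨k, hk, k', hk', h⟩ := h
  rcases lt_trichotomy k k' with hlt | heq | hgt
  · exact ⟨k, k', hk.1, hlt, hk'.2, h⟩
  · subst heq
    simp at h
    linarith
  · refine ⟨k', k, hk'.1, hgt, hk.2, ?_⟩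
    rw [abs_sub_comm]; exact h

theorem up_mono (M : ℕ) [NeZero M] (C : Chain (ZMod M)) (t : ℕ) (y : ZMod M)
    (f g : List (ZMod M) → ℝ) (h : ∀ l, f l ≤ g l) : up C t y f ≤ up C t y g := by
  have h1 := up_nonneg C t y (fun l => g l + (-1) * f l) (fun l => by linarith [h l])
  have h2 : up C t y (fun l => g l + (-1) * f l) = up C t y g + (-1) * up C t y f := by
    have h3 := up_sum C t y (univ : Finset Bool)
      (fun b l => if b then g l else (-1) * f l)
    simp only [Fintype.sum_bool, if_true, Bool.false_eq_true, if_false] at h3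
    have h4 := up_smul C t y (-1) f
    rw [h4] at h3
    exact h3
  linarith

/-- marks in disjoint blocks of times -/
lemma blocks_sum (T J : ℕ) (p : ℕ → ℕ) (hp : StrictMono p) (hp0 : 1 ≤ p 0) (hT : p J = T)
    (x : ℕ → ℝ) (hx : ∀ t, 0 ≤ x t) :
    ∑ j ∈ range J, ∑ t ∈ Finset.Ico (T - p (j + 1) + 1) (T - p j), x t ≤
      ∑ t ∈ range (T - 2), x (t + 1) := by
  have hdisj : Set.PairwiseDisjoint (↑(range J) : Set ℕ)
      (fun j => Finset.Ico (T - p (j + 1) + 1) (T - p j)) := by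
    have key : ∀ i j, i < j → Disjoint (Finset.Ico (T - p (i + 1) + 1) (T - p i))
        (Finset.Ico (T - p (j + 1) + 1) (T - p j)) := by
      intro i j hij
      rw [Finset.disjoint_left]
      intro t ht ht'
      rw [Finset.mem_Ico] at ht ht'
      have : p (i + 1) ≤ p j := hp.monotone hij
      omega
    intro i _ j _ hij
    rcases lt_or_gt_of_ne hij with h | h
    · exact key i j h
    · exact (key j i h).symm
  rw [← Finset.sum_biUnion hdisj]
  have h1 : ∑ t ∈ range (T - 2), x (t + 1) = ∑ t ∈ Finset.Ico 1 (T - 1), x t := by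
    rw [Finset.sum_Ico_eq_sum_range]
    have : T - 1 - 1 = T - 2 := by omega
    rw [this]
    exact Finset.sum_congr rfl fun t _ => by rw [add_comm]
  rw [h1]
  apply Finset.sum_le_sum_of_subset_of_nonneg
  · intro t ht
    rw [Finset.mem_biUnion] at ht
    obtain ⟨j, hj, ht⟩ := ht
    rw [Finset.mem_range] at hj
    rw [Finset.mem_Ico] at ht ⊢
    have h2 : p 0 ≤ p j := hp.monotone (Nat.zero_le j)
    omega
  · intro t _ _; exact hx t

/-- the number of oscillating blocks at one base point -/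
theorem point_bound (N : ℕ → ℕ) (T M : ℕ) [NeZero M] (h : ∀ k < T, 2 * N k + 1 ≤ M) (R d : ℕ)
    (hR : 1 ≤ R) (hd : 1 ≤ d) (hN : ∀ k, 0 < N k) (hlow : ∀ k, 2 ^ R * N k ≤ N (k + 1))
    (φ : ℤ → ℝ) (hφ : ∀ n, |φ n| ≤ 1) (F G : ZMod M → ZMod M → ℝ) (a b : ZMod M)
    (hFG : ∀ w : ℤ, |w| ≤ 2 * ∑ i ∈ range T, (N i : ℤ) →
      F b (a + b + (w : ZMod M)) * G a (a + b + (w : ZMod M)) = φ w)
    (mark : List (ZMod M) → Prop) (c0 c : ℝ) (hcpos : 0 < c)
    (hmark : ∀ (l : List (ZMod M)) (i : ℕ), l.length ≤ (T - 2) + 1 → i < l.length →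
      (∀ j < i, ¬ mark (l.drop j)) →
      |XX (zch N T M h) F G l a b - XX (zch N T M h) F G (l.drop i) a b| ≤ c0)
    (hc : c0 + 2 * (1 / d + 4 / 2 ^ R) < c)
    (J : ℕ) (p : ℕ → ℕ) (hp : StrictMono p) (hp0 : 1 ≤ p 0) (hT : p J = T) :
    (1 / (2 * (d : ℝ))) ^ 2 *
        ∑ j ∈ range J, ind (OscP (fun k => av φ (N k)) c (p j) (p (j + 1))) ≤
      up (zch N T M h) T (a + b)
        (fun l => ∑ t ∈ range (T - 2), ind (mark (l.drop (T - (t + 1))))) := by
  rw [Finset.mul_sum]
  have hj : ∀ j ∈ range J, (1 / (2 * (d : ℝ))) ^ 2 *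
      ind (OscP (fun k => av φ (N k)) c (p j) (p (j + 1))) ≤
      up (zch N T M h) T (a + b)
        (fun l => ∑ t ∈ Finset.Ico (T - p (j + 1) + 1) (T - p j), ind (mark (l.drop (T - t)))) := by
    intro j hj
    rw [Finset.mem_range] at hj
    by_cases hosc : OscP (fun k => av φ (N k)) c (p j) (p (j + 1))
    · rw [ind_of hosc, mul_one]
      obtain ⟨k, k', hk1, hk2, hk3, hk4⟩ := hosc.exists_lt hcpos
      have hpj : p (j + 1) ≤ p J := hp.monotone hj
      have hp0j : p 0 ≤ p j := hp.monotone (Nat.zero_le j)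
      refine (block_lower N T M h R d hR hd hN hlow φ hφ F G a b hFG mark c0 c hmark hc k k'
        (by omega) hk2 (by omega) hk4).trans ?_
      apply up_mono
      intro l
      apply Finset.sum_le_sum_of_subset_of_nonneg
      · apply Finset.Ico_subset_Ico <;> omega
      · intro t _ _; exact ind_nonneg _
    · rw [ind_not hosc, mul_zero]
      exact up_nonneg _ _ _ _ fun l => Finset.sum_nonneg fun t _ => ind_nonneg _
  refine (Finset.sum_le_sum hj).trans ?_
  rw [← up_sum]
  apply up_mono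
  intro l
  exact blocks_sum T J p hp hp0 hT (fun t => ind (mark (l.drop (T - t)))) fun t => ind_nonneg _

end Pool.PWZ
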