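/-
PWZ (MP_4d8f14_an), end part (5), module EndFinal.  Architect of part (5): helper74.
From the core theorem (real bounded functions, two commuting maps) to the final statement in the
shape of the frozen statement S04625 (two functions, commuting `T_1, …, T_d`, `P_ij` linear).

PROOF.  (1) `(P i j).eval n = a i j * n` with `a i j = (P i j).coeff 1` (natDegree ≤ 1, eval 0 = 0).
(2) `U j := (List.ofFn fun i => T i ^ a i j).prod`.  As all `T i` commute,
`(List.ofFn fun i => T i ^ (a i j * n)).prod = U j ^ n` (induction on lists, or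
`List.prod_map_zpow`-like statement; `Commute.mul_zpow`), `U 0` and `U 1` commute, every `U j` is
measure preserving with measurable inverse (products, powers, inverses of such maps; all of this
is easiest with a subgroup of `Equiv.Perm X`: {g | MeasurePreserving g μ μ ∧ Measurable g.symm},
so `MeasurePreserving g.symm μ μ` follows from `MeasurePreserving.symm`-type arguments).
(3) For `f j : X → ℂ` in `L^∞`: strongly measurable representative `f' j`, bound `M ≥ 1` with
`‖f j x‖ ≤ M` a.e.; real functions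
`g j 0 x = max (-1) (min 1 ((f' j x).re / M))`, `g j 1 x = max (-1) (min 1 ((f' j x).im / M))`
are measurable and bounded by `1`; for a.e. `x`, for all `n : ℤ` and `j`:
`f j ((U j ^ n) x) = M * (g j 0 ((U j ^ n) x) + g j 1 ((U j ^ n) x) * I)`
(`ae_all_iff`, `MeasurePreserving.quasiMeasurePreserving`, `QuasiMeasurePreserving.ae`).
(4) Apply `core` to the four pairs `(g 0 s, g 1 t)` and `U 0`, `U 1`; the complex average is
`M^2 * ((av_00 - av_11) + I * (av_01 + av_10))`, so it converges.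
-/
import Mathlib
import Pool.Agent.PWZ.EndAvg

set_option autoImplicit false

open MeasureTheory Filter Topology
open scoped ENNReal

namespace Pool.PWZ

/-- the core statement: a.e. convergence for two commuting maps and real bounded functions -/
def Core : Prop :=
  ∀ (X : Type) [MeasurableSpace X] (μ : Measure X) [IsProbabilityMeasure μ]
    (T S : Equiv.Perm X), Measurable ⇑T.symm → MeasurePreserving ⇑T μ μ →
    Measurable ⇑S.symm → MeasurePreserving ⇑S μ μ → Commute T S →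
    ∀ f g : X → ℝ, Measurable f → Measurable g → (∀ x, |f x| ≤ 1) → (∀ x, |g x| ≤ 1) →
    ∀ᵐ x ∂μ, ∃ L : ℝ,
      Tendsto (fun N : ℕ => av (fun n => f ((T ^ n) x) * g ((S ^ n) x)) N) atTop (𝓝 L)

/-! ### permutations which preserve the measure, together with their inverses -/

section aux

variable {X : Type} [MeasurableSpace X] {μ : Measure X}

/-- `g` and `g⁻¹` preserve `μ` -/
private structure Mp (μ : Measure X) (g : Equiv.Perm X) : Prop where
  mp : MeasurePreserving ⇑g μ μ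
  symm : MeasurePreserving ⇑g.symm μ μ

private lemma Mp.of {g : Equiv.Perm X} (h1 : Measurable ⇑g.symm)
    (h2 : MeasurePreserving ⇑g μ μ) : Mp μ g := by
  refine ⟨h2, ?_⟩
  let e : X ≃ᵐ X := ⟨g, h2.measurable, h1⟩
  have h3 : MeasurePreserving ⇑e μ μ := h2
  exact h3.symm e

private lemma Mp.one : Mp μ (1 : Equiv.Perm X) :=
  ⟨MeasurePreserving.id μ, MeasurePreserving.id μ⟩

private lemma Mp.mul {g h : Equiv.Perm X} (hg : Mp μ g) (hh : Mp μ h) : Mp μ (g * h) :=
  ⟨hg.mp.comp hh.mp, hh.symm.comp hg.symm⟩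

private lemma Mp.inv {g : Equiv.Perm X} (hg : Mp μ g) : Mp μ g⁻¹ := ⟨hg.symm, hg.mp⟩

private lemma Mp.npow {g : Equiv.Perm X} (hg : Mp μ g) (n : ℕ) : Mp μ (g ^ n) := by
  induction n with
  | zero => rw [pow_zero]; exact Mp.one
  | succ n ih => rw [pow_succ]; exact ih.mul hg

private lemma Mp.zpow {g : Equiv.Perm X} (hg : Mp μ g) (n : ℤ) : Mp μ (g ^ n) := by
  cases n with
  | ofNat n => rw [Int.ofNat_eq_natCast, zpow_natCast]; exact hg.npow n
  | negSucc n => rw [zpow_negSucc]; exact (hg.npow _).inv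

private lemma Mp.listProd : ∀ L : List (Equiv.Perm X), (∀ g ∈ L, Mp μ g) → Mp μ L.prod := by
  intro L
  induction L with
  | nil => intro _; rw [List.prod_nil]; exact Mp.one
  | cons g L ih =>
    intro h
    rw [List.prod_cons]
    exact (h g List.mem_cons_self).mul (ih fun k hk => h k (List.mem_cons_of_mem _ hk))

end aux

private lemma ofFn_zpow_prod {G : Type} [Group G] : ∀ (d : ℕ) (T : Fin d → G),
    (∀ i j, Commute (T i) (T j)) → ∀ (a : Fin d → ℤ) (n : ℤ),
    (List.ofFn fun i => T i ^ (a i * n)).prod = (List.ofFn fun i => T i ^ a i).prod ^ n := by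
  intro d
  induction d with
  | zero => intro T _ a n; simp
  | succ d ih =>
    intro T hT a n
    rw [List.ofFn_succ, List.prod_cons, List.ofFn_succ, List.prod_cons,
      ih (fun i => T i.succ) (fun i j => hT _ _) (fun i => a i.succ) n, zpow_mul]
    refine (Commute.mul_zpow ?_ n).symm
    refine Commute.list_prod_right _ _ ?_
    intro x hx
    rw [List.mem_ofFn] at hx
    obtain ⟨i, rfl⟩ := hx
    exact ((hT _ _).zpow_left _).zpow_right _

private lemma clamp_eq {r M : ℝ} (hM : 0 < M) (h : |r| ≤ M) :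
    M * max (-1) (min 1 (r / M)) = r := by
  obtain ⟨h1, h2⟩ := abs_le.1 h
  have h3 : r / M ≤ 1 := (div_le_one hM).2 h2
  have h4 : -1 ≤ r / M := by rw [le_div_iff₀ hM]; linarith
  rw [min_eq_right h3, max_eq_right h4]
  field_simp

private lemma clamp_abs (r : ℝ) : |max (-1) (min 1 r)| ≤ 1 := by
  rw [abs_le]
  exact ⟨le_max_left _ _, max_le (by norm_num) (min_le_left _ _)⟩

theorem final_of_core (core : Core) :
    ∀ (X : Type) [MeasurableSpace X] (μ : Measure X) [IsProbabilityMeasure μ]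
      (d : ℕ) (T : Fin d → Equiv.Perm X),
      (∀ i, Measurable ⇑(T i).symm) →
      (∀ i, MeasurePreserving (⇑(T i)) μ μ) →
      (∀ i j, Commute (T i) (T j)) →
      ∀ (P : Fin d → Fin 2 → Polynomial ℤ), (∀ i j, (P i j).eval 0 = 0) →
      (∀ i j, (P i j).natDegree ≤ 1) →
      ∀ (f : Fin 2 → X → ℂ), (∀ j, MemLp (f j) ∞ μ) →
      ∀ᵐ x ∂μ, ∃ L : ℂ, Filter.Tendsto
        (fun N : ℕ => ((2 * N + 1 : ℕ) : ℂ)⁻¹ *
          ∑ n ∈ Finset.Icc (-(N : ℤ)) (N : ℤ),
            ∏ j : Fin 2, f j ((List.ofFn fun i : Fin d => T i ^ (P i j).eval n).prod x))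
        Filter.atTop (nhds L) := by
  intro X _ μ _ d T hTs hT hc P hP0 hP1 f hf
  -- the linear polynomials
  have heval : ∀ i j (n : ℤ), (P i j).eval n = (P i j).coeff 1 * n := by
    intro i j n
    have h := Polynomial.eq_X_add_C_of_natDegree_le_one (hP1 i j)
    have h0 : (P i j).coeff 0 = 0 := by
      rw [Polynomial.coeff_zero_eq_eval_zero]; exact hP0 i j
    conv_lhs => rw [h]
    simp [h0]
  -- the two commuting maps
  obtain ⟨U, hUdef⟩ : ∃ U : Fin 2 → Equiv.Perm X,
      ∀ j, U j = (List.ofFn fun i => T i ^ (P i j).coeff 1).prod := ⟨_, fun j => rfl⟩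
  have hprod : ∀ j (n : ℤ), (List.ofFn fun i : Fin d => T i ^ (P i j).eval n).prod = U j ^ n := by
    intro j n
    rw [hUdef, ← ofFn_zpow_prod d T hc (fun i => (P i j).coeff 1) n]
    simp only [heval]
  have hU : ∀ j, Mp μ (U j) := by
    intro j
    rw [hUdef]
    refine Mp.listProd _ ?_
    intro g hg
    rw [List.mem_ofFn] at hg
    obtain ⟨i, rfl⟩ := hg
    exact (Mp.of (hTs i) (hT i)).zpow _
  have hcomm : Commute (U 0) (U 1) := by
    rw [hUdef, hUdef]
    refine Commute.list_prod_right _ _ ?_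
    intro x hx
    rw [List.mem_ofFn] at hx
    obtain ⟨i, rfl⟩ := hx
    refine Commute.list_prod_left _ _ ?_
    intro y hy
    rw [List.mem_ofFn] at hy
    obtain ⟨i', rfl⟩ := hy
    exact ((hc _ _).zpow_left _).zpow_right _
  -- bounded representatives
  have hrep : ∀ j, ∃ (f' : X → ℂ) (M : ℝ), Measurable f' ∧ 0 < M ∧
      ∀ᵐ x ∂μ, f j x = f' x ∧ ‖f j x‖ ≤ M := by
    intro j
    refine ⟨(hf j).1.mk (f j), (eLpNorm (f j) ∞ μ).toReal + 1,
      (hf j).1.stronglyMeasurable_mk.measurable, by positivity, ?_⟩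
    have h1 := (hf j).1.ae_eq_mk
    have h2 : ∀ᵐ x ∂μ, ‖f j x‖ₑ ≤ eLpNorm (f j) ∞ μ := by
      rw [eLpNorm_exponent_top]
      exact ae_le_eLpNormEssSup
    filter_upwards [h1, h2] with x hx1 hx2
    refine ⟨hx1, ?_⟩
    have h3 : (‖f j x‖ₑ).toReal ≤ (eLpNorm (f j) ∞ μ).toReal :=
      ENNReal.toReal_mono (hf j).2.ne hx2
    rw [toReal_enorm] at h3
    linarith
  choose f' M hf'm hM hae using hrep
  let r : Fin 2 → X → ℝ := fun j x => max (-1) (min 1 ((f' j x).re / M j))
  let s : Fin 2 → X → ℝ := fun j x => max (-1) (min 1 ((f' j x).im / M j))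
  have hrm : ∀ j, Measurable (r j) := fun j =>
    measurable_const.max (measurable_const.min ((Complex.measurable_re.comp (hf'm j)).div_const _))
  have hsm : ∀ j, Measurable (s j) := fun j =>
    measurable_const.max (measurable_const.min ((Complex.measurable_im.comp (hf'm j)).div_const _))
  have hr1 : ∀ j x, |r j x| ≤ 1 := fun j x => clamp_abs _
  have hs1 : ∀ j x, |s j x| ≤ 1 := fun j x => clamp_abs _
  have hval : ∀ j, ∀ᵐ x ∂μ, f j x = (M j : ℂ) * ((r j x : ℂ) + (s j x : ℂ) * Complex.I) := by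
    intro j
    filter_upwards [hae j] with x hx
    obtain ⟨hx1, hx2⟩ := hx
    rw [hx1] at hx2 ⊢
    have e1 : M j * r j x = (f' j x).re :=
      clamp_eq (hM j) ((Complex.abs_re_le_norm _).trans hx2)
    have e2 : M j * s j x = (f' j x).im :=
      clamp_eq (hM j) ((Complex.abs_im_le_norm _).trans hx2)
    have e3 : (M j : ℂ) * ((r j x : ℂ) + (s j x : ℂ) * Complex.I) =
        ((M j * r j x : ℝ) : ℂ) + ((M j * s j x : ℝ) : ℂ) * Complex.I := by
      push_cast; ring
    rw [e3, e1, e2, Complex.re_add_im]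
  have hall : ∀ᵐ x ∂μ, ∀ j, ∀ n : ℤ, f j ((U j ^ n) x) =
      (M j : ℂ) * ((r j ((U j ^ n) x) : ℂ) + (s j ((U j ^ n) x) : ℂ) * Complex.I) := by
    rw [ae_all_iff]
    intro j
    rw [ae_all_iff]
    intro n
    exact ((hU j).zpow n).mp.quasiMeasurePreserving.ae (hval j)
  have c := fun (g h : X → ℝ) (hg : Measurable g) (hh : Measurable h) (hg1 : ∀ x, |g x| ≤ 1)
    (hh1 : ∀ x, |h x| ≤ 1) => core X μ (U 0) (U 1) (hU 0).symm.measurable (hU 0).mp
      (hU 1).symm.measurable (hU 1).mp hcomm g h hg hh hg1 hh1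
  filter_upwards [hall, c (r 0) (r 1) (hrm 0) (hrm 1) (hr1 0) (hr1 1),
    c (r 0) (s 1) (hrm 0) (hsm 1) (hr1 0) (hs1 1), c (s 0) (r 1) (hsm 0) (hrm 1) (hs1 0) (hr1 1),
    c (s 0) (s 1) (hsm 0) (hsm 1) (hs1 0) (hs1 1)] with x hx h1 h2 h3 h4
  obtain ⟨L1, h1⟩ := h1
  obtain ⟨L2, h2⟩ := h2
  obtain ⟨L3, h3⟩ := h3
  obtain ⟨L4, h4⟩ := h4
  refine ⟨(M 0 : ℂ) * (M 1 : ℂ) * (((L1 : ℂ) - (L4 : ℂ)) + ((L2 : ℂ) + (L3 : ℂ)) * Complex.I), ?_⟩
  have k1 := (Complex.continuous_ofReal.tendsto L1).comp h1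
  have k2 := (Complex.continuous_ofReal.tendsto L2).comp h2
  have k3 := (Complex.continuous_ofReal.tendsto L3).comp h3
  have k4 := (Complex.continuous_ofReal.tendsto L4).comp h4
  have k := ((k1.sub k4).add ((k2.add k3).mul_const Complex.I)).const_mul ((M 0 : ℂ) * (M 1 : ℂ))
  refine k.congr ?_
  intro N
  simp only [Function.comp_apply, hprod, Fin.prod_univ_two]
  unfold av
  have e : ∀ n : ℤ, f 0 ((U 0 ^ n) x) * f 1 ((U 1 ^ n) x) = (M 0 : ℂ) * (M 1 : ℂ) *
      ((((r 0 ((U 0 ^ n) x) * r 1 ((U 1 ^ n) x) : ℝ) : ℂ) -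
        ((s 0 ((U 0 ^ n) x) * s 1 ((U 1 ^ n) x) : ℝ) : ℂ)) +
        (((r 0 ((U 0 ^ n) x) * s 1 ((U 1 ^ n) x) : ℝ) : ℂ) +
        ((s 0 ((U 0 ^ n) x) * r 1 ((U 1 ^ n) x) : ℝ) : ℂ)) * Complex.I) := by
    intro n
    rw [hx 0 n, hx 1 n]
    push_cast
    linear_combination (M 0 : ℂ) * (M 1 : ℂ) * (s 0 ((U 0 ^ n) x) : ℂ) *
      (s 1 ((U 1 ^ n) x) : ℂ) * Complex.I_mul_I
  rw [Finset.sum_congr rfl fun n _ => e n, ← Finset.mul_sum, Finset.sum_add_distrib,
    Finset.sum_sub_distrib, ← Finset.sum_mul, Finset.sum_add_distrib]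
  simp only [Complex.ofReal_mul, Complex.ofReal_inv, Complex.ofReal_sum, Complex.ofReal_natCast]
  ring

end Pool.PWZ
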