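import Pool.Agent.PWZ.GapA

/-! # PWZ Gap: the entropy gap of a convolution (convex and homogeneous); the inequalities for `x log x` are in `GapA`. -/

namespace Pool.Agent.PWZ

open Finset

variable {V : Type*} [AddCommGroup V] [Fintype V] [DecidableEq V]

private theorem Gap_mu_nonneg (C : Chain V) (t : ℕ) (s : V) : 0 ≤ C.mu t s := by
  unfold Chain.mu unif
  split_ifs
  · positivity
  · exact le_rfl

private theorem Gap_mu_sum (C : Chain V) (t : ℕ) : ∑ s, C.mu t s = 1 := by
  unfold Chain.mu unif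
  rw [Finset.sum_ite_mem, Finset.univ_inter, Finset.sum_const, nsmul_eq_mul]
  have : ((C.E t).card : ℝ) ≠ 0 := by
    exact_mod_cast (Finset.card_pos.2 (C.ne t)).ne'
  exact mul_inv_cancel₀ this

omit [DecidableEq V] in
private theorem Gap_sum_sub (f : V → ℝ) (s : V) : ∑ z, f (z - s) = ∑ z, f z :=
  Equiv.sum_comp (Equiv.subRight s) f

omit [DecidableEq V] in
private theorem Gap_sum_sub' (f : V → ℝ) (z : V) : ∑ s, f (z - s) = ∑ s, f s :=
  Equiv.sum_comp (Equiv.subLeft z) f

theorem cnt_nonneg (C : Chain V) (t : ℕ) (M : Finset V) (z : V) : 0 ≤ cnt C t M z :=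
  Finset.sum_nonneg fun _ _ => C.rho_nonneg t _

theorem cnt_univ (C : Chain V) (t : ℕ) (z : V) : cnt C t univ z = 1 := by
  unfold cnt
  rw [Gap_sum_sub' (C.rho t) z, C.rho_sum t]

theorem cnt_le_one (C : Chain V) (t : ℕ) (M : Finset V) (z : V) : cnt C t M z ≤ 1 := by
  rw [← cnt_univ C t z]
  exact Finset.sum_le_sum_of_subset_of_nonneg (Finset.subset_univ M)
    fun _ _ _ => C.rho_nonneg t _

theorem cnt_empty (C : Chain V) (t : ℕ) (z : V) : cnt C t ∅ z = 0 := by
  unfold cnt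
  exact Finset.sum_empty

theorem cnt_split (C : Chain V) (t : ℕ) (M S : Finset V) (z : V) :
    cnt C t M z = cnt C t (M ∩ S) z + cnt C t (M \ S) z := by
  unfold cnt
  rw [← Finset.sum_union (Finset.disjoint_left.2 fun a h1 h2 =>
    (Finset.mem_sdiff.1 h2).2 (Finset.mem_inter.1 h1).2)]
  congr 1
  ext a
  simp only [Finset.mem_union, Finset.mem_inter, Finset.mem_sdiff]
  tauto

theorem cnt_sum (C : Chain V) (t : ℕ) (M : Finset V) : ∑ z, cnt C t M z = (M.card : ℝ) := by
  unfold cnt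
  rw [Finset.sum_comm]
  have h : ∀ a ∈ M, ∑ z, C.rho t (z - a) = 1 := fun a _ => by
    rw [Gap_sum_sub (C.rho t) a, C.rho_sum t]
  rw [Finset.sum_congr rfl h, Finset.sum_const, nsmul_eq_mul, mul_one]

theorem cnt_step (C : Chain V) (t : ℕ) (M : Finset V) (z : V) :
    cnt C t M z = ∑ s, C.mu t s * cnt C (t + 1) M (z - s) := by
  unfold cnt
  simp only [Finset.mul_sum]
  rw [Finset.sum_comm]
  refine Finset.sum_congr rfl fun a _ => ?_
  rw [C.rho_step t (z - a)]
  refine Finset.sum_congr rfl fun s _ => ?_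
  rw [sub_right_comm z a s]
  rfl

theorem gap_nonneg (C : Chain V) (t : ℕ) (M : Finset V) (z : V) : 0 ≤ gap C t M z := by
  unfold gap
  have h := th_jensen univ (C.mu t) (fun s => cnt C (t + 1) M (z - s))
    (fun s _ => Gap_mu_nonneg C t s) (Gap_mu_sum C t) fun s _ => cnt_nonneg C (t + 1) M (z - s)
  rw [← cnt_step C t M z] at h
  linarith

theorem gap_empty (C : Chain V) (t : ℕ) (z : V) : gap C t ∅ z = 0 := by
  unfold gap
  simp [cnt_empty, th_zero]

theorem gap_split (C : Chain V) (t : ℕ) (M S : Finset V) (z : V) :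
    gap C t M z ≤ gap C t (M ∩ S) z + gap C t (M \ S) z := by
  have h := jgap_add univ (C.mu t) (fun s => cnt C (t + 1) (M ∩ S) (z - s))
    (fun s => cnt C (t + 1) (M \ S) (z - s)) (fun s _ => Gap_mu_nonneg C t s) (Gap_mu_sum C t)
    (fun s _ => cnt_nonneg C (t + 1) _ (z - s)) fun s _ => cnt_nonneg C (t + 1) _ (z - s)
  simp only [← cnt_split C (t + 1) M S] at h
  rw [← cnt_step C t M z, ← cnt_step C t (M ∩ S) z, ← cnt_step C t (M \ S) z] at h
  unfold gap
  exact h

/-- if `cnt t M z = 0` then `gap t M z = 0` -/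
theorem gap_eq_zero (C : Chain V) (t : ℕ) (M : Finset V) (z : V) (h : cnt C t M z = 0) :
    gap C t M z = 0 := by
  have h1 := h
  rw [cnt_step C t M z] at h1
  have h2 := (Finset.sum_eq_zero_iff_of_nonneg fun s _ =>
    mul_nonneg (Gap_mu_nonneg C t s) (cnt_nonneg C (t + 1) M (z - s))).1 h1
  unfold gap
  rw [h, th_zero, sub_zero]
  refine Finset.sum_eq_zero fun s hs => ?_
  rcases mul_eq_zero.1 (h2 s hs) with h3 | h3
  · rw [h3, zero_mul]
  · rw [h3, th_zero, mul_zero]

private theorem Gap_conv_sum (C : Chain V) (t : ℕ) (f : V → ℝ) :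
    ∑ z, ∑ s, C.mu t s * f (z - s) = ∑ z, f z := by
  rw [Finset.sum_comm]
  have h : ∀ s ∈ (univ : Finset V), ∑ z, C.mu t s * f (z - s) = C.mu t s * ∑ z, f z := by
    intro s _
    rw [← Finset.mul_sum, Gap_sum_sub f s]
  rw [Finset.sum_congr rfl h, ← Finset.sum_mul, Gap_mu_sum C t, one_mul]

theorem gap_sum (C : Chain V) (t : ℕ) (M : Finset V) :
    ∑ z, gap C t M z = (∑ z, th (cnt C (t + 1) M z)) - ∑ z, th (cnt C t M z) := by
  unfold gap
  rw [Finset.sum_sub_distrib, Gap_conv_sum C t fun z => th (cnt C (t + 1) M z)]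

/-- smoothing: `Gap_(mu t) (mu (t+1) * m) ≤ mu (t+1) * Gap_(mu t) (m)`, `m = cnt (t+2) M` -/
theorem gap_smooth (C : Chain V) (t : ℕ) (M : Finset V) (z : V) :
    gap C t M z ≤ ∑ s, C.mu (t + 1) s *
      ((∑ s', C.mu t s' * th (cnt C (t + 2) M (z - s - s'))) -
        th (∑ s', C.mu t s' * cnt C (t + 2) M (z - s - s'))) := by
  have h := jgap_mix univ univ (C.mu t) (C.mu (t + 1))
    (fun s s' => cnt C (t + 2) M (z - s - s')) (fun s _ => Gap_mu_nonneg C t s) (Gap_mu_sum C t)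
    (fun s _ => Gap_mu_nonneg C (t + 1) s) fun s _ s' _ => cnt_nonneg C (t + 2) M (z - s - s')
  have h1 : ∀ s', ∑ s, C.mu (t + 1) s * cnt C (t + 2) M (z - s - s') = cnt C (t + 1) M (z - s') := by
    intro s'
    rw [cnt_step C (t + 1) M (z - s')]
    exact Finset.sum_congr rfl fun s _ => by rw [sub_right_comm z s s']
  simp only [h1] at h
  rw [← cnt_step C t M z] at h
  unfold gap
  exact h

/-- total smoothed gap: Jensen with `mu (t+1)` -/
theorem gap_smooth_sum (C : Chain V) (t : ℕ) (M : Finset V) :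
    ∑ z, ((∑ s', C.mu t s' * th (cnt C (t + 2) M (z - s'))) -
        th (∑ s', C.mu t s' * cnt C (t + 2) M (z - s'))) ≤
      (∑ z, th (cnt C (t + 2) M z)) - ∑ z, th (cnt C t M z) := by
  rw [Finset.sum_sub_distrib, Gap_conv_sum C t fun z => th (cnt C (t + 2) M z)]
  refine sub_le_sub_left ?_ _
  set h : V → ℝ := fun z => ∑ s', C.mu t s' * cnt C (t + 2) M (z - s') with hh
  have hh0 : ∀ z, 0 ≤ h z := fun z => Finset.sum_nonneg fun s' _ =>
    mul_nonneg (Gap_mu_nonneg C t s') (cnt_nonneg C (t + 2) M _)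
  have h1 : ∀ z, cnt C t M z = ∑ s, C.mu (t + 1) s * h (z - s) := by
    intro z
    rw [cnt_step C t M z]
    simp only [cnt_step C (t + 1) M, hh, Finset.mul_sum]
    rw [Finset.sum_comm]
    refine Finset.sum_congr rfl fun s _ => Finset.sum_congr rfl fun s' _ => ?_
    rw [sub_right_comm z s s']
    ring
  have h2 : ∀ z, th (cnt C t M z) ≤ ∑ s, C.mu (t + 1) s * th (h (z - s)) := by
    intro z
    rw [h1 z]
    exact th_jensen univ (C.mu (t + 1)) (fun s => h (z - s))
      (fun s _ => Gap_mu_nonneg C (t + 1) s) (Gap_mu_sum C (t + 1)) fun s _ => hh0 (z - s)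
  refine (Finset.sum_le_sum fun z _ => h2 z).trans (le_of_eq ?_)
  exact Gap_conv_sum C (t + 1) fun z => th (h z)

theorem kl_nonneg (C : Chain V) (A : List V → List (Finset V)) (a b : V) (l : List V) :
    0 ≤ kl C A a b l := by
  unfold kl
  exact div_nonneg (gap_nonneg C _ _ _) (cnt_nonneg C _ _ _)

end Pool.Agent.PWZ
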