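import Pool.Agent.PWZ.Part
import Pool.Agent.PWZ.Gap

/-! # PWZ Info: the information cost of adding one set to the partition. -/

namespace Pool.Agent.PWZ

open Finset

variable {V : Type*} [AddCommGroup V] [Fintype V] [DecidableEq V]

/-- entropy sum of the partition of a list of sets at time `t` -/
noncomputable def ent (C : Chain V) (t : ℕ) (L : List (Finset V)) : ℝ :=
  ∑ M ∈ partL L, ∑ z, th (cnt C t M z)

theorem cost_nonneg (C : Chain V) (t : ℕ) (S : Finset V) : 0 ≤ cost C t S := by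
  unfold cost
  refine Finset.sum_nonneg fun z _ => ?_
  have h1 := cnt_nonneg C t S z
  have h2 := th_nonpos _ h1 (cnt_le_one C t S z)
  linarith

private lemma info_pt (x y : ℝ) (hx : 0 ≤ x) (hy : 0 ≤ y) :
    th (x + y) - th x - th y ≤ x - x * Real.log (x / (x + y)) := by
  unfold th
  rcases hx.eq_or_lt with rfl | hx'
  · simp
  · rcases hy.eq_or_lt with rfl | hy'
    · rw [add_zero, div_self hx'.ne', Real.log_one]
      simp only [zero_mul, sub_self, mul_zero, sub_zero]
      exact hx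
    · have hxy : 0 < x + y := add_pos hx' hy'
      rw [Real.log_div hx'.ne' hxy.ne']
      have h1 : Real.log ((x + y) / y) ≤ (x + y) / y - 1 := Real.log_le_sub_one_of_pos (div_pos hxy hy')
      rw [Real.log_div hxy.ne' hy'.ne'] at h1
      have h2 : y * (Real.log (x + y) - Real.log y) ≤ y * ((x + y) / y - 1) :=
        mul_le_mul_of_nonneg_left h1 hy
      have h3 : y * ((x + y) / y - 1) = x := by
        field_simp
        ring
      rw [h3] at h2
      linarith

private lemma info_inter (C : Chain V) (t : ℕ) (S M : Finset V) (z : V) :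
    cnt C t (M ∩ S) z = ∑ a ∈ M, if a ∈ S then C.rho t (z - a) else 0 := by
  unfold cnt
  rw [← Finset.sum_filter]
  refine Finset.sum_congr ?_ fun _ _ => rfl
  ext a
  simp only [Finset.mem_inter, Finset.mem_filter]

private lemma info_sum_inter (C : Chain V) (t : ℕ) (S : Finset V) (L : List (Finset V)) (z : V) :
    ∑ M ∈ partL L, cnt C t (M ∩ S) z = cnt C t S z := by
  have h1 : cnt C t S z = ∑ a, if a ∈ S then C.rho t (z - a) else 0 := by
    have h2 := info_inter C t S univ z
    rwa [Finset.univ_inter] at h2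
  rw [h1, part_sum L]
  exact Finset.sum_congr rfl fun M _ => info_inter C t S M z

private lemma info_sum_all (C : Chain V) (t : ℕ) (L : List (Finset V)) (z : V) :
    ∑ M ∈ partL L, cnt C t M z = 1 := by
  have h := info_sum_inter C t univ L z
  simp only [Finset.inter_univ] at h
  rw [h, cnt_univ]

/-- refining ANY partition by `S` costs at most `cost t S` (log-sum inequality):
with `x = cnt (M ∩ S)`, `y = cnt (M \ S)`: `th (x+y) - th x - th y ≤ x log ((x+y)/x) + x`, and
`sum over M of x_M log ((x_M+y_M)/x_M) ≤ X log (1/X)` because `sum x_M = X`, `sum (x_M+y_M) = 1` -/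
theorem ent_cons (C : Chain V) (t : ℕ) (S : Finset V) (L : List (Finset V)) :
    ent C t L - ent C t (S :: L) ≤ cost C t S := by
  have h0 : ∑ z, th (cnt C t ∅ z) = 0 := by
    refine Finset.sum_eq_zero fun z _ => ?_
    rw [cnt_empty, th_zero]
  have h1 : ent C t (S :: L) = ∑ M ∈ partL L,
      ((∑ z, th (cnt C t (M ∩ S) z)) + ∑ z, th (cnt C t (M \ S) z)) := by
    unfold ent
    exact part_cons S L (fun M => ∑ z, th (cnt C t M z)) h0
  have h2 : ent C t L - ent C t (S :: L) = ∑ z, ∑ M ∈ partL L,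
      (th (cnt C t (M ∩ S) z + cnt C t (M \ S) z) - th (cnt C t (M ∩ S) z) - th (cnt C t (M \ S) z)) := by
    rw [h1, Finset.sum_comm]
    unfold ent
    rw [← Finset.sum_sub_distrib]
    refine Finset.sum_congr rfl fun M _ => ?_
    rw [← Finset.sum_add_distrib, ← Finset.sum_sub_distrib]
    refine Finset.sum_congr rfl fun z _ => ?_
    rw [cnt_split C t M S z]
    ring
  rw [h2]
  unfold cost
  refine Finset.sum_le_sum fun z _ => ?_
  have h3 : ∑ M ∈ partL L, (th (cnt C t (M ∩ S) z + cnt C t (M \ S) z) - th (cnt C t (M ∩ S) z)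
      - th (cnt C t (M \ S) z)) ≤ ∑ M ∈ partL L, (cnt C t (M ∩ S) z - cnt C t (M ∩ S) z *
      Real.log (cnt C t (M ∩ S) z / (cnt C t (M ∩ S) z + cnt C t (M \ S) z))) :=
    Finset.sum_le_sum fun M _ => info_pt _ _ (cnt_nonneg _ _ _ _) (cnt_nonneg _ _ _ _)
  refine h3.trans ?_
  rw [Finset.sum_sub_distrib, info_sum_inter]
  have h4 := log_sum (partL L) (fun M => cnt C t (M ∩ S) z)
    (fun M => cnt C t (M ∩ S) z + cnt C t (M \ S) z) (fun M _ => cnt_nonneg _ _ _ _)
    (fun M _ => add_nonneg (cnt_nonneg _ _ _ _) (cnt_nonneg _ _ _ _))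
    (fun M _ h => by
      have := cnt_nonneg C t (M ∩ S) z
      have := cnt_nonneg C t (M \ S) z
      linarith)
  have h5 : ∑ M ∈ partL L, (cnt C t (M ∩ S) z + cnt C t (M \ S) z) = 1 := by
    rw [← info_sum_all C t L z]
    exact Finset.sum_congr rfl fun M _ => (cnt_split C t M S z).symm
  rw [h5, info_sum_inter, div_one] at h4
  have h6 : th (cnt C t S z) = cnt C t S z * Real.log (cnt C t S z) := rfl
  rw [h6]
  linarith

theorem ent_append (C : Chain V) (t : ℕ) (L' L : List (Finset V)) :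
    ent C t L - ent C t (L' ++ L) ≤ (L'.map (cost C t)).sum := by
  induction L' with
  | nil => simp
  | cons S L' ih =>
    rw [List.cons_append, List.map_cons, List.sum_cons]
    have h := ent_cons C t S (L' ++ L)
    linarith

theorem ent_nil (C : Chain V) (t : ℕ) : ent C t [] = 0 := by
  unfold ent
  rw [part_nil, Finset.sum_singleton]
  refine Finset.sum_eq_zero fun z _ => ?_
  rw [cnt_univ, th_one]

theorem ent_nonpos (C : Chain V) (t : ℕ) (L : List (Finset V)) : ent C t L ≤ 0 := by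
  unfold ent
  exact Finset.sum_nonpos fun M _ => Finset.sum_nonpos fun z _ =>
    th_nonpos _ (cnt_nonneg _ _ _ _) (cnt_le_one _ _ _ _)

/-- `sum_z x log (1/x) ≤ |S| log (#support / |S|)` and the support has at most `Lam |E (t+1)|`
elements -/
theorem cost_le (C : Chain V) (n : ℕ) (Lam ε : ℝ) (hε : 0 < ε) (hDB : C.DB n Lam) (t : ℕ)
    (ht : t ≤ n) (S : Finset V) (hS : ∃ z, ∀ a ∈ S, z - a ∈ C.E (t + 1))
    (hb : ε * ((C.E (t + 1)).card : ℝ) ≤ (S.card : ℝ)) :
    cost C t S ≤ (S.card : ℝ) * (1 + Real.log (Lam / ε)) := by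
  have hP := hDB t ht S hS
  have hmem : ∀ z, z ∉ (univ.filter (fun x => ∃ a ∈ S, C.rho t (x - a) ≠ 0)) → cnt C t S z = 0 := by
    intro z hz
    unfold cnt
    refine Finset.sum_eq_zero fun a ha => ?_
    by_contra hne
    exact hz (Finset.mem_filter.2 ⟨Finset.mem_univ _, a, ha, hne⟩)
  generalize (univ.filter (fun x => ∃ a ∈ S, C.rho t (x - a) ≠ 0)) = P at hP hmem
  have hE : (0 : ℝ) < ((C.E (t + 1)).card : ℝ) := by
    exact_mod_cast Finset.card_pos.2 (C.ne (t + 1))
  have hSpos : (0 : ℝ) < (S.card : ℝ) := (mul_pos hε hE).trans_le hb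
  have hs1 : ∑ z ∈ P, cnt C t S z = (S.card : ℝ) := by
    rw [← cnt_sum C t S]
    exact Finset.sum_subset (Finset.subset_univ P) fun z _ hz => hmem z hz
  have hs2 : ∑ z ∈ P, th (cnt C t S z) = ∑ z, th (cnt C t S z) := by
    refine Finset.sum_subset (Finset.subset_univ P) fun z _ hz => ?_
    rw [hmem z hz, th_zero]
  have hPne : P.Nonempty := by
    rw [Finset.nonempty_iff_ne_empty]
    rintro rfl
    rw [Finset.sum_empty] at hs1
    linarith
  have hPpos : (0 : ℝ) < (P.card : ℝ) := by exact_mod_cast Finset.card_pos.2 hPne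
  have h1 := log_sum P (fun z => cnt C t S z) (fun _ => (1 : ℝ)) (fun z _ => cnt_nonneg _ _ _ _)
    (fun _ _ => zero_le_one) (fun _ _ h => absurd h one_ne_zero)
  simp only [div_one] at h1
  rw [hs1] at h1
  have h2 : ∑ z ∈ P, cnt C t S z * Real.log (cnt C t S z) = ∑ z, th (cnt C t S z) := hs2
  have h3 : ∑ _z ∈ P, (1 : ℝ) = (P.card : ℝ) := by simp
  rw [h2, h3, Real.log_div hSpos.ne' hPpos.ne'] at h1
  have h4 : (P.card : ℝ) / (S.card : ℝ) ≤ Lam / ε := by
    rw [div_le_div_iff₀ hSpos hε]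
    have hLam : 0 < Lam := by
      by_contra hneg
      push Not at hneg
      have := mul_nonpos_of_nonpos_of_nonneg hneg hE.le
      linarith
    calc (P.card : ℝ) * ε ≤ Lam * ((C.E (t + 1)).card : ℝ) * ε := mul_le_mul_of_nonneg_right hP hε.le
      _ = Lam * (ε * ((C.E (t + 1)).card : ℝ)) := by ring
      _ ≤ Lam * (S.card : ℝ) := mul_le_mul_of_nonneg_left hb hLam.le
  have h5 : Real.log ((P.card : ℝ) / (S.card : ℝ)) ≤ Real.log (Lam / ε) :=
    Real.log_le_log (div_pos hPpos hSpos) h4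
  rw [Real.log_div hPpos.ne' hSpos.ne'] at h5
  unfold cost
  rw [Finset.sum_sub_distrib, cnt_sum]
  have h6 : (S.card : ℝ) * (Real.log (P.card : ℝ) - Real.log (S.card : ℝ)) ≤
      (S.card : ℝ) * Real.log (Lam / ε) := mul_le_mul_of_nonneg_left h5 hSpos.le
  nlinarith

end Pool.Agent.PWZ
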