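import Pool.Agent.PWZ.Step
import Pool.Agent.PWZ.Info

/-! # PWZ Names: the system of names (1) of note 3219, with its budgets (U) and (I).

PROOF. Recursion on the path: `g [] = 0`, `A [] = []`; for `y :: l` apply `step_exists` at time
`l.length`, observation `y`, `g0 = g l` (choice; the state at `l` is a subtype carrying `|g| ≤ 1`).
`meas`: induction (`acc A (y::l) = A (y::l) ++ acc A l`). Energy: `en l = sum_a ip (l.length-1)
(l.headD 0) (G a - g l a)(..)`; by `ip_mart`, `EP (t+1) (sum_a ip (t+1) y (G a - g l.tail a)(..)) = EP t en`,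
and `≤ |V|` at the top (`t = 0`, `g [] = 0`), so
`sum_(t ≤ n) EP t ((A l).map card).sum ≤ |V| * (4/η^2)` (here only lengths ≤ n+1 matter).
Change: `g (y::l) a ≠ g l a → a ∈ some X ∈ A (y::l)`, `sum_a ind ≤ sum_X |X|`.
Information: `cost_le` for every `X ∈ A l`, `l.length = t+1`, `t ≤ n`. -/

namespace Pool.Agent.PWZ

open Finset

variable {V : Type*} [AddCommGroup V] [Fintype V] [DecidableEq V]

/-- the recursion on the path -/
private theorem nms_rec (C : Chain V) (G : V → V → ℝ) (hG : ∀ a c, |G a c| ≤ 1) (η ε : ℝ)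
    (hη : 0 < η) (hε : 0 < ε) :
    ∃ (A : List V → List (Finset V)) (g : List V → V → V → ℝ),
      A [] = [] ∧ (∀ a c, g [] a c = 0) ∧ (∀ l a c, |g l a c| ≤ 1) ∧
      ∀ y l,
        (∀ a, (∀ X ∈ A (y :: l), a ∉ X) → g (y :: l) a = g l a) ∧
        (∀ a a', g l a = g l a' → (∀ X ∈ A (y :: l), (a ∈ X ↔ a' ∈ X)) →
          g (y :: l) a = g (y :: l) a') ∧
        HF C l.length y (fun a c => G a c - g (y :: l) a c) η (2 * ε) ∧
        (∀ X ∈ A (y :: l), ∃ z, ∀ a ∈ X, z - a ∈ C.E (l.length + 1)) ∧
        (∀ X ∈ A (y :: l), ε * ((C.E (l.length + 1)).card : ℝ) ≤ (X.card : ℝ)) ∧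
        (∑ a, ip C l.length y (fun c => G a c - g (y :: l) a c) (fun c => G a c - g (y :: l) a c)) +
          (η ^ 2 / 4) * ((A (y :: l)).map (fun X => (X.card : ℝ))).sum ≤
          ∑ a, ip C l.length y (fun c => G a c - g l a c) (fun c => G a c - g l a c) := by
  have H := fun (t : ℕ) (y : V) (g0 : V → V → ℝ) (hg0 : ∀ a c, |g0 a c| ≤ 1) =>
    step_exists C t y G g0 hG hg0 η ε hη hε
  choose L g h1 h2 h3 h4 h5 h6 h7 using H
  let st : List V → {g : V → V → ℝ // ∀ a c, |g a c| ≤ 1} := fun l =>
    List.rec (motive := fun _ => {g : V → V → ℝ // ∀ a c, |g a c| ≤ 1})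
      ⟨fun _ _ => 0, fun _ _ => by simp⟩
      (fun y l ih => ⟨g l.length y ih.1 ih.2, h1 l.length y ih.1 ih.2⟩) l
  let A : List V → List (Finset V) := fun l =>
    List.casesOn (motive := fun _ => List (Finset V)) l []
      (fun y l => L l.length y (st l).1 (st l).2)
  refine ⟨A, fun l => (st l).1, rfl, fun _ _ => rfl, fun l => (st l).2, fun y l => ⟨?_, ?_, ?_, ?_, ?_, ?_⟩⟩
  · exact h2 l.length y (st l).1 (st l).2
  · exact h3 l.length y (st l).1 (st l).2
  · exact h4 l.length y (st l).1 (st l).2
  · exact h5 l.length y (st l).1 (st l).2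
  · exact h6 l.length y (st l).1 (st l).2
  · exact h7 l.length y (st l).1 (st l).2

private theorem nms_ip_self (C : Chain V) (t : ℕ) (y : V) (f : V → ℝ) : 0 ≤ ip C t y f f := by
  unfold ip
  refine Finset.sum_nonneg fun c _ => ?_
  rw [mul_assoc]
  exact mul_nonneg (C.rho_nonneg _ _) (mul_self_nonneg _)

private theorem nms_energy (C : Chain V) (G : V → V → ℝ) (hG : ∀ a c, |G a c| ≤ 1) (η : ℝ)
    (A : List V → List (Finset V)) (g : List V → V → V → ℝ) (hg0 : ∀ a c, g [] a c = 0)
    (hE : ∀ y l, (∑ a, ip C l.length y (fun c => G a c - g (y :: l) a c)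
        (fun c => G a c - g (y :: l) a c)) +
          (η ^ 2 / 4) * ((A (y :: l)).map (fun X => (X.card : ℝ))).sum ≤
          ∑ a, ip C l.length y (fun c => G a c - g l a c) (fun c => G a c - g l a c)) (n : ℕ) :
    (η ^ 2 / 4) * (∑ t ∈ range (n + 1), EP C t (fun l => ((A l).map (fun X => (X.card : ℝ))).sum)) +
      EP C n (fun l => ∑ a, ip C n (l.headD 0) (fun c => G a c - g l a c)
        (fun c => G a c - g l a c)) ≤ (Fintype.card V : ℝ) := by
  induction n with
  | zero =>
    rw [Finset.sum_range_one, ← EP_smul, ← EP_add]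
    have hcard : (Fintype.card V : ℝ) = EP C 0 (fun _ => (Fintype.card V : ℝ)) :=
      (EP_const C 0 _).symm
    rw [hcard]
    refine EP_mono_len C 0 _ _ fun l hl => ?_
    obtain ⟨y, rfl⟩ : ∃ y, l = [y] := List.length_eq_one_iff.1 hl
    have h := hE y []
    simp only [List.length_nil] at h
    simp only [List.headD_cons]
    rw [add_comm]
    refine h.trans ?_
    have h2 : ∀ a, ip C 0 y (fun c => G a c - g [] a c) (fun c => G a c - g [] a c) ≤ 1 := by
      intro a
      have h3 : (fun c => G a c - g [] a c) = G a := by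
        funext c
        rw [hg0, sub_zero]
      rw [h3]
      have h4 := abs_ip_le C 0 y (G a) (G a) 1 1 (hG a) (hG a)
      exact (le_abs_self _).trans (by linarith)
    calc ∑ a, ip C 0 y (fun c => G a c - g [] a c) (fun c => G a c - g [] a c)
        ≤ ∑ _a : V, (1 : ℝ) := Finset.sum_le_sum fun a _ => h2 a
      _ = (Fintype.card V : ℝ) := by simp
  | succ n ih =>
    rw [Finset.sum_range_succ, mul_add]
    have h1 : (η ^ 2 / 4) * EP C (n + 1) (fun l => ((A l).map (fun X => (X.card : ℝ))).sum) +
        EP C (n + 1) (fun l => ∑ a, ip C (n + 1) (l.headD 0) (fun c => G a c - g l a c)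
          (fun c => G a c - g l a c)) ≤
        EP C n (fun l => ∑ a, ip C n (l.headD 0) (fun c => G a c - g l a c)
          (fun c => G a c - g l a c)) := by
      rw [← EP_smul, ← EP_add]
      have h2 : EP C n (fun l => ∑ a, ip C n (l.headD 0) (fun c => G a c - g l a c)
          (fun c => G a c - g l a c)) =
          EP C (n + 1) (fun l => ∑ a, ip C (n + 1) (l.headD 0) (fun c => G a c - g l.tail a c)
            (fun c => G a c - g l.tail a c)) := by
        rw [EP]
        congr 1
        funext l
        simp only [List.headD_cons, List.tail_cons, Finset.mul_sum]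
        rw [Finset.sum_comm]
        exact Finset.sum_congr rfl fun a _ => (ip_mart C n _ _ _).symm
      rw [h2]
      refine EP_mono_len C (n + 1) _ _ fun l hl => ?_
      obtain ⟨y, l', rfl⟩ : ∃ y l', l = y :: l' := by
        cases l with
        | nil => simp at hl
        | cons y l' => exact ⟨y, l', rfl⟩
      have hl' : l'.length = n + 1 := by simpa using hl
      have h := hE y l'
      rw [hl'] at h
      simp only [List.headD_cons, List.tail_cons]
      linarith
    linarith

theorem names_exist (C : Chain V) (n : ℕ) (Lam : ℝ) (hLam : 1 ≤ Lam) (hDB : C.DB n Lam) (G : V → V → ℝ)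
    (hG : ∀ a c, |G a c| ≤ 1) (η ε : ℝ) (hη : 0 < η) (hε : 0 < ε) (hε1 : ε ≤ 1) :
    ∃ (A : List V → List (Finset V)) (g : List V → V → V → ℝ),
      (∀ a c, g [] a c = 0) ∧
      (∀ l a c, |g l a c| ≤ 1) ∧
      (∀ l a a', SameL (acc A l) a a' → g l a = g l a') ∧
      (∀ l, l ≠ [] → l.length ≤ n + 1 →
        HF C (l.length - 1) (l.headD 0) (fun a c => G a c - g l a c) η (2 * ε)) ∧
      (∑ t ∈ range n, EP C (t + 1)
        (fun l => ((Fintype.card V : ℝ))⁻¹ * ∑ a, ind (g l a ≠ g l.tail a)) ≤ 4 / η ^ 2) ∧
      (∑ t ∈ range (n + 1), EP C t (fun l => ((A l).map (cost C t)).sum) ≤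
        (Fintype.card V : ℝ) * ((4 / η ^ 2) * (1 + Real.log (Lam / ε)))) := by
  obtain ⟨A, g, _, hg0, hg1, hS⟩ := nms_rec C G hG η ε hη hε
  have hcardpos : (0 : ℝ) < (Fintype.card V : ℝ) := by
    exact_mod_cast Fintype.card_pos_iff.mpr ⟨(0 : V)⟩
  -- the total size of the sets
  have hen : ∑ t ∈ range (n + 1), EP C t (fun l => ((A l).map (fun X => (X.card : ℝ))).sum) ≤
      (Fintype.card V : ℝ) * (4 / η ^ 2) := by
    have h1 := nms_energy C G hG η A g hg0 (fun y l => (hS y l).2.2.2.2.2) n
    have h2 : 0 ≤ EP C n (fun l => ∑ a, ip C n (l.headD 0) (fun c => G a c - g l a c)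
        (fun c => G a c - g l a c)) :=
      EP_nonneg C n _ fun l _ => Finset.sum_nonneg fun a _ => nms_ip_self C n _ _
    have h3 : (0 : ℝ) < η ^ 2 / 4 := by positivity
    have h4 : (Fintype.card V : ℝ) * (4 / η ^ 2) = (Fintype.card V : ℝ) / (η ^ 2 / 4) := by
      field_simp
    rw [h4, le_div_iff₀ h3]
    linarith
  have hcnonneg : ∀ l, 0 ≤ ((A l).map (fun X => (X.card : ℝ))).sum := by
    intro l
    refine List.sum_nonneg fun x hx => ?_
    obtain ⟨X, _, rfl⟩ := List.mem_map.1 hx
    exact Nat.cast_nonneg _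
  refine ⟨A, g, hg0, hg1, ?_, ?_, ?_, ?_⟩
  · intro l
    induction l with
    | nil =>
      intro a a' _
      funext c
      rw [hg0, hg0]
    | cons y l ih =>
      intro a a' h
      have h1 : SameL (acc A l) a a' := fun X hX => h X (List.mem_append_right _ hX)
      exact (hS y l).2.1 a a' (ih a a' h1) fun X hX => h X (List.mem_append_left _ hX)
  · intro l hl _
    cases l with
    | nil => exact absurd rfl hl
    | cons y l =>
      simpa using (hS y l).2.2.1
  · -- changes
    have h1 : ∀ t, EP C (t + 1) (fun l => ((Fintype.card V : ℝ))⁻¹ * ∑ a, ind (g l a ≠ g l.tail a)) ≤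
        ((Fintype.card V : ℝ))⁻¹ * EP C (t + 1) (fun l => ((A l).map (fun X => (X.card : ℝ))).sum) := by
      intro t
      rw [← EP_smul]
      refine EP_mono_len C (t + 1) _ _ fun l hl => ?_
      refine mul_le_mul_of_nonneg_left ?_ (by positivity)
      cases l with
      | nil => simp at hl
      | cons y l =>
        simp only [List.tail_cons]
        have h2 : ∀ a, ind (g (y :: l) a ≠ g l a) ≤
            ((A (y :: l)).map (fun X => if a ∈ X then (1 : ℝ) else 0)).sum := by
          intro a
          have hnn : ∀ x ∈ (A (y :: l)).map (fun X => if a ∈ X then (1 : ℝ) else 0), 0 ≤ x := by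
            intro x hx
            obtain ⟨X, _, rfl⟩ := List.mem_map.1 hx
            split_ifs
            · exact zero_le_one
            · exact le_refl _
          by_cases hne : g (y :: l) a ≠ g l a
          · rw [ind_of hne]
            have h3 : ¬ ∀ X ∈ A (y :: l), a ∉ X := fun h => hne ((hS y l).1 a h)
            push Not at h3
            obtain ⟨X, hX, haX⟩ := h3
            have h4 : (1 : ℝ) ∈ (A (y :: l)).map (fun X => if a ∈ X then (1 : ℝ) else 0) :=
              List.mem_map.2 ⟨X, hX, by rw [if_pos haX]⟩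
            exact List.single_le_sum hnn 1 h4
          · rw [ind_not hne]
            exact List.sum_nonneg hnn
        refine (Finset.sum_le_sum fun a _ => h2 a).trans (le_of_eq ?_)
        have h5 : ∀ Ls : List (Finset V), ∑ a, (Ls.map (fun X => if a ∈ X then (1 : ℝ) else 0)).sum =
            (Ls.map (fun X => (X.card : ℝ))).sum := by
          intro Ls
          induction Ls with
          | nil => simp
          | cons X Ls ih =>
            simp only [List.map_cons, List.sum_cons]
            rw [Finset.sum_add_distrib, ih]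
            congr 1
            simp
        exact h5 _
    calc ∑ t ∈ range n, EP C (t + 1) (fun l => ((Fintype.card V : ℝ))⁻¹ * ∑ a, ind (g l a ≠ g l.tail a))
        ≤ ∑ t ∈ range n, ((Fintype.card V : ℝ))⁻¹ *
          EP C (t + 1) (fun l => ((A l).map (fun X => (X.card : ℝ))).sum) :=
          Finset.sum_le_sum fun t _ => h1 t
      _ = ((Fintype.card V : ℝ))⁻¹ * ∑ t ∈ range n,
          EP C (t + 1) (fun l => ((A l).map (fun X => (X.card : ℝ))).sum) := by
          rw [Finset.mul_sum]
      _ ≤ ((Fintype.card V : ℝ))⁻¹ * ((Fintype.card V : ℝ) * (4 / η ^ 2)) := by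
          refine mul_le_mul_of_nonneg_left (le_trans ?_ hen) (by positivity)
          rw [Finset.sum_range_succ']
          have := EP_nonneg C 0 (fun l => ((A l).map (fun X => (X.card : ℝ))).sum)
            fun l _ => hcnonneg l
          linarith
      _ = 4 / η ^ 2 := by
          field_simp
  · -- information
    have hlog : 0 ≤ 1 + Real.log (Lam / ε) := by
      have : 0 ≤ Real.log (Lam / ε) := Real.log_nonneg (by
        rw [le_div_iff₀ hε]
        linarith)
      linarith
    have h1 : ∀ t ∈ range (n + 1), EP C t (fun l => ((A l).map (cost C t)).sum) ≤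
        (1 + Real.log (Lam / ε)) * EP C t (fun l => ((A l).map (fun X => (X.card : ℝ))).sum) := by
      intro t ht
      have htn : t ≤ n := Nat.lt_succ_iff.1 (Finset.mem_range.1 ht)
      rw [← EP_smul]
      refine EP_mono_len C t _ _ fun l hl => ?_
      cases l with
      | nil => simp at hl
      | cons y l =>
        have hl' : l.length = t := by simpa using hl
        have h2 : ∀ X ∈ A (y :: l), cost C t X ≤ (1 + Real.log (Lam / ε)) * (X.card : ℝ) := by
          intro X hX
          have h3 := (hS y l).2.2.2.1 X hX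
          have h4 := (hS y l).2.2.2.2.1 X hX
          rw [hl'] at h3 h4
          have h5 := cost_le C n Lam ε hε hDB t htn X h3 h4
          linarith
        have h6 : ∀ Ls : List (Finset V), (∀ X ∈ Ls, cost C t X ≤ (1 + Real.log (Lam / ε)) * (X.card : ℝ)) →
            (Ls.map (cost C t)).sum ≤ (1 + Real.log (Lam / ε)) * (Ls.map (fun X => (X.card : ℝ))).sum := by
          intro Ls
          induction Ls with
          | nil => intro _; simp
          | cons X Ls ih =>
            intro h
            simp only [List.map_cons, List.sum_cons]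
            have h7 := h X List.mem_cons_self
            have h8 := ih fun Z hZ => h Z (List.mem_cons_of_mem _ hZ)
            rw [mul_add]
            exact add_le_add h7 h8
        exact h6 _ h2
    calc ∑ t ∈ range (n + 1), EP C t (fun l => ((A l).map (cost C t)).sum)
        ≤ ∑ t ∈ range (n + 1), (1 + Real.log (Lam / ε)) *
          EP C t (fun l => ((A l).map (fun X => (X.card : ℝ))).sum) := Finset.sum_le_sum h1
      _ = (1 + Real.log (Lam / ε)) * ∑ t ∈ range (n + 1),
          EP C t (fun l => ((A l).map (fun X => (X.card : ℝ))).sum) := by rw [Finset.mul_sum]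
      _ ≤ (1 + Real.log (Lam / ε)) * ((Fintype.card V : ℝ) * (4 / η ^ 2)) :=
          mul_le_mul_of_nonneg_left hen hlog
      _ = (Fintype.card V : ℝ) * ((4 / η ^ 2) * (1 + Real.log (Lam / ε))) := by ring

end Pool.Agent.PWZ
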