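import Pool.Agent.PWZ.Core
import Pool.Agent.PWZ.Names

/-! # PWZ FT: the finite theorem, part (4) END of note 3219 (owner helper11). -/

namespace Pool.Agent.PWZ

open Finset

variable {V : Type*} [AddCommGroup V] [Fintype V] [DecidableEq V]

/-- a system of names for the family `G` -/
structure Sys (C : Chain V) (n : ℕ) (G : V → V → ℝ) (A : List V → List (Finset V))
    (g : List V → V → V → ℝ) (η ε J : ℝ) : Prop where
  bd : ∀ l a c, |g l a c| ≤ 1
  cls : ∀ l a a', SameL (acc A l) a a' → g l a = g l a'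
  hf : ∀ l, l ≠ [] → l.length ≤ n + 1 →
    HF C (l.length - 1) (l.headD 0) (fun a c => G a c - g l a c) η (2 * ε)
  chg : ∑ t ∈ range n, EP C (t + 1)
    (fun l => ((Fintype.card V : ℝ))⁻¹ * ∑ a, ind (g l a ≠ g l.tail a)) ≤ 4 / η ^ 2
  inf : ∑ t ∈ range (n + 1), EP C t (fun l => ((A l).map (cost C t)).sum) ≤
    (Fintype.card V : ℝ) * J

theorem ind_exists_le (L : ℕ) (p : ℕ → Prop) : ind (∃ k < L, p k) ≤ ∑ k ∈ range L, ind (p k) := by
  by_cases h : ∃ k < L, p k
  · rw [ind_of h]
    obtain ⟨k, hk, hp⟩ := h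
    calc (1:ℝ) = ind (p k) := (ind_of hp).symm
      _ ≤ ∑ k ∈ range L, ind (p k) :=
        Finset.single_le_sum (fun i _ => ind_nonneg (p i)) (Finset.mem_range.2 hk)
  · rw [ind_not h]
    exact Finset.sum_nonneg fun i _ => ind_nonneg _

theorem EE_zero (C : Chain V) (t : ℕ) : EE C t (fun _ _ _ => (0:ℝ)) = 0 := EE_const C t 0

theorem EE_sum (C : Chain V) (t L : ℕ) (q : ℕ → V → V → List V → ℝ) :
    EE C t (fun a b l => ∑ k ∈ range L, q k a b l) = ∑ k ∈ range L, EE C t (q k) := by
  induction L with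
  | zero => simp only [Finset.range_zero, Finset.sum_empty]; exact EE_zero C t
  | succ L ih =>
    simp only [Finset.sum_range_succ]
    rw [EE_add, ih]

theorem EE_le_right (C : Chain V) (t : ℕ) (q : V → V → List V → ℝ) (ε : ℝ)
    (h : ∀ a l, l.length = t + 1 → ∑ b, C.rho t (l.headD 0 - a - b) * q a b l ≤ ε) :
    EE C t q ≤ ε := by
  have hV : (0:ℝ) < (Fintype.card V : ℝ) := by
    have : 0 < Fintype.card V := Fintype.card_pos_iff.2 ⟨0⟩
    exact_mod_cast this
  unfold EE
  calc EP C t (fun l => ((Fintype.card V : ℝ))⁻¹ * ∑ a, ∑ b, C.rho t (l.headD 0 - a - b) * q a b l)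
      ≤ EP C t (fun _ => ε) := by
        apply EP_mono_len
        intro l hl
        have h1 : ∑ a, ∑ b, C.rho t (l.headD 0 - a - b) * q a b l ≤ ∑ _a : V, ε :=
          Finset.sum_le_sum fun a _ => h a l hl
        rw [Finset.sum_const, Finset.card_univ, nsmul_eq_mul] at h1
        calc _ ≤ ((Fintype.card V : ℝ))⁻¹ * ((Fintype.card V : ℝ) * ε) :=
              mul_le_mul_of_nonneg_left h1 (inv_nonneg.2 hV.le)
          _ = ε := by field_simp
    _ = ε := EP_const C t ε

theorem acc_left (A B : List V → List (Finset V)) (l : List V) (X : Finset V)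
    (h : X ∈ acc A l) : X ∈ acc (fun l => A l ++ B l) l := by
  induction l with
  | nil => exact h
  | cons y l ih =>
    unfold acc at h ⊢
    rcases List.mem_append.1 h with h | h
    · exact List.mem_append.2 (Or.inl (List.mem_append.2 (Or.inl h)))
    · exact List.mem_append.2 (Or.inr (ih h))

theorem acc_right (A B : List V → List (Finset V)) (l : List V) (X : Finset V)
    (h : X ∈ acc B l) : X ∈ acc (fun l => A l ++ B l) l := by
  induction l with
  | nil => exact h
  | cons y l ih =>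
    unfold acc at h ⊢
    rcases List.mem_append.1 h with h | h
    · exact List.mem_append.2 (Or.inl (List.mem_append.2 (Or.inr h)))
    · exact List.mem_append.2 (Or.inr (ih h))

/-- the trivial system -/
theorem Sys.zero (C : Chain V) (n : ℕ) (G : V → V → ℝ) (η ε J : ℝ) (hη : 0 < η) (hε : 1 ≤ 2 * ε)
    (hJ : 0 ≤ J) : Sys C n G (fun _ => []) (fun _ _ _ => 0) η ε J := by
  refine ⟨fun _ _ _ => by simp, fun _ _ _ _ => rfl, fun l _ _ => HF_triv C _ _ _ _ _ hε, ?_, ?_⟩
  · have h0 : ∀ t, EP C (t + 1) (fun (_ : List V) => ((Fintype.card V : ℝ))⁻¹ *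
        ∑ _a : V, ind ((fun _ => (0:ℝ)) ≠ (fun (_ : V) => (0:ℝ)))) = 0 := by
      intro t
      rw [ind_not (by simp)]
      simp only [Finset.sum_const_zero, mul_zero]
      exact EP_const C _ 0
    calc _ = ∑ t ∈ range n, (0:ℝ) := Finset.sum_congr rfl fun t _ => h0 t
      _ = 0 := by simp
      _ ≤ 4 / η ^ 2 := by positivity
  · have h0 : ∀ t, EP C t (fun _ => ((([] : List (Finset V))).map (cost C t)).sum) = 0 := by
      intro t
      simp only [List.map_nil, List.sum_nil]
      exact EP_const C t 0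
    calc _ = ∑ t ∈ range (n + 1), (0:ℝ) := Finset.sum_congr rfl fun t _ => h0 t
      _ = 0 := by simp
      _ ≤ _ := by positivity

theorem piece (C : Chain V) (n : ℕ) (U W : V → V → ℝ)
    (hU : ∀ b c, |U b c| ≤ 1)
    (A0 A1 A2 : List V → List (Finset V)) (g0 g1 g2 : List V → V → V → ℝ)
    (η0 η1 η2 ε0 ε1 ε2 J0 J1 J2 : ℝ) (h0 : Sys C n U A0 g0 η0 ε0 J0)
    (h1 : Sys C n W A1 g1 η1 ε1 J1) (h2 : Sys C n W A2 g2 η2 ε2 J2)
    (_hJ : 0 ≤ J1 + J2) (r ε : ℝ)
    (hr : 0 < r) (hr1 : r ≤ 1) (hε : 0 ≤ ε) (hr0 : η0 ≤ r) (hr12 : η1 + η2 ≤ r)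
    (hε0 : 2 * ε0 ≤ ε) (hε12 : 2 * ε1 + 2 * ε2 ≤ ε) :
    ∃ mark : V → V → List V → Prop,
      (∑ t ∈ range n, EE C (t + 1) (fun a b l => ind (mark a b l)) ≤
        10000 * ε / r ^ 2 * (1 + 4 / η0 ^ 2 + (4 / η1 ^ 2 + 4 / η2 ^ 2) + (J1 + J2))) ∧
      ∀ a b l i, i < l.length → (∀ j < i, ¬ mark a b (l.drop j)) →
        |ip C (l.length - 1) (l.headD 0) (fun c => U b c - g0 l b c)
            (fun c => g2 l a c - g1 l a c) -
          ip C ((l.drop i).length - 1) ((l.drop i).headD 0)
            (fun c => U b c - g0 (l.drop i) b c)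
            (fun c => g2 (l.drop i) a c - g1 (l.drop i) a c)|
          ≤ 24 * r := by
  have hV : (0:ℝ) ≤ ((Fintype.card V : ℝ))⁻¹ := by positivity
  have hd : CoreData C n (fun l b c => U b c - g0 l b c) (fun l a c => g2 l a c - g1 l a c)
      (fun l => A1 l ++ A2 l) r ε (4 / η0 ^ 2) (4 / η1 ^ 2 + 4 / η2 ^ 2) (J1 + J2) := by
    refine ⟨hr, hr1, hε, ?_, ?_, ?_, ?_, ?_, ?_, ?_, ?_⟩
    · intro l b c
      have := hU b c
      have := h0.bd l b c
      calc |U b c - g0 l b c| ≤ |U b c| + |g0 l b c| := abs_sub _ _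
        _ ≤ 2 := by linarith
    · intro l a c
      have := h1.bd l a c
      have := h2.bd l a c
      calc |g2 l a c - g1 l a c| ≤ |g2 l a c| + |g1 l a c| := abs_sub _ _
        _ ≤ 2 := by linarith
    · intro l a a' h
      have e1 : g1 l a = g1 l a' := h1.cls l a a' fun X hX => h X (acc_left A1 A2 l X hX)
      have e2 : g2 l a = g2 l a' := h2.cls l a a' fun X hX => h X (acc_right A1 A2 l X hX)
      funext c
      show g2 l a c - g1 l a c = g2 l a' c - g1 l a' c
      rw [e1, e2]
    · intro l hl hl'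
      exact HF_mono C _ _ _ _ _ _ _ hr0 hε0 (h0.hf l hl hl')
    · intro l hl hl'
      have h := HF_sub C _ _ _ _ _ _ _ _ (h1.hf l hl hl') (h2.hf l hl hl')
      have h' := HF_mono C _ _ _ _ _ _ _ hr12 hε12 h
      have he : (fun a c => (fun a c => W a c - g1 l a c) a c - (fun a c => W a c - g2 l a c) a c)
          = (fun a c => g2 l a c - g1 l a c) := by
        funext a c; show (W a c - g1 l a c) - (W a c - g2 l a c) = _; ring
      rw [he] at h'
      exact h'
    · refine le_trans (Finset.sum_le_sum fun t _ => ?_) h0.chg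
      apply EP_mono_len
      intro l _
      apply mul_le_mul_of_nonneg_left _ hV
      apply Finset.sum_le_sum
      intro a _
      apply ind_mono
      intro h hh
      apply h
      funext c
      show U a c - g0 l a c = U a c - g0 l.tail a c
      rw [hh]
    · calc _ ≤ ∑ t ∈ range n, (EP C (t + 1)
              (fun l => ((Fintype.card V : ℝ))⁻¹ * ∑ a, ind (g1 l a ≠ g1 l.tail a)) +
              EP C (t + 1)
              (fun l => ((Fintype.card V : ℝ))⁻¹ * ∑ a, ind (g2 l a ≠ g2 l.tail a))) := by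
            apply Finset.sum_le_sum
            intro t _
            rw [← EP_add]
            apply EP_mono_len
            intro l _
            rw [← mul_add, ← Finset.sum_add_distrib]
            apply mul_le_mul_of_nonneg_left _ hV
            apply Finset.sum_le_sum
            intro a _
            refine le_trans (ind_mono ?_) (ind_or_le _ _)
            intro h
            by_contra hh
            push Not at hh
            apply h
            funext c
            show g2 l a c - g1 l a c = g2 l.tail a c - g1 l.tail a c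
            rw [hh.1, hh.2]
        _ ≤ _ := by
            rw [Finset.sum_add_distrib]
            exact add_le_add h1.chg h2.chg
    · calc _ = ∑ t ∈ range (n + 1), (EP C t (fun l => ((A1 l).map (cost C t)).sum) +
              EP C t (fun l => ((A2 l).map (cost C t)).sum)) := by
            apply Finset.sum_congr rfl
            intro t _
            rw [← EP_add]
            congr 1
            funext l
            rw [List.map_append, List.sum_append]
        _ ≤ _ := by
            rw [Finset.sum_add_distrib, mul_add]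
            exact add_le_add h1.inf h2.inf
  obtain ⟨mark, h1, h2⟩ := core hd
  refine ⟨mark, le_trans h1 (le_of_eq ?_), h2⟩
  ring

/-- the rest term -/
theorem rest_le (C : Chain V) (n : ℕ) (F G : V → V → ℝ) (hG : ∀ a c, |G a c| ≤ 1)
    (A B : List V → List (Finset V)) (f g : List V → V → V → ℝ) (η ε J η' ε' J' : ℝ)
    (hF : Sys C n F A f η ε J) (hg : Sys C n G B g η' ε' J') (t : ℕ) (ht : t ≤ n) :
    EE C t (fun a b l => ind (η < |ip C (l.length - 1) (l.headD 0) (fun c => F b c - f l b c)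
      (fun c => G a c - g l a c)|)) ≤ 2 * ε := by
  apply EE_le_right
  intro a l hl
  have hne : l ≠ [] := by
    intro h; rw [h] at hl; simp at hl
  have hlen : l.length - 1 = t := by omega
  have hw : ∀ c, |(fun c => G a c - g l a c) c| ≤ 2 := by
    intro c
    have := hG a c
    have := hg.bd l a c
    calc |G a c - g l a c| ≤ |G a c| + |g l a c| := abs_sub _ _
      _ ≤ 2 := by linarith
  have h := hF.hf l hne (by omega) (fun c => G a c - g l a c) hw
  rw [hlen] at h ⊢
  exact fresh0 C t (fun b => ind (η < |ip C t (l.headD 0) (fun c => F b c - f l b c)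
      (fun c => G a c - g l a c)|)) (2 * ε) h (l.headD 0 - a)

theorem sum_inv_le (L : ℕ) : ∑ k ∈ range L, 1 / (((k:ℝ) + 1) * ((k:ℝ) + 2)) ≤ 1 := by
  have h : ∑ k ∈ range L, 1 / (((k:ℝ) + 1) * ((k:ℝ) + 2)) = 1 - 1 / ((L:ℝ) + 1) := by
    induction L with
    | zero => simp
    | succ L ih =>
      rw [Finset.sum_range_succ, ih]
      push_cast
      have h1 : (0:ℝ) < (L:ℝ) + 1 := by positivity
      have h2 : (0:ℝ) < (L:ℝ) + 1 + 1 := by positivity
      have h3 : (0:ℝ) < (L:ℝ) + 2 := by positivity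
      field_simp
      ring
  rw [h]
  have : (0:ℝ) ≤ 1 / ((L:ℝ) + 1) := by positivity
  linarith

theorem summ9 : Summable (fun k : ℕ => ((k:ℝ) + 3) ^ 9 * (1 / 2 : ℝ) ^ k) := by
  have h := summable_pow_mul_geometric_of_norm_lt_one (R := ℝ) 9 (r := (1/2 : ℝ)) (by norm_num)
  have h2 := (summable_nat_add_iff 3).2 h
  refine (h2.mul_left 8).congr ?_
  intro k
  push_cast
  ring

/-- PART (4): THE FINITE THEOREM from the core lemma and the construction of names -/
theorem finite_theorem (c0 Lam : ℝ) (hc0 : 0 < c0) (hLam : 1 ≤ Lam) :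
    ∃ K : ℝ, ∀ (V : Type) [AddCommGroup V] [Fintype V] [DecidableEq V] (C : Chain V) (n : ℕ),
      C.DB n Lam → ∀ F G : V → V → ℝ, (∀ b c, |F b c| ≤ 1) → (∀ a c, |G a c| ≤ 1) →
      ∃ mark : V → V → List V → Prop,
        ∑ t ∈ range n, EE C (t + 1) (fun a b l => ind (mark a b l)) ≤ K ∧
        ∀ a b (l : List V) (i : ℕ), l.length ≤ n + 1 → i < l.length →
          (∀ j < i, ¬ mark a b (l.drop j)) →
          |XX C F G l a b - XX C F G (l.drop i) a b| ≤ c0 := by
  have hc := hc0
  have hL := hLam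
  set K0 : ℝ := 10000 with hK0def
  have hK0 : 0 ≤ K0 := by norm_num
  set c1 : ℝ := min c0 1 with hc1
  have hc1p : 0 < c1 := lt_min hc one_pos
  have hc1l : c1 ≤ 1 := min_le_right _ _
  have hc10 : c1 ≤ c0 := min_le_left _ _
  set M : ℝ := 1 + 12 * (10 ^ 4 / c1 ^ 2) + 8 * (10 ^ 4 / c1 ^ 2) * (2 + Real.log Lam) with hM
  have hlL : 0 ≤ Real.log Lam := Real.log_nonneg hL
  have hMp : 0 ≤ M := by positivity
  set T : ℝ := ∑' k : ℕ, ((k:ℝ) + 3) ^ 9 * (1 / 2 : ℝ) ^ k with hT
  refine ⟨2 * (K0 * M * (10 ^ 4 / c1 ^ 2) * T) + 1, ?_⟩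
  intro V _ _ _ C n hDB F G hF hG
  -- parameters
  let η : ℕ → ℝ := fun k => c1 / (100 * (((k:ℝ) + 1) * ((k:ℝ) + 2)))
  let ε : ℕ → ℝ := fun k => (1 / 2 : ℝ) ^ k
  let Jk : ℕ → ℝ := fun k => 4 / (η k) ^ 2 * (1 + Real.log (Lam / ε k))
  have hη : ∀ k, 0 < η k := fun k => by positivity
  have hη1 : ∀ k, η k ≤ 1 / 200 := by
    intro k
    show c1 / (100 * (((k:ℝ) + 1) * ((k:ℝ) + 2))) ≤ 1 / 200
    rw [div_le_div_iff₀ (by positivity) (by norm_num)]
    have hk : (0:ℝ) ≤ (k:ℝ) := by positivity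
    nlinarith [mul_nonneg hk hk]
  have hηs : ∀ k, η (k + 1) ≤ η k := by
    intro k
    show c1 / (100 * ((((k+1:ℕ):ℝ) + 1) * (((k+1:ℕ):ℝ) + 2))) ≤
      c1 / (100 * (((k:ℝ) + 1) * ((k:ℝ) + 2)))
    push_cast
    apply div_le_div_of_nonneg_left hc1p.le (by positivity)
    have hk : (0:ℝ) ≤ (k:ℝ) := by positivity
    nlinarith
  have hε : ∀ k, 0 < ε k := fun k => by positivity
  have hε1 : ∀ k, ε k ≤ 1 := fun k => pow_le_one₀ (by norm_num) (by norm_num)
  have hεs : ∀ k, ε (k + 1) = ε k / 2 := by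
    intro k
    show (1 / 2 : ℝ) ^ (k + 1) = (1 / 2 : ℝ) ^ k / 2
    rw [pow_succ]; ring
  have hlog : ∀ k, Real.log (Lam / ε k) = Real.log Lam + (k:ℝ) * Real.log 2 := by
    intro k
    show Real.log (Lam / (1 / 2 : ℝ) ^ k) = _
    rw [Real.log_div (by positivity) (by positivity), Real.log_pow, Real.log_div one_ne_zero
      two_ne_zero, Real.log_one]
    ring
  have hl2 : 0 < Real.log 2 := Real.log_pos (by norm_num)
  have hl21 : Real.log 2 ≤ 1 := by
    have := Real.log_two_lt_d9
    linarith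
  have hJ : ∀ k, 0 ≤ Jk k := by
    intro k
    show 0 ≤ 4 / (η k) ^ 2 * (1 + Real.log (Lam / ε k))
    rw [hlog k]
    positivity
  -- systems
  have hsys : ∀ H : V → V → ℝ, (∀ a c, |H a c| ≤ 1) → ∀ k : ℕ,
      ∃ (A : List V → List (Finset V)) (g : List V → V → V → ℝ),
        Sys C n H A g (η k) (ε k) (Jk k) ∧ (k = 0 → ∀ l a c, g l a c = 0) := by
    intro H hH k
    rcases Nat.eq_zero_or_pos k with h | h
    · subst h
      refine ⟨fun _ => [], fun _ _ _ => 0, Sys.zero C n H _ _ _ (hη 0) ?_ (hJ 0), fun _ _ _ _ => rfl⟩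
      show 1 ≤ 2 * (1 / 2 : ℝ) ^ 0
      norm_num
    · obtain ⟨A, g, _, h1, h2, h3, h4, h5⟩ := names_exist C n Lam hL hDB H hH (η k) (ε k)
        (hη k) (hε k) (hε1 k)
      exact ⟨A, g, ⟨h1, h2, h3, h4, h5⟩, fun h0 => absurd h0 (by omega)⟩
  choose AF f hf hf0 using hsys F hF
  choose AG g hg hg0 using hsys G hG
  -- bounds
  have hbound : ∀ k, K0 * (4 * ε k) / (2 * η k) ^ 2 * (1 + 4 / η k ^ 2 + (4 / η k ^ 2 +
      4 / η (k + 1) ^ 2) + (Jk k + Jk (k + 1))) ≤
      K0 * M * (10 ^ 4 / c1 ^ 2) * (((k:ℝ) + 3) ^ 9 * (1 / 2 : ℝ) ^ k) ∧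
      K0 * (4 * ε k) / (2 * η k) ^ 2 * (1 + 4 / η (k + 1) ^ 2 + (4 / η k ^ 2 +
      4 / η (k + 1) ^ 2) + (Jk k + Jk (k + 1))) ≤
      K0 * M * (10 ^ 4 / c1 ^ 2) * (((k:ℝ) + 3) ^ 9 * (1 / 2 : ℝ) ^ k) := by
    intro k
    set X : ℝ := 10 ^ 4 / c1 ^ 2 with hX
    have hXp : 0 < X := by positivity
    set P : ℝ := (k:ℝ) + 3 with hP
    have hk : (0:ℝ) ≤ (k:ℝ) := by positivity
    have hP1 : 1 ≤ P := by linarith
    have hP0 : 0 ≤ P := by linarith
    have i0 : 1 / η k ^ 2 ≤ X * P ^ 4 := by
      have e : 1 / η k ^ 2 = X * (((k:ℝ) + 1) * ((k:ℝ) + 2)) ^ 2 := by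
        show 1 / (c1 / (100 * (((k:ℝ) + 1) * ((k:ℝ) + 2)))) ^ 2 = _
        rw [hX]
        field_simp
        ring
      rw [e]
      apply mul_le_mul_of_nonneg_left _ hXp.le
      have h1 : ((k:ℝ) + 1) * ((k:ℝ) + 2) ≤ P * P :=
        mul_le_mul (by linarith) (by linarith) (by linarith) hP0
      calc (((k:ℝ) + 1) * ((k:ℝ) + 2)) ^ 2 ≤ (P * P) ^ 2 := pow_le_pow_left₀ (by positivity) h1 2
        _ = P ^ 4 := by ring
    have i1 : 1 / η (k + 1) ^ 2 ≤ X * P ^ 4 := by
      have e : 1 / η (k + 1) ^ 2 = X * (((k:ℝ) + 2) * ((k:ℝ) + 3)) ^ 2 := by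
        show 1 / (c1 / (100 * ((((k+1:ℕ):ℝ) + 1) * (((k+1:ℕ):ℝ) + 2)))) ^ 2 = _
        rw [hX]
        push_cast
        field_simp
        ring
      rw [e]
      apply mul_le_mul_of_nonneg_left _ hXp.le
      have h1 : ((k:ℝ) + 2) * ((k:ℝ) + 3) ≤ P * P :=
        mul_le_mul (by linarith) (by linarith) (by linarith) hP0
      calc (((k:ℝ) + 2) * ((k:ℝ) + 3)) ^ 2 ≤ (P * P) ^ 2 := pow_le_pow_left₀ (by positivity) h1 2
        _ = P ^ 4 := by ring
    have j0 : 4 / η k ^ 2 ≤ 4 * (X * P ^ 4) := by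
      have : 4 / η k ^ 2 = 4 * (1 / η k ^ 2) := by ring
      rw [this]; linarith
    have j1 : 4 / η (k + 1) ^ 2 ≤ 4 * (X * P ^ 4) := by
      have : 4 / η (k + 1) ^ 2 = 4 * (1 / η (k + 1) ^ 2) := by ring
      rw [this]; linarith
    have hPL : 1 + Real.log Lam + P ≤ (2 + Real.log Lam) * P := by nlinarith
    have l0 : Jk k ≤ 4 * (X * P ^ 4) * ((2 + Real.log Lam) * P) := by
      show 4 / (η k) ^ 2 * (1 + Real.log (Lam / ε k)) ≤ _
      rw [hlog k]
      have a1 : 1 + (Real.log Lam + (k:ℝ) * Real.log 2) ≤ (2 + Real.log Lam) * P := by nlinarith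
      have a2 : 0 ≤ 1 + (Real.log Lam + (k:ℝ) * Real.log 2) := by positivity
      exact mul_le_mul j0 a1 a2 (by positivity)
    have l1 : Jk (k + 1) ≤ 4 * (X * P ^ 4) * ((2 + Real.log Lam) * P) := by
      show 4 / (η (k + 1)) ^ 2 * (1 + Real.log (Lam / ε (k + 1))) ≤ _
      rw [hlog (k + 1)]
      push_cast
      have a1 : 1 + (Real.log Lam + ((k:ℝ) + 1) * Real.log 2) ≤ (2 + Real.log Lam) * P := by
        nlinarith
      have a2 : 0 ≤ 1 + (Real.log Lam + ((k:ℝ) + 1) * Real.log 2) := by positivity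
      exact mul_le_mul j1 a1 a2 (by positivity)
    have hP4 : P ^ 4 ≤ P ^ 5 := by
      calc P ^ 4 = P ^ 4 * 1 := by ring
        _ ≤ P ^ 4 * P := mul_le_mul_of_nonneg_left hP1 (by positivity)
        _ = P ^ 5 := by ring
    have hP5 : 1 ≤ P ^ 5 := one_le_pow₀ hP1
    have hM5 : P ^ 5 * M = P ^ 5 + 12 * (X * P ^ 5) +
        8 * (X * P ^ 4) * ((2 + Real.log Lam) * P) := by
      rw [hM, hX]; ring
    have hXP : X * P ^ 4 ≤ X * P ^ 5 := mul_le_mul_of_nonneg_left hP4 hXp.le
    have hpre : K0 * (4 * ε k) / (2 * η k) ^ 2 = K0 * ε k * (1 / η k ^ 2) := by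
      have := (hη k).ne'
      field_simp
      ring
    have hpre0 : 0 ≤ K0 * ε k := mul_nonneg hK0 (hε k).le
    have fin : ∀ Y : ℝ, 0 ≤ Y → Y ≤ P ^ 5 * M →
        K0 * (4 * ε k) / (2 * η k) ^ 2 * Y ≤ K0 * M * X * (P ^ 9 * (1 / 2 : ℝ) ^ k) := by
      intro Y hY0 hY
      rw [hpre]
      calc K0 * ε k * (1 / η k ^ 2) * Y ≤ K0 * ε k * (X * P ^ 4) * (P ^ 5 * M) := by
            apply mul_le_mul _ hY hY0 (by positivity)
            exact mul_le_mul_of_nonneg_left i0 hpre0
        _ = K0 * M * X * (P ^ 9 * ε k) := by ring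
    have p0 : 0 ≤ 4 / η k ^ 2 := by positivity
    have p1 : 0 ≤ 4 / η (k + 1) ^ 2 := by positivity
    constructor
    · apply fin
      · linarith [hJ k, hJ (k + 1)]
      · rw [hM5]; linarith
    · apply fin
      · linarith [hJ k, hJ (k + 1)]
      · rw [hM5]; linarith
  have hlev : ∀ k, ε (k + 1) ≤ ε k := fun k => by rw [hεs k]; linarith [hε k]
  -- first family
  have hp1 := fun k : ℕ => piece C n F G hF (AF k) (AG k) (AG (k + 1)) (f k) (g k) (g (k + 1))
    (η k) (η k) (η (k + 1)) (ε k) (ε k) (ε (k + 1)) (Jk k) (Jk k) (Jk (k + 1)) (hf k) (hg k)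
    (hg (k + 1)) (add_nonneg (hJ k) (hJ (k + 1))) (2 * η k) (4 * ε k) (by linarith [hη k])
    (by linarith [hη1 k]) (by linarith [hε k]) (by linarith [hη k]) (by linarith [hηs k])
    (by linarith [hε k]) (by linarith [hlev k])
  have hp2 := fun k : ℕ => piece C n G F hG (AG (k + 1)) (AF k) (AF (k + 1)) (g (k + 1)) (f k)
    (f (k + 1)) (η (k + 1)) (η k) (η (k + 1)) (ε (k + 1)) (ε k) (ε (k + 1)) (Jk (k + 1)) (Jk k)
    (Jk (k + 1)) (hg (k + 1)) (hf k) (hf (k + 1)) (add_nonneg (hJ k) (hJ (k + 1))) (2 * η k)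
    (4 * ε k) (by linarith [hη k])
    (by linarith [hη1 k]) (by linarith [hε k]) (by linarith [hη k, hηs k]) (by linarith [hηs k])
    (by linarith [hε k, hlev k]) (by linarith [hlev k])
  choose m1 hm1 hm1' using hp1
  choose m2 hm2 hm2' using hp2
  -- the number of levels
  set L : ℕ := n + 2 with hLdef
  let rest : List V → V → V → ℝ := fun l a b => ip C (l.length - 1) (l.headD 0)
    (fun c => F b c - f L l b c) (fun c => G a c - g L l a c)
  let mR : V → V → List V → Prop := fun a b l => η L < |rest l a b| ∨ η L < |rest l.tail a b|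
  refine ⟨fun a b l => (∃ k < L, m1 k a b l) ∨ (∃ k < L, m2 k b a l) ∨ mR a b l, ?_, ?_⟩
  · have hA : ∀ t ∈ range n, EE C (t + 1) (fun a b l => ind ((∃ k < L, m1 k a b l) ∨
        (∃ k < L, m2 k b a l) ∨ mR a b l)) ≤
        (∑ k ∈ range L, EE C (t + 1) (fun a b l => ind (m1 k a b l))) +
        (∑ k ∈ range L, EE C (t + 1) (fun a b l => ind (m2 k a b l))) +
        (2 * ε L + 2 * ε L) := by
      intro t ht
      have ht' : t < n := Finset.mem_range.1 ht
      have s1 : EE C (t + 1) (fun a b l => ind ((∃ k < L, m1 k a b l) ∨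
          (∃ k < L, m2 k b a l) ∨ mR a b l)) ≤
          EE C (t + 1) (fun a b l => (∑ k ∈ range L, ind (m1 k a b l)) +
            ((∑ k ∈ range L, ind (m2 k b a l)) +
              (ind (η L < |rest l a b|) + ind (η L < |rest l.tail a b|)))) := by
        apply EE_mono_len
        intro a b l _
        refine le_trans (ind_or_le _ _) ?_
        refine add_le_add (ind_exists_le L (fun k => m1 k a b l)) ?_
        refine le_trans (ind_or_le _ _) ?_
        exact add_le_add (ind_exists_le L (fun k => m2 k b a l)) (ind_or_le _ _)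
      refine le_trans s1 ?_
      rw [EE_add, EE_add, EE_add, EE_sum, EE_sum]
      have s2 : ∀ k, EE C (t + 1) (fun a b l => ind (m2 k b a l)) =
          EE C (t + 1) (fun a b l => ind (m2 k a b l)) := fun k =>
        EE_swap C (t + 1) (fun a b l => ind (m2 k a b l))
      have s3 : EE C (t + 1) (fun a b l => ind (η L < |rest l a b|)) ≤ 2 * ε L :=
        rest_le C n F G hG (AF L) (AG L) (f L) (g L) (η L) (ε L) (Jk L) (η L) (ε L) (Jk L)
          (hf L) (hg L) (t + 1) (by omega)
      have s4 : EE C (t + 1) (fun a b l => ind (η L < |rest l.tail a b|)) ≤ 2 * ε L := by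
        rw [EE_tail C t (fun a b l => ind (η L < |rest l a b|))]
        exact rest_le C n F G hG (AF L) (AG L) (f L) (g L) (η L) (ε L) (Jk L) (η L) (ε L) (Jk L)
          (hf L) (hg L) t (by omega)
      simp only [s2]
      linarith
    refine le_trans (Finset.sum_le_sum hA) ?_
    rw [Finset.sum_add_distrib, Finset.sum_add_distrib, Finset.sum_comm,
      Finset.sum_comm (s := range n) (t := range L)
        (f := fun t k => EE C (t + 1) (fun a b l => ind (m2 k a b l)))]
    have hT1 : ∑ k ∈ range L, K0 * M * (10 ^ 4 / c1 ^ 2) * (((k:ℝ) + 3) ^ 9 * (1 / 2 : ℝ) ^ k) ≤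
        K0 * M * (10 ^ 4 / c1 ^ 2) * T := by
      rw [← Finset.mul_sum]
      apply mul_le_mul_of_nonneg_left _ (by positivity)
      exact summ9.sum_le_tsum (range L) fun k _ => by positivity
    have b1 : ∑ k ∈ range L, ∑ t ∈ range n, EE C (t + 1) (fun a b l => ind (m1 k a b l)) ≤
        K0 * M * (10 ^ 4 / c1 ^ 2) * T :=
      le_trans (Finset.sum_le_sum fun k _ => le_trans (hm1 k) (hbound k).1) hT1
    have b2 : ∑ k ∈ range L, ∑ t ∈ range n, EE C (t + 1) (fun a b l => ind (m2 k a b l)) ≤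
        K0 * M * (10 ^ 4 / c1 ^ 2) * T :=
      le_trans (Finset.sum_le_sum fun k _ => le_trans (hm2 k) (hbound k).2) hT1
    have b3 : ∑ _t ∈ range n, (2 * ε L + 2 * ε L) ≤ 1 := by
      rw [Finset.sum_const, Finset.card_range, nsmul_eq_mul]
      have e1 : ε L = (1 / 2 : ℝ) ^ n / 4 := by
        show (1 / 2 : ℝ) ^ (n + 2) = _
        rw [pow_add]; ring
      rw [e1]
      have e2 : (n:ℝ) ≤ 2 ^ n := by exact_mod_cast (Nat.lt_two_pow_self (n := n)).le
      have e3 : (1 / 2 : ℝ) ^ n = 1 / 2 ^ n := by rw [one_div_pow]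
      rw [e3]
      have e4 : (0:ℝ) < 2 ^ n := by positivity
      have e5 : (n:ℝ) * (2 * (1 / 2 ^ n / 4) + 2 * (1 / 2 ^ n / 4)) = (n:ℝ) / 2 ^ n := by
        field_simp; ring
      rw [e5, div_le_one e4]
      exact e2
    linarith
  · intro a b l i hl hi hno
    rcases Nat.eq_zero_or_pos i with h0 | h0
    · subst h0
      rw [List.drop_zero, sub_self, abs_zero]
      exact hc.le
    -- the telescoping identity
    have tel : ∀ l' : List V, XX C F G l' a b =
        (∑ k ∈ range L, (ip C (l'.length - 1) (l'.headD 0) (fun c => F b c - f k l' b c)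
            (fun c => g (k + 1) l' a c - g k l' a c) +
          ip C (l'.length - 1) (l'.headD 0) (fun c => G a c - g (k + 1) l' a c)
            (fun c => f (k + 1) l' b c - f k l' b c))) + rest l' a b := by
      intro l'
      let Z : ℕ → ℝ := fun k => ip C (l'.length - 1) (l'.headD 0) (fun c => F b c - f k l' b c)
        (fun c => G a c - g k l' a c)
      have hZ : ∀ k, ip C (l'.length - 1) (l'.headD 0) (fun c => F b c - f k l' b c)
            (fun c => g (k + 1) l' a c - g k l' a c) +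
          ip C (l'.length - 1) (l'.headD 0) (fun c => G a c - g (k + 1) l' a c)
            (fun c => f (k + 1) l' b c - f k l' b c) = Z k - Z (k + 1) := by
        intro k
        show _ = ip C (l'.length - 1) (l'.headD 0) (fun c => F b c - f k l' b c)
          (fun c => G a c - g k l' a c) - ip C (l'.length - 1) (l'.headD 0)
          (fun c => F b c - f (k + 1) l' b c) (fun c => G a c - g (k + 1) l' a c)
        rw [ip_comm C _ _ (fun c => G a c - g (k + 1) l' a c)]
        simp only [ip]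
        rw [← Finset.sum_add_distrib, ← Finset.sum_sub_distrib]
        apply Finset.sum_congr rfl
        intro c _
        ring
      have hsum : ∑ k ∈ range L, (Z k - Z (k + 1)) = Z 0 - Z L := Finset.sum_range_sub' Z L
      have hZ0 : Z 0 = XX C F G l' a b := by
        show ip C (l'.length - 1) (l'.headD 0) (fun c => F b c - f 0 l' b c)
          (fun c => G a c - g 0 l' a c) = ip C (l'.length - 1) (l'.headD 0) (F b) (G a)
        have e1 : (fun c => F b c - f 0 l' b c) = F b := by
          funext c; rw [hf0 0 rfl]; ring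
        have e2 : (fun c => G a c - g 0 l' a c) = G a := by
          funext c; rw [hg0 0 rfl]; ring
        rw [e1, e2]
      rw [Finset.sum_congr rfl fun k _ => hZ k, hsum, hZ0]
      show _ = XX C F G l' a b - Z L + Z L
      ring
    rw [tel l, tel (l.drop i)]
    have r1 : |rest l a b| ≤ η L := by
      have h := hno 0 h0
      rw [List.drop_zero] at h
      by_contra hh
      exact h (Or.inr (Or.inr (Or.inl (not_le.1 hh))))
    have r2 : |rest (l.drop i) a b| ≤ η L := by
      have h := hno (i - 1) (by omega)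
      by_contra hh
      apply h
      refine Or.inr (Or.inr (Or.inr ?_))
      have e : (l.drop (i - 1)).tail = l.drop i := by
        rw [List.tail_drop]
        congr 1
        omega
      show η L < |rest (l.drop (i - 1)).tail a b|
      rw [e]
      exact not_le.1 hh
    have q1 : ∀ k < L, |ip C (l.length - 1) (l.headD 0) (fun c => F b c - f k l b c)
            (fun c => g (k + 1) l a c - g k l a c) -
          ip C ((l.drop i).length - 1) ((l.drop i).headD 0)
            (fun c => F b c - f k (l.drop i) b c)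
            (fun c => g (k + 1) (l.drop i) a c - g k (l.drop i) a c)| ≤ 24 * (2 * η k) := by
      intro k hk
      apply hm1' k a b l i hi
      intro j hj h
      exact hno j hj (Or.inl ⟨k, hk, h⟩)
    have q2 : ∀ k < L, |ip C (l.length - 1) (l.headD 0) (fun c => G a c - g (k + 1) l a c)
            (fun c => f (k + 1) l b c - f k l b c) -
          ip C ((l.drop i).length - 1) ((l.drop i).headD 0)
            (fun c => G a c - g (k + 1) (l.drop i) a c)
            (fun c => f (k + 1) (l.drop i) b c - f k (l.drop i) b c)| ≤ 24 * (2 * η k) := by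
      intro k hk
      apply hm2' k b a l i hi
      intro j hj h
      exact hno j hj (Or.inr (Or.inl ⟨k, hk, h⟩))
    have hsumη : ∑ k ∈ range L, (96 * η k) ≤ 96 / 100 * c1 := by
      have e : ∀ k ∈ range L, 96 * η k = 96 / 100 * c1 * (1 / (((k:ℝ) + 1) * ((k:ℝ) + 2))) := by
        intro k _
        show 96 * (c1 / (100 * (((k:ℝ) + 1) * ((k:ℝ) + 2)))) = _
        have : (0:ℝ) < ((k:ℝ) + 1) * ((k:ℝ) + 2) := by positivity
        field_simp
      rw [Finset.sum_congr rfl e, ← Finset.mul_sum]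
      have := sum_inv_le L
      nlinarith
    have hηL : η L ≤ c1 / 200 := by
      show c1 / (100 * (((L:ℝ) + 1) * ((L:ℝ) + 2))) ≤ c1 / 200
      apply div_le_div_of_nonneg_left hc1p.le (by norm_num)
      have hk : (0:ℝ) ≤ (L:ℝ) := by positivity
      nlinarith [mul_nonneg hk hk]
    have hdiff : |(∑ k ∈ range L, (ip C (l.length - 1) (l.headD 0) (fun c => F b c - f k l b c)
            (fun c => g (k + 1) l a c - g k l a c) +
          ip C (l.length - 1) (l.headD 0) (fun c => G a c - g (k + 1) l a c)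
            (fun c => f (k + 1) l b c - f k l b c))) -
        (∑ k ∈ range L, (ip C ((l.drop i).length - 1) ((l.drop i).headD 0)
            (fun c => F b c - f k (l.drop i) b c)
            (fun c => g (k + 1) (l.drop i) a c - g k (l.drop i) a c) +
          ip C ((l.drop i).length - 1) ((l.drop i).headD 0)
            (fun c => G a c - g (k + 1) (l.drop i) a c)
            (fun c => f (k + 1) (l.drop i) b c - f k (l.drop i) b c)))| ≤ 96 / 100 * c1 := by
      rw [← Finset.sum_sub_distrib]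
      refine le_trans (Finset.abs_sum_le_sum_abs _ _) (le_trans ?_ hsumη)
      apply Finset.sum_le_sum
      intro k hk
      have hk' : k < L := Finset.mem_range.1 hk
      have a1 := abs_le.1 (q1 k hk')
      have a2 := abs_le.1 (q2 k hk')
      rw [abs_le]
      constructor
      · linarith [a1.1, a2.1]
      · linarith [a1.2, a2.2]
    have a1 := abs_le.1 hdiff
    have a2 := abs_le.1 r1
    have a3 := abs_le.1 r2
    rw [abs_le]
    constructor
    · linarith [a1.1, a2.1, a3.2]
    · linarith [a1.2, a2.2, a3.1]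

end Pool.Agent.PWZ
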