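/-
PWZ (MP_4d8f14_an), end part (5), module EndInt (helper74).
Transference: the finite theorem gives the block oscillation bound for the averages of
`f (T^n x) g (S^n x)`, `T`, `S` commuting and measure preserving; hence the core theorem.
-/
import Mathlib
import Pool.Agent.PWZ.EndPoint
import Pool.Agent.PWZ.EndNet
import Pool.Agent.PWZ.EndFinal
import Pool.Agent.PWZ.FT

set_option autoImplicit false

open Finset MeasureTheory Pool.Agent.PWZ

namespace Pool.PWZ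

section
variable {X : Type} [MeasurableSpace X] {μ : Measure X}

/-- measure preserving together with the inverse -/
def MP2 (μ : Measure X) (g : Equiv.Perm X) : Prop :=
  MeasurePreserving ⇑g μ μ ∧ MeasurePreserving ⇑g⁻¹ μ μ

lemma MP2.of {g : Equiv.Perm X} (h1 : Measurable ⇑g.symm) (h2 : MeasurePreserving ⇑g μ μ) :
    MP2 μ g := by
  refine ⟨h2, ?_⟩
  let e : X ≃ᵐ X := ⟨g, h2.measurable, h1⟩
  have h3 : MeasurePreserving ⇑e μ μ := h2
  exact h3.symm e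

lemma MP2.one : MP2 μ (1 : Equiv.Perm X) := ⟨MeasurePreserving.id μ, MeasurePreserving.id μ⟩

lemma MP2.mul {g h : Equiv.Perm X} (hg : MP2 μ g) (hh : MP2 μ h) : MP2 μ (g * h) := by
  refine ⟨hg.1.comp hh.1, ?_⟩
  rw [mul_inv_rev]
  exact hh.2.comp hg.2

lemma MP2.inv {g : Equiv.Perm X} (hg : MP2 μ g) : MP2 μ g⁻¹ := by
  refine ⟨hg.2, ?_⟩
  rw [inv_inv]; exact hg.1

lemma MP2.npow {g : Equiv.Perm X} (hg : MP2 μ g) (n : ℕ) : MP2 μ (g ^ n) := by
  induction n with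
  | zero => rw [pow_zero]; exact MP2.one
  | succ n ih => rw [pow_succ]; exact ih.mul hg

lemma MP2.zpow {g : Equiv.Perm X} (hg : MP2 μ g) (n : ℤ) : MP2 μ (g ^ n) := by
  cases n with
  | ofNat n => rw [Int.ofNat_eq_natCast, zpow_natCast]; exact hg.npow n
  | negSucc n => rw [zpow_negSucc]; exact (hg.npow _).inv

end

/-- the function `F b c` on `ZMod M` -/
noncomputable def zF {X : Type} (T S : Equiv.Perm X) (f : X → ℝ) (x : X) (M : ℕ)
    (b c : ZMod M) : ℝ :=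
  f ((T ^ ((c.val : ℤ) - (b.val : ℤ)) * S ^ (b.val : ℤ)) x)

/-- the function `G a c` on `ZMod M` -/
noncomputable def zG {X : Type} (T S : Equiv.Perm X) (g : X → ℝ) (x : X) (M : ℕ)
    (a c : ZMod M) : ℝ :=
  g ((S ^ ((c.val : ℤ) - (a.val : ℤ)) * T ^ (a.val : ℤ)) x)

lemma val_add3 (Q : ℕ) [NeZero (8 * Q)] (a b : ZMod (8 * Q)) (ha : Q ≤ a.val) (ha' : a.val < 2 * Q)
    (hb : Q ≤ b.val) (hb' : b.val < 2 * Q) (w : ℤ) (hw : |w| ≤ Q) :
    (((a + b + (w : ZMod (8 * Q))).val : ℕ) : ℤ) = a.val + b.val + w := by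
  have h1 : a + b + (w : ZMod (8 * Q)) = (((a.val : ℤ) + (b.val : ℤ) + w : ℤ) : ZMod (8 * Q)) := by
    push_cast
    rw [ZMod.natCast_zmod_val, ZMod.natCast_zmod_val]
  rw [h1, ZMod.val_intCast]
  have h2 := abs_le.mp hw
  apply Int.emod_eq_of_lt
  · omega
  · push_cast
    omega

lemma zFG_eq {X : Type} (T S : Equiv.Perm X) (hTS : Commute T S) (f g : X → ℝ) (x : X)
    (Q : ℕ) [NeZero (8 * Q)] (a b : ZMod (8 * Q)) (ha : Q ≤ a.val) (ha' : a.val < 2 * Q)
    (hb : Q ≤ b.val) (hb' : b.val < 2 * Q) (w : ℤ) (hw : |w| ≤ Q) :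
    zF T S f x (8 * Q) b (a + b + (w : ZMod (8 * Q))) *
      zG T S g x (8 * Q) a (a + b + (w : ZMod (8 * Q))) =
    f ((T ^ w) ((T ^ (a.val : ℤ) * S ^ (b.val : ℤ)) x)) *
      g ((S ^ w) ((T ^ (a.val : ℤ) * S ^ (b.val : ℤ)) x)) := by
  unfold zF zG
  rw [val_add3 Q a b ha ha' hb hb' w hw]
  have e1 : T ^ ((a.val : ℤ) + (b.val : ℤ) + w - (b.val : ℤ)) * S ^ (b.val : ℤ) =
      T ^ w * (T ^ (a.val : ℤ) * S ^ (b.val : ℤ)) := by
    rw [← mul_assoc, ← zpow_add]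
    congr 2
    ring
  have e2 : S ^ ((a.val : ℤ) + (b.val : ℤ) + w - (a.val : ℤ)) * T ^ (a.val : ℤ) =
      S ^ w * (T ^ (a.val : ℤ) * S ^ (b.val : ℤ)) := by
    have hc : T ^ (a.val : ℤ) * S ^ (b.val : ℤ) = S ^ (b.val : ℤ) * T ^ (a.val : ℤ) :=
      (hTS.zpow_zpow _ _).eq
    rw [hc, ← mul_assoc, ← zpow_add]
    congr 2
    ring
  rw [e1, e2]
  rfl

/-- safe points -/
noncomputable def safe (Q : ℕ) : Finset (ZMod (8 * Q)) :=
  (Finset.Ico Q (2 * Q)).image (fun n : ℕ => (n : ZMod (8 * Q)))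

lemma safe_val (Q : ℕ) (a : ZMod (8 * Q)) (ha : a ∈ safe Q) : Q ≤ a.val ∧ a.val < 2 * Q := by
  unfold safe at ha
  rw [Finset.mem_image] at ha
  obtain ⟨n, hn, rfl⟩ := ha
  rw [Finset.mem_Ico] at hn
  rw [ZMod.val_natCast_of_lt (by omega)]
  exact hn

lemma safe_card (Q : ℕ) : (safe Q).card = Q := by
  unfold safe
  rw [Finset.card_image_of_injOn, Nat.card_Ico]
  · omega
  · intro m hm n hn h
    rw [Finset.coe_Ico, Set.mem_Ico] at hm hn
    have := congrArg ZMod.val h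
    simp only at this
    rwa [ZMod.val_natCast_of_lt (by omega), ZMod.val_natCast_of_lt (by omega)] at this

/-- bound at one point of the space -/
lemma avg_bound {X : Type} (T S : Equiv.Perm X) (hTS : Commute T S) (f g : X → ℝ)
    (hf : ∀ x, |f x| ≤ 1) (hg : ∀ x, |g x| ≤ 1) (x : X) (N : ℕ → ℕ) (L Q : ℕ)
    [NeZero (8 * Q)] (hQ : 2 * ∑ i ∈ range L, N i ≤ Q) (h : ∀ k < L, 2 * N k + 1 ≤ 8 * Q)
    (R d : ℕ) (hR : 1 ≤ R) (hd : 1 ≤ d) (hN : ∀ k, 0 < N k)
    (hlow : ∀ k, 2 ^ R * N k ≤ N (k + 1)) (c0 c K : ℝ) (hcpos : 0 < c)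
    (hc : c0 + 2 * (1 / d + 4 / 2 ^ R) < c)
    (mark : ZMod (8 * Q) → ZMod (8 * Q) → List (ZMod (8 * Q)) → Prop)
    (hK : ∑ t ∈ range (L - 2), EE (zch N L (8 * Q) h) (t + 1) (fun a b l => ind (mark a b l)) ≤ K)
    (hmark : ∀ a b (l : List (ZMod (8 * Q))) (i : ℕ), l.length ≤ (L - 2) + 1 → i < l.length →
      (∀ j < i, ¬ mark a b (l.drop j)) →
      |XX (zch N L (8 * Q) h) (zF T S f x (8 * Q)) (zG T S g x (8 * Q)) l a b -
        XX (zch N L (8 * Q) h) (zF T S f x (8 * Q)) (zG T S g x (8 * Q)) (l.drop i) a b| ≤ c0)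
    (J : ℕ) (p : ℕ → ℕ) (hp : StrictMono p) (hp0 : 1 ≤ p 0) (hL : p J = L) :
    ∑ a ∈ safe Q, ∑ b ∈ safe Q, ∑ j ∈ range J,
      ind ((T ^ (a.val : ℤ) * S ^ (b.val : ℤ)) x ∈
        oscSet (fun k x => av (fun n => f ((T ^ n) x) * g ((S ^ n) x)) (N k)) c
          (p j) (p (j + 1))) ≤ (2 * (d : ℝ)) ^ 2 * ((8 * Q : ℕ) : ℝ) ^ 2 * K := by
  set C := zch N L (8 * Q) h with hC
  have hQ0 : 0 < Q := by
    have := NeZero.ne (8 * Q)
    omega
  have hM : (0 : ℝ) < ((8 * Q : ℕ) : ℝ) := by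
    have : 0 < 8 * Q := by omega
    exact_mod_cast this
  -- the sum of the expectations of the marks
  have hEE : ∑ t ∈ range (L - 2), EE C (t + 1) (fun a b l => ind (mark a b l)) =
      (((8 * Q : ℕ) : ℝ))⁻¹ * ((((8 * Q : ℕ) : ℝ))⁻¹ * ∑ a, ∑ b, up C L (a + b)
        (fun l => ∑ t ∈ range (L - 2), ind (mark a b (l.drop (L - (t + 1)))))) := by
    have h1 : ∀ t ∈ range (L - 2), EE C (t + 1) (fun a b l => ind (mark a b l)) =
        (((8 * Q : ℕ) : ℝ))⁻¹ * ((((8 * Q : ℕ) : ℝ))⁻¹ * ∑ a, ∑ b, up C L (a + b)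
          (fun l => ind (mark a b (l.drop (L - (t + 1)))))) := by
      intro t ht
      rw [Finset.mem_range] at ht
      have h2 := EE_up_to C (t + 1) (L - (t + 1)) (fun a b l => ind (mark a b l))
      rw [show t + 1 + (L - (t + 1)) = L by omega] at h2
      rw [← h2, EE_top C L (fun z => zch_top N L (8 * Q) h z), ZMod.card]
    rw [Finset.sum_congr rfl h1, ← Finset.mul_sum, ← Finset.mul_sum, Finset.sum_comm]
    congr 2
    refine Finset.sum_congr rfl fun a _ => ?_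
    rw [Finset.sum_comm]
    refine Finset.sum_congr rfl fun b _ => ?_
    rw [up_sum]
  rw [hEE] at hK
  have hK2 : ∑ a, ∑ b, up C L (a + b)
      (fun l => ∑ t ∈ range (L - 2), ind (mark a b (l.drop (L - (t + 1))))) ≤
      ((8 * Q : ℕ) : ℝ) ^ 2 * K := by
    have h3 := mul_le_mul_of_nonneg_left hK (sq_nonneg (((8 * Q : ℕ) : ℝ)))
    refine le_trans (le_of_eq ?_) h3
    field_simp
  have hd' : (0 : ℝ) < d := by exact_mod_cast hd
  have hsafe : ∑ a ∈ safe Q, ∑ b ∈ safe Q, (1 / (2 * (d : ℝ))) ^ 2 * ∑ j ∈ range J,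
      ind ((T ^ (a.val : ℤ) * S ^ (b.val : ℤ)) x ∈
        oscSet (fun k x => av (fun n => f ((T ^ n) x) * g ((S ^ n) x)) (N k)) c
          (p j) (p (j + 1))) ≤
      ∑ a, ∑ b, up C L (a + b)
        (fun l => ∑ t ∈ range (L - 2), ind (mark a b (l.drop (L - (t + 1))))) := by
    have hnn : ∀ a b, 0 ≤ up C L (a + b)
        (fun l => ∑ t ∈ range (L - 2), ind (mark a b (l.drop (L - (t + 1))))) := fun a b =>
      up_nonneg _ _ _ _ fun l => Finset.sum_nonneg fun t _ => ind_nonneg _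
    calc
      _ ≤ ∑ a ∈ safe Q, ∑ b ∈ safe Q, up C L (a + b)
          (fun l => ∑ t ∈ range (L - 2), ind (mark a b (l.drop (L - (t + 1))))) := by
          refine Finset.sum_le_sum fun a ha => Finset.sum_le_sum fun b hb => ?_
          obtain ⟨ha1, ha2⟩ := safe_val Q a ha
          obtain ⟨hb1, hb2⟩ := safe_val Q b hb
          set P := (T ^ (a.val : ℤ) * S ^ (b.val : ℤ)) x with hP
          refine point_bound N L (8 * Q) h R d hR hd hN hlow
            (fun n => f ((T ^ n) P) * g ((S ^ n) P)) (fun n => ?_)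
            (zF T S f x (8 * Q)) (zG T S g x (8 * Q)) a b (fun w hw => ?_)
            (mark a b) c0 c hcpos (hmark a b) hc J p hp hp0 hL
          · rw [abs_mul]
            exact mul_le_one₀ (hf _) (abs_nonneg _) (hg _)
          · refine zFG_eq T S hTS f g x Q a b ha1 ha2 hb1 hb2 w (hw.trans ?_)
            exact_mod_cast hQ
      _ ≤ ∑ a, ∑ b ∈ safe Q, up C L (a + b)
          (fun l => ∑ t ∈ range (L - 2), ind (mark a b (l.drop (L - (t + 1))))) :=
          Finset.sum_le_sum_of_subset_of_nonneg (Finset.subset_univ _)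
            fun a _ _ => Finset.sum_nonneg fun b _ => hnn a b
      _ ≤ _ := Finset.sum_le_sum fun a _ =>
          Finset.sum_le_sum_of_subset_of_nonneg (Finset.subset_univ _) fun b _ _ => hnn a b
  have h4 := hsafe.trans hK2
  have h5 : ∑ a ∈ safe Q, ∑ b ∈ safe Q, (1 / (2 * (d : ℝ))) ^ 2 * ∑ j ∈ range J,
      ind ((T ^ (a.val : ℤ) * S ^ (b.val : ℤ)) x ∈
        oscSet (fun k x => av (fun n => f ((T ^ n) x) * g ((S ^ n) x)) (N k)) c
          (p j) (p (j + 1))) = (1 / (2 * (d : ℝ))) ^ 2 *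
      ∑ a ∈ safe Q, ∑ b ∈ safe Q, ∑ j ∈ range J,
      ind ((T ^ (a.val : ℤ) * S ^ (b.val : ℤ)) x ∈
        oscSet (fun k x => av (fun n => f ((T ^ n) x) * g ((S ^ n) x)) (N k)) c
          (p j) (p (j + 1))) := by
    simp only [← Finset.mul_sum]
  rw [h5] at h4
  have h6 := mul_le_mul_of_nonneg_left h4 (sq_nonneg (2 * (d : ℝ)))
  rw [← mul_assoc] at h6
  have h7 : (2 * (d : ℝ)) ^ 2 * (1 / (2 * (d : ℝ))) ^ 2 = 1 := by
    field_simp
  rw [h7, one_mul] at h6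
  rw [mul_assoc]
  exact h6

/-- integration over the space -/
lemma int_bound {X : Type} [MeasurableSpace X] (μ : Measure X) [IsProbabilityMeasure μ]
    (T S : Equiv.Perm X) (hT : MP2 μ T) (hS : MP2 μ S) (Q J : ℕ) (hQ : 0 < Q)
    (O : ℕ → Set X) (hO : ∀ j, MeasurableSet (O j)) (B : ℝ)
    (hB : ∀ x, ∑ a ∈ safe Q, ∑ b ∈ safe Q, ∑ j ∈ range J,
      ind ((T ^ (a.val : ℤ) * S ^ (b.val : ℤ)) x ∈ O j) ≤ (Q : ℝ) ^ 2 * B) :
    ∑ j ∈ range J, μ.real (O j) ≤ B := by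
  have hind : ∀ (a b : ZMod (8 * Q)) (j : ℕ),
      (fun x => ind ((T ^ (a.val : ℤ) * S ^ (b.val : ℤ)) x ∈ O j)) =
      (((T ^ (a.val : ℤ) * S ^ (b.val : ℤ) : Equiv.Perm X)) ⁻¹' (O j)).indicator
        (fun _ => (1 : ℝ)) := by
    intro a b j
    funext x
    by_cases hx : (T ^ (a.val : ℤ) * S ^ (b.val : ℤ)) x ∈ O j
    · rw [ind_of hx, Set.indicator_of_mem]
      exact hx
    · rw [ind_not hx, Set.indicator_of_notMem]
      exact hx
  have hmp : ∀ a b : ZMod (8 * Q), MP2 μ (T ^ (a.val : ℤ) * S ^ (b.val : ℤ)) := fun a b =>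
    (hT.zpow _).mul (hS.zpow _)
  have hmeas : ∀ (a b : ZMod (8 * Q)) (j : ℕ), MeasurableSet
      (((T ^ (a.val : ℤ) * S ^ (b.val : ℤ) : Equiv.Perm X)) ⁻¹' (O j)) := fun a b j =>
    (hmp a b).1.measurable (hO j)
  have hint : ∀ (a b : ZMod (8 * Q)) (j : ℕ), Integrable
      (fun x => ind ((T ^ (a.val : ℤ) * S ^ (b.val : ℤ)) x ∈ O j)) μ := by
    intro a b j
    rw [hind]
    exact (integrable_const (1 : ℝ)).indicator (hmeas a b j)
  have hval : ∀ (a b : ZMod (8 * Q)) (j : ℕ),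
      ∫ x, ind ((T ^ (a.val : ℤ) * S ^ (b.val : ℤ)) x ∈ O j) ∂μ = μ.real (O j) := by
    intro a b j
    rw [hind, integral_indicator (hmeas a b j)]
    simp only [integral_const, smul_eq_mul, mul_one, measureReal_restrict_apply_univ]
    exact (hmp a b).1.measureReal_preimage (hO j).nullMeasurableSet
  have h1 : ∫ x, (∑ a ∈ safe Q, ∑ b ∈ safe Q, ∑ j ∈ range J,
      ind ((T ^ (a.val : ℤ) * S ^ (b.val : ℤ)) x ∈ O j)) ∂μ =
      (Q : ℝ) ^ 2 * ∑ j ∈ range J, μ.real (O j) := by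
    rw [integral_finsetSum _ fun a _ => integrable_finsetSum _ fun b _ =>
      integrable_finsetSum _ fun j _ => hint a b j]
    have h2 : ∀ a ∈ safe Q, ∫ x, (∑ b ∈ safe Q, ∑ j ∈ range J,
        ind ((T ^ (a.val : ℤ) * S ^ (b.val : ℤ)) x ∈ O j)) ∂μ =
        (Q : ℝ) * ∑ j ∈ range J, μ.real (O j) := by
      intro a _
      rw [integral_finsetSum _ fun b _ => integrable_finsetSum _ fun j _ => hint a b j]
      have h3 : ∀ b ∈ safe Q, ∫ x, (∑ j ∈ range J,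
          ind ((T ^ (a.val : ℤ) * S ^ (b.val : ℤ)) x ∈ O j)) ∂μ =
          ∑ j ∈ range J, μ.real (O j) := by
        intro b _
        rw [integral_finsetSum _ fun j _ => hint a b j]
        exact Finset.sum_congr rfl fun j _ => hval a b j
      rw [Finset.sum_congr rfl h3, Finset.sum_const, safe_card, nsmul_eq_mul]
    rw [Finset.sum_congr rfl h2, Finset.sum_const, safe_card, nsmul_eq_mul]
    ring
  have h4 : ∫ x, (∑ a ∈ safe Q, ∑ b ∈ safe Q, ∑ j ∈ range J,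
      ind ((T ^ (a.val : ℤ) * S ^ (b.val : ℤ)) x ∈ O j)) ∂μ ≤ ∫ _x, (Q : ℝ) ^ 2 * B ∂μ := by
    refine integral_mono ?_ (integrable_const _) hB
    exact integrable_finsetSum _ fun a _ => integrable_finsetSum _ fun b _ =>
      integrable_finsetSum _ fun j _ => hint a b j
  rw [h1] at h4
  rw [integral_const, probReal_univ, one_smul] at h4
  have hQ' : (0 : ℝ) < (Q : ℝ) ^ 2 := by positivity
  exact le_of_mul_le_mul_left h4 hQ'

theorem OB_pair {X : Type} [MeasurableSpace X] (μ : Measure X) [IsProbabilityMeasure μ]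
    (T S : Equiv.Perm X) (hT : MP2 μ T) (hS : MP2 μ S) (hTS : Commute T S) (f g : X → ℝ)
    (hfm : Measurable f) (hgm : Measurable g) (hf : ∀ x, |f x| ≤ 1) (hg : ∀ x, |g x| ≤ 1) :
    OB μ (fun x n => f ((T ^ n) x) * g ((S ^ n) x)) := by
  intro c hc
  obtain ⟨d, hd⟩ := exists_nat_gt (16 / c)
  have hd0 : 0 < d := by
    have : (0 : ℝ) < d := lt_trans (by positivity) hd
    exact_mod_cast this
  have hd0' : (0 : ℝ) < d := by exact_mod_cast hd0
  obtain ⟨R0, hR0⟩ := exists_nat_gt (64 / c)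
  refine ⟨R0 + 1, fun R hR => ?_⟩
  obtain ⟨K, hK⟩ := finite_theorem (c / 4) (1 + 2 ^ (4 * R + 1)) (by positivity)
    (by linarith [pow_pos (show (0 : ℝ) < 2 by norm_num) (4 * R + 1)])
  refine ⟨64 * (2 * (d : ℝ)) ^ 2 * |K|, ?_⟩
  intro N hN hlow hup J p hp hp0
  have hd1 : 1 / (d : ℝ) < c / 16 := by
    rw [div_lt_iff₀ hc] at hd
    rw [div_lt_div_iff₀ hd0' (by norm_num)]
    linarith
  have h2R : (R : ℝ) ≤ 2 ^ R := by
    have : R ≤ 2 ^ R := Nat.lt_two_pow_self.le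
    exact_mod_cast this
  have hR1 : (R0 : ℝ) + 1 ≤ R := by exact_mod_cast hR
  have h4R : 4 / (2 : ℝ) ^ R < c / 16 := by
    rw [div_lt_iff₀ hc] at hR0
    rw [div_lt_div_iff₀ (by positivity) (by norm_num)]
    nlinarith
  rcases Nat.eq_zero_or_pos J with rfl | hJ
  · simp only [Finset.range_zero, Finset.sum_empty]
    positivity
  set L := p J with hL
  have hL2 : 2 ≤ L := by
    have h1 : p 0 < p 1 := hp (by norm_num)
    have h2 : p 1 ≤ p J := hp.monotone hJ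
    omega
  set Q := 2 * ∑ i ∈ range L, N i + 1 with hQ
  have hQ0 : 0 < Q := by omega
  have : NeZero (8 * Q) := ⟨by omega⟩
  have h : ∀ k < L, 2 * N k + 1 ≤ 8 * Q := by
    intro k hk
    have h1 : N k ≤ ∑ i ∈ range L, N i :=
      Finset.single_le_sum (f := N) (fun i _ => Nat.zero_le _) (Finset.mem_range.mpr hk)
    omega
  have hDB : (zch N L (8 * Q) h).DB (L - 2) (1 + 2 ^ (4 * R + 1)) :=
    zch_DB N L (8 * Q) R h (by omega) hN hlow hup hL2
  have hmeas : ∀ k, Measurable (fun x => av (fun n => f ((T ^ n) x) * g ((S ^ n) x)) (N k)) := by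
    intro k
    exact measurable_av (φ := fun x n => f ((T ^ n) x) * g ((S ^ n) x)) (fun n =>
      (hfm.comp (hT.zpow n).1.measurable).mul (hgm.comp (hS.zpow n).1.measurable)) (N k)
  refine int_bound μ T S hT hS Q J hQ0 (fun j => oscSet
    (fun k x => av (fun n => f ((T ^ n) x) * g ((S ^ n) x)) (N k)) c (p j) (p (j + 1)))
    (fun j => measurableSet_oscSet hmeas c _ _) _ ?_
  intro x
  obtain ⟨mark, hm1, hm2⟩ := hK (ZMod (8 * Q)) (zch N L (8 * Q) h) (L - 2) hDB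
    (zF T S f x (8 * Q)) (zG T S g x (8 * Q)) (fun b c => hf _) (fun a c => hg _)
  refine (avg_bound T S hTS f g hf hg x N L Q (by omega) h R d (by omega) hd0 hN hlow (c / 4) c
    |K| hc ?_ mark (hm1.trans (le_abs_self K)) hm2 J p hp hp0 rfl).trans (le_of_eq ?_)
  · linarith
  · push_cast
    ring

/-- the core theorem -/
theorem core : Core := by
  intro X _ μ _ T S hT' hT hS' hS hTS f g hfm hgm hf hg
  refine ae_tendsto_of_OB μ (fun x n => f ((T ^ n) x) * g ((S ^ n) x)) ?_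
    (OB_pair μ T S (MP2.of hT' hT) (MP2.of hS' hS) hTS f g hfm hgm hf hg)
  intro x n
  rw [abs_mul]
  exact mul_le_one₀ (hf _) (abs_nonneg _) (hg _)

end Pool.PWZ
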