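import Mathlib

/-!
PWZ (MP_4d8f14), step (3)(c) of note 3219: the potential `Phi r x = (|x| - r)_+^2`
and its Bregman distance.
-/

set_option autoImplicit false

namespace Pool.Agent.PWZ

/-- positive part of `|x| - r` -/
noncomputable def pos (r x : ℝ) : ℝ := max (|x| - r) 0

/-- the potential -/
noncomputable def Phi (r x : ℝ) : ℝ := (pos r x) ^ 2

/-- the derivative of the potential -/
noncomputable def dPhi (r x : ℝ) : ℝ := if 0 ≤ x then 2 * pos r x else -(2 * pos r x)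

/-- Bregman distance of the potential, base point `x` -/
noncomputable def Dg (r y x : ℝ) : ℝ := Phi r y - Phi r x - dPhi r x * (y - x)

lemma pos_nonneg (r x : ℝ) : 0 ≤ pos r x := le_max_right _ _

lemma pos_eq_zero {r x : ℝ} (h : |x| ≤ r) : pos r x = 0 := by
  unfold pos; exact max_eq_right (by linarith)

lemma pos_eq {r x : ℝ} (h : r ≤ |x|) : pos r x = |x| - r := by
  unfold pos; exact max_eq_left (by linarith)

lemma pos_neg (r x : ℝ) : pos r (-x) = pos r x := by unfold pos; rw [abs_neg]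

lemma Phi_nonneg (r x : ℝ) : 0 ≤ Phi r x := sq_nonneg _

lemma Phi_eq_zero {r x : ℝ} (h : |x| ≤ r) : Phi r x = 0 := by
  unfold Phi; rw [pos_eq_zero h]; ring

lemma Phi_neg (r x : ℝ) : Phi r (-x) = Phi r x := by unfold Phi; rw [pos_neg]

lemma dPhi_eq_zero {r x : ℝ} (h : |x| ≤ r) : dPhi r x = 0 := by
  unfold dPhi; rw [pos_eq_zero h]; simp

lemma dPhi_neg {r : ℝ} (hr : 0 ≤ r) (x : ℝ) : dPhi r (-x) = - dPhi r x := by
  rcases lt_trichotomy x 0 with h | h | h
  · unfold dPhi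
    rw [if_pos (by linarith), if_neg (by linarith), pos_neg]; ring
  · subst h
    have : |(0:ℝ)| ≤ r := by simpa using hr
    rw [neg_zero, dPhi_eq_zero this]; simp
  · unfold dPhi
    rw [if_neg (by linarith), if_pos (by linarith), pos_neg]

lemma Dg_neg {r : ℝ} (hr : 0 ≤ r) (y x : ℝ) : Dg r (-y) (-x) = Dg r y x := by
  unfold Dg; rw [Phi_neg, Phi_neg, dPhi_neg hr]; ring

lemma Phi_le {r x V : ℝ} (hr : 0 ≤ r) (hx : |x| ≤ V) : Phi r x ≤ V ^ 2 := by
  have h0 := pos_nonneg r x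
  have h1 : pos r x ≤ V := by
    unfold pos
    exact max_le (by linarith) (le_trans (abs_nonneg x) hx)
  unfold Phi
  nlinarith

lemma abs_dPhi (r x : ℝ) : |dPhi r x| = 2 * pos r x := by
  have h0 := pos_nonneg r x
  unfold dPhi
  split_ifs
  · rw [abs_of_nonneg (by linarith)]
  · rw [abs_neg, abs_of_nonneg (by linarith)]

lemma abs_dPhi_le {r x V : ℝ} (hr : 0 ≤ r) (hx : |x| ≤ V) : |dPhi r x| ≤ 2 * V := by
  have h1 : pos r x ≤ V := by
    unfold pos
    exact max_le (by linarith) (le_trans (abs_nonneg x) hx)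
  rw [abs_dPhi]; linarith

/-- formula for `Dg` when `r ≤ x`, `r ≤ y` -/
lemma Dg_pp {r x y : ℝ} (hr : 0 ≤ r) (hx : r ≤ x) (hy : r ≤ y) : Dg r y x = (y - x) ^ 2 := by
  have hx0 : 0 ≤ x := le_trans hr hx
  have hy0 : 0 ≤ y := le_trans hr hy
  unfold Dg Phi dPhi
  rw [if_pos hx0, pos_eq (x := x) (by rwa [abs_of_nonneg hx0]),
    pos_eq (x := y) (by rwa [abs_of_nonneg hy0]), abs_of_nonneg hx0, abs_of_nonneg hy0]
  ring

/-- formula for `Dg` when `r ≤ x`, `|y| ≤ r` -/
lemma Dg_p0 {r x y : ℝ} (hr : 0 ≤ r) (hx : r ≤ x) (hy : |y| ≤ r) :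
    Dg r y x = (x - r) * (x + r - 2 * y) := by
  have hx0 : 0 ≤ x := le_trans hr hx
  unfold Dg Phi dPhi
  rw [if_pos hx0, pos_eq (x := x) (by rwa [abs_of_nonneg hx0]), pos_eq_zero hy,
    abs_of_nonneg hx0]
  ring

/-- formula for `Dg` when `r ≤ x`, `y ≤ -r` -/
lemma Dg_pm {r x y : ℝ} (hr : 0 ≤ r) (hx : r ≤ x) (hy : y ≤ -r) :
    Dg r y x = (y + r) ^ 2 + (x - r) * (x + r - 2 * y) := by
  have hx0 : 0 ≤ x := le_trans hr hx
  have hy0 : y ≤ 0 := by linarith
  unfold Dg Phi dPhi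
  rw [if_pos hx0, pos_eq (x := x) (by rwa [abs_of_nonneg hx0]),
    pos_eq (x := y) (by rw [abs_of_nonpos hy0]; linarith), abs_of_nonneg hx0,
    abs_of_nonpos hy0]
  ring

lemma Dg_0 {r x y : ℝ} (hx : |x| ≤ r) : Dg r y x = Phi r y := by
  unfold Dg
  rw [Phi_eq_zero hx, dPhi_eq_zero hx]; ring

private lemma kappa_pos_case {r x y : ℝ} (hr : 0 < r) (hx : r < x) :
    (x - r) / (x + r) * (y - x) ^ 2 ≤ Dg r y x := by
  have hxr : 0 < x + r := by linarith
  rw [div_mul_eq_mul_div, div_le_iff₀ hxr]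
  rcases le_total r y with hy | hy
  · rw [Dg_pp hr.le hx.le hy]
    have := sq_nonneg (y - x)
    nlinarith
  · rcases le_total (-r) y with hy' | hy'
    · rw [Dg_p0 hr.le hx.le (abs_le.2 ⟨hy', hy⟩)]
      have h1 : 0 ≤ 2 * r * (x - y) + (r ^ 2 - y ^ 2) := by
        have h2 : 0 ≤ r * (x - y) := mul_nonneg hr.le (by linarith)
        have h3 : 0 ≤ (r - y) * (r + y) := mul_nonneg (by linarith) (by linarith)
        nlinarith
      have h4 : (x - r) * (x + r - 2 * y) * (x + r) - (x - r) * (y - x) ^ 2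
          = (x - r) * (2 * r * (x - y) + (r ^ 2 - y ^ 2)) := by ring
      have h5 : 0 ≤ (x - r) * (2 * r * (x - y) + (r ^ 2 - y ^ 2)) :=
        mul_nonneg (by linarith) h1
      linarith
    · rw [Dg_pm hr.le hx.le hy']
      have h4 : ((y + r) ^ 2 + (x - r) * (x + r - 2 * y)) * (x + r) - (x - r) * (y - x) ^ 2
          = 2 * r * (y + r) ^ 2 + 2 * r * ((x - r) * (x + r)) := by ring
      have h5 : 0 ≤ 2 * r * (y + r) ^ 2 := by positivity
      have h6 : 0 ≤ 2 * r * ((x - r) * (x + r)) :=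
        mul_nonneg (by linarith) (mul_nonneg (by linarith) (by linarith))
      linarith

/-- the main lower bound of the Bregman distance -/
lemma Dg_kappa {r x y : ℝ} (hr : 0 < r) (hx : r < |x|) :
    (|x| - r) / (|x| + r) * (y - x) ^ 2 ≤ Dg r y x := by
  rcases le_total 0 x with h | h
  · rw [abs_of_nonneg h] at hx ⊢
    exact kappa_pos_case hr hx
  · rw [abs_of_nonpos h] at hx ⊢
    have := kappa_pos_case (y := -y) hr hx
    rw [Dg_neg hr.le] at this
    have e : (-y - -x) ^ 2 = (y - x) ^ 2 := by ring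
    rwa [e] at this

lemma Dg_nonneg {r : ℝ} (hr : 0 < r) (y x : ℝ) : 0 ≤ Dg r y x := by
  rcases le_or_gt (|x|) r with h | h
  · rw [Dg_0 h]; exact Phi_nonneg _ _
  · refine le_trans ?_ (Dg_kappa hr h)
    have h1 : 0 < |x| + r := by linarith
    have h2 : 0 ≤ (|x| - r) / (|x| + r) := div_nonneg (by linarith) h1.le
    exact mul_nonneg h2 (sq_nonneg _)

/-- `|Phi'| (y-x)^2` is at most `10` times the Bregman distance -/
lemma abs_dPhi_mul_sq_le {r x y : ℝ} (hr : 0 < r) (hr1 : r ≤ 1) (hx : |x| ≤ 4) :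
    |dPhi r x| * (y - x) ^ 2 ≤ 10 * Dg r y x := by
  rcases le_or_gt (|x|) r with h | h
  · rw [dPhi_eq_zero h]
    have := Dg_nonneg hr y x
    simp only [abs_zero, zero_mul]; linarith
  · have h1 := Dg_kappa (y := y) hr h
    rw [abs_dPhi, pos_eq h.le]
    have h2 : 0 < |x| + r := by linarith
    have h3 : 2 * (|x| - r) ≤ 10 * ((|x| - r) / (|x| + r)) := by
      rw [← mul_div_assoc, le_div_iff₀ h2]
      have h4 : 0 ≤ (|x| - r) * (5 - (|x| + r)) := mul_nonneg (by linarith) (by linarith)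
      nlinarith
    have h5 := mul_le_mul_of_nonneg_right h3 (sq_nonneg (y - x))
    have h6 : 10 * ((|x| - r) / (|x| + r)) * (y - x) ^ 2
        = 10 * ((|x| - r) / (|x| + r) * (y - x) ^ 2) := by ring
    rw [h6] at h5
    linarith

lemma dPhi_sq_le_half {r x y : ℝ} (hr : 0 < r) (hr1 : r ≤ 1) (hx : |x| ≤ 4) :
    |dPhi r x| / 20 * (y - x) ^ 2 ≤ Dg r y x / 2 := by
  have := abs_dPhi_mul_sq_le (y := y) hr hr1 hx
  linarith

lemma abs_dPhi_le_eight {r x : ℝ} (hr : 0 ≤ r) (hx : |x| ≤ 4) : |dPhi r x| ≤ 8 := by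
  have := abs_dPhi_le hr hx
  linarith

lemma Phi_le_sixteen {r x : ℝ} (hr : 0 ≤ r) (hx : |x| ≤ 4) : Phi r x ≤ 16 := by
  have := Phi_le hr hx
  linarith

/-- active base point: the Bregman distance controls the square -/
lemma Dg_active {r x y : ℝ} (hr : 0 < r) (hx : 2 * r ≤ |x|) :
    (y - x) ^ 2 ≤ 3 * Dg r y x := by
  have h1 := Dg_kappa (y := y) hr (by linarith : r < |x|)
  have h2 : 0 < |x| + r := by linarith
  have h3 : (1:ℝ) / 3 ≤ (|x| - r) / (|x| + r) := by
    rw [div_le_div_iff₀ (by norm_num) h2]; linarith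
  have h4 := mul_le_mul_of_nonneg_right h3 (sq_nonneg (y - x))
  linarith

/-- a birth costs at least `9 r^2` -/
lemma Dg_birth {r x y : ℝ} (hr : 0 < r) (hx : |x| < 2 * r) (hy : 5 * r ≤ |y|) :
    9 * r ^ 2 ≤ Dg r y x := by
  rcases le_or_gt (|x|) r with h | h
  · rw [Dg_0 h]
    unfold Phi
    rw [pos_eq (by linarith)]
    nlinarith
  · -- reduce to x > 0
    have key : ∀ {x y : ℝ}, r < x → x < 2 * r → 5 * r ≤ |y| → 9 * r ^ 2 ≤ Dg r y x := by
      intro x y hx1 hx2 hy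
      rcases le_total 0 y with h0 | h0
      · rw [abs_of_nonneg h0] at hy
        rw [Dg_pp hr.le hx1.le (by linarith)]
        nlinarith
      · rw [abs_of_nonpos h0] at hy
        rw [Dg_pm hr.le hx1.le (by linarith)]
        have h1 : 0 ≤ (x - r) * (x + r - 2 * y) := mul_nonneg (by linarith) (by linarith)
        have h2 : 16 * r ^ 2 ≤ (y + r) ^ 2 := by nlinarith
        nlinarith [sq_nonneg r]
    rcases le_total 0 x with h0 | h0
    · rw [abs_of_nonneg h0] at h hx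
      exact key h hx hy
    · rw [abs_of_nonpos h0] at h hx
      have := key (y := -y) h hx (by rwa [abs_neg])
      rwa [Dg_neg hr.le] at this

end Pool.Agent.PWZ
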