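import Mathlib
import Pool.Agent.PWZ.Defs
import Pool.Agent.PWZ.Breg

/-!
# The oscillation lemma (MP_4d8f14, note 3219, part (3)(c), (d)) in the form of marks

`A` = parameters (the pair `a, b`), `l : List W` = the path `y_t, …, y_0` (newest first), `E t` = the expectation at
time `t` (only lists of length `t + 1` count), `I x l` = the information.  The process `T` moves from `T x l.tail` to
`T' x l` and, if one of the events `α`, `β` occurs, to another value `T x l`.  If the drift is bounded by
`(1 / 20) (quadratic variation) + 46 κ`, the expected number of marks is bounded by what happens while `|T| > r`,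
and between two marks `T` oscillates by at most `24 r`.

Proof.  `Phi x = (|x| - r)_+²`, Bregman divergence `Dg`; `∑ E Dg ≤ 736 Q`.  A mark is put if one of the bad events
occurs (a birth: `|T| < 2 r` and `|S| ≥ 5 r`, costs `Dg ≥ 9 r²`) or if `|T| ≥ 2 r` and `|S - ref| ≥ 3 r`; `ref` is the value
at the last mark or at the entry to `|T| ≥ 2 r`.  The potential `(T - ref)²` on `|T| ≥ 2 r` pays for these.
-/

namespace Pool.Agent.PWZ

open Finset

variable {A W ι : Type*}

/-- the indicator function of an event -/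
noncomputable def ix (B : A → List W → Prop) (x : A) (l : List W) : ℝ := ind (B x l)

/-- `E t` is a monotone linear functional which sees the lists of length `t + 1`, and they are compatible -/
structure IsEx (E : ℕ → (A → List W → ℝ) → ℝ) : Prop where
  add : ∀ t f g, E t (fun x l => f x l + g x l) = E t f + E t g
  smul : ∀ t (c : ℝ) f, E t (fun x l => c * f x l) = c * E t f
  mono : ∀ t f g, (∀ x l, l.length = t + 1 → f x l ≤ g x l) → E t f ≤ E t g
  tail : ∀ t f, E (t + 1) (fun x l => f x l.tail) = E t f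

/-- `f` is a function of the information -/
def Kn (I : A → List W → ι) {γ : Type*} (f : A → List W → γ) : Prop := ∀ x l x' l', I x l = I x' l' → f x l = f x' l'

theorem ix_nonneg (B : A → List W → Prop) (x : A) (l : List W) : 0 ≤ ix B x l := ind_nonneg _

theorem ix_of {B : A → List W → Prop} {x : A} {l : List W} (h : B x l) : ix B x l = 1 := ind_of h

theorem ix_of_not {B : A → List W → Prop} {x : A} {l : List W} (h : ¬ B x l) : ix B x l = 0 := ind_not h

namespace IsEx

variable {E : ℕ → (A → List W → ℝ) → ℝ}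

theorem eq (hE : IsEx E) {t : ℕ} {f g : A → List W → ℝ} (h : ∀ x l, l.length = t + 1 → f x l = g x l) :
    E t f = E t g :=
  le_antisymm (hE.mono t f g fun x l hl => (h x l hl).le) (hE.mono t g f fun x l hl => (h x l hl).ge)

theorem zero (hE : IsEx E) (t : ℕ) : E t (fun _ _ => 0) = 0 := by
  have h := hE.smul t 0 (fun _ _ => (0 : ℝ))
  simpa using h

theorem nonneg (hE : IsEx E) {t : ℕ} {f : A → List W → ℝ} (h : ∀ x l, l.length = t + 1 → 0 ≤ f x l) : 0 ≤ E t f := by
  rw [← hE.zero t]
  exact hE.mono t _ _ h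

theorem neg (hE : IsEx E) (t : ℕ) (f : A → List W → ℝ) : E t (fun x l => -f x l) = -E t f := by
  have h := hE.smul t (-1) f
  simpa using h

theorem sub (hE : IsEx E) (t : ℕ) (f g : A → List W → ℝ) : E t (fun x l => f x l - g x l) = E t f - E t g := by
  have h := hE.add t f (fun x l => -g x l)
  rw [hE.neg] at h
  simpa [sub_eq_add_neg] using h

theorem comb (hE : IsEx E) (t : ℕ) (s : List (ℝ × (A → List W → ℝ))) :
    E t (fun x l => (s.map fun p => p.1 * p.2 x l).sum) = (s.map fun p => p.1 * E t p.2).sum := by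
  induction s with
  | nil => simpa using hE.zero t
  | cons p s ih =>
    simp only [List.map_cons, List.sum_cons]
    rw [hE.add, hE.smul, ih]

/-- a pointwise bound by a linear combination gives a bound of the expectation -/
theorem le_comb (hE : IsEx E) {t : ℕ} {f : A → List W → ℝ} (s : List (ℝ × (A → List W → ℝ)))
    (h : ∀ x l, l.length = t + 1 → f x l ≤ (s.map fun p => p.1 * p.2 x l).sum) :
    E t f ≤ (s.map fun p => p.1 * E t p.2).sum := by
  rw [← hE.comb]
  exact hE.mono t _ _ h

end IsEx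

/-- the value after the move, frozen if `α` -/
noncomputable def Sv (T T' : A → List W → ℝ) (α : A → List W → Prop) (x : A) (l : List W) : ℝ :=
  T x l.tail + (1 - ix α x l) * (T' x l - T x l.tail)

/-- the bad events -/
def Bad (r : ℝ) (T T' : A → List W → ℝ) (α β : A → List W → Prop) (x : A) (l : List W) : Prop :=
  (|T x l.tail| < 2 * r ∧ 5 * r ≤ |Sv T T' α x l|) ∨ (α x l ∧ r < |T x l.tail|) ∨ (α x l ∧ r < |T x l|) ∨
    (β x l ∧ ¬ α x l ∧ r < |T' x l|) ∨ (β x l ∧ r < |T x l|)

open Classical in
/-- the reference value -/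
noncomputable def rf (r : ℝ) (T T' : A → List W → ℝ) (α β : A → List W → Prop) (x : A) : List W → ℝ
  | [] => T x []
  | [y] => T x [y]
  | y :: z :: l =>
    if |T x (z :: l)| < 2 * r ∨ Bad r T T' α β x (y :: z :: l) ∨
        3 * r ≤ |Sv T T' α x (y :: z :: l) - rf r T T' α β x (z :: l)| then
      T x (y :: z :: l)
    else rf r T T' α β x (z :: l)

/-- the marks -/
def Mk (r : ℝ) (T T' : A → List W → ℝ) (α β : A → List W → Prop) (x : A) (l : List W) : Prop :=
  Bad r T T' α β x l ∨ (2 * r ≤ |T x l.tail| ∧ 3 * r ≤ |Sv T T' α x l - rf r T T' α β x l.tail|)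

section Deterministic

variable {r : ℝ} {T T' : A → List W → ℝ} {α β : A → List W → Prop} {x : A}

theorem Sv_of {l : List W} (h : α x l) : Sv T T' α x l = T x l.tail := by
  unfold Sv
  rw [ix_of h]
  ring

theorem Sv_of_not {l : List W} (h : ¬ α x l) : Sv T T' α x l = T' x l := by
  unfold Sv
  rw [ix_of_not h]
  ring

/-- without a bad event `T = S`, or both are small -/
theorem step_cases (hstep : ∀ x l, ¬ α x l → ¬ β x l → T x l = T' x l) {l : List W}
    (h : ¬ Bad r T T' α β x l) : T x l = Sv T T' α x l ∨ (|T x l| ≤ r ∧ |Sv T T' α x l| ≤ r) := by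
  unfold Bad at h
  push Not at h
  obtain ⟨-, h2, h3, h4, h5⟩ := h
  by_cases ha : α x l
  · right
    rw [Sv_of ha]
    exact ⟨h3 ha, h2 ha⟩
  · by_cases hb : β x l
    · right
      rw [Sv_of_not ha]
      exact ⟨h5 hb, h4 hb ha⟩
    · left
      rw [Sv_of_not ha]
      exact hstep x l ha hb

theorem abs_sub_rf (hr : 0 < r) (hstep : ∀ x l, ¬ α x l → ¬ β x l → T x l = T' x l) :
    ∀ l : List W, 2 * r ≤ |T x l| → |T x l - rf r T T' α β x l| < 3 * r
  | [], _ => by
    show |T x [] - T x []| < 3 * r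
    rw [sub_self, abs_zero]
    linarith
  | [y], _ => by
    show |T x [y] - T x [y]| < 3 * r
    rw [sub_self, abs_zero]
    linarith
  | y :: z :: l, h => by
    rw [rf]
    split_ifs with hc
    · rw [sub_self, abs_zero]
      linarith
    · push Not at hc
      obtain ⟨h1, h2, h3⟩ := hc
      rcases step_cases hstep h2 with h4 | h4
      · rw [h4]
        exact h3
      · linarith [h4.1]

open Classical in
theorem rf_cons {y : W} {l : List W} (hl : l ≠ []) (h0 : ¬ Mk r T T' α β x (y :: l)) :
    rf r T T' α β x (y :: l) = if |T x l| < 2 * r then T x (y :: l) else rf r T T' α β x l := by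
  obtain ⟨z, q, hzq⟩ : ∃ z q, l = z :: q := List.exists_cons_of_ne_nil hl
  unfold Mk at h0
  push Not at h0
  obtain ⟨h1, h2⟩ := h0
  rw [List.tail_cons] at h2
  rw [hzq] at h1 h2 ⊢
  rw [rf]
  by_cases h3 : |T x (z :: q)| < 2 * r
  · rw [if_pos (Or.inl h3), if_pos h3]
  · rw [if_neg, if_neg h3]
    rintro (h4 | h4 | h4)
    · exact h3 h4
    · exact h1 h4
    · exact absurd (h2 (not_lt.1 h3)) (not_lt.2 h4)

/-- the invariant along a stretch without marks -/
theorem stretch_inv (hstep : ∀ x l, ¬ α x l → ¬ β x l → T x l = T' x l) {l : List W} (hl : l ≠ []) :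
    ∀ p : List W, (∀ j < p.length, ¬ Mk r T T' α β x ((p ++ l).drop j)) →
      ((2 * r ≤ |T x l| ∨ p = []) ∧ rf r T T' α β x (p ++ l) = rf r T T' α β x l) ∨
        |rf r T T' α β x (p ++ l)| < 5 * r
  | [], _ => Or.inl ⟨Or.inr rfl, rfl⟩
  | y :: p, h => by
    have ih := stretch_inv hstep hl p (fun j hj => by
      have h1 := h (j + 1) (by simpa using hj)
      simpa using h1)
    have h0 : ¬ Mk r T T' α β x (y :: (p ++ l)) := by
      have h1 := h 0 (by simp)
      simpa using h1
    rw [List.cons_append, rf_cons (by simp [hl]) h0]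
    have hb : ¬ Bad r T T' α β x (y :: (p ++ l)) := fun hb => h0 (Or.inl hb)
    by_cases h3 : |T x (p ++ l)| < 2 * r
    · rw [if_pos h3]
      right
      have h4 : |Sv T T' α x (y :: (p ++ l))| < 5 * r := by
        by_contra h5
        exact hb (Or.inl ⟨h3, not_lt.1 h5⟩)
      rcases step_cases hstep hb with h5 | h5
      · rw [h5]
        exact h4
      · have h6 : 0 ≤ |T x (y :: (p ++ l))| := abs_nonneg _
        have h7 : 0 ≤ |T x (p ++ l)| := abs_nonneg _
        linarith [h5.1]
    · rw [if_neg h3]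
      rcases ih with ⟨h5, h6⟩ | h5
      · left
        refine ⟨?_, h6⟩
        rcases h5 with h5 | h5
        · exact Or.inl h5
        · rw [h5, List.nil_append] at h3
          exact Or.inl (not_lt.1 h3)
      · exact Or.inr h5

/-- if `T` is large at the beginning of a stretch without marks, it stays near the reference value -/
theorem stretch_large (hr : 0 < r) (hstep : ∀ x l, ¬ α x l → ¬ β x l → T x l = T' x l) {l : List W} (hl : l ≠ [])
    (h9 : 9 * r < |rf r T T' α β x l|) (h3 : |T x l - rf r T T' α β x l| < 3 * r) :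
    ∀ p : List W, (∀ j < p.length, ¬ Mk r T T' α β x ((p ++ l).drop j)) →
      rf r T T' α β x (p ++ l) = rf r T T' α β x l ∧ |T x (p ++ l) - rf r T T' α β x l| < 3 * r
  | [], _ => ⟨rfl, h3⟩
  | y :: p, h => by
    obtain ⟨ih1, ih2⟩ := stretch_large hr hstep hl h9 h3 p (fun j hj => by
      have h1 := h (j + 1) (by simpa using hj)
      simpa using h1)
    have h0 : ¬ Mk r T T' α β x (y :: (p ++ l)) := by
      have h1 := h 0 (by simp)
      simpa using h1
    have h5 : 2 * r ≤ |T x (p ++ l)| := by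
      have h6 := abs_sub_abs_le_abs_sub (rf r T T' α β x l) (T x (p ++ l))
      rw [abs_sub_comm] at h6
      linarith
    rw [List.cons_append, rf_cons (by simp [hl]) h0, if_neg (not_lt.2 h5)]
    refine ⟨ih1, ?_⟩
    have hb : ¬ Bad r T T' α β x (y :: (p ++ l)) := fun hb => h0 (Or.inl hb)
    have h6 : |Sv T T' α x (y :: (p ++ l)) - rf r T T' α β x l| < 3 * r := by
      by_contra h7
      refine h0 (Or.inr ⟨h5, ?_⟩)
      rw [List.tail_cons, ih1]
      exact not_lt.1 h7
    rcases step_cases hstep hb with h7 | h7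
    · rw [h7]
      exact h6
    · exfalso
      have h8 := abs_sub_abs_le_abs_sub (rf r T T' α β x l) (Sv T T' α x (y :: (p ++ l)))
      rw [abs_sub_comm] at h8
      linarith [h7.2]

/-- between two marks `T` oscillates by at most `24 r` -/
theorem stretch (hr : 0 < r) (hstep : ∀ x l, ¬ α x l → ¬ β x l → T x l = T' x l) {l : List W} (hl : l ≠ [])
    (p : List W) (h : ∀ j < p.length, ¬ Mk r T T' α β x ((p ++ l).drop j)) : |T x (p ++ l) - T x l| ≤ 24 * r := by
  by_cases h12 : 12 * r ≤ |T x l|
  · have h1 := abs_sub_rf (T' := T') (α := α) (β := β) hr hstep l (by linarith)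
    have h2 := abs_sub_abs_le_abs_sub (T x l) (rf r T T' α β x l)
    obtain ⟨-, h3⟩ := stretch_large hr hstep hl (by linarith) h1 p h
    have h4 : T x (p ++ l) - T x l = (T x (p ++ l) - rf r T T' α β x l) - (T x l - rf r T T' α β x l) := by ring
    rw [h4]
    refine (abs_sub _ _).trans ?_
    linarith
  · have key : |T x (p ++ l)| < 12 * r ∨ |T x (p ++ l) - T x l| < 6 * r := by
      by_cases h2 : 2 * r ≤ |T x (p ++ l)|
      · have h3 := abs_sub_rf (T' := T') (α := α) (β := β) hr hstep (p ++ l) h2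
        rcases stretch_inv hstep hl p h with ⟨h4 | h4, h5⟩ | h4
        · right
          have h6 := abs_sub_rf (T' := T') (α := α) (β := β) hr hstep l h4
          rw [h5] at h3
          have h7 : T x (p ++ l) - T x l =
            (T x (p ++ l) - rf r T T' α β x l) - (T x l - rf r T T' α β x l) := by ring
          rw [h7]
          refine (abs_sub _ _).trans_lt ?_
          linarith
        · right
          rw [h4, List.nil_append, sub_self, abs_zero]
          linarith
        · left
          have h6 := abs_sub_abs_le_abs_sub (T x (p ++ l)) (rf r T T' α β x (p ++ l))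
          linarith
      · left
        linarith
    rcases key with h1 | h1
    · refine (abs_sub _ _).trans ?_
      linarith
    · linarith

end Deterministic

section Expectation

variable {E : ℕ → (A → List W → ℝ) → ℝ} {I : A → List W → ι} {r : ℝ} {T T' κ : A → List W → ℝ}
  {α β : A → List W → Prop}

theorem Kn_rf (hIl : ∀ x l x' l', I x l = I x' l' → l = l')
    (hI : ∀ x l x' l', I x l = I x' l' → I x l.tail = I x' l'.tail)
    (hT : Kn I T) (hT' : Kn I T') (hα : Kn I α) (hβ : Kn I β) : Kn I (rf r T T' α β) := by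
  have hS : Kn I (Sv T T' α) := by
    intro x l x' l' h
    unfold Sv ix
    rw [hT _ _ _ _ (hI _ _ _ _ h), hT' _ _ _ _ h, hα _ _ _ _ h]
  have hB : Kn I (Bad r T T' α β) := by
    intro x l x' l' h
    unfold Bad
    rw [hT _ _ _ _ (hI _ _ _ _ h), hT' _ _ _ _ h, hα _ _ _ _ h, hβ _ _ _ _ h, hS _ _ _ _ h, hT _ _ _ _ h]
  intro x l x' l' h
  obtain rfl := hIl _ _ _ _ h
  induction l with
  | nil => exact hT _ _ _ _ h
  | cons y l ih =>
    cases l with
    | nil => exact hT _ _ _ _ h
    | cons z l =>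
      have h1 := hI _ _ _ _ h
      rw [List.tail_cons] at h1
      rw [rf, rf, hT _ _ _ _ h1, hB _ _ _ _ h, hS _ _ _ _ h, hT _ _ _ _ h, ih h1]

/-- the Bregman divergence of a step -/
noncomputable def Dv (r : ℝ) (T T' : A → List W → ℝ) (α : A → List W → Prop) (x : A) (l : List W) : ℝ :=
  Dg r (Sv T T' α x l) (T x l.tail)

theorem Dv_nonneg (hr : 0 < r) (x : A) (l : List W) : 0 ≤ Dv r T T' α x l := Dg_nonneg hr _ _

/-- the step of the potential -/
theorem step_Phi (hE : IsEx E) (hr : 0 < r) (hr1 : r ≤ 1) (hT : Kn I T)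
    (hT4 : ∀ x l, |T x l| ≤ 4) (hT4' : ∀ x l, |T' x l| ≤ 4) (hκ : ∀ x l, 0 ≤ κ x l)
    (hstep : ∀ x l, ¬ α x l → ¬ β x l → T x l = T' x l) {t : ℕ}
    (hdrift : ∀ g : A → List W → ℝ, Kn I g → |E (t + 1) (fun x l => g x l.tail * (T' x l - T x l.tail))| ≤
      1 / 20 * E (t + 1) (fun x l => |g x l.tail| * (T' x l - T x l.tail) ^ 2) +
        46 * E t (fun x l => |g x l| * κ x l)) :
    1 / 2 * E (t + 1) (Dv r T T' α) ≤ E (t + 1) (fun x l => Phi r (T x l)) - E t (fun x l => Phi r (T x l)) +
      106 * E (t + 1) (ix fun x l => α x l ∧ r < |T x l.tail|) +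
      16 * E (t + 1) (ix fun x l => β x l ∧ ¬ α x l ∧ r < |T' x l|) +
      368 * E t (fun x l => ix (fun x l => r < |T x l|) x l * κ x l) := by
  have hD8 : ∀ x l, |T' x l - T x l.tail| ≤ 8 := fun x l => by
    refine (abs_sub _ _).trans ?_
    linarith [hT4 x l.tail, hT4' x l]
  have hD64 : ∀ x l, (T' x l - T x l.tail) ^ 2 ≤ 64 := fun x l => by
    rw [← sq_abs]
    nlinarith [hD8 x l, abs_nonneg (T' x l - T x l.tail)]
  have hg0 : ∀ x l, |dPhi r (T x l)| ≤ 8 * ix (fun x l => r < |T x l|) x l := fun x l => by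
    by_cases h : r < |T x l|
    · rw [ix_of h, mul_one]
      exact abs_dPhi_le_eight hr.le (hT4 x l)
    · rw [ix_of_not h, dPhi_eq_zero (not_lt.1 h)]
      simp
  have h1 := hdrift (fun x l => dPhi r (T x l)) (fun x l x' l' h => by
    show dPhi r (T x l) = dPhi r (T x' l')
    rw [hT _ _ _ _ h])
  have h2 : E (t + 1) (Dv r T T' α) ≤ 1 * E (t + 1) (fun x l => Phi r (T x l)) +
      (-1 * E (t + 1) (fun x l => Phi r (T x l.tail)) +
      (-1 * E (t + 1) (fun x l => dPhi r (T x l.tail) * (T' x l - T x l.tail)) +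
      (80 * E (t + 1) (ix fun x l => α x l ∧ r < |T x l.tail|) +
      (16 * E (t + 1) (ix fun x l => β x l ∧ ¬ α x l ∧ r < |T' x l|) + 0)))) := by
    refine hE.le_comb [(1, fun x l => Phi r (T x l)), (-1, fun x l => Phi r (T x l.tail)),
      (-1, fun x l => dPhi r (T x l.tail) * (T' x l - T x l.tail)), (80, ix fun x l => α x l ∧ r < |T x l.tail|),
      (16, ix fun x l => β x l ∧ ¬ α x l ∧ r < |T' x l|)] ?_
    intro x l _
    simp only [List.map_cons, List.map_nil, List.sum_cons, List.sum_nil]
    by_cases ha : α x l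
    · have e1 : Dv r T T' α x l = 0 := by
        unfold Dv Dg
        rw [Sv_of ha]
        ring
      rw [e1]
      have e3 : ix (fun x l => β x l ∧ ¬ α x l ∧ r < |T' x l|) x l = 0 := ix_of_not fun h => h.2.1 ha
      rw [e3]
      by_cases hR : r < |T x l.tail|
      · have e2 : ix (fun x l => α x l ∧ r < |T x l.tail|) x l = 1 := ix_of ⟨ha, hR⟩
        rw [e2]
        have h3 := Phi_nonneg r (T x l)
        have h4 := Phi_le_sixteen hr.le (hT4 x l.tail)
        have h5 : dPhi r (T x l.tail) * (T' x l - T x l.tail) ≤ 64 := by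
          refine (le_abs_self _).trans ?_
          rw [abs_mul]
          have h6 := abs_dPhi_le_eight hr.le (hT4 x l.tail)
          nlinarith [hD8 x l, abs_nonneg (dPhi r (T x l.tail)), abs_nonneg (T' x l - T x l.tail)]
        linarith
      · have e2 : ix (fun x l => α x l ∧ r < |T x l.tail|) x l = 0 := ix_of_not fun h => hR h.2
        rw [e2, Phi_eq_zero (not_lt.1 hR), dPhi_eq_zero (not_lt.1 hR)]
        have h3 := Phi_nonneg r (T x l)
        linarith
    · have e1 : Dv r T T' α x l = Phi r (T' x l) - Phi r (T x l.tail) -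
          dPhi r (T x l.tail) * (T' x l - T x l.tail) := by
        unfold Dv Dg
        rw [Sv_of_not ha]
      rw [e1]
      have e2 : ix (fun x l => α x l ∧ r < |T x l.tail|) x l = 0 := ix_of_not fun h => ha h.1
      rw [e2]
      have h3 : Phi r (T' x l) ≤ Phi r (T x l) + 16 * ix (fun x l => β x l ∧ ¬ α x l ∧ r < |T' x l|) x l := by
        by_cases hb : β x l
        · by_cases hR : r < |T' x l|
          · have e3 : ix (fun x l => β x l ∧ ¬ α x l ∧ r < |T' x l|) x l = 1 := ix_of ⟨hb, ha, hR⟩
            rw [e3]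
            have h4 := Phi_le_sixteen hr.le (hT4' x l)
            have h5 := Phi_nonneg r (T x l)
            linarith
          · have e3 : ix (fun x l => β x l ∧ ¬ α x l ∧ r < |T' x l|) x l = 0 := ix_of_not fun h => hR h.2.2
            rw [e3, Phi_eq_zero (not_lt.1 hR)]
            have h5 := Phi_nonneg r (T x l)
            linarith
        · rw [hstep x l ha hb]
          have h5 := ix_nonneg (fun x l => β x l ∧ ¬ α x l ∧ r < |T' x l|) x l
          linarith
      linarith
  have h3 : E (t + 1) (fun x l => |dPhi r (T x l.tail)| * (T' x l - T x l.tail) ^ 2) ≤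
      10 * E (t + 1) (Dv r T T' α) + (512 * E (t + 1) (ix fun x l => α x l ∧ r < |T x l.tail|) + 0) := by
    refine hE.le_comb [(10, Dv r T T' α), (512, ix fun x l => α x l ∧ r < |T x l.tail|)] ?_
    intro x l _
    simp only [List.map_cons, List.map_nil, List.sum_cons, List.sum_nil]
    by_cases ha : α x l
    · have h4 := Dv_nonneg (T := T) (T' := T') (α := α) hr x l
      by_cases hR : r < |T x l.tail|
      · have e2 : ix (fun x l => α x l ∧ r < |T x l.tail|) x l = 1 := ix_of ⟨ha, hR⟩
        rw [e2]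
        have h6 := abs_dPhi_le_eight hr.le (hT4 x l.tail)
        nlinarith [hD64 x l, abs_nonneg (dPhi r (T x l.tail)), sq_nonneg (T' x l - T x l.tail)]
      · rw [dPhi_eq_zero (not_lt.1 hR), abs_zero, zero_mul]
        have h5 := ix_nonneg (fun x l => α x l ∧ r < |T x l.tail|) x l
        linarith
    · have h5 := ix_nonneg (fun x l => α x l ∧ r < |T x l.tail|) x l
      have h6 := abs_dPhi_mul_sq_le (y := T' x l) hr hr1 (hT4 x l.tail)
      unfold Dv
      rw [Sv_of_not ha]
      linarith
  have h4 : E t (fun x l => |dPhi r (T x l)| * κ x l) ≤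
      8 * E t (fun x l => ix (fun x l => r < |T x l|) x l * κ x l) + 0 := by
    refine hE.le_comb [(8, fun x l => ix (fun x l => r < |T x l|) x l * κ x l)] ?_
    intro x l _
    simp only [List.map_cons, List.map_nil, List.sum_cons, List.sum_nil]
    have h5 := mul_le_mul_of_nonneg_right (hg0 x l) (hκ x l)
    linarith
  have h5 : E (t + 1) (fun x l => Phi r (T x l.tail)) = E t (fun x l => Phi r (T x l)) :=
    hE.tail t fun x l => Phi r (T x l)
  have h6 : 0 ≤ E (t + 1) (ix fun x l => α x l ∧ r < |T x l.tail|) := hE.nonneg fun x l _ => ix_nonneg _ x l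
  have h7 := neg_le_of_abs_le h1
  linarith

/-- active -/
def Act (r : ℝ) (T : A → List W → ℝ) (x : A) (l : List W) : Prop := 2 * r ≤ |T x l|

/-- the potential which pays for the marks of the second kind -/
noncomputable def Vv (r : ℝ) (T T' : A → List W → ℝ) (α β : A → List W → Prop) (x : A) (l : List W) : ℝ :=
  ix (Act r T) x l * (T x l - rf r T T' α β x l) ^ 2

/-- the marks of the second kind -/
def Mv (r : ℝ) (T T' : A → List W → ℝ) (α β : A → List W → Prop) (x : A) (l : List W) : Prop :=
  2 * r ≤ |T x l.tail| ∧ 3 * r ≤ |Sv T T' α x l - rf r T T' α β x l.tail|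

theorem Vv_nonneg (x : A) (l : List W) : 0 ≤ Vv r T T' α β x l := mul_nonneg (ix_nonneg _ x l) (sq_nonneg _)

theorem Vv_step (hr : 0 < r) (hstep : ∀ x l, ¬ α x l → ¬ β x l → T x l = T' x l) (x : A) (l : List W)
    (hl : 2 ≤ l.length) : Vv r T T' α β x l + 9 * r ^ 2 * ix (Mv r T T' α β) x l ≤
      ix (Act r T) x l.tail * (Sv T T' α x l - rf r T T' α β x l.tail) ^ 2 := by
  obtain ⟨y, z, q, rfl⟩ : ∃ y z q, l = y :: z :: q := by
    match l, hl with
    | y :: z :: q, _ => exact ⟨y, z, q, rfl⟩
  rw [List.tail_cons]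
  have h9 : ∀ v : ℝ, 3 * r ≤ |v| → 9 * r ^ 2 ≤ v ^ 2 := fun v hv => by
    rw [← sq_abs v]
    nlinarith
  by_cases hM : Mv r T T' α β x (y :: z :: q)
  · have h1 : rf r T T' α β x (y :: z :: q) = T x (y :: z :: q) := by
      rw [rf, if_pos]
      exact Or.inr (Or.inr hM.2)
    have h2 : ix (Act r T) x (z :: q) = 1 := ix_of hM.1
    unfold Vv
    rw [h1, sub_self, ix_of hM, h2]
    have h3 := h9 _ hM.2
    rw [List.tail_cons] at h3
    linarith
  · rw [ix_of_not hM, mul_zero, add_zero]
    have h0 : 0 ≤ ix (Act r T) x (z :: q) * (Sv T T' α x (y :: z :: q) - rf r T T' α β x (z :: q)) ^ 2 :=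
      mul_nonneg (ix_nonneg _ _ _) (sq_nonneg _)
    by_cases hc : |T x (z :: q)| < 2 * r ∨ Bad r T T' α β x (y :: z :: q) ∨
        3 * r ≤ |Sv T T' α x (y :: z :: q) - rf r T T' α β x (z :: q)|
    · have h1 : rf r T T' α β x (y :: z :: q) = T x (y :: z :: q) := by
        rw [rf, if_pos hc]
      unfold Vv
      rw [h1, sub_self]
      simpa using h0
    · have h1 : rf r T T' α β x (y :: z :: q) = rf r T T' α β x (z :: q) := by
        rw [rf, if_neg hc]
      push Not at hc
      obtain ⟨h3, h4, -⟩ := hc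
      by_cases hA : Act r T x (y :: z :: q)
      · rcases step_cases hstep h4 with h5 | h5
        · unfold Vv
          rw [h1, h5, ix_of hA, ix_of (show Act r T x (z :: q) from h3)]
        · exfalso
          have h6 : 2 * r ≤ |T x (y :: z :: q)| := hA
          linarith [h5.1]
      · unfold Vv
        rw [ix_of_not hA, zero_mul]
        exact h0

/-- the step of the second potential -/
theorem step_Vv (hE : IsEx E) (hr : 0 < r) (hr1 : r ≤ 1) (hT : Kn I T) (hrf : Kn I (rf r T T' α β))
    (hT4 : ∀ x l, |T x l| ≤ 4) (hT4' : ∀ x l, |T' x l| ≤ 4) (hκ : ∀ x l, 0 ≤ κ x l)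
    (hstep : ∀ x l, ¬ α x l → ¬ β x l → T x l = T' x l) {t : ℕ}
    (hdrift : ∀ g : A → List W → ℝ, Kn I g → |E (t + 1) (fun x l => g x l.tail * (T' x l - T x l.tail))| ≤
      1 / 20 * E (t + 1) (fun x l => |g x l.tail| * (T' x l - T x l.tail) ^ 2) +
        46 * E t (fun x l => |g x l| * κ x l)) :
    E (t + 1) (Vv r T T' α β) + 9 * r ^ 2 * E (t + 1) (ix (Mv r T T' α β)) ≤
      E t (Vv r T T' α β) + 4 * E (t + 1) (Dv r T T' α) +
      68 * E (t + 1) (ix fun x l => α x l ∧ r < |T x l.tail|) +
      276 * E t (fun x l => ix (fun x l => r < |T x l|) x l * κ x l) := by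
  have hD8 : ∀ x l, |T' x l - T x l.tail| ≤ 8 := fun x l => by
    refine (abs_sub _ _).trans ?_
    linarith [hT4 x l.tail, hT4' x l]
  have hD64 : ∀ x l, (T' x l - T x l.tail) ^ 2 ≤ 64 := fun x l => by
    rw [← sq_abs]
    nlinarith [hD8 x l, abs_nonneg (T' x l - T x l.tail)]
  set g : A → List W → ℝ := fun x l => ix (Act r T) x l * (T x l - rf r T T' α β x l) with hg
  have hgK : Kn I g := by
    intro x l x' l' h
    simp only [hg]
    unfold ix Act
    rw [hT _ _ _ _ h, hrf _ _ _ _ h]
  have hg3 : ∀ x l, |g x l| ≤ 3 * ix (Act r T) x l := fun x l => by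
    simp only [hg]
    by_cases h : Act r T x l
    · rw [ix_of h, one_mul, mul_one]
      have h1 := abs_sub_rf (T' := T') (α := α) (β := β) hr hstep l h
      linarith
    · rw [ix_of_not h, zero_mul, abs_zero, mul_zero]
  have hAR : ∀ x l, ix (Act r T) x l ≤ ix (fun x l => r < |T x l|) x l := fun x l => by
    by_cases h : Act r T x l
    · have h1 : r < |T x l| := by
        have h2 : 2 * r ≤ |T x l| := h
        linarith
      rw [ix_of h, ix_of h1]
    · rw [ix_of_not h]
      exact ix_nonneg _ x l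
  have h1 := hdrift g hgK
  have h2 : 1 * E (t + 1) (Vv r T T' α β) + (9 * r ^ 2 * E (t + 1) (ix (Mv r T T' α β)) + 0) ≤
      1 * E (t + 1) (fun x l => Vv r T T' α β x l.tail) +
      (2 * E (t + 1) (fun x l => g x l.tail * (T' x l - T x l.tail)) +
      (48 * E (t + 1) (ix fun x l => α x l ∧ r < |T x l.tail|) + (3 * E (t + 1) (Dv r T T' α) + 0))) := by
    have e1 := hE.comb (t + 1) [(1, Vv r T T' α β), (9 * r ^ 2, ix (Mv r T T' α β))]
    simp only [List.map_cons, List.map_nil, List.sum_cons, List.sum_nil] at e1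
    rw [← e1]
    refine hE.le_comb [(1, fun x l => Vv r T T' α β x l.tail),
      (2, fun x l => g x l.tail * (T' x l - T x l.tail)),
      (48, ix fun x l => α x l ∧ r < |T x l.tail|), (3, Dv r T T' α)] ?_
    intro x l hl
    simp only [List.map_cons, List.map_nil, List.sum_cons, List.sum_nil]
    have h3 := Vv_step (T' := T') (α := α) (β := β) hr hstep x l (by omega)
    have h4 : ix (Act r T) x l.tail * (Sv T T' α x l - rf r T T' α β x l.tail) ^ 2 =
        Vv r T T' α β x l.tail + 2 * (g x l.tail * (Sv T T' α x l - T x l.tail)) +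
          ix (Act r T) x l.tail * (Sv T T' α x l - T x l.tail) ^ 2 := by
      simp only [hg]
      unfold Vv
      ring
    have h5 : ix (Act r T) x l.tail * (Sv T T' α x l - T x l.tail) ^ 2 ≤ 3 * Dv r T T' α x l := by
      by_cases h : Act r T x l.tail
      · rw [ix_of h, one_mul]
        exact Dg_active hr h
      · rw [ix_of_not h, zero_mul]
        have := Dv_nonneg (T := T) (T' := T') (α := α) hr x l
        linarith
    have h6 : g x l.tail * (Sv T T' α x l - T x l.tail) ≤ g x l.tail * (T' x l - T x l.tail) +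
        24 * ix (fun x l => α x l ∧ r < |T x l.tail|) x l := by
      by_cases ha : α x l
      · rw [Sv_of ha, sub_self, mul_zero]
        by_cases h : Act r T x l.tail
        · have h7 : r < |T x l.tail| := by
            have h2 : 2 * r ≤ |T x l.tail| := h
            linarith
          have e2 : ix (fun x l => α x l ∧ r < |T x l.tail|) x l = 1 := ix_of ⟨ha, h7⟩
          rw [e2]
          have h8 := hg3 x l.tail
          rw [ix_of h] at h8
          have h10 : |g x l.tail * (T' x l - T x l.tail)| ≤ 24 := by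
            rw [abs_mul]
            nlinarith [hD8 x l, abs_nonneg (g x l.tail), abs_nonneg (T' x l - T x l.tail)]
          have h11 := neg_le_of_abs_le h10
          linarith
        · have h8 := hg3 x l.tail
          rw [ix_of_not h, mul_zero] at h8
          have h9 : g x l.tail = 0 := abs_eq_zero.1 (le_antisymm h8 (abs_nonneg _))
          rw [h9, zero_mul, zero_add]
          exact mul_nonneg (by norm_num) (ix_nonneg _ _ _)
      · rw [Sv_of_not ha]
        have h7 := ix_nonneg (fun x l => α x l ∧ r < |T x l.tail|) x l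
        linarith
    linarith
  have h3 : E (t + 1) (fun x l => |g x l.tail| * (T' x l - T x l.tail) ^ 2) ≤
      9 * E (t + 1) (Dv r T T' α) + (192 * E (t + 1) (ix fun x l => α x l ∧ r < |T x l.tail|) + 0) := by
    refine hE.le_comb [(9, Dv r T T' α), (192, ix fun x l => α x l ∧ r < |T x l.tail|)] ?_
    intro x l _
    simp only [List.map_cons, List.map_nil, List.sum_cons, List.sum_nil]
    have h4 := Dv_nonneg (T := T) (T' := T') (α := α) hr x l
    have h5 := ix_nonneg (fun x l => α x l ∧ r < |T x l.tail|) x l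
    have h8 := hg3 x l.tail
    by_cases h : Act r T x l.tail
    · rw [ix_of h] at h8
      by_cases ha : α x l
      · have h7 : r < |T x l.tail| := by
          have h2 : 2 * r ≤ |T x l.tail| := h
          linarith
        have e2 : ix (fun x l => α x l ∧ r < |T x l.tail|) x l = 1 := ix_of ⟨ha, h7⟩
        rw [e2]
        nlinarith [hD64 x l, abs_nonneg (g x l.tail), sq_nonneg (T' x l - T x l.tail)]
      · have h6 : (T' x l - T x l.tail) ^ 2 ≤ 3 * Dv r T T' α x l := by
          unfold Dv
          rw [Sv_of_not ha]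
          exact Dg_active hr h
        nlinarith [abs_nonneg (g x l.tail), sq_nonneg (T' x l - T x l.tail)]
    · rw [ix_of_not h, mul_zero] at h8
      have h9 : |g x l.tail| = 0 := le_antisymm h8 (abs_nonneg _)
      rw [h9, zero_mul]
      linarith
  have h4 : E t (fun x l => |g x l| * κ x l) ≤
      3 * E t (fun x l => ix (fun x l => r < |T x l|) x l * κ x l) + 0 := by
    refine hE.le_comb [(3, fun x l => ix (fun x l => r < |T x l|) x l * κ x l)] ?_
    intro x l _
    simp only [List.map_cons, List.map_nil, List.sum_cons, List.sum_nil]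
    have h5 := mul_le_mul_of_nonneg_right ((hg3 x l).trans (mul_le_mul_of_nonneg_left (hAR x l) (by norm_num)))
      (hκ x l)
    linarith
  have h5 : E (t + 1) (fun x l => Vv r T T' α β x l.tail) = E t (Vv r T T' α β) := hE.tail t (Vv r T T' α β)
  have h6 : 0 ≤ E (t + 1) (ix fun x l => α x l ∧ r < |T x l.tail|) := hE.nonneg fun x l _ => ix_nonneg _ x l
  have h8 : 0 ≤ E (t + 1) (Dv r T T' α) := hE.nonneg fun x l _ => Dv_nonneg hr x l
  have h7 := le_of_abs_le h1
  linarith

/-- **the oscillation lemma**: the number of marks -/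
theorem osc_marks (hE : IsEx E) (hIl : ∀ x l x' l', I x l = I x' l' → l = l')
    (hI : ∀ x l x' l', I x l = I x' l' → I x l.tail = I x' l'.tail) (hr : 0 < r) (hr1 : r ≤ 1)
    (hT : Kn I T) (hT' : Kn I T') (hα : Kn I α) (hβ : Kn I β)
    (hT4 : ∀ x l, |T x l| ≤ 4) (hT4' : ∀ x l, |T' x l| ≤ 4) (hκ : ∀ x l, 0 ≤ κ x l)
    (hstep : ∀ x l, ¬ α x l → ¬ β x l → T x l = T' x l) (n : ℕ)
    (hdrift : ∀ t < n, ∀ g : A → List W → ℝ, Kn I g →
      |E (t + 1) (fun x l => g x l.tail * (T' x l - T x l.tail))| ≤
      1 / 20 * E (t + 1) (fun x l => |g x l.tail| * (T' x l - T x l.tail) ^ 2) +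
        46 * E t (fun x l => |g x l| * κ x l)) :
    ∑ t ∈ range n, E (t + 1) (fun x l => ind (Mk r T T' α β x l)) ≤ 500 / r ^ 2 *
      (∑ t ∈ range n, (E t (fun x l => ind (r < |T x l|) * κ x l) +
        E (t + 1) (fun x l => ind (α x l ∧ r < |T x l.tail|)) +
        E (t + 1) (fun x l => ind (α x l ∧ r < |T x l|)) +
        E (t + 1) (fun x l => ind (β x l ∧ ¬ α x l ∧ r < |T' x l|)) +
        E (t + 1) (fun x l => ind (β x l ∧ r < |T x l|))) + E n (fun x l => ind (r < |T x l|))) := by
  change ∑ t ∈ range n, E (t + 1) (ix (Mk r T T' α β)) ≤ 500 / r ^ 2 *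
      (∑ t ∈ range n, (E t (fun x l => ix (fun x l => r < |T x l|) x l * κ x l) +
        E (t + 1) (ix fun x l => α x l ∧ r < |T x l.tail|) + E (t + 1) (ix fun x l => α x l ∧ r < |T x l|) +
        E (t + 1) (ix fun x l => β x l ∧ ¬ α x l ∧ r < |T' x l|) +
        E (t + 1) (ix fun x l => β x l ∧ r < |T x l|)) + E n (ix fun x l => r < |T x l|))
  have hrf := Kn_rf (r := r) hIl hI hT hT' hα hβ
  set K : ℕ → ℝ := fun t => E t (fun x l => ix (fun x l => r < |T x l|) x l * κ x l) with hK
  set P1 : ℕ → ℝ := fun t => E (t + 1) (ix fun x l => α x l ∧ r < |T x l.tail|) with hP1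
  set P2 : ℕ → ℝ := fun t => E (t + 1) (ix fun x l => α x l ∧ r < |T x l|) with hP2
  set P3 : ℕ → ℝ := fun t => E (t + 1) (ix fun x l => β x l ∧ ¬ α x l ∧ r < |T' x l|) with hP3
  set P4 : ℕ → ℝ := fun t => E (t + 1) (ix fun x l => β x l ∧ r < |T x l|) with hP4
  have hK0 : ∀ t, 0 ≤ K t := fun t => hE.nonneg fun x l _ => mul_nonneg (ix_nonneg _ x l) (hκ x l)
  have h10 : ∀ t, 0 ≤ P1 t := fun t => hE.nonneg fun x l _ => ix_nonneg _ x l
  have h20 : ∀ t, 0 ≤ P2 t := fun t => hE.nonneg fun x l _ => ix_nonneg _ x l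
  have h30 : ∀ t, 0 ≤ P3 t := fun t => hE.nonneg fun x l _ => ix_nonneg _ x l
  have h40 : ∀ t, 0 ≤ P4 t := fun t => hE.nonneg fun x l _ => ix_nonneg _ x l
  have hn0 : 0 ≤ E n (ix fun x l => r < |T x l|) := hE.nonneg fun x l _ => ix_nonneg _ x l
  -- the marks
  have hmk : ∀ t, 9 * r ^ 2 * E (t + 1) (ix (Mk r T T' α β)) ≤ E (t + 1) (Dv r T T' α) +
      9 * (P1 t + P2 t + P3 t + P4 t) + 9 * r ^ 2 * E (t + 1) (ix (Mv r T T' α β)) := by
    intro t
    have h1 : E (t + 1) (fun x l => 9 * r ^ 2 * ix (Mk r T T' α β) x l) ≤ 1 * E (t + 1) (Dv r T T' α) +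
        (9 * P1 t + (9 * P2 t + (9 * P3 t + (9 * P4 t + (9 * r ^ 2 * E (t + 1) (ix (Mv r T T' α β)) + 0))))) := by
      refine hE.le_comb [(1, Dv r T T' α), (9, ix fun x l => α x l ∧ r < |T x l.tail|),
        (9, ix fun x l => α x l ∧ r < |T x l|), (9, ix fun x l => β x l ∧ ¬ α x l ∧ r < |T' x l|),
        (9, ix fun x l => β x l ∧ r < |T x l|), (9 * r ^ 2, ix (Mv r T T' α β))] ?_
      intro x l _
      simp only [List.map_cons, List.map_nil, List.sum_cons, List.sum_nil]
      have e0 := Dv_nonneg (T := T) (T' := T') (α := α) hr x l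
      have e1 := ix_nonneg (fun x l => α x l ∧ r < |T x l.tail|) x l
      have e2 := ix_nonneg (fun x l => α x l ∧ r < |T x l|) x l
      have e3 := ix_nonneg (fun x l => β x l ∧ ¬ α x l ∧ r < |T' x l|) x l
      have e4 := ix_nonneg (fun x l => β x l ∧ r < |T x l|) x l
      have e5 : 0 ≤ 9 * r ^ 2 * ix (Mv r T T' α β) x l :=
        mul_nonneg (mul_nonneg (by norm_num) (sq_nonneg r)) (ix_nonneg _ x l)
      have e6 : 9 * r ^ 2 ≤ 9 := by nlinarith
      by_cases hM : Mk r T T' α β x l
      · rw [ix_of hM, mul_one]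
        rcases hM with (h | h | h | h | h) | h
        · have h2 := Dg_birth hr h.1 h.2
          have h3 : 9 * r ^ 2 ≤ Dv r T T' α x l := h2
          linarith
        · have h2 : ix (fun x l => α x l ∧ r < |T x l.tail|) x l = 1 := ix_of h
          linarith
        · have h2 : ix (fun x l => α x l ∧ r < |T x l|) x l = 1 := ix_of h
          linarith
        · have h2 : ix (fun x l => β x l ∧ ¬ α x l ∧ r < |T' x l|) x l = 1 := ix_of h
          linarith
        · have h2 : ix (fun x l => β x l ∧ r < |T x l|) x l = 1 := ix_of h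
          linarith
        · have h2 : ix (Mv r T T' α β) x l = 1 := ix_of h
          rw [h2]
          linarith
      · rw [ix_of_not hM, mul_zero]
        linarith
    rw [hE.smul] at h1
    linarith
  have hPhi := fun t (ht : t < n) => step_Phi hE hr hr1 hT hT4 hT4' hκ hstep (hdrift t ht)
  have hVv := fun t (ht : t < n) => step_Vv hE hr hr1 hT hrf hT4 hT4' hκ hstep (hdrift t ht)
  -- telescoping
  have key : ∀ m ≤ n, 9 * r ^ 2 * ∑ t ∈ range m, E (t + 1) (ix (Mk r T T' α β)) + E m (Vv r T T' α β) ≤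
      10 * (E m (fun x l => Phi r (T x l)) - E 0 (fun x l => Phi r (T x l))) + E 0 (Vv r T T' α β) +
      4000 * ∑ t ∈ range m, (K t + P1 t + P2 t + P3 t + P4 t) := by
    intro m
    induction m with
    | zero =>
      intro _
      simp
    | succ m ih =>
      intro hm
      have h1 := ih (by omega)
      have h2 := hmk m
      have h3 := hPhi m (by omega)
      have h4 := hVv m (by omega)
      rw [Finset.sum_range_succ, Finset.sum_range_succ]
      have h5 := hK0 m
      have h6 := h10 m
      have h7 := h20 m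
      have h8 := h30 m
      have h9 := h40 m
      simp only [hK, hP1, hP2, hP3, hP4] at h1 h2 h3 h4 h5 h6 h7 h8 h9 ⊢
      linarith
  have h1 := key n le_rfl
  have h2 : E 0 (Vv r T T' α β) ≤ 0 := by
    rw [← hE.zero 0]
    refine hE.mono 0 _ _ fun x l hl => ?_
    obtain ⟨y, rfl⟩ := List.length_eq_one_iff.1 (by simpa using hl)
    show ix (Act r T) x [y] * (T x [y] - T x [y]) ^ 2 ≤ 0
    rw [sub_self]
    simp
  have h3 : 0 ≤ E n (Vv r T T' α β) := hE.nonneg fun x l _ => Vv_nonneg x l
  have h4 : 0 ≤ E 0 (fun x l => Phi r (T x l)) := hE.nonneg fun x l _ => Phi_nonneg _ _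
  have h5 : E n (fun x l => Phi r (T x l)) ≤ 16 * E n (ix fun x l => r < |T x l|) := by
    rw [← hE.smul]
    refine hE.mono n _ _ fun x l _ => ?_
    by_cases h : r < |T x l|
    · have h6 : ix (fun x l => r < |T x l|) x l = 1 := ix_of h
      rw [h6, mul_one]
      exact Phi_le_sixteen hr.le (hT4 x l)
    · rw [Phi_eq_zero (not_lt.1 h)]
      exact mul_nonneg (by norm_num) (ix_nonneg _ x l)
  have hr2 : 0 < r ^ 2 := pow_pos hr 2
  have h6 : 9 * r ^ 2 * ∑ t ∈ range n, E (t + 1) (ix (Mk r T T' α β)) ≤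
      9 * r ^ 2 * (500 / r ^ 2 * (∑ t ∈ range n, (K t + P1 t + P2 t + P3 t + P4 t) +
        E n (ix fun x l => r < |T x l|))) := by
    have h7 : 9 * r ^ 2 * (500 / r ^ 2 * (∑ t ∈ range n, (K t + P1 t + P2 t + P3 t + P4 t) +
        E n (ix fun x l => r < |T x l|))) = 4500 * (∑ t ∈ range n, (K t + P1 t + P2 t + P3 t + P4 t) +
        E n (ix fun x l => r < |T x l|)) := by
      field_simp
      ring
    rw [h7]
    have h8 : 0 ≤ ∑ t ∈ range n, (K t + P1 t + P2 t + P3 t + P4 t) := Finset.sum_nonneg fun t _ => by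
      have := hK0 t
      have := h10 t
      have := h20 t
      have := h30 t
      have := h40 t
      linarith
    linarith
  exact le_of_mul_le_mul_left h6 (by positivity)

end Expectation

end Pool.Agent.PWZ
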