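import Pool.Agent.PWZ.Basic

/-! # PWZ Step: one greedy refinement step (1) of note 3219, at a fixed time `t` and observation `y`.

PROOF. `En g = sum_a ip t y (G a - g a) (G a - g a) ≥ 0`. Induction on `N` with
`En g0 ≤ N * δ`, `δ = (η^2/4) * ε * |E (t+1)| > 0`. If `HF` holds for `G - g0`: `L = []`. Otherwise
there are `w`, `|w| ≤ 2`, `z` with `sum_s mu (t+1) s ind (η < |ip (G - g0)(z-s) w|) > 2ε`, so for
`w` or `-w`: `sum_s mu (t+1) s ind (η < ip (G-g0)(z-s) w) > ε`. Let
`X = {a | z - a ∈ E (t+1), η < ip t y (G a - g0 a) w}`: `|X| > ε |E (t+1)|`. New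
`g1 a = clip (g0 a + (η/4) w)` for `a ∈ X` (clip to [-1,1] pointwise, `max (-1) (min 1 .)`), `g0 a`
otherwise. For `a ∈ X`: `ip (G-g1)(G-g1) ≤ ip (G-g0-(η/4)w)(G-g0-(η/4)w) ≤ ip (G-g0)(G-g0) - η^2/4`
(`ip w w ≤ 4`). So `En g1 ≤ En g0 - (η^2/4)|X| ≤ En g0 - δ`. Apply the induction hypothesis to `g1`
and put `L = L1 ++ [X]` (or `X :: L1`). -/

namespace Pool.Agent.PWZ

open Finset

variable {V : Type*} [AddCommGroup V] [Fintype V] [DecidableEq V]

/-- clipping is a contraction towards points of `[-1,1]` -/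
theorem clip_sq (x u : ℝ) (hx : |x| ≤ 1) :
    (x - max (-1) (min 1 u)) ^ 2 ≤ (x - u) ^ 2 := by
  rw [abs_le] at hx
  obtain ⟨h1, h2⟩ := hx
  by_cases hu1 : u ≤ 1
  · by_cases hu2 : -1 ≤ u
    · rw [min_eq_right hu1, max_eq_right hu2]
    · push Not at hu2
      rw [min_eq_right hu1, max_eq_left hu2.le]
      nlinarith
  · push Not at hu1
    rw [min_eq_left hu1.le, max_eq_right (by norm_num)]
    nlinarith

theorem abs_clip_le (u : ℝ) : |max (-1) (min 1 u)| ≤ 1 := by
  rw [abs_le]
  refine ⟨le_max_left _ _, max_le (by norm_num) (min_le_left _ _)⟩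

/-- the energy drop at one point -/
theorem step_drop (C : Chain V) (t : ℕ) (y : V) (f g w : V → ℝ) (hf : ∀ c, |f c| ≤ 1)
    (hw : ∀ c, |w c| ≤ 2) (η : ℝ) (hη : 0 < η)
    (h : η < ip C t y (fun c => f c - g c) w) :
    ip C t y (fun c => f c - max (-1) (min 1 (g c + (η / 4) * w c)))
        (fun c => f c - max (-1) (min 1 (g c + (η / 4) * w c))) + η ^ 2 / 4 ≤
      ip C t y (fun c => f c - g c) (fun c => f c - g c) := by
  have h1 : ip C t y (fun c => f c - max (-1) (min 1 (g c + (η / 4) * w c)))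
        (fun c => f c - max (-1) (min 1 (g c + (η / 4) * w c))) ≤
      ∑ c, C.rho t (y - c) * (f c - (g c + (η / 4) * w c)) ^ 2 := by
    unfold ip
    refine Finset.sum_le_sum (fun c _ => ?_)
    have := mul_le_mul_of_nonneg_left (clip_sq (f c) (g c + (η / 4) * w c) (hf c))
      (C.rho_nonneg t (y - c))
    calc C.rho t (y - c) * (f c - max (-1) (min 1 (g c + (η / 4) * w c))) *
          (f c - max (-1) (min 1 (g c + (η / 4) * w c)))
        = C.rho t (y - c) * (f c - max (-1) (min 1 (g c + (η / 4) * w c))) ^ 2 := by ring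
      _ ≤ _ := this
  have h2 : ∑ c, C.rho t (y - c) * (f c - (g c + (η / 4) * w c)) ^ 2 =
      ip C t y (fun c => f c - g c) (fun c => f c - g c) -
        (η / 2) * ip C t y (fun c => f c - g c) w + (η / 4) ^ 2 * ip C t y w w := by
    unfold ip
    rw [Finset.mul_sum, Finset.mul_sum, ← Finset.sum_sub_distrib, ← Finset.sum_add_distrib]
    refine Finset.sum_congr rfl (fun c _ => ?_)
    ring
  have h3 : ip C t y w w ≤ 4 := by
    have := abs_ip_le C t y w w 2 2 hw hw
    have h4 := le_abs_self (ip C t y w w)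
    linarith
  have h4 : (η / 4) ^ 2 * ip C t y w w ≤ (η / 4) ^ 2 * 4 :=
    mul_le_mul_of_nonneg_left h3 (by positivity)
  have h5 : (η / 2) * η ≤ (η / 2) * ip C t y (fun c => f c - g c) w :=
    mul_le_mul_of_nonneg_left h.le (by positivity)
  rw [h2] at h1
  nlinarith [h1, h4, h5]

/-- one update -/
theorem step_one (C : Chain V) (t : ℕ) (y : V) (G g0 : V → V → ℝ) (hG : ∀ a c, |G a c| ≤ 1)
    (hg0 : ∀ a c, |g0 a c| ≤ 1) (η ε : ℝ) (hη : 0 < η)
    (hH : ¬ HF C t y (fun a c => G a c - g0 a c) η (2 * ε)) :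
    ∃ (X : Finset V) (g : V → V → ℝ),
      (∀ a c, |g a c| ≤ 1) ∧
      (∀ a, a ∉ X → g a = g0 a) ∧
      (∀ a a', g0 a = g0 a' → (a ∈ X ↔ a' ∈ X) → g a = g a') ∧
      (∃ z, ∀ a ∈ X, z - a ∈ C.E (t + 1)) ∧
      (ε * ((C.E (t + 1)).card : ℝ) ≤ (X.card : ℝ)) ∧
      (∑ a, ip C t y (fun c => G a c - g a c) (fun c => G a c - g a c)) +
        (η ^ 2 / 4) * (X.card : ℝ) ≤
        ∑ a, ip C t y (fun c => G a c - g0 a c) (fun c => G a c - g0 a c) := by
  classical
  -- a signed test function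
  obtain ⟨w, hw, z, hz⟩ : ∃ w : V → ℝ, (∀ c, |w c| ≤ 2) ∧ ∃ z,
      ε < ∑ s, C.mu (t + 1) s * ind (η < ip C t y (fun c => G (z - s) c - g0 (z - s) c) w) := by
    unfold HF at hH
    push Not at hH
    obtain ⟨w, hw, z, hz⟩ := hH
    by_cases hc : ε < ∑ s, C.mu (t + 1) s *
        ind (η < ip C t y (fun c => G (z - s) c - g0 (z - s) c) w)
    · exact ⟨w, hw, z, hc⟩
    · push Not at hc
      refine ⟨fun c => - w c, fun c => by rw [abs_neg]; exact hw c, z, ?_⟩
      have hneg : ∀ s, ip C t y (fun c => G (z - s) c - g0 (z - s) c) (fun c => - w c) =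
          - ip C t y (fun c => G (z - s) c - g0 (z - s) c) w := by
        intro s
        unfold ip
        rw [← Finset.sum_neg_distrib]
        exact Finset.sum_congr rfl (fun c _ => by ring)
      have hle : ∑ s, C.mu (t + 1) s *
            ind (η < |ip C t y (fun c => G (z - s) c - g0 (z - s) c) w|) ≤
          (∑ s, C.mu (t + 1) s *
            ind (η < ip C t y (fun c => G (z - s) c - g0 (z - s) c) w)) +
          ∑ s, C.mu (t + 1) s *
            ind (η < ip C t y (fun c => G (z - s) c - g0 (z - s) c) (fun c => - w c)) := by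
        rw [← Finset.sum_add_distrib]
        refine Finset.sum_le_sum (fun s _ => ?_)
        rw [← mul_add]
        refine mul_le_mul_of_nonneg_left ?_ (mu_nonneg C _ s)
        refine le_trans (ind_mono ?_) (ind_or_le _ _)
        intro hlt
        rw [hneg s]
        rcases lt_abs.mp hlt with h | h
        · exact Or.inl h
        · exact Or.inr h
      linarith
  -- the set
  let P : V → Prop := fun a => η < ip C t y (fun c => G a c - g0 a c) w
  let X : Finset V := univ.filter (fun a => z - a ∈ C.E (t + 1) ∧ P a)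
  have hEpos : (0 : ℝ) < ((C.E (t + 1)).card : ℝ) := by
    exact_mod_cast Finset.card_pos.mpr (C.ne (t + 1))
  have hcard : ∑ s, C.mu (t + 1) s * ind (P (z - s)) =
      ((C.E (t + 1)).card : ℝ)⁻¹ * (X.card : ℝ) := by
    have e1 : ∑ s, C.mu (t + 1) s * ind (P (z - s)) =
        ∑ a, C.mu (t + 1) (z - a) * ind (P a) := by
      refine Fintype.sum_equiv (Equiv.subLeft z) _ _ (fun s => ?_)
      simp
    rw [e1]
    have e2 : ∀ a, C.mu (t + 1) (z - a) * ind (P a) =
        if a ∈ X then ((C.E (t + 1)).card : ℝ)⁻¹ else 0 := by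
      intro a
      by_cases h1 : z - a ∈ C.E (t + 1)
      · by_cases h2 : P a
        · have : a ∈ X := by simp [X, h1, h2]
          rw [if_pos this, ind_of h2]
          unfold Chain.mu unif
          rw [if_pos h1, mul_one]
        · have : a ∉ X := by simp [X, h2]
          rw [if_neg this, ind_not h2, mul_zero]
      · have : a ∉ X := by simp [X, h1]
        rw [if_neg this]
        unfold Chain.mu unif
        rw [if_neg h1, zero_mul]
    rw [Finset.sum_congr rfl (fun a _ => e2 a), Finset.sum_ite_mem, Finset.univ_inter,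
      Finset.sum_const, nsmul_eq_mul, mul_comm]
  have hX : ε * ((C.E (t + 1)).card : ℝ) ≤ (X.card : ℝ) := by
    have h1 : ε < ((C.E (t + 1)).card : ℝ)⁻¹ * (X.card : ℝ) := by
      rw [← hcard]; exact hz
    have h2 := mul_lt_mul_of_pos_right h1 hEpos
    have h3 : ((C.E (t + 1)).card : ℝ)⁻¹ * (X.card : ℝ) * ((C.E (t + 1)).card : ℝ) =
        (X.card : ℝ) := by
      field_simp
    rw [h3] at h2
    exact h2.le
  -- the new function
  let g : V → V → ℝ := fun a =>
    if a ∈ X then (fun c => max (-1) (min 1 (g0 a c + (η / 4) * w c))) else g0 a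
  have hgin : ∀ a, a ∈ X → g a = fun c => max (-1) (min 1 (g0 a c + (η / 4) * w c)) := by
    intro a ha
    simp only [g, if_pos ha]
  have hgout : ∀ a, a ∉ X → g a = g0 a := by
    intro a ha
    simp only [g, if_neg ha]
  refine ⟨X, g, ?_, hgout, ?_, ⟨z, ?_⟩, hX, ?_⟩
  · intro a c
    by_cases ha : a ∈ X
    · rw [hgin a ha]
      exact abs_clip_le _
    · rw [hgout a ha]
      exact hg0 a c
  · intro a a' h1 h2
    by_cases ha : a ∈ X
    · rw [hgin a ha, hgin a' (h2.mp ha), h1]
    · have ha' : a' ∉ X := fun h => ha (h2.mpr h)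
      rw [hgout a ha, hgout a' ha', h1]
  · intro a ha
    simp only [X, Finset.mem_filter, Finset.mem_univ, true_and] at ha
    exact ha.1
  · have hs : (η ^ 2 / 4) * (X.card : ℝ) = ∑ a, if a ∈ X then η ^ 2 / 4 else 0 := by
      rw [Finset.sum_ite_mem, Finset.univ_inter, Finset.sum_const, nsmul_eq_mul, mul_comm]
    rw [hs, ← Finset.sum_add_distrib]
    refine Finset.sum_le_sum (fun a _ => ?_)
    by_cases ha : a ∈ X
    · rw [if_pos ha, hgin a ha]
      have hPa : P a := by
        simp only [X, Finset.mem_filter, Finset.mem_univ, true_and] at ha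
        exact ha.2
      exact step_drop C t y (G a) (g0 a) w (hG a) hw η hη hPa
    · rw [if_neg ha, hgout a ha, add_zero]

theorem energy_nonneg (C : Chain V) (t : ℕ) (y : V) (G g : V → V → ℝ) :
    0 ≤ ∑ a, ip C t y (fun c => G a c - g a c) (fun c => G a c - g a c) := by
  refine Finset.sum_nonneg (fun a _ => ?_)
  unfold ip
  refine Finset.sum_nonneg (fun c _ => ?_)
  rw [mul_assoc]
  exact mul_nonneg (C.rho_nonneg _ _) (mul_self_nonneg _)

theorem step_exists (C : Chain V) (t : ℕ) (y : V) (G g0 : V → V → ℝ) (hG : ∀ a c, |G a c| ≤ 1)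
    (hg0 : ∀ a c, |g0 a c| ≤ 1) (η ε : ℝ) (hη : 0 < η) (hε : 0 < ε) :
    ∃ (L : List (Finset V)) (g : V → V → ℝ),
      (∀ a c, |g a c| ≤ 1) ∧
      (∀ a, (∀ X ∈ L, a ∉ X) → g a = g0 a) ∧
      (∀ a a', g0 a = g0 a' → (∀ X ∈ L, (a ∈ X ↔ a' ∈ X)) → g a = g a') ∧
      HF C t y (fun a c => G a c - g a c) η (2 * ε) ∧
      (∀ X ∈ L, ∃ z, ∀ a ∈ X, z - a ∈ C.E (t + 1)) ∧
      (∀ X ∈ L, ε * ((C.E (t + 1)).card : ℝ) ≤ (X.card : ℝ)) ∧
      (∑ a, ip C t y (fun c => G a c - g a c) (fun c => G a c - g a c)) +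
        (η ^ 2 / 4) * (L.map (fun X => (X.card : ℝ))).sum ≤
        ∑ a, ip C t y (fun c => G a c - g0 a c) (fun c => G a c - g0 a c) := by
  classical
  have hEpos : (0 : ℝ) < ((C.E (t + 1)).card : ℝ) := by
    exact_mod_cast Finset.card_pos.mpr (C.ne (t + 1))
  set δ : ℝ := (η ^ 2 / 4) * (ε * ((C.E (t + 1)).card : ℝ)) with hδ
  have hδpos : 0 < δ := by positivity
  have key : ∀ N : ℕ, ∀ g0 : V → V → ℝ, (∀ a c, |g0 a c| ≤ 1) →
      (∑ a, ip C t y (fun c => G a c - g0 a c) (fun c => G a c - g0 a c)) ≤ N * δ →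
      ∃ (L : List (Finset V)) (g : V → V → ℝ),
      (∀ a c, |g a c| ≤ 1) ∧
      (∀ a, (∀ X ∈ L, a ∉ X) → g a = g0 a) ∧
      (∀ a a', g0 a = g0 a' → (∀ X ∈ L, (a ∈ X ↔ a' ∈ X)) → g a = g a') ∧
      HF C t y (fun a c => G a c - g a c) η (2 * ε) ∧
      (∀ X ∈ L, ∃ z, ∀ a ∈ X, z - a ∈ C.E (t + 1)) ∧
      (∀ X ∈ L, ε * ((C.E (t + 1)).card : ℝ) ≤ (X.card : ℝ)) ∧
      (∑ a, ip C t y (fun c => G a c - g a c) (fun c => G a c - g a c)) +
        (η ^ 2 / 4) * (L.map (fun X => (X.card : ℝ))).sum ≤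
        ∑ a, ip C t y (fun c => G a c - g0 a c) (fun c => G a c - g0 a c) := by
    intro N
    induction N with
    | zero =>
      intro g0 hg0 hN
      by_cases hH : HF C t y (fun a c => G a c - g0 a c) η (2 * ε)
      · refine ⟨[], g0, hg0, fun a _ => rfl, fun a a' h _ => h, hH, ?_, ?_, ?_⟩
        · intro X hX; simp at hX
        · intro X hX; simp at hX
        · simp
      · exfalso
        obtain ⟨X, g, -, -, -, -, hX, hE⟩ := step_one C t y G g0 hG hg0 η ε hη hH
        have h0 := energy_nonneg C t y G g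
        have h1 : δ ≤ (η ^ 2 / 4) * (X.card : ℝ) :=
          mul_le_mul_of_nonneg_left hX (by positivity)
        simp only [Nat.cast_zero, zero_mul] at hN
        linarith
    | succ N ih =>
      intro g0 hg0 hN
      by_cases hH : HF C t y (fun a c => G a c - g0 a c) η (2 * ε)
      · refine ⟨[], g0, hg0, fun a _ => rfl, fun a a' h _ => h, hH, ?_, ?_, ?_⟩
        · intro X hX; simp at hX
        · intro X hX; simp at hX
        · simp
      · obtain ⟨X, g1, hb1, hout1, hcls1, hz1, hX, hE⟩ := step_one C t y G g0 hG hg0 η ε hη hH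
        have h1 : δ ≤ (η ^ 2 / 4) * (X.card : ℝ) :=
          mul_le_mul_of_nonneg_left hX (by positivity)
        have hN1 : (∑ a, ip C t y (fun c => G a c - g1 a c) (fun c => G a c - g1 a c)) ≤
            N * δ := by
          push_cast at hN
          linarith
        obtain ⟨L, g, hb, hout, hcls, hHF, hz, hc, hEn⟩ := ih g1 hb1 hN1
        refine ⟨X :: L, g, hb, ?_, ?_, hHF, ?_, ?_, ?_⟩
        · intro a ha
          rw [hout a (fun Y hY => ha Y (List.mem_cons_of_mem _ hY)),
            hout1 a (ha X List.mem_cons_self)]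
        · intro a a' h h'
          refine hcls a a' (hcls1 a a' h (h' X List.mem_cons_self))
            (fun Y hY => h' Y (List.mem_cons_of_mem _ hY))
        · intro Y hY
          rcases List.mem_cons.mp hY with h | h
          · rw [h]; exact hz1
          · exact hz Y h
        · intro Y hY
          rcases List.mem_cons.mp hY with h | h
          · rw [h]; exact hX
          · exact hc Y h
        · rw [List.map_cons, List.sum_cons, mul_add]
          linarith
  obtain ⟨N, hN⟩ := exists_nat_gt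
    ((∑ a, ip C t y (fun c => G a c - g0 a c) (fun c => G a c - g0 a c)) / δ)
  refine key N g0 hg0 ?_
  rw [div_lt_iff₀ hδpos] at hN
  exact hN.le

end Pool.Agent.PWZ
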