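/-
PWZ (MP_4d8f14_an), extension beyond commuting maps (helper9), module NilClo.
The set of functions with almost everywhere convergence is closed in the mean.
-/
import Mathlib

set_option autoImplicit false

open Finset MeasureTheory Filter Topology
open scoped ENNReal

namespace Pool.PWZ

variable {X : Type}

/-- averages over `[-N, N]` -/
noncomputable def cav (φ : ℤ → ℂ) (N : ℕ) : ℂ :=
  ((2 * N + 1 : ℕ) : ℂ)⁻¹ * ∑ n ∈ Finset.Icc (-(N : ℤ)) (N : ℤ), φ n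

/-- real averages over `[-N, N]` -/
noncomputable def rav (φ : ℤ → ℝ) (N : ℕ) : ℝ :=
  ((2 * N + 1 : ℕ) : ℝ)⁻¹ * ∑ n ∈ Finset.Icc (-(N : ℤ)) (N : ℤ), φ n

/-- almost everywhere convergence of the averages of the product of two functions along two
sequences of maps -/
def Cv [MeasurableSpace X] (μ : Measure X) (s₁ s₂ : ℤ → Equiv.Perm X) (f g : X → ℂ) : Prop :=
  ∀ᵐ x ∂μ, ∃ L : ℂ, Tendsto (fun N : ℕ => cav (fun n => f (s₁ n x) * g (s₂ n x)) N) atTop (𝓝 L)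

/-- almost everywhere convergence of single averages, for bounded functions -/
def Sg [MeasurableSpace X] (μ : Measure X) (s : ℤ → Equiv.Perm X) : Prop :=
  ∀ f : X → ℂ, Measurable f → (∃ M : ℝ, ∀ x, ‖f x‖ ≤ M) →
    ∀ᵐ x ∂μ, ∃ L : ℂ, Tendsto (fun N : ℕ => cav (fun n => f (s n x)) N) atTop (𝓝 L)

lemma cav_sub (φ ψ : ℤ → ℂ) (N : ℕ) : cav φ N - cav ψ N = cav (fun n => φ n - ψ n) N := by
  unfold cav
  rw [Finset.sum_sub_distrib, mul_sub]

lemma cav_ofReal (φ : ℤ → ℝ) (N : ℕ) : cav (fun n => (φ n : ℂ)) N = ((rav φ N : ℝ) : ℂ) := by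
  unfold cav rav
  push_cast
  rfl

lemma norm_cav_le (φ : ℤ → ℂ) (ψ : ℤ → ℝ) (C : ℝ) (h : ∀ n, ‖φ n‖ ≤ C * ψ n) (N : ℕ) :
    ‖cav φ N‖ ≤ C * rav ψ N := by
  unfold cav rav
  rw [norm_mul, norm_inv, Complex.norm_natCast]
  have h1 : ‖∑ n ∈ Finset.Icc (-(N : ℤ)) (N : ℤ), φ n‖ ≤
      C * ∑ n ∈ Finset.Icc (-(N : ℤ)) (N : ℤ), ψ n := by
    rw [Finset.mul_sum]
    exact (norm_sum_le _ _).trans (Finset.sum_le_sum fun n _ => h n)
  have h2 := mul_le_mul_of_nonneg_left h1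
    (show (0 : ℝ) ≤ ((2 * N + 1 : ℕ) : ℝ)⁻¹ by positivity)
  calc _ ≤ _ := h2
    _ = _ := by ring

lemma Cv.swap [MeasurableSpace X] {μ : Measure X} {s₁ s₂ : ℤ → Equiv.Perm X} {f g : X → ℂ}
    (h : Cv μ s₁ s₂ f g) : Cv μ s₂ s₁ g f := by
  unfold Cv at h ⊢
  filter_upwards [h] with x hx
  obtain ⟨L, hL⟩ := hx
  refine ⟨L, hL.congr fun N => ?_⟩
  congr 1
  funext n
  ring

lemma Cv.congr [MeasurableSpace X] {μ : Measure X} {s₁ s₂ : ℤ → Equiv.Perm X}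
    (hs₁ : ∀ n, MeasurePreserving ⇑(s₁ n) μ μ) (hs₂ : ∀ n, MeasurePreserving ⇑(s₂ n) μ μ)
    {f g f' g' : X → ℂ} (h : Cv μ s₁ s₂ f g) (hf : ∀ᵐ x ∂μ, f' x = f x)
    (hg : ∀ᵐ x ∂μ, g' x = g x) : Cv μ s₁ s₂ f' g' := by
  have h1 : ∀ᵐ x ∂μ, ∀ n, f' (s₁ n x) = f (s₁ n x) := by
    rw [ae_all_iff]; exact fun n => (hs₁ n).quasiMeasurePreserving.ae hf
  have h2 : ∀ᵐ x ∂μ, ∀ n, g' (s₂ n x) = g (s₂ n x) := by
    rw [ae_all_iff]; exact fun n => (hs₂ n).quasiMeasurePreserving.ae hg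
  unfold Cv at h ⊢
  filter_upwards [h, h1, h2] with x hx e1 e2
  simp only [e1, e2]
  exact hx

lemma Cv.const_mul [MeasurableSpace X] {μ : Measure X} {s₁ s₂ : ℤ → Equiv.Perm X} {f g : X → ℂ}
    (a b : ℂ) (h : Cv μ s₁ s₂ f g) : Cv μ s₁ s₂ (fun x => a * f x) (fun x => b * g x) := by
  unfold Cv at h ⊢
  filter_upwards [h] with x hx
  obtain ⟨L, hL⟩ := hx
  refine ⟨a * b * L, (hL.const_mul (a * b)).congr fun N => ?_⟩
  unfold cav
  rw [← mul_assoc, mul_comm (a * b), mul_assoc, Finset.mul_sum]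
  congr 1
  refine Finset.sum_congr rfl fun n _ => ?_
  ring

lemma Cv.sum [MeasurableSpace X] {μ : Measure X} {s₁ s₂ : ℤ → Equiv.Perm X} {k l : ℕ}
    (f : Fin k → X → ℂ) (g : Fin l → X → ℂ) (h : ∀ i j, Cv μ s₁ s₂ (f i) (g j)) :
    Cv μ s₁ s₂ (fun x => ∑ i, f i x) (fun x => ∑ j, g j x) := by
  unfold Cv at h ⊢
  have h' : ∀ᵐ x ∂μ, ∀ i j, ∃ L : ℂ,
      Tendsto (fun N : ℕ => cav (fun n => f i (s₁ n x) * g j (s₂ n x)) N) atTop (𝓝 L) := by
    rw [ae_all_iff]; intro i; rw [ae_all_iff]; exact fun j => h i j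
  filter_upwards [h'] with x hx
  choose L hL using hx
  refine ⟨∑ i, ∑ j, L i j, ?_⟩
  have h2 : Tendsto (fun N : ℕ => ∑ i, ∑ j, cav (fun n => f i (s₁ n x) * g j (s₂ n x)) N) atTop
      (𝓝 (∑ i, ∑ j, L i j)) :=
    tendsto_finsetSum _ fun i _ => tendsto_finsetSum _ fun j _ => hL i j
  refine h2.congr fun N => ?_
  unfold cav
  simp only [← Finset.mul_sum]
  congr 1
  simp only [Finset.sum_mul_sum]
  rw [Finset.sum_comm]
  conv_lhs =>
    enter [2, j]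
    rw [Finset.sum_comm]
  rw [Finset.sum_comm]
  refine Finset.sum_congr rfl fun n _ => ?_
  rw [Finset.sum_comm]

/-- the average of a nonnegative function in `ℝ≥0∞` -/
noncomputable def eav (φ : ℤ → ℝ≥0∞) (N : ℕ) : ℝ≥0∞ :=
  ((2 * N + 1 : ℕ) : ℝ≥0∞)⁻¹ * ∑ n ∈ Finset.Icc (-(N : ℤ)) (N : ℤ), φ n

lemma measurable_eav [MeasurableSpace X] (s : ℤ → Equiv.Perm X)
    (hs : ∀ n, Measurable ⇑(s n)) (u : X → ℝ≥0∞) (hu : Measurable u) (N : ℕ) :
    Measurable fun x => eav (fun n => u (s n x)) N := by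
  unfold eav
  exact measurable_const.mul (Finset.measurable_fun_sum _ fun n _ => hu.comp (hs n))

lemma lintegral_eav [MeasurableSpace X] {μ : Measure X} (s : ℤ → Equiv.Perm X)
    (hs : ∀ n, MeasurePreserving ⇑(s n) μ μ) (u : X → ℝ≥0∞) (hu : Measurable u) (N : ℕ) :
    ∫⁻ x, eav (fun n => u (s n x)) N ∂μ = ∫⁻ x, u x ∂μ := by
  unfold eav
  have hm : ∀ n ∈ Finset.Icc (-(N : ℤ)) (N : ℤ), Measurable fun x => u (s n x) :=
    fun n _ => hu.comp (hs n).measurable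
  rw [lintegral_const_mul _ (Finset.measurable_fun_sum _ hm), lintegral_finsetSum _ hm]
  have h1 : ∀ n ∈ Finset.Icc (-(N : ℤ)) (N : ℤ), ∫⁻ x, u (s n x) ∂μ = ∫⁻ x, u x ∂μ := fun n _ =>
    (hs n).lintegral_comp hu
  rw [Finset.sum_congr rfl h1, Finset.sum_const, Int.card_Icc, nsmul_eq_mul, ← mul_assoc]
  have h2 : ((N : ℤ) + 1 - -(N : ℤ)).toNat = 2 * N + 1 := by omega
  rw [h2, ENNReal.inv_mul_cancel, one_mul]
  · exact Nat.cast_ne_zero.2 (Nat.succ_ne_zero (2 * N))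
  · exact ENNReal.natCast_ne_top _

lemma eav_ofReal (φ : ℤ → ℝ) (hφ : ∀ n, 0 ≤ φ n) (N : ℕ) :
    eav (fun n => ENNReal.ofReal (φ n)) N = ENNReal.ofReal (rav φ N) := by
  unfold eav rav
  rw [← ENNReal.ofReal_sum_of_nonneg fun n _ => hφ n,
    ENNReal.ofReal_mul (by positivity), ENNReal.ofReal_inv_of_pos (by positivity),
    ENNReal.ofReal_natCast]

/-- **closure in the mean**, first argument -/
theorem Cv.closure [MeasurableSpace X] {μ : Measure X} {s₁ s₂ : ℤ → Equiv.Perm X}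
    (hs₁ : ∀ n, MeasurePreserving ⇑(s₁ n) μ μ) (hS : Sg μ s₁)
    {f g : X → ℂ} (hf : Measurable f) (hfb : ∃ M : ℝ, ∀ x, ‖f x‖ ≤ M)
    (hg : ∃ M : ℝ, ∀ x, ‖g x‖ ≤ M)
    (hcl : ∀ ε : ℝ≥0∞, ε ≠ 0 → ∃ f' : X → ℂ, Measurable f' ∧ (∃ M : ℝ, ∀ x, ‖f' x‖ ≤ M) ∧
      ∫⁻ x, ‖f x - f' x‖ₑ ∂μ ≤ ε ∧ Cv μ s₁ s₂ f' g) :
    Cv μ s₁ s₂ f g := by
  obtain ⟨Mf, hMf⟩ := hfb
  obtain ⟨Mg', hMg'⟩ := hg
  obtain ⟨Mg, hMgpos, hMg⟩ : ∃ M : ℝ, 0 < M ∧ ∀ x, ‖g x‖ ≤ M :=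
    ⟨max Mg' 1, lt_of_lt_of_le one_pos (le_max_right _ _), fun x => (hMg' x).trans (le_max_left _ _)⟩
  choose F hFm hFb hFi hFc using fun k : ℕ =>
    hcl (((k + 1 : ℕ) : ℝ≥0∞)⁻¹) (ENNReal.inv_ne_zero.2 (ENNReal.natCast_ne_top _))
  -- convergence of the averages of `|f - F k|`
  have hSk : ∀ᵐ x ∂μ, ∀ k : ℕ, ∃ L : ℂ, Tendsto (fun N : ℕ =>
      cav (fun n => ((‖f (s₁ n x) - F k (s₁ n x)‖ : ℝ) : ℂ)) N) atTop (𝓝 L) := by
    rw [ae_all_iff]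
    intro k
    refine hS (fun x => ((‖f x - F k x‖ : ℝ) : ℂ)) ?_ ?_
    · exact Complex.measurable_ofReal.comp (hf.sub (hFm k)).norm
    · obtain ⟨M, hM⟩ := hFb k
      refine ⟨Mf + M, fun x => ?_⟩
      rw [Complex.norm_real, norm_norm]
      exact (norm_sub_le _ _).trans (add_le_add (hMf x) (hM x))
  set u : ℕ → X → ℝ≥0∞ := fun k x => ‖f x - F k x‖ₑ with hu
  have hum : ∀ k, Measurable (u k) := fun k => (hf.sub (hFm k)).enorm
  set v : ℕ → X → ℝ≥0∞ := fun k x => liminf (fun N => eav (fun n => u k (s₁ n x)) N) atTop with hv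
  have hem : ∀ k N, Measurable fun x => eav (fun n => u k (s₁ n x)) N := fun k N =>
    measurable_eav s₁ (fun n => (hs₁ n).measurable) (u k) (hum k) N
  have hvm : ∀ k, Measurable (v k) := fun k => Measurable.liminf fun N => hem k N
  have hvi : ∀ k, ∫⁻ x, v k x ∂μ ≤ ((k + 1 : ℕ) : ℝ≥0∞)⁻¹ := by
    intro k
    calc ∫⁻ x, v k x ∂μ ≤ liminf (fun N => ∫⁻ x, eav (fun n => u k (s₁ n x)) N ∂μ) atTop :=
          lintegral_liminf_le fun N => hem k N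
      _ = liminf (fun _N : ℕ => ∫⁻ x, u k x ∂μ) atTop := by
          congr 1
          funext N
          exact lintegral_eav s₁ hs₁ (u k) (hum k) N
      _ = ∫⁻ x, u k x ∂μ := by rw [liminf_const]
      _ ≤ _ := hFi k
  have hv0 : ∀ᵐ x ∂μ, liminf (fun k => v k x) atTop = 0 := by
    have h1 : ∫⁻ x, liminf (fun k => v k x) atTop ∂μ = 0 := by
      refine le_antisymm ?_ bot_le
      calc ∫⁻ x, liminf (fun k => v k x) atTop ∂μ ≤ liminf (fun k => ∫⁻ x, v k x ∂μ) atTop :=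
            lintegral_liminf_le hvm
        _ ≤ liminf (fun k : ℕ => ((k + 1 : ℕ) : ℝ≥0∞)⁻¹) atTop :=
            liminf_le_liminf (Eventually.of_forall hvi)
        _ = 0 := by
            have h2 : Tendsto (fun k : ℕ => ((k + 1 : ℕ) : ℝ≥0∞)⁻¹) atTop (𝓝 0) :=
              ENNReal.tendsto_inv_nat_nhds_zero.comp (tendsto_add_atTop_nat 1)
            exact h2.liminf_eq
    exact (lintegral_eq_zero_iff (Measurable.liminf hvm)).1 h1
  have hFc' : ∀ᵐ x ∂μ, ∀ k : ℕ, ∃ L : ℂ,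
      Tendsto (fun N : ℕ => cav (fun n => F k (s₁ n x) * g (s₂ n x)) N) atTop (𝓝 L) := by
    rw [ae_all_iff]; exact hFc
  unfold Cv
  filter_upwards [hSk, hv0, hFc'] with x h1 h2 h3
  apply cauchySeq_tendsto_of_complete
  rw [Metric.cauchySeq_iff]
  intro ε hε
  have hε' : (0 : ℝ≥0∞) < ENNReal.ofReal (ε / (3 * Mg)) := by
    rw [ENNReal.ofReal_pos]; positivity
  have h4 : liminf (fun k => v k x) atTop < ENNReal.ofReal (ε / (3 * Mg)) := by rwa [h2]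
  obtain ⟨k, hk⟩ := (frequently_lt_of_liminf_lt (by isBoundedDefault) h4).exists
  obtain ⟨L, hL⟩ := h1 k
  have hr : Tendsto (fun N : ℕ => rav (fun n => ‖f (s₁ n x) - F k (s₁ n x)‖) N) atTop
      (𝓝 L.re) := by
    have h5 : Tendsto (fun N : ℕ =>
        (cav (fun n => ((‖f (s₁ n x) - F k (s₁ n x)‖ : ℝ) : ℂ)) N).re) atTop (𝓝 L.re) :=
      (Complex.continuous_re.tendsto _).comp hL
    refine h5.congr fun N => ?_
    rw [cav_ofReal, Complex.ofReal_re]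
  have hvL : v k x = ENNReal.ofReal L.re := by
    have h6 : Tendsto (fun N : ℕ => eav (fun n => u k (s₁ n x)) N) atTop
        (𝓝 (ENNReal.ofReal L.re)) := by
      refine (ENNReal.tendsto_ofReal hr).congr fun N => ?_
      rw [← eav_ofReal _ fun n => norm_nonneg _]
      congr 1
      funext n
      exact ofReal_norm _
    exact h6.liminf_eq
  rw [hvL, ENNReal.ofReal_lt_ofReal_iff (by positivity)] at hk
  have h7 : ∀ᶠ N in atTop, rav (fun n => ‖f (s₁ n x) - F k (s₁ n x)‖) N < ε / (3 * Mg) :=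
    hr.eventually_lt_const hk
  obtain ⟨N1, hN1⟩ := eventually_atTop.1 h7
  obtain ⟨L', hL'⟩ := h3 k
  obtain ⟨N2, hN2⟩ := Metric.cauchySeq_iff.1 hL'.cauchySeq (ε / 3) (by positivity)
  have h8 : ∀ N ≥ N1, dist (cav (fun n => f (s₁ n x) * g (s₂ n x)) N)
      (cav (fun n => F k (s₁ n x) * g (s₂ n x)) N) < ε / 3 := by
    intro N hN
    rw [dist_eq_norm, cav_sub]
    refine (norm_cav_le _ (fun n => ‖f (s₁ n x) - F k (s₁ n x)‖) Mg (fun n => ?_) N).trans_lt ?_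
    · rw [← sub_mul, norm_mul, mul_comm]
      exact mul_le_mul_of_nonneg_right (hMg _) (norm_nonneg _)
    · have := hN1 N hN
      rw [lt_div_iff₀ (by positivity)] at this
      rw [lt_div_iff₀ (by norm_num)]
      linarith
  refine ⟨max N1 N2, fun m hm n hn => ?_⟩
  have a1 := h8 m ((le_max_left _ _).trans hm)
  have a2 := h8 n ((le_max_left _ _).trans hn)
  have a3 := hN2 m ((le_max_right _ _).trans hm) n ((le_max_right _ _).trans hn)
  rw [dist_comm] at a2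
  calc dist _ _ ≤ _ := dist_triangle4 _ _ _ _
    _ < ε / 3 + ε / 3 + ε / 3 := add_lt_add (add_lt_add a1 a3) a2
    _ = ε := by ring

end Pool.PWZ
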