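/-
PWZ (MP_4d8f14_an), extension beyond commuting maps (helper9), module NilGrp.
Group identities: `A_1^n ⋯ A_d^n = (A_1 ⋯ A_d)^n c^(n(n-1)/2) κ(n)` with `c` in the commutator
subgroup and `κ(n)` in the third term of the lower central series.
-/
import Mathlib

set_option autoImplicit false

open scoped commutatorElement

namespace Pool.PWZ

/-- triangular numbers `n (n - 1) / 2` -/
def tri (n : ℤ) : ℤ := n * (n - 1) / 2

lemma two_tri (n : ℤ) : 2 * tri n = n * (n - 1) := by
  unfold tri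
  apply Int.mul_ediv_cancel'
  rcases Int.even_or_odd n with h | h
  · exact (h.mul_right _).two_dvd
  · exact ((h.sub_odd (by decide)).mul_left _).two_dvd

@[simp] lemma tri_zero : tri 0 = 0 := by
  have := two_tri 0
  omega

lemma tri_succ (n : ℤ) : tri (n + 1) = tri n + n := by
  have h1 := two_tri (n + 1)
  have h2 := two_tri n
  have : (n + 1) * (n + 1 - 1) = n * (n - 1) + 2 * n := by ring
  omega

lemma tri_split (a b t : ℤ) :
    tri (t - a - b) = tri (t - a) + (-(t * b)) + (a * b + tri (b + 1)) := by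
  have h1 := two_tri (t - a - b)
  have h2 := two_tri (t - a)
  have h3 := two_tri (b + 1)
  have : (t - a - b) * (t - a - b - 1) = (t - a) * (t - a - 1) + 2 * (-(t * b)) +
      2 * (a * b) + (b + 1) * (b + 1 - 1) := by ring
  omega

section
variable {H : Type*} [Group H]

lemma zpow_mul_swap {A U z : H} (h : U * A = z * (A * U)) (hA : Commute z A) (hU : Commute z U)
    (n : ℤ) : U ^ n * A = z ^ n * (A * U ^ n) := by
  induction n using Int.induction_on with
  | zero => simp
  | succ n ih =>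
    rw [zpow_add_one, mul_assoc, h, zpow_add_one, ← mul_assoc (U ^ (n : ℤ)) z,
      ((hU.zpow_right (n : ℤ)).eq).symm, mul_assoc z, ← mul_assoc (U ^ (n : ℤ)) A U, ih]
    have h1 : z * z ^ (n : ℤ) = z ^ (n : ℤ) * z := ((Commute.refl z).zpow_right _).eq
    calc z * (z ^ (n : ℤ) * (A * U ^ (n : ℤ)) * U)
        = (z * z ^ (n : ℤ)) * (A * (U ^ (n : ℤ) * U)) := by simp only [mul_assoc]
      _ = _ := by rw [h1]
  | pred n ih =>
    have e : U⁻¹ * A = z⁻¹ * (A * U⁻¹) := by
      have h2 : A * U⁻¹ = U⁻¹ * (z * A) := by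
        rw [eq_inv_mul_iff_mul_eq, ← mul_assoc, h]
        simp only [mul_assoc, mul_inv_cancel, mul_one]
      rw [h2, ← mul_assoc, ((hU.inv_inv).eq), mul_assoc, inv_mul_cancel_left]
    rw [zpow_sub_one, mul_assoc, e, zpow_sub_one, ← mul_assoc (U ^ (-(n : ℤ))) z⁻¹,
      ((hU.inv_left.zpow_right (-(n : ℤ))).eq).symm, mul_assoc z⁻¹,
      ← mul_assoc (U ^ (-(n : ℤ))) A U⁻¹, ih]
    have h1 : z⁻¹ * z ^ (-(n : ℤ)) = z ^ (-(n : ℤ)) * z⁻¹ :=
      ((Commute.refl z).inv_left.zpow_right _).eq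
    calc z⁻¹ * (z ^ (-(n : ℤ)) * (A * U ^ (-(n : ℤ))) * U⁻¹)
        = (z⁻¹ * z ^ (-(n : ℤ))) * (A * (U ^ (-(n : ℤ)) * U⁻¹)) := by simp only [mul_assoc]
      _ = _ := by rw [h1]

/-- `A^n U^n = (A U)^n z^(-tri n)` if `U A = z A U`, `z` central -/
lemma zpow_mul_zpow {A U z : H} (h : U * A = z * (A * U)) (hA : Commute z A) (hU : Commute z U)
    (n : ℤ) : A ^ n * U ^ n = (A * U) ^ n * z ^ (-tri n) := by
  have hAU : Commute z (A * U) := hA.mul_right hU
  have step : ∀ m : ℤ, A ^ (m + 1) * U ^ (m + 1) = z ^ (-m) * (A ^ m * U ^ m * (A * U)) := by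
    intro m
    have h1 := zpow_mul_swap h hA hU m
    have h2 : A * U ^ m = z ^ (-m) * (U ^ m * A) := by
      rw [h1, ← mul_assoc, ← zpow_add, neg_add_cancel, zpow_zero, one_mul]
    calc A ^ (m + 1) * U ^ (m + 1) = A ^ m * (A * U ^ m) * U := by
          rw [zpow_add_one, zpow_add_one]; simp only [mul_assoc]
      _ = A ^ m * (z ^ (-m) * (U ^ m * A)) * U := by rw [h2]
      _ = (A ^ m * z ^ (-m)) * (U ^ m * A * U) := by simp only [mul_assoc]
      _ = (z ^ (-m) * A ^ m) * (U ^ m * A * U) := by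
          rw [((hA.zpow_zpow (-m) m).eq).symm]
      _ = _ := by simp only [mul_assoc]
  induction n using Int.induction_on with
  | zero => simp
  | succ n ih =>
    rw [step, ih, tri_succ, zpow_add_one (A * U), neg_add, zpow_add z (-tri n) (-(n : ℤ))]
    have h3 : Commute (z ^ (-(n : ℤ))) ((A * U) ^ (n : ℤ)) := hAU.zpow_zpow _ _
    have h4 : Commute (z ^ (-tri (n : ℤ))) (A * U) := hAU.zpow_left _
    have h5 : Commute (z ^ (-(n : ℤ))) (A * U) := hAU.zpow_left _
    have h6 : Commute (z ^ (-(n : ℤ))) (z ^ (-tri (n : ℤ))) :=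
      ((Commute.refl z).zpow_zpow _ _)
    calc z ^ (-(n : ℤ)) * ((A * U) ^ (n : ℤ) * z ^ (-tri (n : ℤ)) * (A * U))
        = z ^ (-(n : ℤ)) * ((A * U) ^ (n : ℤ) * ((A * U) * z ^ (-tri (n : ℤ)))) := by
          rw [mul_assoc ((A * U) ^ (n : ℤ)), h4.eq]
      _ = ((A * U) ^ (n : ℤ) * (A * U)) * (z ^ (-(n : ℤ)) * z ^ (-tri (n : ℤ))) := by
          rw [← mul_assoc, h3.eq, mul_assoc, ← mul_assoc (z ^ (-(n : ℤ))) (A * U), h5.eq]
          simp only [mul_assoc]
      _ = _ := by rw [h6.eq]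
  | pred n ih =>
    have h1 := step (-(n : ℤ) - 1)
    rw [sub_add_cancel, ih] at h1
    have h2 : tri (-(n : ℤ)) = tri (-(n : ℤ) - 1) + (-(n : ℤ) - 1) := by
      have := tri_succ (-(n : ℤ) - 1)
      rwa [sub_add_cancel] at this
    have h3 : A ^ (-(n : ℤ) - 1) * U ^ (-(n : ℤ) - 1) =
        z ^ (-(n : ℤ) - 1) * ((A * U) ^ (-(n : ℤ)) * z ^ (-tri (-(n : ℤ)))) * (A * U)⁻¹ := by
      rw [h1, ← mul_assoc (z ^ (-(n : ℤ) - 1)), ← zpow_add, add_neg_cancel, zpow_zero, one_mul,
        mul_inv_cancel_right]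
    have c1 : Commute (z ^ (-(n : ℤ) - 1)) ((A * U) ^ (-(n : ℤ))) := hAU.zpow_zpow _ _
    have c2 : Commute (z ^ (-(n : ℤ) - 1) * z ^ (-tri (-(n : ℤ)))) (A * U)⁻¹ := by
      rw [← zpow_add]
      exact (hAU.zpow_left _).inv_right
    rw [h3, ← mul_assoc, c1.eq, mul_assoc, mul_assoc, ← mul_assoc (z ^ (-(n : ℤ) - 1)),
      c2.eq, ← mul_assoc, ← zpow_sub_one, ← zpow_add]
    congr 2
    omega

/-- the list identity in a group of step two -/
lemma list_zpow_step2 (hc : ∀ c ∈ commutator H, ∀ g : H, Commute c g) :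
    ∀ L : List H, ∃ c ∈ commutator H, ∀ n : ℤ,
      (L.map fun A => A ^ n).prod = L.prod ^ n * c ^ tri n := by
  intro L
  induction L with
  | nil => exact ⟨1, Subgroup.one_mem _, fun n => by simp⟩
  | cons A L ih =>
    obtain ⟨c, hcm, hcn⟩ := ih
    have hz : ⁅L.prod, A⁆ ∈ commutator H :=
      Subgroup.commutator_mem_commutator (Subgroup.mem_top _) (Subgroup.mem_top _)
    set z := ⁅L.prod, A⁆ with hzdef
    refine ⟨z⁻¹ * c, Subgroup.mul_mem _ (Subgroup.inv_mem _ hz) hcm, fun n => ?_⟩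
    have hU : L.prod * A = z * (A * L.prod) := by
      rw [hzdef, commutatorElement_def]
      simp only [mul_assoc, inv_mul_cancel_left, inv_mul_cancel, mul_one]
    rw [List.map_cons, List.prod_cons, List.prod_cons, hcn, ← mul_assoc,
      zpow_mul_zpow hU (hc z hz A) (hc z hz _) n, mul_assoc, zpow_neg, ← inv_zpow,
      ← (hc z hz c).inv_left.mul_zpow]

end

/-- the third term of the lower central series -/
def low3 (G : Type*) [Group G] : Subgroup G := ⁅(⊤ : Subgroup G), commutator G⁆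

instance low3_normal (G : Type*) [Group G] : (low3 G).Normal := by
  unfold low3; infer_instance

lemma quot_central (G : Type*) [Group G] (c : G ⧸ low3 G) (hc : c ∈ commutator (G ⧸ low3 G))
    (g : G ⧸ low3 G) : Commute c g := by
  have hmap : commutator (G ⧸ low3 G) = (commutator G).map (QuotientGroup.mk' (low3 G)) := by
    rw [commutator_def, commutator_def, Subgroup.map_commutator,
      Subgroup.map_top_of_surjective _ (QuotientGroup.mk'_surjective _)]
  rw [hmap] at hc
  obtain ⟨c', hc', rfl⟩ := hc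
  obtain ⟨g', rfl⟩ := QuotientGroup.mk'_surjective (low3 G) g
  have h1 : ⁅g', c'⁆ ∈ low3 G :=
    Subgroup.commutator_mem_commutator (Subgroup.mem_top _) hc'
  have h2 : (QuotientGroup.mk' (low3 G)) ⁅g', c'⁆ = 1 := by
    rw [QuotientGroup.mk'_apply, QuotientGroup.eq_one_iff]
    exact h1
  rw [map_commutatorElement] at h2
  exact (commutatorElement_eq_one_iff_commute.1 h2).symm

/-- the list identity in an arbitrary group, modulo the third term of the lower central series -/
theorem list_zpow {G : Type*} [Group G] (L : List G) :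
    ∃ c ∈ commutator G, ∀ n : ℤ, ∃ κ ∈ low3 G,
      (L.map fun A => A ^ n).prod = L.prod ^ n * c ^ tri n * κ := by
  have hmap : commutator (G ⧸ low3 G) = (commutator G).map (QuotientGroup.mk' (low3 G)) := by
    rw [commutator_def, commutator_def, Subgroup.map_commutator,
      Subgroup.map_top_of_surjective _ (QuotientGroup.mk'_surjective _)]
  obtain ⟨c, hc, hcn⟩ := list_zpow_step2 (quot_central G) (L.map (QuotientGroup.mk' (low3 G)))
  rw [hmap] at hc
  obtain ⟨c', hc', rfl⟩ := hc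
  refine ⟨c', hc', fun n => ?_⟩
  refine ⟨(L.prod ^ n * c' ^ tri n)⁻¹ * (L.map fun A => A ^ n).prod, ?_, ?_⟩
  · have h := hcn n
    rw [List.map_map] at h
    have e : ((fun A => A ^ n) ∘ (QuotientGroup.mk' (low3 G))) =
        (QuotientGroup.mk' (low3 G)) ∘ fun A : G => A ^ n := by
      funext A
      simp
    rw [e, ← List.map_map, ← map_list_prod, ← map_list_prod, ← map_zpow, ← map_zpow,
      ← map_mul] at h
    rw [QuotientGroup.mk'_apply, QuotientGroup.mk'_apply] at h
    exact QuotientGroup.eq.1 h.symm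
  · rw [mul_inv_cancel_left]

end Pool.PWZ
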