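/-
PWZ (MP_4d8f14_an), extension beyond commuting maps (helper9), module NilSplit.
If along the points `T^a S^b x` the function `n ↦ φ (T^a S^b x) n` is the real part of
`θ(a,b) F(b, a+b+n) G(a, a+b+n)` with arbitrary bounded `θ`, `F`, `G`, then the block oscillation
bound holds for the averages of `φ`.
-/
import Mathlib
import Pool.Agent.PWZ.EndInt

set_option autoImplicit false

open Finset MeasureTheory Pool.Agent.PWZ

namespace Pool.PWZ

/-- bound at one point of the space, general form -/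
lemma avg_bound_gen {X : Type} (T S : Equiv.Perm X) (φ : X → ℤ → ℝ)
    (hφ : ∀ x n, |φ x n| ≤ 1) (x : X) (N : ℕ → ℕ) (L Q : ℕ)
    [NeZero (8 * Q)] (hQ : 2 * ∑ i ∈ range L, N i ≤ Q) (h : ∀ k < L, 2 * N k + 1 ≤ 8 * Q)
    (R d : ℕ) (hR : 1 ≤ R) (hd : 1 ≤ d) (hN : ∀ k, 0 < N k)
    (hlow : ∀ k, 2 ^ R * N k ≤ N (k + 1)) (c0 c K : ℝ) (hcpos : 0 < c)
    (hc : c0 + 2 * (1 / d + 4 / 2 ^ R) < c)
    (mark : ZMod (8 * Q) → ZMod (8 * Q) → List (ZMod (8 * Q)) → Prop)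
    (hK : ∑ t ∈ range (L - 2), EE (zch N L (8 * Q) h) (t + 1) (fun a b l => ind (mark a b l)) ≤ K)
    (hsp : ∀ a ∈ safe Q, ∀ b ∈ safe Q, ∃ F G : ZMod (8 * Q) → ZMod (8 * Q) → ℝ,
      (∀ w : ℤ, |w| ≤ Q → F b (a + b + (w : ZMod (8 * Q))) * G a (a + b + (w : ZMod (8 * Q))) =
        φ ((T ^ (a.val : ℤ) * S ^ (b.val : ℤ)) x) w) ∧
      ∀ (l : List (ZMod (8 * Q))) (i : ℕ), l.length ≤ (L - 2) + 1 → i < l.length →
        (∀ j < i, ¬ mark a b (l.drop j)) →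
        |XX (zch N L (8 * Q) h) F G l a b - XX (zch N L (8 * Q) h) F G (l.drop i) a b| ≤ c0)
    (J : ℕ) (p : ℕ → ℕ) (hp : StrictMono p) (hp0 : 1 ≤ p 0) (hL : p J = L) :
    ∑ a ∈ safe Q, ∑ b ∈ safe Q, ∑ j ∈ range J,
      ind ((T ^ (a.val : ℤ) * S ^ (b.val : ℤ)) x ∈
        oscSet (fun k x => av (φ x) (N k)) c (p j) (p (j + 1))) ≤
          (2 * (d : ℝ)) ^ 2 * ((8 * Q : ℕ) : ℝ) ^ 2 * K := by
  set C := zch N L (8 * Q) h with hC
  have hQ0 : 0 < Q := by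
    have := NeZero.ne (8 * Q)
    omega
  have hM : (0 : ℝ) < ((8 * Q : ℕ) : ℝ) := by
    have : 0 < 8 * Q := by omega
    exact_mod_cast this
  -- the sum of the expectations of the marks
  have hEE : ∑ t ∈ range (L - 2), EE C (t + 1) (fun a b l => ind (mark a b l)) =
      (((8 * Q : ℕ) : ℝ))⁻¹ * ((((8 * Q : ℕ) : ℝ))⁻¹ * ∑ a, ∑ b, up C L (a + b)
        (fun l => ∑ t ∈ range (L - 2), ind (mark a b (l.drop (L - (t + 1)))))) := by
    have h1 : ∀ t ∈ range (L - 2), EE C (t + 1) (fun a b l => ind (mark a b l)) =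
        (((8 * Q : ℕ) : ℝ))⁻¹ * ((((8 * Q : ℕ) : ℝ))⁻¹ * ∑ a, ∑ b, up C L (a + b)
          (fun l => ind (mark a b (l.drop (L - (t + 1)))))) := by
      intro t ht
      rw [Finset.mem_range] at ht
      have h2 := EE_up_to C (t + 1) (L - (t + 1)) (fun a b l => ind (mark a b l))
      rw [show t + 1 + (L - (t + 1)) = L by omega] at h2
      rw [← h2, EE_top C L (fun z => zch_top N L (8 * Q) h z), ZMod.card]
    rw [Finset.sum_congr rfl h1, ← Finset.mul_sum, ← Finset.mul_sum, Finset.sum_comm]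
    congr 2
    refine Finset.sum_congr rfl fun a _ => ?_
    rw [Finset.sum_comm]
    refine Finset.sum_congr rfl fun b _ => ?_
    rw [up_sum]
  rw [hEE] at hK
  have hK2 : ∑ a, ∑ b, up C L (a + b)
      (fun l => ∑ t ∈ range (L - 2), ind (mark a b (l.drop (L - (t + 1))))) ≤
      ((8 * Q : ℕ) : ℝ) ^ 2 * K := by
    have h3 := mul_le_mul_of_nonneg_left hK (sq_nonneg (((8 * Q : ℕ) : ℝ)))
    refine le_trans (le_of_eq ?_) h3
    field_simp
  have hd' : (0 : ℝ) < d := by exact_mod_cast hd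
  have hsafe : ∑ a ∈ safe Q, ∑ b ∈ safe Q, (1 / (2 * (d : ℝ))) ^ 2 * ∑ j ∈ range J,
      ind ((T ^ (a.val : ℤ) * S ^ (b.val : ℤ)) x ∈
        oscSet (fun k x => av (φ x) (N k)) c (p j) (p (j + 1))) ≤
      ∑ a, ∑ b, up C L (a + b)
        (fun l => ∑ t ∈ range (L - 2), ind (mark a b (l.drop (L - (t + 1))))) := by
    have hnn : ∀ a b, 0 ≤ up C L (a + b)
        (fun l => ∑ t ∈ range (L - 2), ind (mark a b (l.drop (L - (t + 1))))) := fun a b =>
      up_nonneg _ _ _ _ fun l => Finset.sum_nonneg fun t _ => ind_nonneg _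
    calc
      _ ≤ ∑ a ∈ safe Q, ∑ b ∈ safe Q, up C L (a + b)
          (fun l => ∑ t ∈ range (L - 2), ind (mark a b (l.drop (L - (t + 1))))) := by
          refine Finset.sum_le_sum fun a ha => Finset.sum_le_sum fun b hb => ?_
          obtain ⟨F, G, hFG, hmark⟩ := hsp a ha b hb
          set P := (T ^ (a.val : ℤ) * S ^ (b.val : ℤ)) x with hP
          refine point_bound N L (8 * Q) h R d hR hd hN hlow
            (φ P) (hφ P) F G a b (fun w hw => hFG w (hw.trans ?_))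
            (mark a b) c0 c hcpos hmark hc J p hp hp0 hL
          exact_mod_cast hQ
      _ ≤ ∑ a, ∑ b ∈ safe Q, up C L (a + b)
          (fun l => ∑ t ∈ range (L - 2), ind (mark a b (l.drop (L - (t + 1))))) :=
          Finset.sum_le_sum_of_subset_of_nonneg (Finset.subset_univ _)
            fun a _ _ => Finset.sum_nonneg fun b _ => hnn a b
      _ ≤ _ := Finset.sum_le_sum fun a _ =>
          Finset.sum_le_sum_of_subset_of_nonneg (Finset.subset_univ _) fun b _ _ => hnn a b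
  have h4 := hsafe.trans hK2
  have h5 : ∑ a ∈ safe Q, ∑ b ∈ safe Q, (1 / (2 * (d : ℝ))) ^ 2 * ∑ j ∈ range J,
      ind ((T ^ (a.val : ℤ) * S ^ (b.val : ℤ)) x ∈
        oscSet (fun k x => av (φ x) (N k)) c (p j) (p (j + 1))) = (1 / (2 * (d : ℝ))) ^ 2 *
      ∑ a ∈ safe Q, ∑ b ∈ safe Q, ∑ j ∈ range J,
      ind ((T ^ (a.val : ℤ) * S ^ (b.val : ℤ)) x ∈
        oscSet (fun k x => av (φ x) (N k)) c (p j) (p (j + 1))) := by
    simp only [← Finset.mul_sum]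
  rw [h5] at h4
  have h6 := mul_le_mul_of_nonneg_left h4 (sq_nonneg (2 * (d : ℝ)))
  rw [← mul_assoc] at h6
  have h7 : (2 * (d : ℝ)) ^ 2 * (1 / (2 * (d : ℝ))) ^ 2 = 1 := by
    field_simp
  rw [h7, one_mul] at h6
  rw [mul_assoc]
  exact h6

/-- combination of four inner products -/
lemma XX_comb {V : Type*} [AddCommGroup V] [Fintype V] [DecidableEq V] (C : Chain V)
    (κ₁ κ₂ κ₃ κ₄ : ℝ) (F₁ F₂ F₃ F₄ G₁ G₂ G₃ G₄ : V → V → ℝ) (a b : V) (l : List V) :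
    XX C (fun _ c => κ₁ * (F₁ b c * G₁ a c) + κ₂ * (F₂ b c * G₂ a c) + κ₃ * (F₃ b c * G₃ a c) +
      κ₄ * (F₄ b c * G₄ a c)) (fun _ _ => 1) l a b =
    κ₁ * XX C F₁ G₁ l a b + κ₂ * XX C F₂ G₂ l a b + κ₃ * XX C F₃ G₃ l a b +
      κ₄ * XX C F₄ G₄ l a b := by
  unfold XX ip
  simp only [Finset.mul_sum, ← Finset.sum_add_distrib]
  refine Finset.sum_congr rfl fun c _ => ?_
  ring

lemma abs_comb {κ₁ κ₂ κ₃ κ₄ x₁ x₂ x₃ x₄ y₁ y₂ y₃ y₄ c : ℝ} (h1 : |κ₁| ≤ 1) (h2 : |κ₂| ≤ 1)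
    (h3 : |κ₃| ≤ 1) (h4 : |κ₄| ≤ 1) (e1 : |x₁ - y₁| ≤ c) (e2 : |x₂ - y₂| ≤ c)
    (e3 : |x₃ - y₃| ≤ c) (e4 : |x₄ - y₄| ≤ c) :
    |(κ₁ * x₁ + κ₂ * x₂ + κ₃ * x₃ + κ₄ * x₄) - (κ₁ * y₁ + κ₂ * y₂ + κ₃ * y₃ + κ₄ * y₄)| ≤
      4 * c := by
  have key : ∀ {κ x y : ℝ}, |κ| ≤ 1 → |x - y| ≤ c → |κ * (x - y)| ≤ c := by
    intro κ x y hκ hxy
    rw [abs_mul]
    calc |κ| * |x - y| ≤ 1 * |x - y| := mul_le_mul_of_nonneg_right hκ (abs_nonneg _)
      _ ≤ c := by rw [one_mul]; exact hxy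
  have e : (κ₁ * x₁ + κ₂ * x₂ + κ₃ * x₃ + κ₄ * x₄) - (κ₁ * y₁ + κ₂ * y₂ + κ₃ * y₃ + κ₄ * y₄) =
      κ₁ * (x₁ - y₁) + κ₂ * (x₂ - y₂) + κ₃ * (x₃ - y₃) + κ₄ * (x₄ - y₄) := by ring
  rw [e]
  have a1 := abs_le.1 (key h1 e1)
  have a2 := abs_le.1 (key h2 e2)
  have a3 := abs_le.1 (key h3 e3)
  have a4 := abs_le.1 (key h4 e4)
  rw [abs_le]
  constructor <;> linarith [a1.1, a1.2, a2.1, a2.2, a3.1, a3.2, a4.1, a4.2]

theorem OB_split {X : Type} [MeasurableSpace X] (μ : Measure X) [IsProbabilityMeasure μ]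
    (T S : Equiv.Perm X) (hT : MP2 μ T) (hS : MP2 μ S) (φ : X → ℤ → ℝ)
    (hφm : ∀ n, Measurable fun x => φ x n) (hφ : ∀ x n, |φ x n| ≤ 1)
    (hsplit : ∀ x, ∃ θ F G : ℤ → ℤ → ℂ, (∀ a b, ‖θ a b‖ ≤ 1) ∧ (∀ b c, ‖F b c‖ ≤ 1) ∧
      (∀ a c, ‖G a c‖ ≤ 1) ∧ ∀ a b n : ℤ,
        φ ((T ^ a * S ^ b) x) n = (θ a b * F b (a + b + n) * G a (a + b + n)).re) :
    OB μ φ := by
  intro c hc
  obtain ⟨d, hd⟩ := exists_nat_gt (16 / c)
  have hd0 : 0 < d := by
    have : (0 : ℝ) < d := lt_trans (by positivity) hd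
    exact_mod_cast this
  have hd0' : (0 : ℝ) < d := by exact_mod_cast hd0
  obtain ⟨R0, hR0⟩ := exists_nat_gt (64 / c)
  refine ⟨R0 + 1, fun R hR => ?_⟩
  obtain ⟨K, hK⟩ := finite_theorem (c / 16) (1 + 2 ^ (4 * R + 1)) (by positivity)
    (by linarith [pow_pos (show (0 : ℝ) < 2 by norm_num) (4 * R + 1)])
  refine ⟨64 * (2 * (d : ℝ)) ^ 2 * (4 * |K|), ?_⟩
  intro N hN hlow hup J p hp hp0
  have hd1 : 1 / (d : ℝ) < c / 16 := by
    rw [div_lt_iff₀ hc] at hd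
    rw [div_lt_div_iff₀ hd0' (by norm_num)]
    linarith
  have h2R : (R : ℝ) ≤ 2 ^ R := by
    have : R ≤ 2 ^ R := Nat.lt_two_pow_self.le
    exact_mod_cast this
  have hR1 : (R0 : ℝ) + 1 ≤ R := by exact_mod_cast hR
  have h4R : 4 / (2 : ℝ) ^ R < c / 16 := by
    rw [div_lt_iff₀ hc] at hR0
    rw [div_lt_div_iff₀ (by positivity) (by norm_num)]
    nlinarith
  rcases Nat.eq_zero_or_pos J with rfl | hJ
  · simp only [Finset.range_zero, Finset.sum_empty]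
    positivity
  set L := p J with hL
  have hL2 : 2 ≤ L := by
    have h1 : p 0 < p 1 := hp (by norm_num)
    have h2 : p 1 ≤ p J := hp.monotone hJ
    omega
  set Q := 2 * ∑ i ∈ range L, N i + 1 with hQ
  have hQ0 : 0 < Q := by omega
  have : NeZero (8 * Q) := ⟨by omega⟩
  have h : ∀ k < L, 2 * N k + 1 ≤ 8 * Q := by
    intro k hk
    have h1 : N k ≤ ∑ i ∈ range L, N i :=
      Finset.single_le_sum (f := N) (fun i _ => Nat.zero_le _) (Finset.mem_range.mpr hk)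
    omega
  have hDB : (zch N L (8 * Q) h).DB (L - 2) (1 + 2 ^ (4 * R + 1)) :=
    zch_DB N L (8 * Q) R h (by omega) hN hlow hup hL2
  have hmeas : ∀ k, Measurable (fun x => av (φ x) (N k)) := fun k => measurable_av hφm (N k)
  refine int_bound μ T S hT hS Q J hQ0 (fun j => oscSet
    (fun k x => av (φ x) (N k)) c (p j) (p (j + 1)))
    (fun j => measurableSet_oscSet hmeas c _ _) _ ?_
  intro x
  obtain ⟨θ, F, G, hθ1, hF1, hG1, hs⟩ := hsplit x
  -- the four real pairs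
  let Fr : ZMod (8 * Q) → ZMod (8 * Q) → ℝ := fun b c => (F b.val c.val).re
  let Fi : ZMod (8 * Q) → ZMod (8 * Q) → ℝ := fun b c => (F b.val c.val).im
  let Gr : ZMod (8 * Q) → ZMod (8 * Q) → ℝ := fun a c => (G a.val c.val).re
  let Gi : ZMod (8 * Q) → ZMod (8 * Q) → ℝ := fun a c => (G a.val c.val).im
  have hFr : ∀ b c, |Fr b c| ≤ 1 := fun b c => (Complex.abs_re_le_norm _).trans (hF1 _ _)
  have hFi : ∀ b c, |Fi b c| ≤ 1 := fun b c => (Complex.abs_im_le_norm _).trans (hF1 _ _)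
  have hGr : ∀ b c, |Gr b c| ≤ 1 := fun b c => (Complex.abs_re_le_norm _).trans (hG1 _ _)
  have hGi : ∀ b c, |Gi b c| ≤ 1 := fun b c => (Complex.abs_im_le_norm _).trans (hG1 _ _)
  obtain ⟨mk1, hm1, hm1'⟩ := hK (ZMod (8 * Q)) (zch N L (8 * Q) h) (L - 2) hDB Fr Gr hFr hGr
  obtain ⟨mk2, hm2, hm2'⟩ := hK (ZMod (8 * Q)) (zch N L (8 * Q) h) (L - 2) hDB Fi Gi hFi hGi
  obtain ⟨mk3, hm3, hm3'⟩ := hK (ZMod (8 * Q)) (zch N L (8 * Q) h) (L - 2) hDB Fr Gi hFr hGi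
  obtain ⟨mk4, hm4, hm4'⟩ := hK (ZMod (8 * Q)) (zch N L (8 * Q) h) (L - 2) hDB Fi Gr hFi hGr
  refine (avg_bound_gen T S φ hφ x N L Q (by omega) h R d (by omega) hd0 hN hlow (4 * (c / 16)) c
    (4 * |K|) hc ?_ (fun a b l => mk1 a b l ∨ mk2 a b l ∨ mk3 a b l ∨ mk4 a b l) ?_ ?_
    J p hp hp0 rfl).trans (le_of_eq ?_)
  · linarith
  · have hle : ∀ t ∈ range (L - 2),
        EE (zch N L (8 * Q) h) (t + 1)
          (fun a b l => ind (mk1 a b l ∨ mk2 a b l ∨ mk3 a b l ∨ mk4 a b l)) ≤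
        EE (zch N L (8 * Q) h) (t + 1) (fun a b l => ind (mk1 a b l)) +
        (EE (zch N L (8 * Q) h) (t + 1) (fun a b l => ind (mk2 a b l)) +
        (EE (zch N L (8 * Q) h) (t + 1) (fun a b l => ind (mk3 a b l)) +
        EE (zch N L (8 * Q) h) (t + 1) (fun a b l => ind (mk4 a b l)))) := by
      intro t _
      rw [← EE_add, ← EE_add, ← EE_add]
      apply EE_mono_len
      intro a b l _
      refine (ind_or_le _ _).trans (add_le_add le_rfl ?_)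
      refine (ind_or_le _ _).trans (add_le_add le_rfl ?_)
      exact ind_or_le _ _
    refine (Finset.sum_le_sum hle).trans ?_
    simp only [Finset.sum_add_distrib]
    have := le_abs_self K
    linarith
  · intro a ha b hb
    refine ⟨fun _ c => (θ a.val b.val).re * (Fr b c * Gr a c) +
        (-(θ a.val b.val).re) * (Fi b c * Gi a c) +
        (-(θ a.val b.val).im) * (Fr b c * Gi a c) +
        (-(θ a.val b.val).im) * (Fi b c * Gr a c), fun _ _ => 1, ?_, ?_⟩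
    · intro w hw
      obtain ⟨ha1, ha2⟩ := safe_val Q a ha
      obtain ⟨hb1, hb2⟩ := safe_val Q b hb
      rw [hs a.val b.val w]
      show ((θ a.val b.val).re * ((F b.val ((a + b + (w : ZMod (8 * Q))).val)).re *
          (G a.val ((a + b + (w : ZMod (8 * Q))).val)).re) +
        (-(θ a.val b.val).re) * ((F b.val ((a + b + (w : ZMod (8 * Q))).val)).im *
          (G a.val ((a + b + (w : ZMod (8 * Q))).val)).im) +
        (-(θ a.val b.val).im) * ((F b.val ((a + b + (w : ZMod (8 * Q))).val)).re *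
          (G a.val ((a + b + (w : ZMod (8 * Q))).val)).im) +
        (-(θ a.val b.val).im) * ((F b.val ((a + b + (w : ZMod (8 * Q))).val)).im *
          (G a.val ((a + b + (w : ZMod (8 * Q))).val)).re)) * 1 = _
      rw [val_add3 Q a b ha1 ha2 hb1 hb2 w hw]
      simp only [Complex.mul_re, Complex.mul_im]
      ring
    · intro l i hl hi hno
      rw [XX_comb, XX_comb]
      have hre : |(θ a.val b.val).re| ≤ 1 := (Complex.abs_re_le_norm _).trans (hθ1 _ _)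
      have him : |(θ a.val b.val).im| ≤ 1 := (Complex.abs_im_le_norm _).trans (hθ1 _ _)
      refine abs_comb hre (by rwa [abs_neg]) (by rwa [abs_neg]) (by rwa [abs_neg]) ?_ ?_ ?_ ?_
      · exact hm1' a b l i hl hi fun j hj hh => hno j hj (Or.inl hh)
      · exact hm2' a b l i hl hi fun j hj hh => hno j hj (Or.inr (Or.inl hh))
      · exact hm3' a b l i hl hi fun j hj hh => hno j hj (Or.inr (Or.inr (Or.inl hh)))
      · exact hm4' a b l i hl hi fun j hj hh => hno j hj (Or.inr (Or.inr (Or.inr hh)))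
  · push_cast
    ring

end Pool.PWZ
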