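/-
PWZ (MP_4d8f14_an), extension beyond commuting maps (helper9), module NilPhase.
Functions on which the commutator subgroup acts by an invariant character; along linear
sequences the product of two functions splits in the sense of NilSplit.
-/
import Mathlib
import Pool.Agent.PWZ.NilGrp
import Pool.Agent.PWZ.NilSplit

set_option autoImplicit false

open Finset MeasureTheory Filter Topology Pool.Agent.PWZ
open scoped commutatorElement

namespace Pool.PWZ

variable {X : Type}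

/-- pointwise version of the eigenfunction property -/
structure EigG (G : Subgroup (Equiv.Perm X)) (h : X → ℂ) (χ : G → ℂ) : Prop where
  norm : ∀ ν ∈ commutator G, ‖χ ν‖ ≤ 1
  eig : ∀ (γ ν : G), ν ∈ commutator G → ∀ y, h (((γ * ν : G) : Equiv.Perm X) y) =
    χ ν * h ((γ : Equiv.Perm X) y)

lemma EigG.inv3 {G : Subgroup (Equiv.Perm X)} {h : X → ℂ} {χ : G → ℂ} (H : EigG G h χ) :
    ∀ κ ∈ low3 G, ∀ (γ : G) (y : X), h (((γ * κ : G) : Equiv.Perm X) y) =
      h ((γ : Equiv.Perm X) y) := by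
  intro κ hκ
  unfold low3 at hκ
  rw [Subgroup.commutator_def] at hκ
  induction hκ using Subgroup.closure_induction with
  | mem κ hκ =>
    obtain ⟨δ, _, ν, hν, rfl⟩ := hκ
    intro γ y
    have h1 := H.eig (γ * δ) ν hν (((δ⁻¹ * ν⁻¹ : G) : Equiv.Perm X) y)
    have h2 := H.eig γ ν hν (((ν⁻¹ : G) : Equiv.Perm X) y)
    have e1 : (((γ * δ) * ν : G) : Equiv.Perm X) (((δ⁻¹ * ν⁻¹ : G) : Equiv.Perm X) y) =
        ((γ * ⁅δ, ν⁆ : G) : Equiv.Perm X) y := by
      rw [← Equiv.Perm.mul_apply, ← Subgroup.coe_mul]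
      congr 2
    have e2 : ((γ * δ : G) : Equiv.Perm X) (((δ⁻¹ * ν⁻¹ : G) : Equiv.Perm X) y) =
        ((γ * ν⁻¹ : G) : Equiv.Perm X) y := by
      rw [← Equiv.Perm.mul_apply, ← Subgroup.coe_mul]
      congr 2
      simp only [mul_assoc, mul_inv_cancel_left]
    have e3 : ((γ * ν : G) : Equiv.Perm X) (((ν⁻¹ : G) : Equiv.Perm X) y) =
        ((γ : G) : Equiv.Perm X) y := by
      rw [← Equiv.Perm.mul_apply, ← Subgroup.coe_mul, mul_inv_cancel_right]
    have e4 : ((γ : G) : Equiv.Perm X) (((ν⁻¹ : G) : Equiv.Perm X) y) =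
        ((γ * ν⁻¹ : G) : Equiv.Perm X) y := by
      rw [← Equiv.Perm.mul_apply, ← Subgroup.coe_mul]
    rw [e1, e2] at h1
    rw [e3, e4] at h2
    rw [h1, h2]
  | one => intro γ y; rw [mul_one]
  | mul κ κ' _ _ ih ih' =>
    intro γ y
    rw [← mul_assoc, ih', ih]
  | inv κ _ ih =>
    intro γ y
    have := ih (γ * κ⁻¹) y
    rw [inv_mul_cancel_right] at this
    exact this.symm

/-- along the sequence `s` the function `f` is a phase times `f` along the powers of `U` -/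
def LinSeq (s : ℤ → Equiv.Perm X) (f : X → ℂ) (U : Equiv.Perm X) : Prop :=
  ∃ A B C : ℤ → ℤ → ℂ, (∀ a t, ‖A a t‖ ≤ 1) ∧ (∀ b t, ‖B b t‖ ≤ 1) ∧ (∀ a b, ‖C a b‖ ≤ 1) ∧
    ∀ (a b n : ℤ) (y : X), f (s n y) = A a (a + b + n) * B b (a + b + n) * C a b * f ((U ^ n) y)

lemma LinSeq.pow (f : X → ℂ) (U : Equiv.Perm X) : LinSeq (fun n => U ^ n) f U :=
  ⟨fun _ _ => 1, fun _ _ => 1, fun _ _ => 1, by simp, by simp, by simp, fun a b n y => by simp⟩

/-- products of powers -/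
lemma LinSeq.of_eig {G : Subgroup (Equiv.Perm X)} {h : X → ℂ} {χ : G → ℂ} (H : EigG G h χ)
    (L : List G) : LinSeq (fun n => (((L.map fun A => A ^ n).prod : G) : Equiv.Perm X)) h
      ((L.prod : G) : Equiv.Perm X) := by
  obtain ⟨c, hc, hcn⟩ := list_zpow L
  have hp : ∀ k : ℤ, c ^ k ∈ commutator G := fun k => Subgroup.zpow_mem _ hc k
  refine ⟨fun a t => χ (c ^ tri (t - a)), fun b t => χ (c ^ (-(t * b))),
    fun a b => χ (c ^ (a * b + tri (b + 1))), fun a t => H.norm _ (hp _),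
    fun b t => H.norm _ (hp _), fun a b => H.norm _ (hp _), ?_⟩
  intro a b n y
  obtain ⟨κ, hκ, hn⟩ := hcn n
  have e0 : tri n = tri (a + b + n - a) + (-((a + b + n) * b)) + (a * b + tri (b + 1)) := by
    rw [← tri_split]
    congr 1
    ring
  show h ((((L.map fun A => A ^ n).prod : G) : Equiv.Perm X) y) = _
  rw [hn, H.inv3 κ hκ, e0, zpow_add, zpow_add, ← mul_assoc, ← mul_assoc, H.eig _ _ (hp _),
    H.eig _ _ (hp _), H.eig _ _ (hp _), Subgroup.coe_zpow]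
  ring

/-- the main splitting lemma -/
theorem split_of_eig {G : Subgroup (Equiv.Perm X)} {f₁ f₂ : X → ℂ} {χ : G → ℂ}
    (H : EigG G f₂ χ) (T S : G) {s₁ s₂ : ℤ → Equiv.Perm X}
    (h₁ : LinSeq s₁ f₁ (T : Equiv.Perm X)) (h₂ : LinSeq s₂ f₂ (S : Equiv.Perm X))
    (hf₁ : ∀ x, ‖f₁ x‖ ≤ 1) (hf₂ : ∀ x, ‖f₂ x‖ ≤ 1) (x : X) :
    ∃ θ F K : ℤ → ℤ → ℂ, (∀ a b, ‖θ a b‖ ≤ 1) ∧ (∀ b c, ‖F b c‖ ≤ 1) ∧
      (∀ a c, ‖K a c‖ ≤ 1) ∧ ∀ a b n : ℤ,
        f₁ (s₁ n (((T : Equiv.Perm X) ^ a * (S : Equiv.Perm X) ^ b) x)) *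
          f₂ (s₂ n (((T : Equiv.Perm X) ^ a * (S : Equiv.Perm X) ^ b) x)) =
        θ a b * F b (a + b + n) * K a (a + b + n) := by
  obtain ⟨A, B, C, hA, hB, hC, e₁⟩ := h₁
  obtain ⟨A', B', C', hA', hB', hC', e₂⟩ := h₂
  have hν : ∀ a b : ℤ, ⁅S ^ (-b), T ^ a⁆ ∈ commutator G := fun a b =>
    Subgroup.commutator_mem_commutator (Subgroup.mem_top _) (Subgroup.mem_top _)
  refine ⟨fun a b => C a b * C' a b * χ ⁅S ^ (-b), T ^ a⁆,
    fun b t => B b t * B' b t * f₁ (((T : Equiv.Perm X) ^ (t - b) * (S : Equiv.Perm X) ^ b) x),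
    fun a t => A a t * A' a t * f₂ (((S : Equiv.Perm X) ^ (t - a) * (T : Equiv.Perm X) ^ a) x),
    ?_, ?_, ?_, ?_⟩
  · intro a b
    rw [norm_mul, norm_mul]
    exact mul_le_one₀ (mul_le_one₀ (hC _ _) (norm_nonneg _) (hC' _ _)) (norm_nonneg _)
      (H.norm _ (hν a b))
  · intro b t
    rw [norm_mul, norm_mul]
    exact mul_le_one₀ (mul_le_one₀ (hB _ _) (norm_nonneg _) (hB' _ _)) (norm_nonneg _) (hf₁ _)
  · intro a t
    rw [norm_mul, norm_mul]
    exact mul_le_one₀ (mul_le_one₀ (hA _ _) (norm_nonneg _) (hA' _ _)) (norm_nonneg _) (hf₂ _)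
  · intro a b n
    rw [e₁ a b n, e₂ a b n]
    have g1 : ((T : Equiv.Perm X) ^ n) (((T : Equiv.Perm X) ^ a * (S : Equiv.Perm X) ^ b) x) =
        ((T : Equiv.Perm X) ^ (a + b + n - b) * (S : Equiv.Perm X) ^ b) x := by
      rw [← Equiv.Perm.mul_apply, ← mul_assoc, ← zpow_add]
      congr 3
      ring
    have g2 : f₂ (((S : Equiv.Perm X) ^ n)
        (((T : Equiv.Perm X) ^ a * (S : Equiv.Perm X) ^ b) x)) =
        χ ⁅S ^ (-b), T ^ a⁆ *
          f₂ (((S : Equiv.Perm X) ^ (a + b + n - a) * (T : Equiv.Perm X) ^ a) x) := by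
      have g3 := H.eig (S ^ (a + b + n - a)) ⁅S ^ (-b), T ^ a⁆ (hν a b)
        (((T ^ a : G) : Equiv.Perm X) x)
      have g4 : ((S ^ (a + b + n - a) * ⁅S ^ (-b), T ^ a⁆ : G) : Equiv.Perm X)
          (((T ^ a : G) : Equiv.Perm X) x) = ((S : Equiv.Perm X) ^ n)
          (((T : Equiv.Perm X) ^ a * (S : Equiv.Perm X) ^ b) x) := by
        rw [← Equiv.Perm.mul_apply, ← Equiv.Perm.mul_apply, ← Subgroup.coe_mul,
          ← Subgroup.coe_zpow, ← Subgroup.coe_zpow, ← Subgroup.coe_zpow, ← Subgroup.coe_mul,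
          ← Subgroup.coe_mul]
        congr 2
        rw [commutatorElement_def]
        have e5 : S ^ (a + b + n - a) = S ^ n * S ^ b := by
          rw [← zpow_add]; congr 1; ring
        rw [e5, zpow_neg]
        simp only [mul_assoc, inv_inv, mul_inv_cancel_left, inv_mul_cancel, mul_one]
      rw [g4] at g3
      rw [g3, ← Equiv.Perm.mul_apply, Subgroup.coe_zpow, Subgroup.coe_zpow]
    rw [g1, g2]
    ring

/-- complex version of the split theorem -/
theorem ae_split [MeasurableSpace X] (μ : Measure X) [IsProbabilityMeasure μ]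
    (T S : Equiv.Perm X) (hT : MP2 μ T) (hS : MP2 μ S) (φ : X → ℤ → ℂ)
    (hφm : ∀ n, Measurable fun x => φ x n) (hφ : ∀ x n, ‖φ x n‖ ≤ 1)
    (hsplit : ∀ x, ∃ θ F G : ℤ → ℤ → ℂ, (∀ a b, ‖θ a b‖ ≤ 1) ∧ (∀ b c, ‖F b c‖ ≤ 1) ∧
      (∀ a c, ‖G a c‖ ≤ 1) ∧ ∀ a b n : ℤ,
        φ ((T ^ a * S ^ b) x) n = θ a b * F b (a + b + n) * G a (a + b + n)) :
    ∀ᵐ x ∂μ, ∃ L : ℂ, Tendsto (fun N : ℕ => ((2 * N + 1 : ℕ) : ℂ)⁻¹ *
      ∑ n ∈ Finset.Icc (-(N : ℤ)) (N : ℤ), φ x n) atTop (𝓝 L) := by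
  have hre := ae_tendsto_of_OB μ (fun x n => (φ x n).re)
    (fun x n => (Complex.abs_re_le_norm _).trans (hφ x n))
    (OB_split μ T S hT hS (fun x n => (φ x n).re)
      (fun n => Complex.measurable_re.comp (hφm n))
      (fun x n => (Complex.abs_re_le_norm _).trans (hφ x n)) (fun x => by
        obtain ⟨θ, F, G, h1, h2, h3, h4⟩ := hsplit x
        exact ⟨θ, F, G, h1, h2, h3, fun a b n => by rw [h4]⟩))
  have him := ae_tendsto_of_OB μ (fun x n => (φ x n).im)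
    (fun x n => (Complex.abs_im_le_norm _).trans (hφ x n))
    (OB_split μ T S hT hS (fun x n => (φ x n).im)
      (fun n => Complex.measurable_im.comp (hφm n))
      (fun x n => (Complex.abs_im_le_norm _).trans (hφ x n)) (fun x => by
        obtain ⟨θ, F, G, h1, h2, h3, h4⟩ := hsplit x
        refine ⟨fun a b => -Complex.I * θ a b, F, G, fun a b => ?_, h2, h3, fun a b n => ?_⟩
        · rw [norm_mul, norm_neg, Complex.norm_I, one_mul]; exact h1 a b
        · rw [h4]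
          have e : -Complex.I * θ a b * F b (a + b + n) * G a (a + b + n) =
            -Complex.I * (θ a b * F b (a + b + n) * G a (a + b + n)) := by ring
          rw [e]
          generalize θ a b * F b (a + b + n) * G a (a + b + n) = w
          simp [Complex.mul_re]))
  filter_upwards [hre, him] with x h1 h2
  obtain ⟨L1, h1⟩ := h1
  obtain ⟨L2, h2⟩ := h2
  refine ⟨(L1 : ℂ) + (L2 : ℂ) * Complex.I, ?_⟩
  have h1' : Tendsto (fun N : ℕ => ((av (fun n => (φ x n).re) N : ℝ) : ℂ)) atTop (𝓝 (L1 : ℂ)) :=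
    (Complex.continuous_ofReal.tendsto _).comp h1
  have h2' : Tendsto (fun N : ℕ => ((av (fun n => (φ x n).im) N : ℝ) : ℂ)) atTop (𝓝 (L2 : ℂ)) :=
    (Complex.continuous_ofReal.tendsto _).comp h2
  refine (h1'.add (h2'.mul_const Complex.I)).congr fun N => ?_
  unfold av
  push_cast
  rw [mul_assoc, ← mul_add, Finset.sum_mul, ← Finset.sum_add_distrib]
  congr 1
  refine Finset.sum_congr rfl fun n _ => ?_
  exact Complex.re_add_im _

end Pool.PWZ
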