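/-
PWZ (MP_4d8f14_an), extension beyond commuting maps (helper9), module NilEv.
From the almost everywhere eigenfunction property to the everywhere property.
-/
import Mathlib
import Pool.Agent.PWZ.NilPhase

set_option autoImplicit false

open Finset MeasureTheory Filter Topology
open scoped ENNReal commutatorElement

namespace Pool.PWZ

variable {X : Type}

/-- `h` is bounded and the commutator subgroup of `G` acts on `h` by a character which is
invariant under conjugation by `G` -/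
def EigFun [MeasurableSpace X] (μ : Measure X) (G : Subgroup (Equiv.Perm X)) (h : X → ℂ) : Prop :=
  MemLp h ∞ μ ∧ ∃ χ : G → ℂ, (∀ ν ∈ commutator G, ‖χ ν‖ = 1) ∧
    (∀ γ : G, ∀ ν ∈ commutator G, χ (γ * ν * γ⁻¹) = χ ν) ∧
    ∀ ν ∈ commutator G, ∀ᵐ x ∂μ, h ((ν : Equiv.Perm X) x) = χ ν * h x

/-- a bounded measurable function has a version which is bounded everywhere -/
lemma exists_bdd [MeasurableSpace X] (μ : Measure X) (f : X → ℂ) (hf : MemLp f ∞ μ) :
    ∃ (M : ℝ) (f' : X → ℂ), 0 < M ∧ Measurable f' ∧ (∀ᵐ x ∂μ, f x = f' x) ∧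
      ∀ᵐ x ∂μ, ‖f' x‖ ≤ M := by
  obtain ⟨hm, hlt⟩ := hf
  rw [eLpNorm_exponent_top] at hlt
  refine ⟨(eLpNormEssSup f μ).toReal + 1, hm.mk f, by positivity,
    hm.stronglyMeasurable_mk.measurable, hm.ae_eq_mk, ?_⟩
  have h1 : ∀ᵐ x ∂μ, ‖f x‖ₑ ≤ eLpNormEssSup f μ := ae_le_eLpNormEssSup
  filter_upwards [h1, hm.ae_eq_mk] with x hx he
  rw [← he]
  have h2 : (‖f x‖ₑ).toReal ≤ (eLpNormEssSup f μ).toReal := ENNReal.toReal_mono hlt.ne hx
  rw [toReal_enorm] at h2
  linarith

lemma exists_bdd' [MeasurableSpace X] (μ : Measure X) (f : X → ℂ) (hf : MemLp f ∞ μ) :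
    ∃ (M : ℝ) (f' : X → ℂ), 0 < M ∧ Measurable f' ∧ (∀ x, ‖f' x‖ ≤ 1) ∧
      ∀ᵐ x ∂μ, f x = M * f' x := by
  classical
  obtain ⟨M, f', hM, hm, he, hb⟩ := exists_bdd μ f hf
  have hMc : (M : ℂ) ≠ 0 := by
    exact_mod_cast hM.ne'
  refine ⟨M, fun x => if ‖f' x‖ ≤ M then (M : ℂ)⁻¹ * f' x else 0, hM, ?_, ?_, ?_⟩
  · exact Measurable.ite (measurableSet_le hm.norm measurable_const)
      (measurable_const.mul hm) measurable_const
  · intro x
    show ‖(if ‖f' x‖ ≤ M then (M : ℂ)⁻¹ * f' x else 0)‖ ≤ 1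
    by_cases hx : ‖f' x‖ ≤ M
    · rw [if_pos hx, norm_mul, norm_inv, Complex.norm_real, Real.norm_eq_abs, abs_of_pos hM]
      rw [inv_mul_le_iff₀ hM, mul_one]
      exact hx
    · rw [if_neg hx, norm_zero]
      norm_num
  · filter_upwards [he, hb] with x h1 h2
    rw [if_pos h2, h1, mul_inv_cancel_left₀ hMc]

/-- everywhere version of an eigenfunction -/
theorem EigFun.exists_everywhere [MeasurableSpace X] {μ : Measure X}
    {G : Subgroup (Equiv.Perm X)} [Countable G] (hG : ∀ γ ∈ G, MP2 μ γ) {h : X → ℂ}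
    (H : EigFun μ G h) :
    ∃ (M : ℝ) (h' : X → ℂ) (χ : G → ℂ), 0 < M ∧ Measurable h' ∧ (∀ x, ‖h' x‖ ≤ 1) ∧
      EigG G h' χ ∧ ∀ᵐ x ∂μ, h x = M * h' x := by
  classical
  obtain ⟨hm, χ, hχ1, hχ2, hχ3⟩ := H
  obtain ⟨M, f, hM, hfm, hfe, hfb⟩ := exists_bdd μ h hm
  have hMc : (M : ℂ) ≠ 0 := by
    exact_mod_cast hM.ne'
  set E : Set X := {x | ∀ γ : G, ‖f ((γ : Equiv.Perm X) x)‖ ≤ M ∧
    ∀ ν : G, ν ∈ commutator G → f (((γ * ν : G) : Equiv.Perm X) x) =
      χ ν * f ((γ : Equiv.Perm X) x)} with hE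
  have hmeasG : ∀ γ : G, Measurable ⇑(γ : Equiv.Perm X) := fun γ => (hG γ γ.2).1.measurable
  have hEm : MeasurableSet E := by
    rw [hE, Set.ofPred_forall]
    refine MeasurableSet.iInter fun γ => ?_
    rw [Set.ofPred_and]
    refine MeasurableSet.inter ?_ ?_
    · exact measurableSet_le (hfm.comp (hmeasG γ)).norm measurable_const
    · rw [Set.ofPred_forall]
      refine MeasurableSet.iInter fun ν => ?_
      by_cases hν : ν ∈ commutator G
      · simp only [hν, forall_true_left]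
        exact measurableSet_eq_fun (hfm.comp (hmeasG (γ * ν)))
          (measurable_const.mul (hfm.comp (hmeasG γ)))
      · simp only [hν, false_imp_iff, Set.ofPred_true]
        exact MeasurableSet.univ
  have hEae : ∀ᵐ x ∂μ, x ∈ E := by
    rw [hE]
    simp only [Set.mem_ofPred_eq]
    rw [ae_all_iff]
    intro γ
    rw [eventually_and]
    constructor
    · exact (hG γ γ.2).1.quasiMeasurePreserving.ae hfb
    · rw [ae_all_iff]
      intro ν
      by_cases hν : ν ∈ commutator G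
      · simp only [hν, forall_true_left]
        -- `f (γ ν x) = f ((γ ν γ⁻¹) (γ x))`
        have hν' : γ * ν * γ⁻¹ ∈ commutator G := by
          have hn : (commutator G).Normal := by rw [commutator_def]; infer_instance
          exact hn.conj_mem ν hν γ
        have h1 : ∀ᵐ x ∂μ, f (((γ * ν * γ⁻¹ : G) : Equiv.Perm X) x) = χ (γ * ν * γ⁻¹) * f x := by
          have h2 := hχ3 _ hν'
          have h3 := (hG _ (γ * ν * γ⁻¹).2).1.quasiMeasurePreserving.ae hfe
          filter_upwards [h2, h3, hfe] with x a1 a2 a3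
          rw [← a2, a1, a3]
        have h4 := (hG γ γ.2).1.quasiMeasurePreserving.ae h1
        filter_upwards [h4] with x hx
        rw [hχ2 γ ν hν, ← Equiv.Perm.mul_apply, ← Subgroup.coe_mul, inv_mul_cancel_right] at hx
        exact hx
      · simp [hν]
  have hEinv : ∀ (δ : G) (x : X), x ∈ E → (δ : Equiv.Perm X) x ∈ E := by
    intro δ x hx
    rw [hE] at hx ⊢
    intro γ
    constructor
    · have := (hx (γ * δ)).1
      rwa [Subgroup.coe_mul, Equiv.Perm.mul_apply] at this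
    · intro ν hν
      have hn : (commutator G).Normal := by rw [commutator_def]; infer_instance
      have hν' : δ⁻¹ * ν * δ ∈ commutator G := by
        have := hn.conj_mem ν hν δ⁻¹
        rwa [inv_inv] at this
      have h1 := (hx (γ * δ)).2 _ hν'
      have h2 : χ (δ⁻¹ * ν * δ) = χ ν := by
        have := hχ2 δ⁻¹ ν hν
        rwa [inv_inv] at this
      rw [h2] at h1
      have e1 : γ * δ * (δ⁻¹ * ν * δ) = γ * ν * δ := by group
      rw [e1] at h1
      exact h1
  have hEiff : ∀ (δ : G) (x : X), (δ : Equiv.Perm X) x ∈ E ↔ x ∈ E := by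
    intro δ x
    constructor
    · intro h1
      have := hEinv δ⁻¹ _ h1
      rwa [← Equiv.Perm.mul_apply, ← Subgroup.coe_mul, inv_mul_cancel, Subgroup.coe_one,
        Equiv.Perm.one_apply] at this
    · exact hEinv δ x
  refine ⟨M, E.indicator fun x => (M : ℂ)⁻¹ * f x, χ, hM,
    (measurable_const.mul hfm).indicator hEm, ?_, ⟨fun ν hν => (hχ1 ν hν).le, ?_⟩, ?_⟩
  · intro x
    by_cases hx : x ∈ E
    · rw [Set.indicator_of_mem hx, norm_mul, norm_inv, Complex.norm_real, Real.norm_eq_abs,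
        abs_of_pos hM, inv_mul_le_iff₀ hM, mul_one]
      have := (hx 1).1
      rwa [Subgroup.coe_one, Equiv.Perm.one_apply] at this
    · rw [Set.indicator_of_notMem hx, norm_zero]
      norm_num
  · intro γ ν hν y
    by_cases hy : y ∈ E
    · rw [Set.indicator_of_mem ((hEiff (γ * ν) y).2 hy), Set.indicator_of_mem ((hEiff γ y).2 hy),
        (hy γ).2 ν hν]
      ring
    · rw [Set.indicator_of_notMem (fun h1 => hy ((hEiff (γ * ν) y).1 h1)),
        Set.indicator_of_notMem (fun h1 => hy ((hEiff γ y).1 h1)), mul_zero]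
  · filter_upwards [hEae, hfe] with x hx he
    rw [Set.indicator_of_mem hx, he, mul_inv_cancel_left₀ hMc]

end Pool.PWZ
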