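/-
PWZ (MP_4d8f14_an), extension beyond commuting maps (helper9), module NilFinal.
Two functions, linear sequences in a nilpotent group.
-/
import Mathlib
import Pool.Agent.PWZ.NilEv
import Pool.Agent.PWZ.NilClo
import Pool.Agent.Nil.Final

set_option autoImplicit false

open Finset MeasureTheory Filter Topology
open scoped ENNReal commutatorElement

namespace Pool.PWZ

variable {X : Type}

/-- `f` lies in the closed span (in `L²`) of the functions on which the commutator subgroup acts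
by an invariant character -/
def InE [MeasurableSpace X] (μ : Measure X) (G : Subgroup (Equiv.Perm X)) (f : X → ℂ) : Prop :=
  ∀ ε : ℝ, 0 < ε → ∃ (k : ℕ) (h : Fin k → X → ℂ), (∀ i, EigFun μ G (h i)) ∧
    eLpNorm (fun x => f x - ∑ i, h i x) 2 μ ≤ ENNReal.ofReal ε

/-- the basic case -/
theorem Cv_of_split [MeasurableSpace X] {μ : Measure X} [IsProbabilityMeasure μ]
    {G : Subgroup (Equiv.Perm X)} (hG : ∀ γ ∈ G, MP2 μ γ) {f₁ f₂ : X → ℂ} {χ : G → ℂ}
    (H : EigG G f₂ χ) (T S : G) {s₁ s₂ : ℤ → Equiv.Perm X}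
    (h₁ : LinSeq s₁ f₁ (T : Equiv.Perm X)) (h₂ : LinSeq s₂ f₂ (S : Equiv.Perm X))
    (hf₁ : ∀ x, ‖f₁ x‖ ≤ 1) (hf₂ : ∀ x, ‖f₂ x‖ ≤ 1) (hm₁ : Measurable f₁) (hm₂ : Measurable f₂)
    (hs₁ : ∀ n, Measurable ⇑(s₁ n)) (hs₂ : ∀ n, Measurable ⇑(s₂ n)) : Cv μ s₁ s₂ f₁ f₂ := by
  refine ae_split μ (T : Equiv.Perm X) (S : Equiv.Perm X) (hG _ T.2) (hG _ S.2)
    (fun x n => f₁ (s₁ n x) * f₂ (s₂ n x))
    (fun n => (hm₁.comp (hs₁ n)).mul (hm₂.comp (hs₂ n))) (fun x n => ?_) (fun x => ?_)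
  · rw [norm_mul]
    exact mul_le_one₀ (hf₁ _) (norm_nonneg _) (hf₂ _)
  · exact split_of_eig H T S h₁ h₂ hf₁ hf₂ x

/-- two eigenfunctions -/
theorem Cv_eig_eig [MeasurableSpace X] {μ : Measure X} [IsProbabilityMeasure μ]
    {G : Subgroup (Equiv.Perm X)} [Countable G] (hG : ∀ γ ∈ G, MP2 μ γ) (L₁ L₂ : List G)
    {f₁ f₂ : X → ℂ} (hf₁ : EigFun μ G f₁) (hf₂ : EigFun μ G f₂) :
    Cv μ (fun n => (((L₁.map fun A => A ^ n).prod : G) : Equiv.Perm X))
      (fun n => (((L₂.map fun A => A ^ n).prod : G) : Equiv.Perm X)) f₁ f₂ := by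
  obtain ⟨M₁, h₁, χ₁, _, m₁, b₁, e₁, a₁⟩ := hf₁.exists_everywhere hG
  obtain ⟨M₂, h₂, χ₂, _, m₂, b₂, e₂, a₂⟩ := hf₂.exists_everywhere hG
  have hs : ∀ (L : List G) (n : ℤ),
      MeasurePreserving ⇑(((L.map fun A => A ^ n).prod : G) : Equiv.Perm X) μ μ := fun L n =>
    (hG _ (Subtype.coe_prop _)).1
  have h := Cv_of_split (μ := μ) hG e₂ L₁.prod L₂.prod (LinSeq.of_eig e₁ L₁)
    (LinSeq.of_eig e₂ L₂) b₁ b₂ m₁ m₂ (fun n => (hs L₁ n).measurable)
    (fun n => (hs L₂ n).measurable)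
  exact (h.const_mul (M₁ : ℂ) (M₂ : ℂ)).congr (hs L₁) (hs L₂) a₁ a₂

/-- an arbitrary function along powers and an eigenfunction -/
theorem Cv_pow_eig [MeasurableSpace X] {μ : Measure X} [IsProbabilityMeasure μ]
    {G : Subgroup (Equiv.Perm X)} [Countable G] (hG : ∀ γ ∈ G, MP2 μ γ) (V : G) (L₂ : List G)
    {f₁ f₂ : X → ℂ} (hf₁ : MemLp f₁ ∞ μ) (hf₂ : EigFun μ G f₂) :
    Cv μ (fun n => (V : Equiv.Perm X) ^ n)
      (fun n => (((L₂.map fun A => A ^ n).prod : G) : Equiv.Perm X)) f₁ f₂ := by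
  obtain ⟨M₁, h₁, _, m₁, b₁, a₁⟩ := exists_bdd' μ f₁ hf₁
  obtain ⟨M₂, h₂, χ₂, _, m₂, b₂, e₂, a₂⟩ := hf₂.exists_everywhere hG
  have hs : ∀ n : ℤ,
      MeasurePreserving ⇑(((L₂.map fun A => A ^ n).prod : G) : Equiv.Perm X) μ μ := fun n =>
    (hG _ (Subtype.coe_prop _)).1
  have hs' : ∀ n : ℤ, MeasurePreserving ⇑((V : Equiv.Perm X) ^ n) μ μ := fun n =>
    (hG _ (Subgroup.zpow_mem _ V.2 n)).1
  have h := Cv_of_split (μ := μ) hG e₂ V L₂.prod (LinSeq.pow h₁ (V : Equiv.Perm X))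
    (LinSeq.of_eig e₂ L₂) b₁ b₂ m₁ m₂ (fun n => (hs' n).measurable)
    (fun n => (hs n).measurable)
  exact (h.const_mul (M₁ : ℂ) (M₂ : ℂ)).congr hs' hs a₁ a₂

/-- passing to the closed span -/
theorem Cv_of_InE [MeasurableSpace X] {μ : Measure X} [IsProbabilityMeasure μ]
    {G : Subgroup (Equiv.Perm X)} [Countable G] (hG : ∀ γ ∈ G, MP2 μ γ)
    {s₁ s₂ : ℤ → Equiv.Perm X} (hs₁ : ∀ n, MeasurePreserving ⇑(s₁ n) μ μ)
    (hs₂ : ∀ n, MeasurePreserving ⇑(s₂ n) μ μ) (hS : Sg μ s₁) {f g : X → ℂ}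
    (hf : MemLp f ∞ μ) (hg : MemLp g ∞ μ) (hE : InE μ G f)
    (H : ∀ h, EigFun μ G h → Cv μ s₁ s₂ h g) : Cv μ s₁ s₂ f g := by
  obtain ⟨M, f', hM, fm, fb, fe⟩ := exists_bdd' μ f hf
  obtain ⟨N, g', hN, gm, gb, ge⟩ := exists_bdd' μ g hg
  have fe' : ∀ᵐ x ∂μ, f x = (fun x => (M : ℂ) * f' x) x := fe
  have ge' : ∀ᵐ x ∂μ, g x = (fun x => (N : ℂ) * g' x) x := ge
  have ge'' : ∀ᵐ x ∂μ, (fun x => (N : ℂ) * g' x) x = g x := by
    filter_upwards [ge] with x hx
    exact hx.symm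
  refine Cv.congr hs₁ hs₂ (f := fun x => (M : ℂ) * f' x) (g := fun x => (N : ℂ) * g' x)
    ?_ fe' ge'
  refine Cv.closure hs₁ hS (measurable_const.mul fm) ⟨M, fun x => ?_⟩ ⟨N, fun x => ?_⟩ ?_
  · rw [norm_mul, Complex.norm_real, Real.norm_eq_abs, abs_of_pos hM]
    exact mul_le_of_le_one_right hM.le (fb x)
  · rw [norm_mul, Complex.norm_real, Real.norm_eq_abs, abs_of_pos hN]
    exact mul_le_of_le_one_right hN.le (gb x)
  intro ε hε
  obtain ⟨δ, hδ, hδε⟩ : ∃ δ : ℝ, 0 < δ ∧ ENNReal.ofReal δ ≤ ε := by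
    rcases eq_or_ne ε ⊤ with rfl | htop
    · exact ⟨1, one_pos, le_top⟩
    · exact ⟨ε.toReal, ENNReal.toReal_pos hε htop, ENNReal.ofReal_toReal_le⟩
  obtain ⟨k, h, hh, hn⟩ := hE δ hδ
  choose M' h' χ' hM' hm' hb' _ he' using fun i => (hh i).exists_everywhere hG
  refine ⟨fun x => ∑ i, (M' i : ℂ) * h' i x, ?_, ⟨∑ i, M' i, fun x => ?_⟩, ?_, ?_⟩
  · exact Finset.measurable_fun_sum _ fun i _ => measurable_const.mul (hm' i)
  · refine (norm_sum_le _ _).trans (Finset.sum_le_sum fun i _ => ?_)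
    rw [norm_mul, Complex.norm_real, Real.norm_eq_abs, abs_of_pos (hM' i)]
    exact mul_le_of_le_one_right (hM' i).le (hb' i x)
  · have he'' : ∀ᵐ x ∂μ, ∀ i, h i x = (M' i : ℂ) * h' i x := by
      rw [ae_all_iff]; exact he'
    have h1 : ∫⁻ x, ‖(M : ℂ) * f' x - ∑ i, (M' i : ℂ) * h' i x‖ₑ ∂μ =
        ∫⁻ x, ‖f x - ∑ i, h i x‖ₑ ∂μ := by
      apply lintegral_congr_ae
      filter_upwards [fe, he''] with x e1 e2
      simp only [e1, e2]
    rw [h1, ← eLpNorm_one_eq_lintegral_enorm]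
    have hmeas : AEStronglyMeasurable (fun x => f x - ∑ i, h i x) μ :=
      hf.aestronglyMeasurable.sub
        (Finset.aestronglyMeasurable_fun_sum _ fun i _ => (hh i).1.aestronglyMeasurable)
    exact (eLpNorm_le_eLpNorm_of_exponent_le (by norm_num) hmeas).trans (hn.trans hδε)
  · have h2 : Cv μ s₁ s₂ (fun x => ∑ i, (M' i : ℂ) * h' i x)
        (fun x => ∑ _j : Fin 1, (N : ℂ) * g' x) := by
      refine Cv.sum (fun i x => (M' i : ℂ) * h' i x) (fun _ x => (N : ℂ) * g' x) fun i _ => ?_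
      refine (H (h i) (hh i)).congr hs₁ hs₂ ?_ ge''
      filter_upwards [he' i] with x hx
      exact hx.symm
    simpa only [Finset.univ_unique, Finset.sum_const, Finset.card_singleton, one_smul] using h2

/-- the general theorem: two functions, linear sequences in a nilpotent group -/
theorem nil_final (X : Type) [MeasurableSpace X] (μ : Measure X) [IsProbabilityMeasure μ]
    (d : ℕ) (T : Fin d → Equiv.Perm X) (hT' : ∀ i, Measurable ⇑(T i).symm)
    (hT : ∀ i, MeasurePreserving (⇑(T i)) μ μ)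
    (hnil : Group.IsNilpotent (Subgroup.closure (Set.range T)))
    (P : Fin d → Fin 2 → Polynomial ℤ) (hP0 : ∀ i j, (P i j).eval 0 = 0)
    (hP1 : ∀ i j, (P i j).natDegree ≤ 1) (f : Fin 2 → X → ℂ) (hf : ∀ j, MemLp (f j) ∞ μ)
    (j : Fin 2) (hj : InE μ (Subgroup.closure (Set.range T)) (f j))
    (hi : ∀ i, i ≠ j → InE μ (Subgroup.closure (Set.range T)) (f i) ∨
      ∃ V : Equiv.Perm X, ∀ n : ℤ, (List.ofFn fun l => T l ^ (P l i).eval n).prod = V ^ n) :
    ∀ᵐ x ∂μ, ∃ L : ℂ, Filter.Tendsto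
      (fun N : ℕ => ((2 * N + 1 : ℕ) : ℂ)⁻¹ *
        ∑ n ∈ Finset.Icc (-(N : ℤ)) (N : ℤ),
          ∏ j : Fin 2, f j ((List.ofFn fun i : Fin d => T i ^ (P i j).eval n).prod x))
      Filter.atTop (nhds L) := by
  set G := Subgroup.closure (Set.range T) with hGdef
  have hTG : ∀ i, T i ∈ G := fun i => Subgroup.subset_closure ⟨i, rfl⟩
  have hG : ∀ γ ∈ G, MP2 μ γ := by
    intro γ hγ
    induction hγ using Subgroup.closure_induction with
    | mem γ h =>
      obtain ⟨i, rfl⟩ := h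
      exact MP2.of (hT' i) (hT i)
    | one => exact MP2.one
    | mul a b _ _ ha hb => exact ha.mul hb
    | inv a _ ha => exact ha.inv
  have hcount : Countable G := by
    have h1 : Function.Surjective (FreeGroup.lift T).rangeRestrict :=
      MonoidHom.rangeRestrict_surjective _
    have h2 : (FreeGroup.lift T).range = Subgroup.closure (Set.range T) := by
      rw [FreeGroup.range_lift_eq_closure]
    rw [hGdef, ← h2]
    have : Countable (FreeGroup (Fin d)) := by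
      unfold FreeGroup
      infer_instance
    exact h1.countable
  -- the sequences
  have heval : ∀ i j (n : ℤ), (P i j).eval n = (P i j).coeff 1 * n := by
    intro i j n
    have h := Polynomial.eq_X_add_C_of_natDegree_le_one (hP1 i j)
    have h0 : (P i j).coeff 0 = 0 := by
      rw [Polynomial.coeff_zero_eq_eval_zero]; exact hP0 i j
    conv_lhs => rw [h]
    simp [h0]
  let s : Fin 2 → ℤ → Equiv.Perm X := fun j n => (List.ofFn fun i => T i ^ (P i j).eval n).prod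
  let Ls : Fin 2 → List G := fun j =>
    List.ofFn fun i => (⟨T i, hTG i⟩ : G) ^ (P i j).coeff 1
  have hsL : ∀ j, s j = fun n => ((((Ls j).map fun A => A ^ n).prod : G) : Equiv.Perm X) := by
    intro j
    funext n
    show (List.ofFn fun i => T i ^ (P i j).eval n).prod =
      G.subtype ((((Ls j).map fun A => A ^ n).prod : G))
    rw [map_list_prod, List.map_map, List.map_ofFn]
    congr 2
    funext i
    simp only [Function.comp_apply, map_zpow, Subgroup.subtype_apply]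
    rw [heval, zpow_mul]
  have hsG : ∀ j n, s j n ∈ G := by
    intro j n
    rw [hsL]
    exact Subtype.coe_prop _
  have hsmp : ∀ j n, MeasurePreserving ⇑(s j n) μ μ := fun j n => (hG _ (hsG j n)).1
  have hSg : ∀ j, Sg μ (s j) := by
    intro j u hu hub
    have hTsym : ∀ i, MeasurePreserving (T i).symm μ μ := fun i => (MP2.of (hT' i) (hT i)).2
    have hu2 : MemLp u 2 μ := by
      obtain ⟨M, hM⟩ := hub
      exact MemLp.of_bound hu.aestronglyMeasurable M (Eventually.of_forall hM)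
    have h := Pool.Nil.orb_conv T hT hTsym hnil (fun i => P i j) u hu2
    filter_upwards [h] with x hx
    obtain ⟨L, hL⟩ := hx
    refine ⟨L, hL.congr fun N => ?_⟩
    unfold cav
    push_cast
    rfl
  -- the two cases
  have key : ∀ i, i ≠ j → Cv μ (s i) (s j) (f i) (f j) := by
    intro i hij
    rcases hi i hij with h1 | ⟨V, hV⟩
    · refine Cv_of_InE hG (hsmp i) (hsmp j) (hSg i) (hf i) (hf j) h1 fun h hh => ?_
      refine Cv.swap (Cv_of_InE hG (hsmp j) (hsmp i) (hSg j) (hf j) hh.1 hj fun h' hh' => ?_)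
      refine Cv.swap ?_
      rw [hsL i, hsL j]
      exact Cv_eig_eig hG (Ls i) (Ls j) hh hh'
    · refine Cv.swap (Cv_of_InE hG (hsmp j) (hsmp i) (hSg j) (hf j) (hf i) hj fun h' hh' => ?_)
      refine Cv.swap ?_
      have hVG : V ∈ G := by
        have h1 := hsG i 1
        have h2 : s i 1 = V := by
          show (List.ofFn fun l => T l ^ (P l i).eval 1).prod = V
          rw [hV 1, zpow_one]
        rwa [h2] at h1
      have hsi : s i = fun n => ((⟨V, hVG⟩ : G) : Equiv.Perm X) ^ n := by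
        funext n
        exact hV n
      rw [hsi, hsL j]
      exact Cv_pow_eig hG ⟨V, hVG⟩ (Ls j) (hf i) hh'
  have hfin : Cv μ (s 0) (s 1) (f 0) (f 1) := by
    fin_cases j
    · exact (key 1 (by decide)).swap
    · exact key 0 (by decide)
  unfold Cv at hfin
  filter_upwards [hfin] with x hx
  obtain ⟨L, hL⟩ := hx
  refine ⟨L, hL.congr fun N => ?_⟩
  unfold cav
  simp only [Fin.prod_univ_two]
  rfl

/-- in the commuting case everything lies in the closed span -/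
lemma InE_of_commute [MeasurableSpace X] {μ : Measure X} {d : ℕ} (T : Fin d → Equiv.Perm X)
    (hc : ∀ i j, Commute (T i) (T j)) (f : X → ℂ) (hf : MemLp f ∞ μ) :
    InE μ (Subgroup.closure (Set.range T)) f := by
  have hcomm : ∀ ν ∈ commutator (Subgroup.closure (Set.range T)), ν = 1 := by
    intro ν hν
    have h1 : ∀ x ∈ Set.range T, ∀ y ∈ Set.range T, x * y = y * x := by
      rintro _ ⟨i, rfl⟩ _ ⟨j, rfl⟩
      exact (hc i j).eq
    have hic : IsMulCommutative (Subgroup.closure (Set.range T)) :=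
      Subgroup.isMulCommutative_closure h1
    have h2 : commutator (Subgroup.closure (Set.range T)) = ⊥ := by
      rw [commutator_def, Subgroup.commutator_eq_bot_iff_le_centralizer]
      intro x _
      rw [Subgroup.mem_centralizer_iff]
      intro y _
      exact hic.is_comm.comm y x
    rw [h2, Subgroup.mem_bot] at hν
    exact hν
  intro ε hε
  refine ⟨1, fun _ => f, fun _ => ⟨hf, fun _ => 1, fun _ _ => by simp, fun _ _ _ => rfl, ?_⟩, ?_⟩
  · intro ν hν
    rw [hcomm ν hν]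
    refine Eventually.of_forall fun x => ?_
    simp
  · simp

end Pool.PWZ
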