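import Mathlib
import Pool.Agent.PWZ.Breg

/-!
PWZ (MP_4d8f14), steps (2), (3)(b)(c) of note 3219: the gap `Gap mu N` of `x log x`
(relative entropy with weights), the Hellinger bound for the drift and the step lemma.
-/

set_option autoImplicit false

namespace Pool.Agent.PWZ.Hell

open Pool.Agent.PWZ

open Finset

/-- `x log x` -/
noncomputable def th (x : ℝ) : ℝ := x * Real.log x

lemma th_zero : th 0 = 0 := by unfold th; simp

/-- `sum mu theta(N) - theta(sum mu N)` -/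
noncomputable def Gap {ι : Type*} (s : Finset ι) (μ N : ι → ℝ) : ℝ :=
  ∑ i ∈ s, μ i * th (N i) - th (∑ i ∈ s, μ i * N i)

lemma th_sub_ge {N n : ℝ} (hN : 0 ≤ N) (hn : 0 < n) :
    (Real.sqrt N - Real.sqrt n) ^ 2 + N - n ≤ th N - N * Real.log n := by
  rcases hN.eq_or_lt with h | h
  · subst h
    rw [th_zero, Real.sqrt_zero]
    have : (Real.sqrt n) ^ 2 = n := Real.sq_sqrt hn.le
    nlinarith
  · have hsN : 0 < Real.sqrt N := Real.sqrt_pos.2 h
    have hsn : 0 < Real.sqrt n := Real.sqrt_pos.2 hn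
    have e1 : (Real.sqrt n) ^ 2 = n := Real.sq_sqrt hn.le
    have e2 : (Real.sqrt N) ^ 2 = N := Real.sq_sqrt h.le
    have h1 : Real.log (Real.sqrt n / Real.sqrt N) ≤ Real.sqrt n / Real.sqrt N - 1 :=
      Real.log_le_sub_one_of_pos (div_pos hsn hsN)
    rw [Real.log_div hsn.ne' hsN.ne', Real.log_sqrt hn.le, Real.log_sqrt h.le] at h1
    have h2 := mul_le_mul_of_nonneg_left h1 h.le
    have h3 : N * (Real.sqrt n / Real.sqrt N - 1) = Real.sqrt N * Real.sqrt n - N := by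
      have : N / Real.sqrt N = Real.sqrt N := Real.div_sqrt
      calc N * (Real.sqrt n / Real.sqrt N - 1) = (N / Real.sqrt N) * Real.sqrt n - N := by ring
        _ = _ := by rw [this]
    rw [h3] at h2
    unfold th
    nlinarith

lemma hell_le_gap {ι : Type*} (s : Finset ι) {μ N : ι → ℝ} (hμ : ∀ i ∈ s, 0 ≤ μ i)
    (hμ1 : ∑ i ∈ s, μ i = 1) (hN : ∀ i ∈ s, 0 ≤ N i) :
    ∑ i ∈ s, μ i * (Real.sqrt (N i) - Real.sqrt (∑ j ∈ s, μ j * N j)) ^ 2 ≤ Gap s μ N := by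
  set n := ∑ j ∈ s, μ j * N j with hn
  have hn0 : 0 ≤ n := Finset.sum_nonneg fun i hi => mul_nonneg (hμ i hi) (hN i hi)
  rcases hn0.eq_or_lt with h | h
  · have hz : ∀ i ∈ s, μ i * N i = 0 := by
      have := (Finset.sum_eq_zero_iff_of_nonneg
        (fun i hi => mul_nonneg (hμ i hi) (hN i hi))).1 (hn ▸ h.symm)
      exact this
    have e1 : ∑ i ∈ s, μ i * (Real.sqrt (N i) - Real.sqrt n) ^ 2 = 0 := by
      apply Finset.sum_eq_zero
      intro i hi
      rw [← h, Real.sqrt_zero, sub_zero, Real.sq_sqrt (hN i hi)]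
      exact hz i hi
    have e2 : Gap s μ N = 0 := by
      unfold Gap
      rw [← hn, ← h, th_zero, sub_zero]
      apply Finset.sum_eq_zero
      intro i hi
      unfold th
      rw [← mul_assoc, hz i hi, zero_mul]
    rw [e1, e2]
  · have h1 : ∀ i ∈ s, μ i * (Real.sqrt (N i) - Real.sqrt n) ^ 2 ≤
        μ i * th (N i) - μ i * N i * Real.log n - (μ i * N i - μ i * n) := by
      intro i hi
      have := mul_le_mul_of_nonneg_left (th_sub_ge (hN i hi) h) (hμ i hi)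
      nlinarith
    refine (Finset.sum_le_sum h1).trans (le_of_eq ?_)
    rw [Finset.sum_sub_distrib, Finset.sum_sub_distrib, Finset.sum_sub_distrib,
      ← Finset.sum_mul, ← Finset.sum_mul, hμ1, ← hn]
    unfold Gap th
    rw [← hn]; ring

lemma gap_nonneg {ι : Type*} (s : Finset ι) {μ N : ι → ℝ} (hμ : ∀ i ∈ s, 0 ≤ μ i)
    (hμ1 : ∑ i ∈ s, μ i = 1) (hN : ∀ i ∈ s, 0 ≤ N i) : 0 ≤ Gap s μ N :=
  le_trans (Finset.sum_nonneg fun i hi => mul_nonneg (hμ i hi) (sq_nonneg _))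
    (hell_le_gap s hμ hμ1 hN)

/-- (3)(b): the drift under the law `mu N` of a function with free mean zero -/
lemma drift_le {ι : Type*} (s : Finset ι) {μ N D : ι → ℝ} (hμ : ∀ i ∈ s, 0 ≤ μ i)
    (hμ1 : ∑ i ∈ s, μ i = 1) (hN : ∀ i ∈ s, 0 ≤ N i) (hD0 : ∑ i ∈ s, μ i * D i = 0)
    (hD : ∀ i ∈ s, |D i| ≤ 8) {d : ℝ} (hd : 0 < d) :
    |∑ i ∈ s, μ i * N i * D i| ≤
      d * ∑ i ∈ s, μ i * N i * (D i) ^ 2 + (3 / (2 * d) + 16) * Gap s μ N := by
  set n := ∑ j ∈ s, μ j * N j with hn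
  have hn0 : 0 ≤ n := Finset.sum_nonneg fun i hi => mul_nonneg (hμ i hi) (hN i hi)
  set A := ∑ i ∈ s, μ i * (Real.sqrt (N i) - Real.sqrt n) ^ 2 with hA
  set E := ∑ i ∈ s, μ i * N i * (D i) ^ 2 with hE
  have hAG : A ≤ Gap s μ N := hell_le_gap s hμ hμ1 hN
  have hA0 : 0 ≤ A := Finset.sum_nonneg fun i hi => mul_nonneg (hμ i hi) (sq_nonneg _)
  have hE0 : 0 ≤ E := Finset.sum_nonneg fun i hi =>
    mul_nonneg (mul_nonneg (hμ i hi) (hN i hi)) (sq_nonneg _)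
  set X := ∑ i ∈ s, μ i * N i * D i with hX
  have hX1 : X = ∑ i ∈ s, (Real.sqrt (μ i) * (Real.sqrt (N i) - Real.sqrt n)) *
      (Real.sqrt (μ i) * ((Real.sqrt (N i) + Real.sqrt n) * D i)) := by
    have : X = ∑ i ∈ s, (μ i * N i * D i - n * (μ i * D i)) := by
      rw [Finset.sum_sub_distrib, ← Finset.mul_sum, hD0]; ring
    rw [this]
    apply Finset.sum_congr rfl
    intro i hi
    have e1 : Real.sqrt (μ i) * Real.sqrt (μ i) = μ i := Real.mul_self_sqrt (hμ i hi)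
    have e2 : Real.sqrt (N i) * Real.sqrt (N i) = N i := Real.mul_self_sqrt (hN i hi)
    have e3 : Real.sqrt n * Real.sqrt n = n := Real.mul_self_sqrt hn0
    have : (Real.sqrt (μ i) * (Real.sqrt (N i) - Real.sqrt n)) *
      (Real.sqrt (μ i) * ((Real.sqrt (N i) + Real.sqrt n) * D i)) =
      (Real.sqrt (μ i) * Real.sqrt (μ i)) * (Real.sqrt (N i) * Real.sqrt (N i)
        - Real.sqrt n * Real.sqrt n) * D i := by ring
    rw [this, e1, e2, e3]; ring
  have hB : X ^ 2 ≤ A * (6 * E + 256 * A) := by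
    have h1 := Finset.sum_mul_sq_le_sq_mul_sq s
      (fun i => Real.sqrt (μ i) * (Real.sqrt (N i) - Real.sqrt n))
      (fun i => Real.sqrt (μ i) * ((Real.sqrt (N i) + Real.sqrt n) * D i))
    rw [← hX1] at h1
    refine h1.trans ?_
    have e1 : ∑ i ∈ s, (Real.sqrt (μ i) * (Real.sqrt (N i) - Real.sqrt n)) ^ 2 = A := by
      rw [hA]
      apply Finset.sum_congr rfl
      intro i hi
      rw [mul_pow, Real.sq_sqrt (hμ i hi)]
    rw [e1]
    apply mul_le_mul_of_nonneg_left _ hA0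
    have e2 : 6 * E + 256 * A = ∑ i ∈ s, (6 * (μ i * N i * (D i) ^ 2) +
        256 * (μ i * (Real.sqrt (N i) - Real.sqrt n) ^ 2)) := by
      rw [Finset.sum_add_distrib, ← Finset.mul_sum, ← Finset.mul_sum]
    rw [e2]
    apply Finset.sum_le_sum
    intro i hi
    have hd2 : (D i) ^ 2 ≤ 64 := by
      have := abs_le.1 (hD i hi)
      nlinarith
    have f1 : (Real.sqrt (N i)) ^ 2 = N i := Real.sq_sqrt (hN i hi)
    have hD2 : 0 ≤ (D i) ^ 2 := sq_nonneg _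
    set p := Real.sqrt (N i) with hp
    set q := Real.sqrt n with hq
    rw [mul_pow, Real.sq_sqrt (hμ i hi), ← f1]
    have key : ((p + q) * D i) ^ 2 ≤ 6 * (p ^ 2 * (D i) ^ 2) + 256 * (p - q) ^ 2 := by
      have k1 : (p + q) ^ 2 ≤ 6 * p ^ 2 + 4 * (p - q) ^ 2 := by
        nlinarith [sq_nonneg (p - q), sq_nonneg (2 * p - q)]
      have k2 : (p + q) ^ 2 * (D i) ^ 2 ≤ (6 * p ^ 2 + 4 * (p - q) ^ 2) * (D i) ^ 2 :=
        mul_le_mul_of_nonneg_right k1 hD2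
      have k3 : 4 * (p - q) ^ 2 * (D i) ^ 2 ≤ 4 * (p - q) ^ 2 * 64 :=
        mul_le_mul_of_nonneg_left hd2 (by positivity)
      nlinarith
    have := mul_le_mul_of_nonneg_left key (hμ i hi)
    nlinarith
  set c := 3 / (2 * d) + 16 with hc
  have hc0 : 0 < c := by positivity
  have h2 : |X| ≤ d * E + c * A := by
    apply abs_le_of_sq_le_sq _ (by positivity)
    refine hB.trans ?_
    have h3 : d * (3 / (2 * d)) = 3 / 2 := by field_simp
    set t := 3 / (2 * d) with ht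
    have ht0 : 0 < t := by positivity
    have h4 : (d * E + c * A) ^ 2 - A * (6 * E + 256 * A) =
        (d * E - t * A) ^ 2 + (4 * (d * t) - 6) * (E * A) + 32 * d * (E * A) +
          32 * t * A ^ 2 := by
      rw [hc]; ring
    have h5 : 0 ≤ (d * E + c * A) ^ 2 - A * (6 * E + 256 * A) := by
      rw [h4, h3]
      have := mul_nonneg hE0 hA0
      positivity
    linarith
  refine h2.trans ?_
  have := mul_le_mul_of_nonneg_left hAG hc0.le
  linarith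

/-- (3)(b) with the constants used in the core lemma -/
lemma drift46 {ι : Type*} (s : Finset ι) {μ N D : ι → ℝ} (hμ : ∀ i ∈ s, 0 ≤ μ i)
    (hμ1 : ∑ i ∈ s, μ i = 1) (hN : ∀ i ∈ s, 0 ≤ N i) (hD0 : ∑ i ∈ s, μ i * D i = 0)
    (hD : ∀ i ∈ s, |D i| ≤ 8) :
    |∑ i ∈ s, μ i * N i * D i| ≤
      (1 / 20) * ∑ i ∈ s, μ i * N i * (D i) ^ 2 +
        46 * (∑ i ∈ s, μ i * (N i * Real.log (N i)) -
          (∑ i ∈ s, μ i * N i) * Real.log (∑ i ∈ s, μ i * N i)) := by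
  have h1 := drift_le s hμ hμ1 hN hD0 hD (d := 1 / 20) (by norm_num)
  have h5 : (3 / (2 * (1 / 20)) + 16 : ℝ) = 46 := by norm_num
  rw [h5] at h1
  exact h1

/-- drift of the killed increment: the part `a` of the weights `mu N` is killed -/
lemma step_drift {ι : Type*} (s : Finset ι) {μ N D a : ι → ℝ} (hμ : ∀ i ∈ s, 0 ≤ μ i)
    (hμ1 : ∑ i ∈ s, μ i = 1) (hN : ∀ i ∈ s, 0 ≤ N i) (hD0 : ∑ i ∈ s, μ i * D i = 0)
    (hD : ∀ i ∈ s, |D i| ≤ 8) (ha0 : ∀ i ∈ s, 0 ≤ a i) :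
    |∑ i ∈ s, (μ i * N i - a i) * D i| ≤
      (1 / 20) * ∑ i ∈ s, (μ i * N i - a i) * (D i) ^ 2 +
        46 * (Gap s μ N + ∑ i ∈ s, a i) := by
  have h1 := drift_le s hμ hμ1 hN hD0 hD (d := 1 / 20) (by norm_num)
  have h2 : |∑ i ∈ s, a i * D i| ≤ 8 * ∑ i ∈ s, a i := by
    refine (Finset.abs_sum_le_sum_abs _ _).trans ?_
    rw [Finset.mul_sum]
    apply Finset.sum_le_sum
    intro i hi
    rw [abs_mul, abs_of_nonneg (ha0 i hi)]
    have := mul_le_mul_of_nonneg_left (hD i hi) (ha0 i hi)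
    linarith
  have h3 : ∑ i ∈ s, a i * (D i) ^ 2 ≤ 64 * ∑ i ∈ s, a i := by
    rw [Finset.mul_sum]
    apply Finset.sum_le_sum
    intro i hi
    have hd2 : (D i) ^ 2 ≤ 64 := by
      have := abs_le.1 (hD i hi)
      nlinarith
    have := mul_le_mul_of_nonneg_left hd2 (ha0 i hi)
    linarith
  have e1 : ∑ i ∈ s, (μ i * N i - a i) * D i =
      ∑ i ∈ s, μ i * N i * D i - ∑ i ∈ s, a i * D i := by
    rw [← Finset.sum_sub_distrib]
    exact Finset.sum_congr rfl fun i _ => by ring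
  have e2 : ∑ i ∈ s, (μ i * N i - a i) * (D i) ^ 2 =
      ∑ i ∈ s, μ i * N i * (D i) ^ 2 - ∑ i ∈ s, a i * (D i) ^ 2 := by
    rw [← Finset.sum_sub_distrib]
    exact Finset.sum_congr rfl fun i _ => by ring
  have hS : 0 ≤ ∑ i ∈ s, a i := Finset.sum_nonneg ha0
  have h4 : |∑ i ∈ s, μ i * N i * D i - ∑ i ∈ s, a i * D i| ≤
      |∑ i ∈ s, μ i * N i * D i| + |∑ i ∈ s, a i * D i| := abs_sub _ _
  rw [e1, e2]
  have h5 : (3 / (2 * (1 / 20)) + 16 : ℝ) = 46 := by norm_num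
  rw [h5] at h1
  linarith

/-- (3)(c): the step lemma for the potential `Phi` -/
lemma step_potential {ι : Type*} (s : Finset ι) {μ N D a : ι → ℝ} (hμ : ∀ i ∈ s, 0 ≤ μ i)
    (hμ1 : ∑ i ∈ s, μ i = 1) (hN : ∀ i ∈ s, 0 ≤ N i) (hD0 : ∑ i ∈ s, μ i * D i = 0)
    (hD : ∀ i ∈ s, |D i| ≤ 8) (ha0 : ∀ i ∈ s, 0 ≤ a i) (ha : ∀ i ∈ s, a i ≤ μ i * N i)
    {r T : ℝ} (hr : 0 < r) (hr1 : r ≤ 1) (hT : |T| ≤ 4) :
    (1 / 2) * ∑ i ∈ s, (μ i * N i - a i) * Dg r (T + D i) T ≤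
      ∑ i ∈ s, (μ i * N i - a i) * (Phi r (T + D i) - Phi r T) +
        (if r < |T| then 368 * (Gap s μ N + ∑ i ∈ s, a i) else 0) := by
  have hw : ∀ i ∈ s, 0 ≤ μ i * N i - a i := fun i hi => by linarith [ha i hi]
  have hS : 0 ≤ ∑ i ∈ s, (μ i * N i - a i) * Dg r (T + D i) T :=
    Finset.sum_nonneg fun i hi => mul_nonneg (hw i hi) (Dg_nonneg hr _ _)
  have e1 : ∑ i ∈ s, (μ i * N i - a i) * (Phi r (T + D i) - Phi r T) =
      ∑ i ∈ s, (μ i * N i - a i) * Dg r (T + D i) T +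
        dPhi r T * ∑ i ∈ s, (μ i * N i - a i) * D i := by
    rw [Finset.mul_sum, ← Finset.sum_add_distrib]
    apply Finset.sum_congr rfl
    intro i hi
    unfold Dg; ring
  rw [e1]
  split_ifs with h
  · have h1 := step_drift s hμ hμ1 hN hD0 hD ha0
    set X := ∑ i ∈ s, (μ i * N i - a i) * D i with hX
    set E := ∑ i ∈ s, (μ i * N i - a i) * (D i) ^ 2 with hE
    set G := Gap s μ N + ∑ i ∈ s, a i with hG
    have hG0 : 0 ≤ G := add_nonneg (gap_nonneg s hμ hμ1 hN) (Finset.sum_nonneg ha0)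
    have h2 : |dPhi r T| * E ≤ 10 * ∑ i ∈ s, (μ i * N i - a i) * Dg r (T + D i) T := by
      rw [hE, Finset.mul_sum, Finset.mul_sum]
      apply Finset.sum_le_sum
      intro i hi
      have h3 := abs_dPhi_mul_sq_le (y := T + D i) hr hr1 hT
      have e : T + D i - T = D i := by ring
      rw [e] at h3
      have := mul_le_mul_of_nonneg_left h3 (hw i hi)
      linarith
    have h4 : |dPhi r T| ≤ 8 := by
      have := abs_dPhi_le (V := 4) hr.le hT
      linarith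
    have h5 : |dPhi r T * X| ≤ |dPhi r T| * ((1 / 20) * E + 46 * G) := by
      rw [abs_mul]
      exact mul_le_mul_of_nonneg_left h1 (abs_nonneg _)
    have h6 : |dPhi r T| * (46 * G) ≤ 8 * (46 * G) :=
      mul_le_mul_of_nonneg_right h4 (by linarith)
    have h7 := neg_abs_le (dPhi r T * X)
    nlinarith
  · rw [dPhi_eq_zero (not_lt.1 h)]
    linarith

/-- drift at an active point, in terms of the Bregman distance -/
lemma step_drift_active {ι : Type*} (s : Finset ι) {μ N D a : ι → ℝ}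
    (hμ : ∀ i ∈ s, 0 ≤ μ i)
    (hμ1 : ∑ i ∈ s, μ i = 1) (hN : ∀ i ∈ s, 0 ≤ N i) (hD0 : ∑ i ∈ s, μ i * D i = 0)
    (hD : ∀ i ∈ s, |D i| ≤ 8) (ha0 : ∀ i ∈ s, 0 ≤ a i) (ha : ∀ i ∈ s, a i ≤ μ i * N i)
    {r T : ℝ} (hr : 0 < r) (hT : 2 * r ≤ |T|) :
    |∑ i ∈ s, (μ i * N i - a i) * D i| ≤
      (3 / 20) * ∑ i ∈ s, (μ i * N i - a i) * Dg r (T + D i) T +
        46 * (Gap s μ N + ∑ i ∈ s, a i) := by
  have hw : ∀ i ∈ s, 0 ≤ μ i * N i - a i := fun i hi => by linarith [ha i hi]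
  have h1 := step_drift s hμ hμ1 hN hD0 hD ha0
  have h2 : ∑ i ∈ s, (μ i * N i - a i) * (D i) ^ 2 ≤
      3 * ∑ i ∈ s, (μ i * N i - a i) * Dg r (T + D i) T := by
    rw [Finset.mul_sum]
    apply Finset.sum_le_sum
    intro i hi
    have h3 := Dg_active (y := T + D i) hr hT
    have e : T + D i - T = D i := by ring
    rw [e] at h3
    have := mul_le_mul_of_nonneg_left h3 (hw i hi)
    linarith
  linarith

end Pool.Agent.PWZ.Hell
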