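import Pool.Agent.PWZ.Defs

/-! # PWZ Part: the partition given by a list of sets, and refinement by one set. -/

namespace Pool.Agent.PWZ

open Finset

variable {V : Type*} [AddCommGroup V] [Fintype V] [DecidableEq V]

theorem mem_clsL (L : List (Finset V)) (a a' : V) : a' ∈ clsL L a ↔ SameL L a a' := by
  classical
  unfold clsL
  rw [Finset.mem_filter]
  exact ⟨fun h => h.2, fun h => ⟨mem_univ _, h⟩⟩

private theorem prt_refl (L : List (Finset V)) (a : V) : SameL L a a := fun _ _ => Iff.rfl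

private theorem prt_symm (L : List (Finset V)) {a b : V} (h : SameL L a b) : SameL L b a :=
  fun X hX => (h X hX).symm

private theorem prt_trans (L : List (Finset V)) {a b c : V} (h : SameL L a b)
    (h' : SameL L b c) : SameL L a c :=
  fun X hX => (h X hX).trans (h' X hX)

theorem self_mem_clsL (L : List (Finset V)) (a : V) : a ∈ clsL L a :=
  (mem_clsL L a a).2 (prt_refl L a)

theorem clsL_congr (L : List (Finset V)) (a a' : V) (h : SameL L a a') : clsL L a = clsL L a' := by
  ext x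
  rw [mem_clsL, mem_clsL]
  exact ⟨fun hx => prt_trans L (prt_symm L h) hx, fun hx => prt_trans L h hx⟩

private theorem prt_mem (L : List (Finset V)) (M : Finset V) :
    M ∈ partL L ↔ ∃ a, clsL L a = M := by
  unfold partL
  rw [mem_image]
  exact ⟨fun ⟨a, _, h⟩ => ⟨a, h⟩, fun ⟨a, h⟩ => ⟨a, mem_univ _, h⟩⟩

theorem part_cls (L : List (Finset V)) (M : Finset V) (hM : M ∈ partL L) (a : V) (ha : a ∈ M) :
    clsL L a = M := by
  obtain ⟨b, hb⟩ := (prt_mem L M).1 hM
  rw [← hb] at ha ⊢
  exact (clsL_congr L b a ((mem_clsL L b a).1 ha)).symm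

theorem part_same (L : List (Finset V)) (M : Finset V) (hM : M ∈ partL L) (a a' : V) (ha : a ∈ M)
    (ha' : a' ∈ M) : SameL L a a' := by
  rw [← part_cls L M hM a ha] at ha'
  exact (mem_clsL L a a').1 ha'

theorem part_nonempty (L : List (Finset V)) (M : Finset V) (hM : M ∈ partL L) : M.Nonempty := by
  obtain ⟨b, hb⟩ := (prt_mem L M).1 hM
  exact ⟨b, hb ▸ self_mem_clsL L b⟩

theorem part_sum (L : List (Finset V)) (f : V → ℝ) :
    ∑ a, f a = ∑ M ∈ partL L, ∑ a ∈ M, f a := by
  classical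
  have h := Finset.sum_fiberwise_of_maps_to (s := (univ : Finset V)) (t := partL L)
    (g := clsL L) (fun a _ => (prt_mem L _).2 ⟨a, rfl⟩) f
  rw [← h]
  refine Finset.sum_congr rfl (fun M hM => ?_)
  refine Finset.sum_congr ?_ (fun _ _ => rfl)
  ext a
  rw [mem_filter]
  constructor
  · rintro ⟨_, h1⟩
    rw [← h1]
    exact self_mem_clsL L a
  · intro ha
    exact ⟨mem_univ _, part_cls L M hM a ha⟩

theorem part_nil : partL ([] : List (Finset V)) = {univ} := by
  have h : ∀ a : V, clsL ([] : List (Finset V)) a = univ := by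
    intro a
    ext x
    rw [mem_clsL]
    exact ⟨fun _ => mem_univ _, fun _ X hX => absurd hX List.not_mem_nil⟩
  ext M
  rw [prt_mem, mem_singleton]
  constructor
  · rintro ⟨a, ha⟩
    rw [← ha, h a]
  · intro hM
    exact ⟨0, by rw [h, hM]⟩

private theorem prt_cls_in (S : Finset V) (L : List (Finset V)) (a : V) (ha : a ∈ S) :
    clsL (S :: L) a = clsL L a ∩ S := by
  ext x
  rw [mem_inter, mem_clsL, mem_clsL]
  constructor
  · intro h
    exact ⟨fun X hX => h X (List.mem_cons_of_mem _ hX), (h S List.mem_cons_self).1 ha⟩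
  · rintro ⟨h1, h2⟩ X hX
    rcases List.mem_cons.1 hX with h | h
    · rw [h]
      exact ⟨fun _ => h2, fun _ => ha⟩
    · exact h1 X h

private theorem prt_cls_out (S : Finset V) (L : List (Finset V)) (a : V) (ha : a ∉ S) :
    clsL (S :: L) a = clsL L a \ S := by
  ext x
  rw [mem_sdiff, mem_clsL, mem_clsL]
  constructor
  · intro h
    exact ⟨fun X hX => h X (List.mem_cons_of_mem _ hX),
      fun hx => ha ((h S List.mem_cons_self).2 hx)⟩
  · rintro ⟨h1, h2⟩ X hX
    rcases List.mem_cons.1 hX with h | h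
    · rw [h]
      exact ⟨fun h3 => absurd h3 ha, fun h3 => absurd h3 h2⟩
    · exact h1 X h

theorem part_cons (S : Finset V) (L : List (Finset V)) (φ : Finset V → ℝ) (h0 : φ ∅ = 0) :
    ∑ M ∈ partL (S :: L), φ M = ∑ M ∈ partL L, (φ (M ∩ S) + φ (M \ S)) := by
  classical
  have hU : partL (S :: L) =
      ((partL L).filter (fun M => M ∩ S ≠ ∅)).image (fun M => M ∩ S) ∪
      ((partL L).filter (fun M => M \ S ≠ ∅)).image (fun M => M \ S) := by
    ext M
    rw [mem_union, mem_image, mem_image, prt_mem]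
    constructor
    · rintro ⟨a, ha⟩
      by_cases haS : a ∈ S
      · left
        refine ⟨clsL L a, ?_, ?_⟩
        · rw [mem_filter]
          refine ⟨(prt_mem L _).2 ⟨a, rfl⟩, ?_⟩
          exact Finset.Nonempty.ne_empty ⟨a, mem_inter.2 ⟨self_mem_clsL L a, haS⟩⟩
        · rw [← ha, prt_cls_in S L a haS]
      · right
        refine ⟨clsL L a, ?_, ?_⟩
        · rw [mem_filter]
          refine ⟨(prt_mem L _).2 ⟨a, rfl⟩, ?_⟩
          exact Finset.Nonempty.ne_empty ⟨a, mem_sdiff.2 ⟨self_mem_clsL L a, haS⟩⟩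
        · rw [← ha, prt_cls_out S L a haS]
    · rintro (⟨N, hN, hM⟩ | ⟨N, hN, hM⟩)
      · rw [mem_filter] at hN
        obtain ⟨a, ha⟩ := Finset.nonempty_iff_ne_empty.2 hN.2
        rw [mem_inter] at ha
        refine ⟨a, ?_⟩
        rw [prt_cls_in S L a ha.2, part_cls L N hN.1 a ha.1]
        exact hM
      · rw [mem_filter] at hN
        obtain ⟨a, ha⟩ := Finset.nonempty_iff_ne_empty.2 hN.2
        rw [mem_sdiff] at ha
        refine ⟨a, ?_⟩
        rw [prt_cls_out S L a ha.2, part_cls L N hN.1 a ha.1]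
        exact hM
  have hdis : Disjoint (((partL L).filter (fun M => M ∩ S ≠ ∅)).image (fun M => M ∩ S))
      (((partL L).filter (fun M => M \ S ≠ ∅)).image (fun M => M \ S)) := by
    rw [Finset.disjoint_left]
    intro M h1 h2
    rw [mem_image] at h1 h2
    obtain ⟨N1, hN1, e1⟩ := h1
    obtain ⟨N2, hN2, e2⟩ := h2
    rw [mem_filter] at hN1
    obtain ⟨a, ha⟩ := Finset.nonempty_iff_ne_empty.2 hN1.2
    have h3 : a ∈ N2 \ S := by
      have h4 : N2 \ S = N1 ∩ S := e2.trans e1.symm
      rw [h4]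
      exact ha
    exact (mem_sdiff.1 h3).2 (mem_inter.1 ha).2
  have hi1 : Set.InjOn (fun M : Finset V => M ∩ S) ((partL L).filter (fun M => M ∩ S ≠ ∅)) := by
    intro M1 h1 M2 h2 h12
    have h1' := mem_filter.1 (Finset.mem_coe.1 h1)
    have h2' := mem_filter.1 (Finset.mem_coe.1 h2)
    obtain ⟨a, ha⟩ := Finset.nonempty_iff_ne_empty.2 h1'.2
    have h3 : a ∈ M2 ∩ S := by
      have h4 : M1 ∩ S = M2 ∩ S := h12
      rw [← h4]
      exact ha
    rw [← part_cls L M1 h1'.1 a (mem_inter.1 ha).1, part_cls L M2 h2'.1 a (mem_inter.1 h3).1]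
  have hi2 : Set.InjOn (fun M : Finset V => M \ S) ((partL L).filter (fun M => M \ S ≠ ∅)) := by
    intro M1 h1 M2 h2 h12
    have h1' := mem_filter.1 (Finset.mem_coe.1 h1)
    have h2' := mem_filter.1 (Finset.mem_coe.1 h2)
    obtain ⟨a, ha⟩ := Finset.nonempty_iff_ne_empty.2 h1'.2
    have h3 : a ∈ M2 \ S := by
      have h4 : M1 \ S = M2 \ S := h12
      rw [← h4]
      exact ha
    rw [← part_cls L M1 h1'.1 a (mem_sdiff.1 ha).1, part_cls L M2 h2'.1 a (mem_sdiff.1 h3).1]
  rw [hU, Finset.sum_union hdis, Finset.sum_image hi1, Finset.sum_image hi2,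
    Finset.sum_add_distrib]
  congr 1
  · rw [Finset.sum_filter]
    refine Finset.sum_congr rfl (fun M _ => ?_)
    by_cases h : M ∩ S = ∅
    · rw [if_neg (fun h' => h' h), h, h0]
    · rw [if_pos h]
  · rw [Finset.sum_filter]
    refine Finset.sum_congr rfl (fun M _ => ?_)
    by_cases h : M \ S = ∅
    · rw [if_neg (fun h' => h' h), h, h0]
    · rw [if_pos h]

theorem part_append_le (L' L : List (Finset V)) (φ : Finset V → ℝ) (h0 : φ ∅ = 0)
    (hsub : ∀ M S, φ M ≤ φ (M ∩ S) + φ (M \ S)) :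
    ∑ M ∈ partL L, φ M ≤ ∑ M ∈ partL (L' ++ L), φ M := by
  induction L' with
  | nil => exact le_of_eq rfl
  | cons S L' ih =>
    refine ih.trans ?_
    rw [List.cons_append, part_cons S (L' ++ L) φ h0]
    exact Finset.sum_le_sum (fun M _ => hsub M S)

end Pool.Agent.PWZ
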