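import Pool.Agent.PWZ.CoreDef
import Pool.Agent.PWZ.Part
import Pool.Agent.PWZ.Gap
import Pool.Agent.PWZ.Hell

/-! # PWZ DriftC: the drift estimate (3)(b) of note 3219 for class-measurable weights.

PROOF. Fix a path `l`, `t = l.length - 1`, `y = l.headD 0`, `b`, and a class `M ∈ partL (acc A l)`.
For `a ∈ M`: `ψ a b l`, `v l a`, hence the increment
`D s = ip (t+1) (y-s) (u l b) (v l a) - ip t y (u l b) (v l a)` do not depend on `a ∈ M`;
`sum_s mu t s * D s = 0` (`ip_mart`), `|D s| ≤ 8`. With `x s = cnt (t+1) M (y-s-b)`,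
`X = cnt t M (y-b) = sum_s mu t s * x s` (`cnt_step`): `Hell.drift46` gives
`|sum_s mu t s x s D s| ≤ (1/20) sum_s mu t s x s (D s)^2 + 46 * gap t M (y-b)`.
Multiply by `|ψ|`, sum over `M` and `b` (`EE_succ`, `part_sum`;
`sum_(a ∈ M) rho t (y-a-b) * kl = gap`). -/

namespace Pool.Agent.PWZ

open Finset

variable {V : Type*} [AddCommGroup V] [Fintype V] [DecidableEq V]

private theorem dc_cls_sum (C : Chain V) (t : ℕ) (y b : V) (M : Finset V) (a0 : V)
    (φ : V → V → ℝ) (hφ : ∀ a ∈ M, ∀ s, φ a s = φ a0 s) :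
    ∑ a ∈ M, ∑ s, C.mu t s * C.rho (t + 1) (y - s - a - b) * φ a s =
      ∑ s, C.mu t s * cnt C (t + 1) M (y - b - s) * φ a0 s := by
  rw [Finset.sum_comm]
  refine Finset.sum_congr rfl (fun s _ => ?_)
  unfold cnt
  rw [Finset.mul_sum, Finset.sum_mul]
  refine Finset.sum_congr rfl (fun a ha => ?_)
  rw [hφ a ha s]
  have : y - s - a - b = y - b - s - a := by abel
  rw [this]

private theorem dc_cls_est (C : Chain V) (A : List V → List (Finset V))
    (u v : List V → V → V → ℝ)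
    (hu : ∀ l b c, |u l b c| ≤ 2) (hv : ∀ l a c, |v l a c| ≤ 2)
    (hcls : ∀ l a a', SameL (acc A l) a a' → v l a = v l a') (t : ℕ) (ψ : V → V → List V → ℝ)
    (hψ : ∀ a a' b l, SameL (acc A l) a a' → ψ a b l = ψ a' b l) (l : List V)
    (hl : l.length = t + 1) (b : V) (M : Finset V) (hM : M ∈ partL (acc A l)) :
    |∑ a ∈ M, ∑ s, C.mu t s * C.rho (t + 1) (l.headD 0 - s - a - b) *
      (ψ a b l * (ip C (t + 1) (l.headD 0 - s) (u l b) (v l a) -
        ip C t (l.headD 0) (u l b) (v l a)))| ≤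
      (1 / 20) * ∑ a ∈ M, ∑ s, C.mu t s * C.rho (t + 1) (l.headD 0 - s - a - b) *
      (|ψ a b l| * (ip C (t + 1) (l.headD 0 - s) (u l b) (v l a) -
        ip C t (l.headD 0) (u l b) (v l a)) ^ 2) +
      46 * ∑ a ∈ M, C.rho t (l.headD 0 - a - b) * (|ψ a b l| * kl C A a b l) := by
  obtain ⟨a0, ha0⟩ := part_nonempty _ M hM
  set y := l.headD 0 with hy
  set D : V → V → ℝ := fun a s => ip C (t + 1) (y - s) (u l b) (v l a) -
        ip C t y (u l b) (v l a) with hD
  have hsame : ∀ a ∈ M, SameL (acc A l) a a0 := fun a ha => part_same _ M hM a a0 ha ha0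
  have hDa : ∀ a ∈ M, ∀ s, D a s = D a0 s := by
    intro a ha s
    simp only [hD]
    rw [hcls l a a0 (hsame a ha)]
  have hψa : ∀ a ∈ M, ψ a b l = ψ a0 b l := fun a ha => hψ a a0 b l (hsame a ha)
  have e1 : ∑ a ∈ M, ∑ s, C.mu t s * C.rho (t + 1) (y - s - a - b) * (ψ a b l * D a s) =
      ψ a0 b l * ∑ s, C.mu t s * cnt C (t + 1) M (y - b - s) * D a0 s := by
    rw [dc_cls_sum C t y b M a0 (fun a s => ψ a b l * D a s)
      (fun a ha s => by rw [hψa a ha, hDa a ha s]), Finset.mul_sum]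
    exact Finset.sum_congr rfl (fun s _ => by ring)
  have e2 : ∑ a ∈ M, ∑ s, C.mu t s * C.rho (t + 1) (y - s - a - b) *
      (|ψ a b l| * (D a s) ^ 2) =
      |ψ a0 b l| * ∑ s, C.mu t s * cnt C (t + 1) M (y - b - s) * (D a0 s) ^ 2 := by
    rw [dc_cls_sum C t y b M a0 (fun a s => |ψ a b l| * (D a s) ^ 2)
      (fun a ha s => by rw [hψa a ha, hDa a ha s]), Finset.mul_sum]
    exact Finset.sum_congr rfl (fun s _ => by ring)
  have e3 : ∑ a ∈ M, C.rho t (y - a - b) * (|ψ a b l| * kl C A a b l) =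
      |ψ a0 b l| * gap C t M (y - b) := by
    have h1 : ∀ a ∈ M, C.rho t (y - a - b) * (|ψ a b l| * kl C A a b l) =
        (|ψ a0 b l| * (gap C t M (y - b) / cnt C t M (y - b))) * C.rho t (y - b - a) := by
      intro a ha
      unfold kl
      rw [hψa a ha, part_cls _ M hM a ha, hl, Nat.add_sub_cancel, sub_right_comm y a b]
      ring
    rw [Finset.sum_congr rfl h1, ← Finset.mul_sum]
    have h2 : ∑ a ∈ M, C.rho t (y - b - a) = cnt C t M (y - b) := rfl
    rw [h2]
    by_cases h0 : cnt C t M (y - b) = 0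
    · rw [h0, gap_eq_zero C t M (y - b) h0]; ring
    · field_simp
  have hmart : ∑ s, C.mu t s * D a0 s = 0 := by
    simp only [hD]
    have h1 : ∀ s, C.mu t s * (ip C (t + 1) (y - s) (u l b) (v l a0) -
        ip C t y (u l b) (v l a0)) = C.mu t s * ip C (t + 1) (y - s) (u l b) (v l a0) -
        C.mu t s * ip C t y (u l b) (v l a0) := fun s => by ring
    rw [Finset.sum_congr rfl (fun s _ => h1 s), Finset.sum_sub_distrib, ip_mart,
      ← Finset.sum_mul, mu_sum]
    ring
  have hD8 : ∀ s, |D a0 s| ≤ 8 := by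
    intro s
    simp only [hD]
    have h1 := abs_ip_le C (t + 1) (y - s) (u l b) (v l a0) 2 2 (hu l b) (hv l a0)
    have h2 := abs_ip_le C t y (u l b) (v l a0) 2 2 (hu l b) (hv l a0)
    have h3 : |ip C (t + 1) (y - s) (u l b) (v l a0) - ip C t y (u l b) (v l a0)| ≤
      |ip C (t + 1) (y - s) (u l b) (v l a0)| + |ip C t y (u l b) (v l a0)| := abs_sub _ _
    linarith
  have key := Hell.drift46 (univ : Finset V) (μ := C.mu t)
    (N := fun s => cnt C (t + 1) M (y - b - s)) (D := D a0)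
    (fun s _ => mu_nonneg C t s) (mu_sum C t) (fun s _ => cnt_nonneg C (t + 1) M _) hmart
    (fun s _ => hD8 s)
  have hg : ∑ s, C.mu t s * (cnt C (t + 1) M (y - b - s) *
      Real.log (cnt C (t + 1) M (y - b - s))) -
      (∑ s, C.mu t s * cnt C (t + 1) M (y - b - s)) *
        Real.log (∑ s, C.mu t s * cnt C (t + 1) M (y - b - s)) = gap C t M (y - b) := by
    unfold gap th
    rw [← cnt_step]
  rw [hg] at key
  have key2 := mul_le_mul_of_nonneg_left key (abs_nonneg (ψ a0 b l))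
  have e1' : ∑ a ∈ M, ∑ s, C.mu t s * C.rho (t + 1) (y - s - a - b) *
      (ψ a b l * (ip C (t + 1) (y - s) (u l b) (v l a) - ip C t y (u l b) (v l a))) =
      ψ a0 b l * ∑ s, C.mu t s * cnt C (t + 1) M (y - b - s) * D a0 s := e1
  have e2' : ∑ a ∈ M, ∑ s, C.mu t s * C.rho (t + 1) (y - s - a - b) *
      (|ψ a b l| * (ip C (t + 1) (y - s) (u l b) (v l a) - ip C t y (u l b) (v l a)) ^ 2) =
      |ψ a0 b l| * ∑ s, C.mu t s * cnt C (t + 1) M (y - b - s) * (D a0 s) ^ 2 := e2
  rw [e1', e2', e3, abs_mul]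
  linarith

theorem drift_free (C : Chain V) (A : List V → List (Finset V)) (u v : List V → V → V → ℝ)
    (hu : ∀ l b c, |u l b c| ≤ 2) (hv : ∀ l a c, |v l a c| ≤ 2)
    (hcls : ∀ l a a', SameL (acc A l) a a' → v l a = v l a') (t : ℕ) (ψ : V → V → List V → ℝ)
    (hψ : ∀ a a' b l, SameL (acc A l) a a' → ψ a b l = ψ a' b l) :
    |EE C (t + 1) (fun a b l => ψ a b l.tail * (Tp C u v a b l - TT C u v a b l.tail))| ≤
      (1 / 20) * EE C (t + 1)
        (fun a b l => |ψ a b l.tail| * (Tp C u v a b l - TT C u v a b l.tail) ^ 2) +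
      46 * EE C t (fun a b l => |ψ a b l| * kl C A a b l) := by
  classical
  set W : ℝ := ((Fintype.card V : ℝ))⁻¹ with hW
  have hW0 : 0 ≤ W := by rw [hW]; positivity
  rw [EE_succ, EE_succ]
  unfold EE
  rw [← EP_smul, ← EP_smul, ← EP_add]
  -- pointwise estimate
  have hpt : ∀ l : List V, l.length = t + 1 →
      |W * ∑ a, ∑ b, ∑ s, C.mu t s * C.rho (t + 1) (l.headD 0 - s - a - b) *
        (ψ a b ((l.headD 0 - s) :: l).tail * (Tp C u v a b ((l.headD 0 - s) :: l) -
          TT C u v a b ((l.headD 0 - s) :: l).tail))| ≤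
      (1 / 20) * (W * ∑ a, ∑ b, ∑ s, C.mu t s * C.rho (t + 1) (l.headD 0 - s - a - b) *
        (|ψ a b ((l.headD 0 - s) :: l).tail| * (Tp C u v a b ((l.headD 0 - s) :: l) -
          TT C u v a b ((l.headD 0 - s) :: l).tail) ^ 2)) +
      46 * (W * ∑ a, ∑ b, C.rho t (l.headD 0 - a - b) * (|ψ a b l| * kl C A a b l)) := by
    intro l hl
    have hTp : ∀ a b s, Tp C u v a b ((l.headD 0 - s) :: l) - TT C u v a b l =
        ip C (t + 1) (l.headD 0 - s) (u l b) (v l a) - ip C t (l.headD 0) (u l b) (v l a) := by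
      intro a b s
      unfold Tp TT
      simp only [List.length_cons, List.tail_cons, List.headD_cons, hl, Nat.add_sub_cancel]
    simp only [List.tail_cons, hTp]
    have hb : ∀ b : V, |∑ a, ∑ s, C.mu t s * C.rho (t + 1) (l.headD 0 - s - a - b) *
        (ψ a b l * (ip C (t + 1) (l.headD 0 - s) (u l b) (v l a) -
          ip C t (l.headD 0) (u l b) (v l a)))| ≤
        (1 / 20) * (∑ a, ∑ s, C.mu t s * C.rho (t + 1) (l.headD 0 - s - a - b) *
        (|ψ a b l| * (ip C (t + 1) (l.headD 0 - s) (u l b) (v l a) -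
          ip C t (l.headD 0) (u l b) (v l a)) ^ 2)) +
        46 * ∑ a, C.rho t (l.headD 0 - a - b) * (|ψ a b l| * kl C A a b l) := by
      intro b
      rw [part_sum (acc A l) (fun a => ∑ s, C.mu t s * C.rho (t + 1) (l.headD 0 - s - a - b) *
        (ψ a b l * (ip C (t + 1) (l.headD 0 - s) (u l b) (v l a) -
          ip C t (l.headD 0) (u l b) (v l a)))),
        part_sum (acc A l) (fun a => ∑ s, C.mu t s * C.rho (t + 1) (l.headD 0 - s - a - b) *
        (|ψ a b l| * (ip C (t + 1) (l.headD 0 - s) (u l b) (v l a) -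
          ip C t (l.headD 0) (u l b) (v l a)) ^ 2)),
        part_sum (acc A l) (fun a => C.rho t (l.headD 0 - a - b) *
          (|ψ a b l| * kl C A a b l)), Finset.mul_sum, Finset.mul_sum,
        ← Finset.sum_add_distrib]
      refine (Finset.abs_sum_le_sum_abs _ _).trans (Finset.sum_le_sum (fun M hM => ?_))
      exact dc_cls_est C A u v hu hv hcls t ψ hψ l hl b M hM
    rw [abs_mul, abs_of_nonneg hW0]
    have h1 : |∑ a, ∑ b, ∑ s, C.mu t s * C.rho (t + 1) (l.headD 0 - s - a - b) *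
        (ψ a b l * (ip C (t + 1) (l.headD 0 - s) (u l b) (v l a) -
          ip C t (l.headD 0) (u l b) (v l a)))| ≤
        (1 / 20) * (∑ a, ∑ b, ∑ s, C.mu t s * C.rho (t + 1) (l.headD 0 - s - a - b) *
        (|ψ a b l| * (ip C (t + 1) (l.headD 0 - s) (u l b) (v l a) -
          ip C t (l.headD 0) (u l b) (v l a)) ^ 2)) +
        46 * ∑ a, ∑ b, C.rho t (l.headD 0 - a - b) * (|ψ a b l| * kl C A a b l) := by
      rw [Finset.sum_comm, Finset.sum_comm (s := (univ : Finset V)) (t := (univ : Finset V))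
        (f := fun a b => ∑ s, C.mu t s * C.rho (t + 1) (l.headD 0 - s - a - b) *
        (|ψ a b l| * (ip C (t + 1) (l.headD 0 - s) (u l b) (v l a) -
          ip C t (l.headD 0) (u l b) (v l a)) ^ 2)),
        Finset.sum_comm (s := (univ : Finset V)) (t := (univ : Finset V))
        (f := fun a b => C.rho t (l.headD 0 - a - b) * (|ψ a b l| * kl C A a b l)),
        Finset.mul_sum, Finset.mul_sum, ← Finset.sum_add_distrib]
      exact (Finset.abs_sum_le_sum_abs _ _).trans (Finset.sum_le_sum (fun b _ => hb b))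
    have h2 := mul_le_mul_of_nonneg_left h1 hW0
    linarith
  rw [abs_le]
  constructor
  · rw [neg_le, ← neg_one_mul, ← EP_smul]
    refine EP_mono_len C t _ _ (fun l hl => ?_)
    have := (abs_le.1 (hpt l hl)).1
    linarith
  · refine EP_mono_len C t _ _ (fun l hl => ?_)
    exact (abs_le.1 (hpt l hl)).2

end Pool.Agent.PWZ
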