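import Pool.Agent.PWZ.CoreCnt
import Pool.Agent.PWZ.DriftC
import Pool.Agent.PWZ.Osc

/-! # PWZ Core: the core lemma (3) of note 3219. From `osc_marks` (Osc.lean, helper30) with
`I (a,b) l = (b, l, clsL (acc A l) a)`, `T = TT`, `T' = Tp`, `κ = kl`, and `drift_free`, `cnt_*`,
`ent_semi`. -/

namespace Pool.Agent.PWZ

open Finset

variable {V : Type*} [AddCommGroup V] [Fintype V] [DecidableEq V]
variable {C : Chain V} {n : ℕ} {u v : List V → V → V → ℝ} {A : List V → List (Finset V)}
variable {r ε Cu Cv J : ℝ}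

private theorem Core_same {L : List (Finset V)} {a a' : V} (h : clsL L a = clsL L a') : SameL L a a' := by
  have h1 : a' ∈ clsL L a := h ▸ self_mem_clsL L a'
  exact (mem_clsL L a a').1 h1

private theorem Core_tail (A : List V → List (Finset V)) {l : List V} {a a' : V} (h : SameL (acc A l) a a') :
    SameL (acc A l.tail) a a' := by
  cases l with
  | nil => exact h
  | cons y l => exact fun X hX => h X (List.mem_append_right _ hX)

theorem core (hd : CoreData C n u v A r ε Cu Cv J) : ∃ mark : V → V → List V → Prop,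
    ∑ t ∈ range n, EE C (t + 1) (fun a b l => ind (mark a b l)) ≤
      10000 * (ε * (1 + Cu + Cv + J)) / r ^ 2 ∧
    ∀ a b l i, i < l.length → (∀ j < i, ¬ mark a b (l.drop j)) →
      |TT C u v a b l - TT C u v a b (l.drop i)| ≤ 24 * r := by
  let E : ℕ → (V × V → List V → ℝ) → ℝ := fun t f => EE C t (fun a b l => f (a, b) l)
  have hE : IsEx E :=
    { add := fun t f g => EE_add C t (fun a b l => f (a, b) l) (fun a b l => g (a, b) l)
      smul := fun t c f => EE_smul C t c (fun a b l => f (a, b) l)
      mono := fun t f g h => EE_mono_len C t _ _ fun a b l hl => h (a, b) l hl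
      tail := fun t f => EE_tail C t (fun a b l => f (a, b) l) }
  let I : V × V → List V → V × List V × Finset V := fun x l => (x.2, l, clsL (acc A l) x.1)
  have hI0 : ∀ x l x' l', I x l = I x' l' → x.2 = x'.2 ∧ l = l' ∧ SameL (acc A l) x.1 x'.1 := by
    intro x l x' l' h
    have h1 : x.2 = x'.2 := congrArg Prod.fst h
    have h2 : l = l' := congrArg (fun p => p.2.1) h
    subst h2
    exact ⟨h1, rfl, Core_same (congrArg (fun p => p.2.2) h)⟩
  have hIl : ∀ x l x' l', I x l = I x' l' → l = l' := fun x l x' l' h => (hI0 x l x' l' h).2.1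
  have hI : ∀ x l x' l', I x l = I x' l' → I x l.tail = I x' l'.tail := by
    intro x l x' l' h
    obtain ⟨h1, h2, h3⟩ := hI0 x l x' l' h
    subst h2
    show (x.2, l.tail, clsL (acc A l.tail) x.1) = (x'.2, l.tail, clsL (acc A l.tail) x'.1)
    rw [h1, clsL_congr _ _ _ (Core_tail A h3)]
  let T : V × V → List V → ℝ := fun x l => TT C u v x.1 x.2 l
  let T' : V × V → List V → ℝ := fun x l => Tp C u v x.1 x.2 l
  let α : V × V → List V → Prop := fun x l => al v x.1 l
  let β : V × V → List V → Prop := fun x l => be u x.2 l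
  let κ : V × V → List V → ℝ := fun x l => kl C A x.1 x.2 l
  have hT : Kn I T := by
    intro x l x' l' h
    obtain ⟨h1, h2, h3⟩ := hI0 x l x' l' h
    subst h2
    show TT C u v x.1 x.2 l = TT C u v x'.1 x'.2 l
    unfold TT
    rw [h1, hd.hcls l _ _ h3]
  have hT' : Kn I T' := by
    intro x l x' l' h
    obtain ⟨h1, h2, h3⟩ := hI0 x l x' l' h
    subst h2
    show Tp C u v x.1 x.2 l = Tp C u v x'.1 x'.2 l
    unfold Tp
    rw [h1, hd.hcls l.tail _ _ (Core_tail A h3)]
  have hα : Kn I α := by
    intro x l x' l' h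
    obtain ⟨h1, h2, h3⟩ := hI0 x l x' l' h
    subst h2
    show al v x.1 l = al v x'.1 l
    unfold al
    rw [hd.hcls l _ _ h3, hd.hcls l.tail _ _ (Core_tail A h3)]
  have hβ : Kn I β := by
    intro x l x' l' h
    obtain ⟨h1, h2, h3⟩ := hI0 x l x' l' h
    subst h2
    show be u x.2 l = be u x'.2 l
    rw [h1]
  have hstep : ∀ x l, ¬ α x l → ¬ β x l → T x l = T' x l := fun x l h h' => TT_eq_Tp x.1 x.2 l h h'
  have key := osc_marks (E := E) (I := I) (T := T) (T' := T') (α := α) (β := β) (κ := κ) hE hIl hI hd.hr hd.hr1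
    hT hT' hα hβ (fun x l => abs_TT_le hd x.1 x.2 l) (fun x l => abs_Tp_le hd x.1 x.2 l)
    (fun x l => kl_nonneg C A x.1 x.2 l) hstep n (by
      intro t _ g hg
      exact drift_free C A u v hd.hu hd.hv hd.hcls t (fun a b l => g (a, b) l) (fun a a' b l h => hg _ _ _ _ (by
        show (b, l, clsL (acc A l) a) = (b, l, clsL (acc A l) a')
        rw [clsL_congr _ _ _ h])))
  refine ⟨fun a b l => Mk r T T' α β (a, b) l, ?_, ?_⟩
  · refine (show ∑ t ∈ range n, EE C (t + 1) (fun a b l => ind (Mk r T T' α β (a, b) l)) ≤ _ from key).trans ?_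
    have e1 := ent_semi hd
    have e2 := cnt_al_old hd
    have e3 := cnt_al_new hd
    have e4 := cnt_be_old hd
    have e5 := cnt_be_new hd
    have e6 := cnt_fin hd n le_rfl
    have hsum : (∑ t ∈ range n, (E t (fun x l => ind (r < |T x l|) * κ x l) +
        E (t + 1) (fun x l => ind (α x l ∧ r < |T x l.tail|)) +
        E (t + 1) (fun x l => ind (α x l ∧ r < |T x l|)) +
        E (t + 1) (fun x l => ind (β x l ∧ ¬ α x l ∧ r < |T' x l|)) +
        E (t + 1) (fun x l => ind (β x l ∧ r < |T x l|))) + E n (fun x l => ind (r < |T x l|))) ≤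
        2 * ε * J + ε * Cv + ε * Cv + ε * Cu + ε * Cu + ε := by
      rw [Finset.sum_add_distrib, Finset.sum_add_distrib, Finset.sum_add_distrib, Finset.sum_add_distrib]
      exact add_le_add (add_le_add (add_le_add (add_le_add (add_le_add e1 e2) e3) e4) e5) e6
    have hr2 : 0 < r ^ 2 := pow_pos hd.hr 2
    have h5 : 0 ≤ 500 / r ^ 2 := by positivity
    refine (mul_le_mul_of_nonneg_left hsum h5).trans ?_
    rw [div_mul_eq_mul_div, div_le_div_iff_of_pos_right hr2]
    have h6 := mul_nonneg hd.hε hd.J_nonneg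
    have h7 := mul_nonneg hd.hε hd.Cv_nonneg
    have h8 := mul_nonneg hd.hε hd.Cu_nonneg
    have h9 := hd.hε
    nlinarith
  · intro a b l i hi hm
    have h1 : l.drop i ≠ [] := by
      intro h
      rw [List.drop_eq_nil_iff] at h
      omega
    have h2 : (l.take i).length = i := by
      rw [List.length_take]
      omega
    have h3 := stretch (T := T) (T' := T') (α := α) (β := β) (x := (a, b)) hd.hr hstep h1 (l.take i) (by
      intro j hj
      rw [h2] at hj
      rw [List.take_append_drop]
      exact hm j hj)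
    rw [List.take_append_drop] at h3
    exact h3

end Pool.Agent.PWZ
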