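import Pool.Agent.PWZ.Basic
import Pool.Agent.PWZ.Info

/-! # PWZ EntB: sub-lemmas of the entropy lemma (backup). -/

namespace Pool.Agent.PWZ

open Finset

variable {V : Type*} [AddCommGroup V] [Fintype V] [DecidableEq V]

/-- the smoothed gap -/
noncomputable def G2 (C : Chain V) (t : ℕ) (M : Finset V) (z : V) : ℝ :=
  (∑ s', C.mu t s' * th (cnt C (t + 2) M (z - s'))) -
    th (∑ s', C.mu t s' * cnt C (t + 2) M (z - s'))

theorem G2_nonneg (C : Chain V) (t : ℕ) (M : Finset V) (z : V) : 0 ≤ G2 C t M z := by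
  unfold G2
  have := th_jensen univ (fun s' => C.mu t s') (fun s' => cnt C (t + 2) M (z - s'))
    (fun i _ => mu_nonneg C t i) (mu_sum C t) (fun i _ => cnt_nonneg C (t + 2) M _)
  linarith

/-- one class -/
theorem entb_class (C : Chain V) (t : ℕ) (M : Finset V) (y : V) (q : V → ℝ) (hq : ∀ b, 0 ≤ q b)
    (ε : ℝ) (hε : ∀ z, ∑ s, C.mu (t + 1) s * q (z - s) ≤ ε) :
    ∑ b, q b * gap C t M (y - b) ≤
      ε * ((∑ z, th (cnt C (t + 2) M z)) - ∑ z, th (cnt C t M z)) := by
  calc ∑ b, q b * gap C t M (y - b)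
      ≤ ∑ b, q b * ∑ s, C.mu (t + 1) s * G2 C t M (y - b - s) := by
        apply sum_le_sum
        intro b _
        exact mul_le_mul_of_nonneg_left (gap_smooth C t M (y - b)) (hq b)
    _ = ∑ s, ∑ b, q b * (C.mu (t + 1) s * G2 C t M (y - b - s)) := by
        rw [sum_comm]
        apply sum_congr rfl
        intro b _
        rw [mul_sum]
    _ = ∑ s, ∑ z, q (y - z - s) * (C.mu (t + 1) s * G2 C t M z) := by
        apply sum_congr rfl
        intro s _
        refine Fintype.sum_equiv (Equiv.subLeft (y - s)) _ _ ?_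
        intro b
        simp only [Equiv.subLeft_apply]
        have h1 : y - (y - s - b) - s = b := by abel
        have h2 : y - b - s = y - s - b := by abel
        rw [h1, h2]
    _ = ∑ z, G2 C t M z * ∑ s, C.mu (t + 1) s * q ((y - z) - s) := by
        rw [sum_comm]
        apply sum_congr rfl
        intro z _
        rw [mul_sum]
        apply sum_congr rfl
        intro s _
        ring
    _ ≤ ∑ z, G2 C t M z * ε := by
        apply sum_le_sum
        intro z _
        exact mul_le_mul_of_nonneg_left (hε (y - z)) (G2_nonneg C t M z)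
    _ = ε * ∑ z, G2 C t M z := by rw [← sum_mul, mul_comm]
    _ ≤ _ := by
        apply mul_le_mul_of_nonneg_left (gap_smooth_sum C t M)
        have h0 := hε 0
        refine le_trans (sum_nonneg ?_) h0
        intro s _
        exact mul_nonneg (mu_nonneg C _ s) (hq _)

/-- step A, pointwise -/
theorem entb_point (C : Chain V) (t : ℕ) (L : List (Finset V)) (y : V) (q : V → V → ℝ)
    (hq : ∀ a b, 0 ≤ q a b) (hcls : ∀ a a' b, SameL L a a' → q a b = q a' b)
    (ε : ℝ) (hε : ∀ a z, ∑ s, C.mu (t + 1) s * q a (z - s) ≤ ε) :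
    ∑ a, ∑ b, C.rho t (y - a - b) * (q a b *
      (gap C t (clsL L a) (y - b) / cnt C t (clsL L a) (y - b))) ≤
      ε * (ent C (t + 2) L - ent C t L) := by
  rw [part_sum L (fun a => ∑ b, C.rho t (y - a - b) * (q a b *
      (gap C t (clsL L a) (y - b) / cnt C t (clsL L a) (y - b))))]
  unfold ent
  rw [← sum_sub_distrib, mul_sum]
  apply sum_le_sum
  intro M hM
  obtain ⟨a0, ha0⟩ := part_nonempty L M hM
  refine le_trans (le_of_eq ?_) (entb_class C t M y (fun b => q a0 b) (fun b => hq a0 b) ε
    (fun z => hε a0 z))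
  rw [sum_comm]
  apply sum_congr rfl
  intro b _
  have h1 : ∀ a ∈ M, C.rho t (y - a - b) * (q a b *
      (gap C t (clsL L a) (y - b) / cnt C t (clsL L a) (y - b))) =
      C.rho t (y - b - a) * (q a0 b * (gap C t M (y - b) / cnt C t M (y - b))) := by
    intro a ha
    rw [part_cls L M hM a ha, hcls a a0 b (part_same L M hM a a0 ha ha0)]
    have : y - a - b = y - b - a := by abel
    rw [this]
  rw [sum_congr rfl h1, ← sum_mul]
  have h2 : ∑ a ∈ M, C.rho t (y - b - a) = cnt C t M (y - b) := rfl
  rw [h2]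
  by_cases h0 : cnt C t M (y - b) = 0
  · rw [h0, gap_eq_zero C t M (y - b) h0]; simp
  · field_simp

/-- step A -/
theorem entb_A (C : Chain V) (n : ℕ) (A : List V → List (Finset V))
    (semi : V → V → List V → ℝ) (h0 : ∀ a b l, 0 ≤ semi a b l)
    (hcls : ∀ a a' b l, SameL (acc A l) a a' → semi a b l = semi a' b l)
    (ε : ℝ)
    (hε : ∀ l a z, l ≠ [] → l.length ≤ n → ∑ s, C.mu l.length s * semi a (z - s) l ≤ ε)
    (t : ℕ) (ht : t < n) :
    EE C t (fun a b l => semi a b l * kl C A a b l) ≤
      ((Fintype.card V : ℝ))⁻¹ * (ε * (EP C t (fun l => ent C (t + 2) (acc A l)) -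
        EP C t (fun l => ent C t (acc A l)))) := by
  unfold EE
  rw [← EP_sub, ← EP_smul, ← EP_smul]
  apply EP_mono_len
  intro l hl
  apply mul_le_mul_of_nonneg_left _ (by positivity)
  have hne : l ≠ [] := by
    intro h
    rw [h] at hl
    simp at hl
  have h1 : l.length - 1 = t := by omega
  have := entb_point C t (acc A l) (l.headD 0) (fun a b => semi a b l) (fun a b => h0 a b l)
    (fun a a' b h => hcls a a' b l h) ε (fun a z => by
      have := hε l a z hne (by omega)
      rw [hl] at this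
      exact this)
  simp only [kl, h1]
  exact this

/-- step B -/
theorem entb_B (C : Chain V) (A : List V → List (Finset V)) (t : ℕ) :
    EP C t (fun l => ent C (t + 2) (acc A l)) - EP C t (fun l => ent C (t + 1) (acc A l)) ≤
      EP C (t + 1) (fun l => ent C (t + 2) (acc A l)) -
        EP C (t + 1) (fun l => ent C (t + 1) (acc A l)) := by
  rw [← EP_sub, ← EP_sub, ← EP_tail]
  apply EP_mono_len
  intro l hl
  obtain ⟨y, l', rfl⟩ : ∃ y l', l = y :: l' := by
    cases l with
    | nil => simp at hl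
    | cons y l' => exact ⟨y, l', rfl⟩
  simp only [List.tail_cons]
  have key : ∀ L : List (Finset V), ent C (t + 2) L - ent C (t + 1) L =
      ∑ M ∈ partL L, ∑ z, gap C (t + 1) M z := by
    intro L
    unfold ent
    rw [← sum_sub_distrib]
    apply sum_congr rfl
    intro M _
    rw [gap_sum]
  rw [key, key]
  have : acc A (y :: l') = A (y :: l') ++ acc A l' := rfl
  rw [this]
  apply part_append_le
  · simp [gap_empty]
  · intro M S
    rw [← sum_add_distrib]
    exact sum_le_sum (fun z _ => gap_split C (t + 1) M S z)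

/-- the level gap is nonnegative -/
theorem entb_L_nonneg (C : Chain V) (A : List V → List (Finset V)) (t : ℕ) :
    0 ≤ EP C t (fun l => ent C (t + 1) (acc A l)) - EP C t (fun l => ent C t (acc A l)) := by
  rw [← EP_sub]
  apply EP_nonneg
  intro l _
  unfold ent
  rw [← sum_sub_distrib]
  apply sum_nonneg
  intro M _
  rw [← gap_sum]
  exact sum_nonneg (fun z _ => gap_nonneg C t M z)

/-- step C -/
theorem entb_C (C : Chain V) (A : List V → List (Finset V)) (n : ℕ) :
    ∑ t ∈ range (n + 1), (EP C t (fun l => ent C (t + 1) (acc A l)) -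
      EP C t (fun l => ent C t (acc A l))) ≤
      ∑ t ∈ range (n + 1), EP C t (fun l => ((A l).map (cost C t)).sum) := by
  have h1 : ∀ t, EP C t (fun l => ent C (t + 1) (acc A l)) -
      EP C (t + 1) (fun l => ent C (t + 1) (acc A l)) ≤
      EP C (t + 1) (fun l => ((A l).map (cost C (t + 1))).sum) := by
    intro t
    rw [← EP_tail, ← EP_sub]
    apply EP_mono_len
    intro l hl
    obtain ⟨y, l', rfl⟩ : ∃ y l', l = y :: l' := by
      cases l with
      | nil => simp at hl
      | cons y l' => exact ⟨y, l', rfl⟩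
    simp only [List.tail_cons]
    exact ent_append C (t + 1) (A (y :: l')) (acc A l')
  have h2 : - EP C 0 (fun l => ent C 0 (acc A l)) ≤
      EP C 0 (fun l => ((A l).map (cost C 0)).sum) := by
    have : - EP C 0 (fun l => ent C 0 (acc A l)) =
        EP C 0 (fun l => (-1) * ent C 0 (acc A l)) := by
      rw [EP_smul]; ring
    rw [this]
    apply EP_mono_len
    intro l hl
    obtain ⟨y, rfl⟩ : ∃ y, l = [y] := List.length_eq_one_iff.1 (by omega)
    have h3 := ent_append C 0 (A [y]) (acc A [])
    have h4 : acc A [y] = A [y] ++ acc A [] := rfl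
    have h5 : ent C 0 (acc A []) = 0 := ent_nil C 0
    rw [h4]
    linarith
  have h3 : ∀ m, EP C m (fun l => ent C (m + 1) (acc A l)) ≤ 0 := by
    intro m
    have := EP_mono_len C m (fun l => ent C (m + 1) (acc A l)) (fun _ => 0)
      (fun l _ => ent_nonpos C (m + 1) (acc A l))
    rwa [EP_const] at this
  have h4 : ∀ m, ∑ t ∈ range (m + 1), (EP C t (fun l => ent C (t + 1) (acc A l)) -
      EP C t (fun l => ent C t (acc A l))) - EP C m (fun l => ent C (m + 1) (acc A l)) ≤
      ∑ t ∈ range (m + 1), EP C t (fun l => ((A l).map (cost C t)).sum) := by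
    intro m
    induction m with
    | zero => simp; linarith
    | succ m ih =>
      rw [sum_range_succ, sum_range_succ (n := m + 1)]
      linarith [h1 m]
  linarith [h4 n, h3 n]

theorem entropy_lemma_b (C : Chain V) (n : ℕ) (A : List V → List (Finset V)) (J : ℝ)
    (hJ : ∑ t ∈ range (n + 1), EP C t (fun l => ((A l).map (cost C t)).sum) ≤
      (Fintype.card V : ℝ) * J)
    (semi : V → V → List V → ℝ) (h0 : ∀ a b l, 0 ≤ semi a b l)
    (hcls : ∀ a a' b l, SameL (acc A l) a a' → semi a b l = semi a' b l)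
    (ε : ℝ) (h0ε : 0 ≤ ε)
    (hε : ∀ l a z, l ≠ [] → l.length ≤ n → ∑ s, C.mu l.length s * semi a (z - s) l ≤ ε) :
    ∑ t ∈ range n, EE C t (fun a b l => semi a b l * kl C A a b l) ≤ 2 * ε * J := by
  set L : ℕ → ℝ := fun t => EP C t (fun l => ent C (t + 1) (acc A l)) -
      EP C t (fun l => ent C t (acc A l)) with hL
  have hL0 : ∀ t, 0 ≤ L t := fun t => entb_L_nonneg C A t
  have hv : (0 : ℝ) < (Fintype.card V : ℝ) := by
    exact_mod_cast Fintype.card_pos
  have h1 : ∀ t ∈ range n, EE C t (fun a b l => semi a b l * kl C A a b l) ≤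
      ((Fintype.card V : ℝ))⁻¹ * (ε * (L (t + 1) + L t)) := by
    intro t ht
    refine le_trans (entb_A C n A semi h0 hcls ε hε t (mem_range.1 ht)) ?_
    apply mul_le_mul_of_nonneg_left _ (by positivity)
    apply mul_le_mul_of_nonneg_left _ h0ε
    have := entb_B C A t
    simp only [hL]
    have e : t + 1 + 1 = t + 2 := rfl
    rw [e]
    linarith
  refine le_trans (sum_le_sum h1) ?_
  rw [← mul_sum, ← mul_sum, sum_add_distrib]
  have h2 : ∑ t ∈ range n, L (t + 1) ≤ ∑ t ∈ range (n + 1), L t := by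
    rw [sum_range_succ' L n]; linarith [hL0 0]
  have h3 : ∑ t ∈ range n, L t ≤ ∑ t ∈ range (n + 1), L t := by
    rw [sum_range_succ L n]; linarith [hL0 n]
  have h4 : ∑ t ∈ range (n + 1), L t ≤ (Fintype.card V : ℝ) * J :=
    le_trans (entb_C C A n) hJ
  calc ((Fintype.card V : ℝ))⁻¹ * (ε * (∑ t ∈ range n, L (t + 1) + ∑ t ∈ range n, L t))
      ≤ ((Fintype.card V : ℝ))⁻¹ * (ε * (2 * ((Fintype.card V : ℝ) * J))) := by
        apply mul_le_mul_of_nonneg_left _ (by positivity)
        apply mul_le_mul_of_nonneg_left _ h0ε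
        linarith
    _ = 2 * ε * J := by
        field_simp

end Pool.Agent.PWZ
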