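import Pool.Agent.PWZ.Basic
import Pool.Agent.PWZ.Info
import Pool.Agent.PWZ.EntB

/-! # PWZ Ent: the entropy lemma (2)(E) of note 3219.

PROOF. `t = l.length - 1`. Write `S(t,j) = EP t (ent j (acc A l))`.
1. `|V| * EE t (semi * kl) = EP t (sum_M sum_b semi_M(b) * gap t M (y - b))` (`part_sum`; for `a ∈ M`
   `kl = gap/cnt`, `sum_(a ∈ M) rho t (y-a-b) = cnt t M (y-b)`, `gap = 0` if `cnt = 0`).
2. `gap_smooth`, substitution `z' = y - b - s` (`b = (y - z') - s`), hypothesis `hε`: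
   `≤ ε * sum_M sum_z' (...)(z') ≤ ε * sum_M (sum_z th (cnt (t+2) M z) - sum_z th (cnt t M z))`
   (`gap_smooth_sum`). So `|V| * EE t (semi*kl) ≤ ε (S(t,t+2) - S(t,t))`.
3. `L_t = S(t,t+1) - S(t,t) ≥ 0`; `S(t,t+2) - S(t,t+1) ≤ S(t+1,t+2) - S(t+1,t+1) = L_(t+1)` by
   `gap_sum`, `gap_split`, `part_append_le`, `EP_tail` (`acc A (y::l) = A (y::l) ++ acc A l`).
4. `sum_(t ≤ n) L_t ≤ |V| J`: `S(t,t+1) - S(t+1,t+1) ≤ EP (t+1) ((A l).map cost).sum` by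
   `ent_append`, `EP_tail`; `- S(0,0) ≤ EP 0 (...)` by `ent_nil`; `S(n,n+1) ≤ 0` by `ent_nonpos`. -/

namespace Pool.Agent.PWZ

open Finset

variable {V : Type*} [AddCommGroup V] [Fintype V] [DecidableEq V]

theorem entropy_lemma (C : Chain V) (n : ℕ) (A : List V → List (Finset V)) (J : ℝ)
    (hJ : ∑ t ∈ range (n + 1), EP C t (fun l => ((A l).map (cost C t)).sum) ≤
      (Fintype.card V : ℝ) * J)
    (semi : V → V → List V → ℝ) (h0 : ∀ a b l, 0 ≤ semi a b l)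
    (hcls : ∀ a a' b l, SameL (acc A l) a a' → semi a b l = semi a' b l)
    (ε : ℝ) (h0ε : 0 ≤ ε)
    (hε : ∀ l a z, l ≠ [] → l.length ≤ n → ∑ s, C.mu l.length s * semi a (z - s) l ≤ ε) :
    ∑ t ∈ range n, EE C t (fun a b l => semi a b l * kl C A a b l) ≤ 2 * ε * J :=
  entropy_lemma_b C n A J hJ semi h0 hcls ε h0ε hε

end Pool.Agent.PWZ
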