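import Pool.Agent.PWZ.CoreDef
import Pool.Agent.PWZ.Ent

/-! # PWZ CoreCnt: the counts (3)(a) of note 3219 and the entropy lemma for the semi-active event.

All of them: write `EE (t+1)` with `a` and the path fixed (or `b` and the path fixed) and use
`fresh0` / `fresh1` with the uniformity `HF` (`ip_comm`).
* `cnt_fin`: `fresh0` at time `t`, `q b = ind (r < |ip .. (u l b) (v l a)|)`.
* `cnt_al_old`: fixed `(a, y :: l)`, `t = l.length - 1`: `TT l` at time `t` with `w = v l a`: `hfu l`,
  `fresh1` (law `rho (t+1)`).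
* `cnt_al_new`: fixed `(a, y :: l)`: `TT (y::l)`, `hfu (y::l)`, `fresh0` at time `t+1`.
* `cnt_be_old`: fixed `(b, y :: l)`: if not `al` then `Tp (y::l) = ip (t+1) y (u l b) (v (y::l) a)`:
  `hfv (y::l)` with `w = u l b`, `fresh0` at time `t+1`.
* `cnt_be_new`: the same with `w = u (y::l) b`. -/

namespace Pool.Agent.PWZ

open Finset

variable {V : Type*} [AddCommGroup V] [Fintype V] [DecidableEq V]
variable {C : Chain V} {n : ℕ} {u v : List V → V → V → ℝ} {A : List V → List (Finset V)}
variable {r ε Cu Cv J : ℝ}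

private theorem cc_sum (C : Chain V) (t : ℕ) (q : V → V → List V → ℝ) (P : V → List V → ℝ) (ε : ℝ)
    (h : ∀ (a : V) (l : List V), l.length = t + 1 →
      ∑ b, C.rho t (l.headD 0 - a - b) * q a b l ≤ ε * P a l) :
    EE C t q ≤ ε * EP C t (fun l => ((Fintype.card V : ℝ))⁻¹ * ∑ a, P a l) := by
  unfold EE
  rw [← EP_smul]
  apply EP_mono_len
  intro l hl
  rw [mul_left_comm]
  refine mul_le_mul_of_nonneg_left ?_ (by positivity)
  rw [Finset.mul_sum]
  exact Finset.sum_le_sum (fun a _ => h a l hl)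

private theorem cc_sum' (C : Chain V) (t : ℕ) (q : V → V → List V → ℝ) (P : V → List V → ℝ) (ε : ℝ)
    (h : ∀ (b : V) (l : List V), l.length = t + 1 →
      ∑ a, C.rho t (l.headD 0 - b - a) * q a b l ≤ ε * P b l) :
    EE C t q ≤ ε * EP C t (fun l => ((Fintype.card V : ℝ))⁻¹ * ∑ b, P b l) := by
  rw [← EE_swap C t q]
  exact cc_sum C t (fun a b l => q b a l) P ε h

private theorem cc_ind (C : Chain V) (t : ℕ) (y : V) (p : Prop) (q : V → ℝ) (q' : V → Prop) (ε : ℝ)
    (hε : ∑ b, C.rho t (y - b) * ind (q' b) ≤ ε)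
    (hq : ∀ b, q b ≤ ind p * ind (q' b)) :
    ∑ b, C.rho t (y - b) * q b ≤ ε * ind p := by
  calc ∑ b, C.rho t (y - b) * q b
      ≤ ∑ b, C.rho t (y - b) * (ind p * ind (q' b)) :=
        Finset.sum_le_sum fun b _ => mul_le_mul_of_nonneg_left (hq b) (C.rho_nonneg _ _)
    _ = (∑ b, C.rho t (y - b) * ind (q' b)) * ind p := by
        rw [Finset.sum_mul]
        exact Finset.sum_congr rfl fun b _ => by ring
    _ ≤ ε * ind p := mul_le_mul_of_nonneg_right hε (ind_nonneg p)

theorem abs_TT_le (hd : CoreData C n u v A r ε Cu Cv J) (a b : V) (l : List V) :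
    |TT C u v a b l| ≤ 4 := by
  have h := abs_ip_le C (l.length - 1) (l.headD 0) (u l b) (v l a) 2 2 (hd.hu l b) (hd.hv l a)
  unfold TT
  linarith

theorem abs_Tp_le (hd : CoreData C n u v A r ε Cu Cv J) (a b : V) (l : List V) :
    |Tp C u v a b l| ≤ 4 := by
  have h := abs_ip_le C (l.length - 1) (l.headD 0) (u l.tail b) (v l.tail a) 2 2
    (hd.hu l.tail b) (hd.hv l.tail a)
  unfold Tp
  linarith

/-- if neither function changes, `TT = Tp` -/
theorem TT_eq_Tp (a b : V) (l : List V) (h : ¬ al v a l) (h' : ¬ be u b l) :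
    TT C u v a b l = Tp C u v a b l := by
  unfold al at h
  unfold be at h'
  push Not at h h'
  unfold TT Tp
  rw [h, h']

theorem cnt_fin (hd : CoreData C n u v A r ε Cu Cv J) (t : ℕ) (ht : t ≤ n) :
    EE C t (fun a b l => ind (r < |TT C u v a b l|)) ≤ ε := by
  have h := cc_sum C t (fun a b l => ind (r < |TT C u v a b l|)) (fun _ _ => 1) ε ?_
  · have h1 : (fun _ : List V => ((Fintype.card V : ℝ))⁻¹ * ∑ _a : V, (1 : ℝ)) = fun _ => 1 := by
      funext l
      exact avg_const 1
    rw [h1, EP_const, mul_one] at h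
    exact h
  · intro a l hl
    have hne : l ≠ [] := by
      intro h0
      rw [h0] at hl
      simp at hl
    have hf := hd.hfu l hne (by omega) (v l a) (hd.hv l a)
    have ht1 : l.length - 1 = t := by omega
    rw [ht1] at hf
    have h2 := fresh0 C t (fun b => ind (r < |ip C t (l.headD 0) (u l b) (v l a)|)) ε hf
      (l.headD 0 - a)
    rw [mul_one]
    refine le_trans (le_of_eq ?_) h2
    refine Finset.sum_congr rfl fun b _ => ?_
    unfold TT
    rw [ht1]

theorem cnt_al_old (hd : CoreData C n u v A r ε Cu Cv J) :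
    ∑ t ∈ range n, EE C (t + 1)
      (fun a b l => ind (al v a l ∧ r < |TT C u v a b l.tail|)) ≤ ε * Cv := by
  have h : ∀ t ∈ range n, EE C (t + 1)
      (fun a b l => ind (al v a l ∧ r < |TT C u v a b l.tail|)) ≤
      ε * EP C (t + 1) (fun l => ((Fintype.card V : ℝ))⁻¹ * ∑ a, ind (al v a l)) := by
    intro t ht
    have htn := Finset.mem_range.mp ht
    refine cc_sum C (t + 1) _ (fun a l => ind (al v a l)) ε ?_
    intro a l hl
    have hlt : l.tail.length = t + 1 := by
      rw [List.length_tail]; omega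
    have hne : l.tail ≠ [] := by
      intro h0
      rw [h0] at hlt
      simp at hlt
    have hf := hd.hfu l.tail hne (by omega) (v l.tail a) (hd.hv l.tail a)
    have ht1 : l.tail.length - 1 = t := by omega
    rw [ht1] at hf
    have h2 := fresh1 C t (fun b => ind (r < |ip C t (l.tail.headD 0) (u l.tail b) (v l.tail a)|)) ε
      hf (l.headD 0 - a)
    refine cc_ind C (t + 1) (l.headD 0 - a) (al v a l) _ _ ε h2 ?_
    intro b
    rw [← ind_and]
    refine ind_mono ?_
    rintro ⟨h3, h4⟩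
    refine ⟨h3, ?_⟩
    unfold TT at h4
    rw [ht1] at h4
    exact h4
  calc ∑ t ∈ range n, EE C (t + 1)
        (fun a b l => ind (al v a l ∧ r < |TT C u v a b l.tail|))
      ≤ ∑ t ∈ range n,
        ε * EP C (t + 1) (fun l => ((Fintype.card V : ℝ))⁻¹ * ∑ a, ind (al v a l)) :=
        Finset.sum_le_sum h
    _ = ε * ∑ t ∈ range n,
        EP C (t + 1) (fun l => ((Fintype.card V : ℝ))⁻¹ * ∑ a, ind (al v a l)) := by
        rw [Finset.mul_sum]
    _ ≤ ε * Cv := mul_le_mul_of_nonneg_left hd.hCv hd.hε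

theorem cnt_al_new (hd : CoreData C n u v A r ε Cu Cv J) :
    ∑ t ∈ range n, EE C (t + 1)
      (fun a b l => ind (al v a l ∧ r < |TT C u v a b l|)) ≤ ε * Cv := by
  have h : ∀ t ∈ range n, EE C (t + 1)
      (fun a b l => ind (al v a l ∧ r < |TT C u v a b l|)) ≤
      ε * EP C (t + 1) (fun l => ((Fintype.card V : ℝ))⁻¹ * ∑ a, ind (al v a l)) := by
    intro t ht
    have htn := Finset.mem_range.mp ht
    refine cc_sum C (t + 1) _ (fun a l => ind (al v a l)) ε ?_
    intro a l hl
    have hne : l ≠ [] := by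
      intro h0
      rw [h0] at hl
      simp at hl
    have hf := hd.hfu l hne (by omega) (v l a) (hd.hv l a)
    have ht1 : l.length - 1 = t + 1 := by omega
    rw [ht1] at hf
    have h2 := fresh0 C (t + 1) (fun b => ind (r < |ip C (t + 1) (l.headD 0) (u l b) (v l a)|)) ε
      hf (l.headD 0 - a)
    refine cc_ind C (t + 1) (l.headD 0 - a) (al v a l) _ _ ε h2 ?_
    intro b
    rw [← ind_and]
    refine ind_mono ?_
    rintro ⟨h3, h4⟩
    refine ⟨h3, ?_⟩
    unfold TT at h4
    rw [ht1] at h4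
    exact h4
  calc ∑ t ∈ range n, EE C (t + 1)
        (fun a b l => ind (al v a l ∧ r < |TT C u v a b l|))
      ≤ ∑ t ∈ range n,
        ε * EP C (t + 1) (fun l => ((Fintype.card V : ℝ))⁻¹ * ∑ a, ind (al v a l)) :=
        Finset.sum_le_sum h
    _ = ε * ∑ t ∈ range n,
        EP C (t + 1) (fun l => ((Fintype.card V : ℝ))⁻¹ * ∑ a, ind (al v a l)) := by
        rw [Finset.mul_sum]
    _ ≤ ε * Cv := mul_le_mul_of_nonneg_left hd.hCv hd.hε

theorem cnt_be_old (hd : CoreData C n u v A r ε Cu Cv J) :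
    ∑ t ∈ range n, EE C (t + 1)
      (fun a b l => ind (be u b l ∧ ¬ al v a l ∧ r < |Tp C u v a b l|)) ≤ ε * Cu := by
  have h : ∀ t ∈ range n, EE C (t + 1)
      (fun a b l => ind (be u b l ∧ ¬ al v a l ∧ r < |Tp C u v a b l|)) ≤
      ε * EP C (t + 1) (fun l => ((Fintype.card V : ℝ))⁻¹ * ∑ b, ind (be u b l)) := by
    intro t ht
    have htn := Finset.mem_range.mp ht
    refine cc_sum' C (t + 1) _ (fun b l => ind (be u b l)) ε ?_
    intro b l hl
    have hne : l ≠ [] := by
      intro h0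
      rw [h0] at hl
      simp at hl
    have hf := hd.hfv l hne (by omega) (u l.tail b) (hd.hu l.tail b)
    have ht1 : l.length - 1 = t + 1 := by omega
    rw [ht1] at hf
    have h2 := fresh0 C (t + 1)
      (fun a => ind (r < |ip C (t + 1) (l.headD 0) (v l a) (u l.tail b)|)) ε
      hf (l.headD 0 - b)
    refine cc_ind C (t + 1) (l.headD 0 - b) (be u b l) _ _ ε h2 ?_
    intro a
    rw [← ind_and]
    refine ind_mono ?_
    rintro ⟨h3, h4, h5⟩
    refine ⟨h3, ?_⟩
    unfold al at h4
    push Not at h4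
    unfold Tp at h5
    rw [ht1, ← h4, ip_comm] at h5
    exact h5
  calc ∑ t ∈ range n, EE C (t + 1)
        (fun a b l => ind (be u b l ∧ ¬ al v a l ∧ r < |Tp C u v a b l|))
      ≤ ∑ t ∈ range n,
        ε * EP C (t + 1) (fun l => ((Fintype.card V : ℝ))⁻¹ * ∑ b, ind (be u b l)) :=
        Finset.sum_le_sum h
    _ = ε * ∑ t ∈ range n,
        EP C (t + 1) (fun l => ((Fintype.card V : ℝ))⁻¹ * ∑ b, ind (be u b l)) := by
        rw [Finset.mul_sum]
    _ ≤ ε * Cu := mul_le_mul_of_nonneg_left hd.hCu hd.hε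

theorem cnt_be_new (hd : CoreData C n u v A r ε Cu Cv J) :
    ∑ t ∈ range n, EE C (t + 1)
      (fun a b l => ind (be u b l ∧ r < |TT C u v a b l|)) ≤ ε * Cu := by
  have h : ∀ t ∈ range n, EE C (t + 1)
      (fun a b l => ind (be u b l ∧ r < |TT C u v a b l|)) ≤
      ε * EP C (t + 1) (fun l => ((Fintype.card V : ℝ))⁻¹ * ∑ b, ind (be u b l)) := by
    intro t ht
    have htn := Finset.mem_range.mp ht
    refine cc_sum' C (t + 1) _ (fun b l => ind (be u b l)) ε ?_
    intro b l hl
    have hne : l ≠ [] := by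
      intro h0
      rw [h0] at hl
      simp at hl
    have hf := hd.hfv l hne (by omega) (u l b) (hd.hu l b)
    have ht1 : l.length - 1 = t + 1 := by omega
    rw [ht1] at hf
    have h2 := fresh0 C (t + 1)
      (fun a => ind (r < |ip C (t + 1) (l.headD 0) (v l a) (u l b)|)) ε
      hf (l.headD 0 - b)
    refine cc_ind C (t + 1) (l.headD 0 - b) (be u b l) _ _ ε h2 ?_
    intro a
    rw [← ind_and]
    refine ind_mono ?_
    rintro ⟨h3, h5⟩
    refine ⟨h3, ?_⟩
    unfold TT at h5
    rw [ht1, ip_comm] at h5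
    exact h5
  calc ∑ t ∈ range n, EE C (t + 1)
        (fun a b l => ind (be u b l ∧ r < |TT C u v a b l|))
      ≤ ∑ t ∈ range n,
        ε * EP C (t + 1) (fun l => ((Fintype.card V : ℝ))⁻¹ * ∑ b, ind (be u b l)) :=
        Finset.sum_le_sum h
    _ = ε * ∑ t ∈ range n,
        EP C (t + 1) (fun l => ((Fintype.card V : ℝ))⁻¹ * ∑ b, ind (be u b l)) := by
        rw [Finset.mul_sum]
    _ ≤ ε * Cu := mul_le_mul_of_nonneg_left hd.hCu hd.hε

/-- `entropy_lemma` with `semi a b l = ind (r < |TT a b l|)` -/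
theorem ent_semi (hd : CoreData C n u v A r ε Cu Cv J) :
    ∑ t ∈ range n, EE C t
      (fun a b l => ind (r < |TT C u v a b l|) * kl C A a b l) ≤ 2 * ε * J := by
  refine entropy_lemma C n A J hd.hJ (fun a b l => ind (r < |TT C u v a b l|))
    (fun a b l => ind_nonneg _) ?_ ε hd.hε ?_
  · intro a a' b l hs
    have h := hd.hcls l a a' hs
    show ind (r < |TT C u v a b l|) = ind (r < |TT C u v a' b l|)
    unfold TT
    rw [h]
  · intro l a z hne hl
    have hf := hd.hfu l hne (by omega) (v l a) (hd.hv l a) z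
    have hpos : 0 < l.length := List.length_pos_iff.mpr hne
    rw [Nat.sub_add_cancel hpos] at hf
    exact hf

theorem CoreData.Cu_nonneg (hd : CoreData C n u v A r ε Cu Cv J) : 0 ≤ Cu := by
  refine le_trans ?_ hd.hCu
  refine Finset.sum_nonneg fun t _ => EP_nonneg C (t + 1) _ fun l _ => ?_
  exact mul_nonneg (by positivity) (Finset.sum_nonneg fun b _ => ind_nonneg _)

theorem CoreData.Cv_nonneg (hd : CoreData C n u v A r ε Cu Cv J) : 0 ≤ Cv := by
  refine le_trans ?_ hd.hCv
  refine Finset.sum_nonneg fun t _ => EP_nonneg C (t + 1) _ fun l _ => ?_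
  exact mul_nonneg (by positivity) (Finset.sum_nonneg fun b _ => ind_nonneg _)

theorem CoreData.J_nonneg (hd : CoreData C n u v A r ε Cu Cv J) : 0 ≤ J := by
  have h : 0 ≤ (Fintype.card V : ℝ) * J := by
    refine le_trans ?_ hd.hJ
    refine Finset.sum_nonneg fun t _ => EP_nonneg C t _ fun l _ => ?_
    refine List.sum_nonneg ?_
    intro x hx
    obtain ⟨S, _, rfl⟩ := List.mem_map.mp hx
    exact cost_nonneg C t S
  have hV : (0 : ℝ) < Fintype.card V := by
    have : 0 < Fintype.card V := Fintype.card_pos_iff.mpr ⟨0⟩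
    exact_mod_cast this
  exact nonneg_of_mul_nonneg_right h hV

end Pool.Agent.PWZ
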