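import Pool.Agent.PWZ.Basic

/-! # PWZ CoreDef: definitions for the core lemma (3) of note 3219 (no sorry here).

`u l b`, `v l a` are the functions attached to `b` and `a` at the path `l`; `v l a` depends only on
the class of `a` (sets of `acc A l`). `TT = <u,v>` at the path `l`; `Tp` = the same with the OLD
functions (those of `l.tail`) seen from the NEW observation; `al` = `v` changes at `l`; `be` = `u`
changes at `l`. -/

namespace Pool.Agent.PWZ

open Finset

noncomputable section

variable {V : Type*} [AddCommGroup V] [Fintype V] [DecidableEq V]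

def TT (C : Chain V) (u v : List V → V → V → ℝ) (a b : V) (l : List V) : ℝ :=
  ip C (l.length - 1) (l.headD 0) (u l b) (v l a)

def Tp (C : Chain V) (u v : List V → V → V → ℝ) (a b : V) (l : List V) : ℝ :=
  ip C (l.length - 1) (l.headD 0) (u l.tail b) (v l.tail a)

def al (v : List V → V → V → ℝ) (a : V) (l : List V) : Prop := v l a ≠ v l.tail a

def be (u : List V → V → V → ℝ) (b : V) (l : List V) : Prop := u l b ≠ u l.tail b

/-- all the hypotheses of the core lemma; times `t = 0..n`, i.e. paths of length `1..n+1` -/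
structure CoreData (C : Chain V) (n : ℕ) (u v : List V → V → V → ℝ) (A : List V → List (Finset V))
    (r ε Cu Cv J : ℝ) : Prop where
  hr : 0 < r
  hr1 : r ≤ 1
  hε : 0 ≤ ε
  hu : ∀ l b c, |u l b c| ≤ 2
  hv : ∀ l a c, |v l a c| ≤ 2
  hcls : ∀ l a a', SameL (acc A l) a a' → v l a = v l a'
  hfu : ∀ l, l ≠ [] → l.length ≤ n + 1 → HF C (l.length - 1) (l.headD 0) (u l) r ε
  hfv : ∀ l, l ≠ [] → l.length ≤ n + 1 → HF C (l.length - 1) (l.headD 0) (v l) r ε
  hCu : ∑ t ∈ range n, EP C (t + 1)
    (fun l => ((Fintype.card V : ℝ))⁻¹ * ∑ b, ind (be u b l)) ≤ Cu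
  hCv : ∑ t ∈ range n, EP C (t + 1)
    (fun l => ((Fintype.card V : ℝ))⁻¹ * ∑ a, ind (al v a l)) ≤ Cv
  hJ : ∑ t ∈ range (n + 1), EP C t (fun l => ((A l).map (cost C t)).sum) ≤
    (Fintype.card V : ℝ) * J

end

end Pool.Agent.PWZ
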