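import Pool.Agent.PWZ.Defs

/-! # PWZ GapA: `x log x`: log-sum inequality, Jensen, the gap of Jensen (real inequalities). -/

namespace Pool.Agent.PWZ

open Finset

theorem th_zero : th 0 = 0 := by
  simp [th]

theorem th_one : th 1 = 0 := by
  simp [th]

theorem th_nonpos (x : ℝ) (h0 : 0 ≤ x) (h1 : x ≤ 1) : th x ≤ 0 := by
  unfold th
  exact mul_nonpos_of_nonneg_of_nonpos h0 (Real.log_nonpos h0 h1)

theorem th_mul (x y : ℝ) (hx : 0 ≤ x) (hy : 0 ≤ y) : th (x * y) = y * th x + x * th y := by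
  unfold th
  rcases hx.eq_or_lt with rfl | hx
  · simp
  rcases hy.eq_or_lt with rfl | hy
  · simp
  rw [Real.log_mul hx.ne' hy.ne']
  ring

/-- the elementary inequality behind log-sum -/
theorem xlog_ge {x y c : ℝ} (hx : 0 ≤ x) (hy : 0 ≤ y) (h0 : y = 0 → x = 0) (hc : 0 < c) :
    x * Real.log c + x - c * y ≤ x * Real.log (x / y) := by
  rcases hx.eq_or_lt with rfl | hx
  · have := mul_nonneg hc.le hy
    simp only [zero_mul, zero_add, zero_div, Real.log_zero]
    linarith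
  · have hy' : 0 < y := lt_of_le_of_ne hy fun h => hx.ne' (h0 h.symm)
    have h1 : Real.log (x / y) = Real.log c + Real.log (x / (c * y)) := by
      rw [← Real.log_mul hc.ne' (by positivity)]
      congr 1
      field_simp
    have h2 : 1 - (x / (c * y))⁻¹ ≤ Real.log (x / (c * y)) :=
      Real.one_sub_inv_le_log_of_pos (by positivity)
    have h3 : x * (x / (c * y))⁻¹ = c * y := by
      rw [inv_div]
      field_simp
    rw [h1, mul_add]
    have h4 := mul_le_mul_of_nonneg_left h2 hx.le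
    rw [mul_sub, h3, mul_one] at h4
    linarith

/-- log-sum inequality -/
theorem log_sum {ι : Type*} (I : Finset ι) (x y : ι → ℝ) (hx : ∀ i ∈ I, 0 ≤ x i)
    (hy : ∀ i ∈ I, 0 ≤ y i) (h0 : ∀ i ∈ I, y i = 0 → x i = 0) :
    (∑ i ∈ I, x i) * Real.log ((∑ i ∈ I, x i) / ∑ i ∈ I, y i) ≤
      ∑ i ∈ I, x i * Real.log (x i / y i) := by
  have hX : 0 ≤ ∑ i ∈ I, x i := Finset.sum_nonneg hx
  have hY : 0 ≤ ∑ i ∈ I, y i := Finset.sum_nonneg hy
  rcases hX.eq_or_lt with h | h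
  · have h1 : ∀ i ∈ I, x i = 0 := (Finset.sum_eq_zero_iff_of_nonneg hx).1 h.symm
    rw [← h, zero_mul]
    refine le_of_eq ?_
    symm
    exact Finset.sum_eq_zero fun i hi => by rw [h1 i hi, zero_mul]
  · have hY' : 0 < ∑ i ∈ I, y i := by
      rcases hY.eq_or_lt with h' | h'
      · exfalso
        have h1 : ∀ i ∈ I, y i = 0 := (Finset.sum_eq_zero_iff_of_nonneg hy).1 h'.symm
        have h2 : ∑ i ∈ I, x i = 0 := Finset.sum_eq_zero fun i hi => h0 i hi (h1 i hi)
        exact h.ne' h2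
      · exact h'
    have hc : 0 < (∑ i ∈ I, x i) / ∑ i ∈ I, y i := by positivity
    have h1 := Finset.sum_le_sum fun i hi => xlog_ge (hx i hi) (hy i hi) (h0 i hi) hc
    refine le_trans (le_of_eq ?_) h1
    rw [Finset.sum_sub_distrib, Finset.sum_add_distrib, ← Finset.sum_mul, ← Finset.mul_sum]
    field_simp
    ring

/-- Jensen for `x log x` -/
theorem th_jensen {ι : Type*} (I : Finset ι) (m x : ι → ℝ) (hm : ∀ i ∈ I, 0 ≤ m i)
    (h1 : ∑ i ∈ I, m i = 1) (hx : ∀ i ∈ I, 0 ≤ x i) :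
    th (∑ i ∈ I, m i * x i) ≤ ∑ i ∈ I, m i * th (x i) := by
  have h := Real.convexOn_mul_log.map_sum_le (t := I) (w := m) (p := x) hm h1 fun i hi => hx i hi
  simpa [th, smul_eq_mul] using h

/-- the gap of Jensen as a relative entropy -/
theorem jgap_eq {ι : Type*} (I : Finset ι) (m x : ι → ℝ) (hm : ∀ i ∈ I, 0 ≤ m i)
    (hx : ∀ i ∈ I, 0 ≤ x i) :
    (∑ i ∈ I, m i * th (x i)) - th (∑ i ∈ I, m i * x i) =
      ∑ i ∈ I, m i * (x i * Real.log (x i / ∑ j ∈ I, m j * x j)) := by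
  set X := ∑ j ∈ I, m j * x j with hX
  have h2 : th X = ∑ i ∈ I, m i * (x i * Real.log X) := by
    unfold th
    conv_lhs => rw [hX, Finset.sum_mul]
    exact Finset.sum_congr rfl fun i _ => by rw [← hX]; ring
  rw [h2, ← Finset.sum_sub_distrib]
  refine Finset.sum_congr rfl fun i hi => ?_
  rw [← mul_sub]
  rcases (hm i hi).eq_or_lt with h | h
  · rw [← h, zero_mul, zero_mul]
  congr 1
  unfold th
  rcases (hx i hi).eq_or_lt with h' | h'
  · rw [← h']; simp
  have hX0 : 0 < X := by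
    refine lt_of_lt_of_le (mul_pos h h') ?_
    exact Finset.single_le_sum (f := fun j => m j * x j)
      (fun j hj => mul_nonneg (hm j hj) (hx j hj)) hi
  rw [Real.log_div h'.ne' hX0.ne']
  ring

/-- the gap of Jensen of a mixture is at most the mixture of the gaps -/
theorem jgap_mix {ι κ : Type*} (I : Finset ι) (K : Finset κ) (m : ι → ℝ) (w : κ → ℝ)
    (x : κ → ι → ℝ) (hm : ∀ i ∈ I, 0 ≤ m i) (_h1 : ∑ i ∈ I, m i = 1) (hw : ∀ k ∈ K, 0 ≤ w k)
    (hx : ∀ k ∈ K, ∀ i ∈ I, 0 ≤ x k i) :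
    (∑ i ∈ I, m i * th (∑ k ∈ K, w k * x k i)) - th (∑ i ∈ I, m i * ∑ k ∈ K, w k * x k i) ≤
      ∑ k ∈ K, w k * ((∑ i ∈ I, m i * th (x k i)) - th (∑ i ∈ I, m i * x k i)) := by
  have hwx : ∀ i ∈ I, 0 ≤ ∑ k ∈ K, w k * x k i := fun i hi =>
    Finset.sum_nonneg fun k hk => mul_nonneg (hw k hk) (hx k hk i hi)
  have hXw : ∑ i ∈ I, m i * ∑ k ∈ K, w k * x k i = ∑ k ∈ K, w k * ∑ i ∈ I, m i * x k i := by
    simp only [Finset.mul_sum]
    rw [Finset.sum_comm]
    exact Finset.sum_congr rfl fun k _ => Finset.sum_congr rfl fun i _ => by ring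
  rw [jgap_eq I m _ hm hwx]
  have h2 : ∑ k ∈ K, w k * ((∑ i ∈ I, m i * th (x k i)) - th (∑ i ∈ I, m i * x k i)) =
      ∑ i ∈ I, m i * ∑ k ∈ K, w k * (x k i * Real.log (x k i / ∑ j ∈ I, m j * x k j)) := by
    calc ∑ k ∈ K, w k * ((∑ i ∈ I, m i * th (x k i)) - th (∑ i ∈ I, m i * x k i))
        = ∑ k ∈ K, w k * ∑ i ∈ I, m i * (x k i * Real.log (x k i / ∑ j ∈ I, m j * x k j)) :=
          Finset.sum_congr rfl fun k hk => by rw [jgap_eq I m (x k) hm (hx k hk)]
      _ = _ := by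
          simp only [Finset.mul_sum]
          rw [Finset.sum_comm]
          exact Finset.sum_congr rfl fun i _ => Finset.sum_congr rfl fun k _ => by ring
  rw [h2]
  refine Finset.sum_le_sum fun i hi => ?_
  rcases (hm i hi).eq_or_lt with h | h
  · rw [← h, zero_mul, zero_mul]
  refine mul_le_mul_of_nonneg_left ?_ h.le
  rw [hXw]
  have h3 := log_sum K (fun k => w k * x k i) (fun k => w k * ∑ j ∈ I, m j * x k j)
    (fun k hk => mul_nonneg (hw k hk) (hx k hk i hi))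
    (fun k hk => mul_nonneg (hw k hk) (Finset.sum_nonneg fun j hj => mul_nonneg (hm j hj) (hx k hk j hj)))
    (fun k hk hz => by
      rcases mul_eq_zero.1 hz with hz | hz
      · rw [hz, zero_mul]
      · have h4 := (Finset.sum_eq_zero_iff_of_nonneg fun j hj =>
          mul_nonneg (hm j hj) (hx k hk j hj)).1 hz i hi
        rcases mul_eq_zero.1 h4 with h5 | h5
        · exact absurd h5 h.ne'
        · rw [h5, mul_zero])
  refine h3.trans (le_of_eq ?_)
  refine Finset.sum_congr rfl fun k hk => ?_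
  rcases (hw k hk).eq_or_lt with h5 | h5
  · rw [← h5]; simp
  · rw [mul_div_mul_left _ _ h5.ne', mul_assoc]

/-- the gap of Jensen is subadditive -/
theorem jgap_add {ι : Type*} (I : Finset ι) (m x x' : ι → ℝ) (hm : ∀ i ∈ I, 0 ≤ m i)
    (h1 : ∑ i ∈ I, m i = 1) (hx : ∀ i ∈ I, 0 ≤ x i) (hx' : ∀ i ∈ I, 0 ≤ x' i) :
    (∑ i ∈ I, m i * th (x i + x' i)) - th (∑ i ∈ I, m i * (x i + x' i)) ≤
      ((∑ i ∈ I, m i * th (x i)) - th (∑ i ∈ I, m i * x i)) +
      ((∑ i ∈ I, m i * th (x' i)) - th (∑ i ∈ I, m i * x' i)) := by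
  have h := jgap_mix I (Finset.univ : Finset Bool) m (fun _ => 1) (fun k i => if k then x i else x' i)
    hm h1 (fun _ _ => zero_le_one) (fun k _ i hi => by
      cases k
      · exact hx' i hi
      · exact hx i hi)
  simp only [Fintype.sum_bool, one_mul, if_true, Bool.false_eq_true, if_false] at h
  exact h

end Pool.Agent.PWZ
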